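import Mathlib

section

/-!
# Discrete tubes: definitions and basic estimates

`R` is the scale, `w` a weight on `0, …, R-1` satisfying a Frostman condition of exponent `s`,
`tt R θ j = exp ((j + θ) / R)` the dilation factors, `Y` arbitrary real shifts.
-/

namespace Pool.Agent.Lib.MP_e5d0a4_an

open Finset

/-- dilation factors -/
noncomputable def tt (R : ℕ) (θ : ℝ) (j : ℕ) : ℝ := Real.exp ((j + θ) / R)

/-- the index of the unit cell hit by `Y_j - t_j i` -/
noncomputable def hh (t Y : ℕ → ℝ) (j i : ℕ) : ℤ := ⌊Y j - t j * i⌋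

/-- weighted number of `(j, i)` with `j ∈ Θ` and `hh j i = d` -/
noncomputable def rr (R : ℕ) (w t Y : ℕ → ℝ) (Θ : Finset ℕ) (d : ℤ) : ℝ :=
  ∑ j ∈ Θ, ∑ i ∈ range R, if hh t Y j i = d then w i else 0

/-- all cells -/
noncomputable def DD (R : ℕ) (t Y : ℕ → ℝ) : Finset ℤ :=
  (range R ×ˢ range R).image (fun p => hh t Y p.1 p.2)

/-- the square function -/
noncomputable def QQ (R : ℕ) (w t Y : ℕ → ℝ) (Θ : Finset ℕ) : ℝ :=
  ∑ d ∈ DD R t Y, (rr R w t Y Θ d) ^ 2

/-- a weight with the Frostman property at scale `1/R` -/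
structure Frost (R : ℕ) (C0 s : ℝ) (w : ℕ → ℝ) : Prop where
  nonneg : ∀ i, 0 ≤ w i
  sum_le : ∑ i ∈ range R, w i ≤ 1
  frost : ∀ m L : ℕ, 1 ≤ L → ∑ i ∈ Ico m (m + L), w i ≤ C0 * ((L : ℝ) / R) ^ s

section card

/-- a set of naturals of diameter `≤ D` has at most `D + 1` elements -/
lemma card_le_of_diam {S : Finset ℕ} {D : ℝ} (hD : 0 ≤ D)
    (h : ∀ a ∈ S, ∀ b ∈ S, (b : ℝ) - a ≤ D) : (S.card : ℝ) ≤ D + 1 := by
  rcases S.eq_empty_or_nonempty with rfl | hne
  · simp; linarith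
  · have h1 : S ⊆ Icc (S.min' hne) (S.max' hne) := by
      intro x hx
      exact mem_Icc.2 ⟨min'_le _ _ hx, le_max' _ _ hx⟩
    have h2 := card_le_card h1
    rw [Nat.card_Icc] at h2
    have h3 := h _ (min'_mem S hne) _ (max'_mem S hne)
    have h4 : S.min' hne ≤ S.max' hne := min'_le _ _ (max'_mem S hne)
    have h5 : (S.card : ℝ) ≤ ((S.max' hne + 1 - S.min' hne : ℕ) : ℝ) := by exact_mod_cast h2
    rw [Nat.cast_sub (by omega)] at h5
    push_cast at h5
    linarith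

/-- the number of naturals at distance `≤ ρ` from `c` is at most `2 ρ + 1` -/
lemma card_le_of_abs {S : Finset ℕ} {c ρ : ℝ} (hρ : 0 ≤ ρ)
    (h : ∀ a ∈ S, |(a : ℝ) - c| ≤ ρ) : (S.card : ℝ) ≤ 2 * ρ + 1 := by
  apply card_le_of_diam (by linarith)
  intro a ha b hb
  have h1 := abs_le.1 (h a ha)
  have h2 := abs_le.1 (h b hb)
  linarith [h1.1, h2.2]

/-- integers version -/
lemma card_le_of_abs_int {S : Finset ℤ} {c ρ : ℝ} (hρ : 0 ≤ ρ)
    (h : ∀ a ∈ S, |(a : ℝ) - c| ≤ ρ) : (S.card : ℝ) ≤ 2 * ρ + 1 := by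
  rcases S.eq_empty_or_nonempty with rfl | hne
  · simp; linarith
  · have h1 : S ⊆ Icc (S.min' hne) (S.max' hne) := by
      intro x hx
      exact mem_Icc.2 ⟨min'_le _ _ hx, le_max' _ _ hx⟩
    have h2 := card_le_card h1
    rw [Int.card_Icc] at h2
    have h3 := abs_le.1 (h _ (min'_mem S hne))
    have h3' := abs_le.1 (h _ (max'_mem S hne))
    have h4 : S.min' hne ≤ S.max' hne := min'_le _ _ (max'_mem S hne)
    have h5 : (S.card : ℤ) ≤ S.max' hne + 1 - S.min' hne := by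
      have : ((S.max' hne + 1 - S.min' hne).toNat : ℤ) = S.max' hne + 1 - S.min' hne :=
        Int.toNat_of_nonneg (by omega)
      rw [← this]
      exact_mod_cast h2
    have h6 : (S.card : ℝ) ≤ ((S.max' hne + 1 - S.min' hne : ℤ) : ℝ) := by exact_mod_cast h5
    push_cast at h6
    linarith [h3.1, h3'.2]

end card

section tt

variable {R : ℕ} {θ : ℝ}

lemma tt_pos (j : ℕ) : 0 < tt R θ j := Real.exp_pos _

lemma tt_ge_one (hR : 1 ≤ R) (hθ : 0 ≤ θ) (j : ℕ) : 1 ≤ tt R θ j := by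
  unfold tt
  apply Real.one_le_exp
  positivity

lemma tt_le_three (hR : 1 ≤ R) (hθ1 : θ ≤ 1) {j : ℕ} (hj : j < R) : tt R θ j ≤ 3 := by
  unfold tt
  have hR' : (0 : ℝ) < R := by exact_mod_cast hR
  have h1 : ((j : ℝ) + θ) / R ≤ 1 := by
    rw [div_le_one hR']
    have : (j : ℝ) + 1 ≤ R := by exact_mod_cast hj
    linarith
  calc Real.exp (((j : ℝ) + θ) / R) ≤ Real.exp 1 := Real.exp_le_exp.2 h1
    _ ≤ 3 := by
        have := Real.exp_one_lt_d9
        linarith

/-- separation of the dilation factors -/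
lemma tt_sep (hR : 1 ≤ R) (hθ : 0 ≤ θ) {j j' : ℕ} (h : j ≤ j') :
    ((j' : ℝ) - j) / R ≤ tt R θ j' - tt R θ j := by
  unfold tt
  have hR' : (0 : ℝ) < R := by exact_mod_cast hR
  have hjj : (j : ℝ) ≤ j' := by exact_mod_cast h
  have h1 : ((j' : ℝ) + θ) / R = ((j : ℝ) + θ) / R + ((j' : ℝ) - j) / R := by
    field_simp
    ring
  rw [h1, Real.exp_add]
  have h2 : 1 ≤ Real.exp (((j : ℝ) + θ) / R) := Real.one_le_exp (by positivity)
  have h3 : ((j' : ℝ) - j) / R + 1 ≤ Real.exp (((j' : ℝ) - j) / R) := Real.add_one_le_exp _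
  have h4 : 0 ≤ ((j' : ℝ) - j) / R := div_nonneg (by linarith) hR'.le
  nlinarith

/-- number of dilation factors in a short interval -/
lemma card_tt_le (hR : 1 ≤ R) (hθ : 0 ≤ θ) {S : Finset ℕ} {c ρ : ℝ} (hρ : 0 ≤ ρ)
    (h : ∀ j ∈ S, |tt R θ j - c| ≤ ρ) : (S.card : ℝ) ≤ 2 * ρ * R + 1 := by
  have hR' : (0 : ℝ) < R := by exact_mod_cast hR
  apply card_le_of_diam (by positivity)
  intro a ha b hb
  have h1 := abs_le.1 (h a ha)
  have h2 := abs_le.1 (h b hb)
  rcases le_total a b with hab | hab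
  · have h3 := tt_sep (R := R) (θ := θ) hR hθ hab
    rw [div_le_iff₀ hR'] at h3
    have h4 : tt R θ b - tt R θ a ≤ 2 * ρ := by linarith [h1.1, h2.2]
    calc (b : ℝ) - a ≤ (tt R θ b - tt R θ a) * R := h3
      _ ≤ 2 * ρ * R := mul_le_mul_of_nonneg_right h4 hR'.le
  · have : (b : ℝ) ≤ a := by exact_mod_cast hab
    have h5 : 0 ≤ 2 * ρ * R := by positivity
    linarith

/-- ratios only depend on differences -/
lemma tt_ratio {a b a' b' : ℕ} (h : b + a' = b' + a) :
    tt R θ b / tt R θ a = tt R θ b' / tt R θ a' := by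
  unfold tt
  rw [← Real.exp_sub, ← Real.exp_sub]
  congr 1
  have h' : (b : ℝ) + a' = b' + a := by exact_mod_cast h
  have h2 : (b : ℝ) - a = b' - a' := by linarith
  calc ((b : ℝ) + θ) / R - ((a : ℝ) + θ) / R = ((b : ℝ) - a) / R := by ring
    _ = ((b' : ℝ) - a') / R := by rw [h2]
    _ = _ := by ring

end tt

section hh

variable {R : ℕ} {t Y w : ℕ → ℝ} {C0 s : ℝ}

lemma hh_inj {j i i' : ℕ} (ht : 1 ≤ t j) (h : hh t Y j i = hh t Y j i') : i = i' := by
  unfold hh at h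
  have h1 := Int.abs_sub_lt_one_of_floor_eq_floor h
  by_contra hne
  have h2 : (1 : ℝ) ≤ |(i' : ℝ) - i| := by
    have h3 : (1 : ℤ) ≤ |(i' : ℤ) - i| := Int.one_le_abs (by omega)
    exact_mod_cast h3
  have h3 : Y j - t j * i - (Y j - t j * i') = t j * ((i' : ℝ) - i) := by ring
  rw [h3, abs_mul, abs_of_pos (by linarith : 0 < t j)] at h1
  nlinarith

lemma hh_close {j i j' i' : ℕ} (h : hh t Y j i = hh t Y j' i') :
    |(Y j - t j * i) - (Y j' - t j' * i')| < 1 :=
  Int.abs_sub_lt_one_of_floor_eq_floor h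

/-- sum of a nonnegative function over an at-most-singleton condition -/
lemma sum_ite_le_of_subsingleton {ι : Type*} {S : Finset ι} {p : ι → Prop} [DecidablePred p]
    {f : ι → ℝ} {β : ℝ} (hβ : 0 ≤ β) (hf : ∀ i ∈ S, f i ≤ β)
    (hp : ∀ i ∈ S, ∀ i' ∈ S, p i → p i' → i = i') :
    ∑ i ∈ S, (if p i then f i else 0) ≤ β := by
  rw [← sum_filter]
  have h1 : (S.filter p).card ≤ 1 := by
    rw [card_le_one]
    intro a ha b hb
    rw [mem_filter] at ha hb
    exact hp a ha.1 b hb.1 ha.2 hb.2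
  calc ∑ i ∈ S.filter p, f i ≤ ∑ i ∈ S.filter p, β :=
        sum_le_sum fun i hi => hf i (mem_filter.1 hi).1
    _ = ((S.filter p).card : ℝ) * β := by rw [sum_const, nsmul_eq_mul]
    _ ≤ 1 * β := by
        apply mul_le_mul_of_nonneg_right _ hβ
        exact_mod_cast h1
    _ = β := one_mul β

lemma Frost.le_beta (hw : Frost R C0 s w) (i : ℕ) : w i ≤ C0 * (1 / (R : ℝ)) ^ s := by
  have h := hw.frost i 1 le_rfl
  simpa using h

lemma Frost.beta_nonneg (hw : Frost R C0 s w) : 0 ≤ C0 * (1 / (R : ℝ)) ^ s :=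
  (hw.nonneg 0).trans (hw.le_beta 0)

/-- mass of a real interval -/
lemma Frost.interval (hw : Frost R C0 s w) (hC0 : 0 ≤ C0) (hs : 0 ≤ s) {S : Finset ℕ} {c ρ : ℝ}
    (hρ : 0 ≤ ρ) (h : ∀ i ∈ S, |(i : ℝ) - c| ≤ ρ) :
    ∑ i ∈ S, w i ≤ C0 * ((2 * ρ + 1) / R) ^ s := by
  rcases S.eq_empty_or_nonempty with rfl | hne
  · rw [sum_empty]
    have : (0 : ℝ) ≤ (2 * ρ + 1) / R := by positivity
    have := Real.rpow_nonneg this s
    positivity
  · set m := S.min' hne
    set M := S.max' hne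
    have hmM : m ≤ M := min'_le _ _ (max'_mem S hne)
    have h1 : S ⊆ Ico m (m + (M + 1 - m)) := by
      intro x hx
      have h2 : m ≤ x := min'_le _ _ hx
      have h3 : x ≤ M := le_max' _ _ hx
      rw [mem_Ico]
      omega
    have h2 : ∑ i ∈ S, w i ≤ ∑ i ∈ Ico m (m + (M + 1 - m)), w i :=
      sum_le_sum_of_subset_of_nonneg h1 fun i _ _ => hw.nonneg i
    have h3 := hw.frost m (M + 1 - m) (by omega)
    have h4 : ((M + 1 - m : ℕ) : ℝ) ≤ 2 * ρ + 1 := by
      rw [Nat.cast_sub (by omega)]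
      push_cast
      have h5 := abs_le.1 (h m (min'_mem S hne))
      have h6 := abs_le.1 (h M (max'_mem S hne))
      linarith [h5.1, h6.2]
    refine h2.trans (h3.trans ?_)
    apply mul_le_mul_of_nonneg_left _ hC0
    apply Real.rpow_le_rpow (by positivity) _ hs
    exact div_le_div_of_nonneg_right h4 (by positivity)

lemma rr_nonneg (hw : Frost R C0 s w) (Θ : Finset ℕ) (d : ℤ) : 0 ≤ rr R w t Y Θ d := by
  unfold rr
  refine sum_nonneg fun j _ => sum_nonneg fun i _ => ?_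
  split_ifs
  · exact hw.nonneg i
  · exact le_rfl

lemma inner_le_beta (hw : Frost R C0 s w) {j : ℕ} (ht : 1 ≤ t j) (d : ℤ) :
    ∑ i ∈ range R, (if hh t Y j i = d then w i else 0) ≤ C0 * (1 / (R : ℝ)) ^ s :=
  sum_ite_le_of_subsingleton hw.beta_nonneg (fun i _ => hw.le_beta i)
    fun _ _ _ _ h h' => hh_inj ht (h.trans h'.symm)

lemma rr_le (hw : Frost R C0 s w) {Θ : Finset ℕ} (hΘ : Θ ⊆ range R) (ht : ∀ j < R, 1 ≤ t j)
    (d : ℤ) : rr R w t Y Θ d ≤ R * (C0 * (1 / (R : ℝ)) ^ s) := by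
  unfold rr
  calc ∑ j ∈ Θ, ∑ i ∈ range R, (if hh t Y j i = d then w i else 0)
      ≤ ∑ j ∈ Θ, (C0 * (1 / (R : ℝ)) ^ s) :=
        sum_le_sum fun j hj => inner_le_beta hw (ht j (mem_range.1 (hΘ hj))) d
    _ = (Θ.card : ℝ) * (C0 * (1 / (R : ℝ)) ^ s) := by rw [sum_const, nsmul_eq_mul]
    _ ≤ R * (C0 * (1 / (R : ℝ)) ^ s) := by
        apply mul_le_mul_of_nonneg_right _ hw.beta_nonneg
        have := card_le_card hΘ
        rw [card_range] at this
        exact_mod_cast this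

lemma mem_DD {j i : ℕ} (hj : j < R) (hi : i < R) : hh t Y j i ∈ DD R t Y := by
  unfold DD
  exact mem_image.2 ⟨(j, i), mem_product.2 ⟨mem_range.2 hj, mem_range.2 hi⟩, rfl⟩

/-- summing a function of the cell against `rr` -/
lemma sum_rr_mul (Θ : Finset ℕ) (D : Finset ℤ) (F : ℤ → ℝ) :
    ∑ d ∈ D, rr R w t Y Θ d * F d =
      ∑ j ∈ Θ, ∑ i ∈ range R, if hh t Y j i ∈ D then w i * F (hh t Y j i) else 0 := by
  unfold rr
  simp only [sum_mul]
  rw [sum_comm]
  refine sum_congr rfl fun j hj => ?_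
  rw [sum_comm]
  refine sum_congr rfl fun i hi => ?_
  simp only [ite_mul, zero_mul]
  rw [sum_ite_eq]

lemma sum_rr (hw : Frost R C0 s w) (Θ : Finset ℕ) (hΘ : Θ ⊆ range R) (D : Finset ℤ) :
    ∑ d ∈ D, rr R w t Y Θ d ≤ R := by
  have h := sum_rr_mul (R := R) (w := w) (t := t) (Y := Y) Θ D (fun _ => 1)
  simp only [mul_one] at h
  rw [h]
  calc ∑ j ∈ Θ, ∑ i ∈ range R, (if hh t Y j i ∈ D then w i else 0)
      ≤ ∑ j ∈ Θ, ∑ i ∈ range R, w i := by
        refine sum_le_sum fun j _ => sum_le_sum fun i _ => ?_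
        split_ifs
        · exact le_rfl
        · exact hw.nonneg i
    _ ≤ ∑ j ∈ Θ, (1 : ℝ) := sum_le_sum fun j _ => hw.sum_le
    _ = (Θ.card : ℝ) := by rw [sum_const, nsmul_eq_mul, mul_one]
    _ ≤ R := by
        have := card_le_card hΘ
        rw [card_range] at this
        exact_mod_cast this

lemma QQ_eq (Θ : Finset ℕ) (hΘ : Θ ⊆ range R) :
    QQ R w t Y Θ = ∑ j ∈ Θ, ∑ i ∈ range R, ∑ j' ∈ Θ, ∑ i' ∈ range R,
      if hh t Y j' i' = hh t Y j i then w i * w i' else 0 := by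
  unfold QQ
  have h := sum_rr_mul (R := R) (w := w) (Y := Y) (t := t) Θ (DD R t Y)
    (fun d => rr R w t Y Θ d)
  simp only [sq]
  rw [h]
  refine sum_congr rfl fun j hj => sum_congr rfl fun i hi => ?_
  rw [if_pos (mem_DD (mem_range.1 (hΘ hj)) (mem_range.1 hi))]
  unfold rr
  rw [mul_sum]
  refine sum_congr rfl fun j' _ => ?_
  rw [mul_sum]
  refine sum_congr rfl fun i' _ => ?_
  rw [mul_ite, mul_zero]

lemma QQ_nonneg (Θ : Finset ℕ) : 0 ≤ QQ R w t Y Θ := sum_nonneg fun _ _ => sq_nonneg _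

/-- trivial bound -/
lemma QQ_le_trivial (hw : Frost R C0 s w) {Θ : Finset ℕ} (hΘ : Θ ⊆ range R)
    (ht : ∀ j < R, 1 ≤ t j) :
    QQ R w t Y Θ ≤ (R : ℝ) ^ 2 * (C0 * (1 / (R : ℝ)) ^ s) := by
  unfold QQ
  calc ∑ d ∈ DD R t Y, (rr R w t Y Θ d) ^ 2
      ≤ ∑ d ∈ DD R t Y, rr R w t Y Θ d * (R * (C0 * (1 / (R : ℝ)) ^ s)) := by
        refine sum_le_sum fun d _ => ?_
        rw [sq]
        exact mul_le_mul_of_nonneg_left (rr_le hw hΘ ht d) (rr_nonneg hw Θ d)
    _ = (∑ d ∈ DD R t Y, rr R w t Y Θ d) * (R * (C0 * (1 / (R : ℝ)) ^ s)) := by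
        rw [sum_mul]
    _ ≤ R * (R * (C0 * (1 / (R : ℝ)) ^ s)) := by
        apply mul_le_mul_of_nonneg_right (sum_rr hw Θ hΘ _)
        have := hw.beta_nonneg
        positivity
    _ = _ := by ring

/-- Minkowski inequality for `QQ` -/
lemma sqrt_QQ_le {Θ Θ₁ Θ₂ : Finset ℕ} (hd : Disjoint Θ₁ Θ₂) (hu : Θ = Θ₁ ∪ Θ₂) :
    √(QQ R w t Y Θ) ≤ √(QQ R w t Y Θ₁) + √(QQ R w t Y Θ₂) := by
  have hadd : ∀ d, rr R w t Y Θ d = rr R w t Y Θ₁ d + rr R w t Y Θ₂ d := by
    intro d
    unfold rr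
    rw [hu, sum_union hd]
  rw [Real.sqrt_le_left (by positivity)]
  have h1 : QQ R w t Y Θ = QQ R w t Y Θ₁ + QQ R w t Y Θ₂ +
      2 * ∑ d ∈ DD R t Y, rr R w t Y Θ₁ d * rr R w t Y Θ₂ d := by
    unfold QQ
    rw [mul_sum, ← sum_add_distrib, ← sum_add_distrib]
    refine sum_congr rfl fun d _ => ?_
    rw [hadd]
    ring
  have h2 := Real.sum_mul_le_sqrt_mul_sqrt (DD R t Y) (fun d => rr R w t Y Θ₁ d)
    (fun d => rr R w t Y Θ₂ d)
  have h3 := Real.sq_sqrt (QQ_nonneg (R := R) (w := w) (t := t) (Y := Y) Θ₁)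
  have h4 := Real.sq_sqrt (QQ_nonneg (R := R) (w := w) (t := t) (Y := Y) Θ₂)
  have h5 : ∑ d ∈ DD R t Y, rr R w t Y Θ₁ d * rr R w t Y Θ₂ d ≤
      √(QQ R w t Y Θ₁) * √(QQ R w t Y Θ₂) := h2
  rw [h1]
  nlinarith

end hh

end Pool.Agent.Lib.MP_e5d0a4_an
end

section

open Set MeasureTheory
open scoped ENNReal

namespace Pool.Agent.Lib.MP_e5d0a4_an.Frostman

noncomputable section

/-- dyadic address of `x` at level `k` -/
def adr (k : ℕ) (x : ℝ) : ℕ := ⌊x * 2 ^ k⌋₊

lemma adr_succ (k : ℕ) (x : ℝ) : adr (k + 1) x / 2 = adr k x := by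
  unfold adr
  have h := Nat.floor_div_natCast (x * 2 ^ (k + 1)) 2
  rw [← h]
  congr 1
  push_cast
  field_simp
  ring

lemma adr_le {j k : ℕ} (h : j ≤ k) (x : ℝ) : adr k x / 2 ^ (k - j) = adr j x := by
  induction k, h using Nat.le_induction with
  | base => simp
  | succ k hk ih =>
    rw [Nat.succ_sub hk, pow_succ', ← Nat.div_div_eq_div_mul, adr_succ, ih]

lemma adr_zero {x : ℝ} (hx : x ∈ Ico (0 : ℝ) 1) : adr 0 x = 0 := by
  unfold adr
  simp only [pow_zero, mul_one]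
  exact Nat.floor_eq_zero.2 hx.2

/-- weight of a dyadic interval of level `k` -/
def wt (s : ℝ) (k : ℕ) : ℝ := ((1 : ℝ) / 2 ^ k) ^ s

lemma wt_pos (s : ℝ) (k : ℕ) : 0 < wt s k := by
  unfold wt; positivity

/-- the weight as an extended nonnegative real -/
def W (s : ℝ) (k : ℕ) : ℝ≥0∞ := ENNReal.ofReal (wt s k)

lemma W_ne_top (s : ℝ) (k : ℕ) : W s k ≠ ∞ := ENNReal.ofReal_ne_top

/-- cost of a set of dyadic intervals -/
def cost (s : ℝ) (Q : Set (ℕ × ℕ)) : ℝ≥0∞ :=
  ∑' q : ℕ × ℕ, Q.indicator (fun q => W s q.1) q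

/-- `Q` covers `E` -/
def Cov (Q : Set (ℕ × ℕ)) (E : Set ℝ) : Prop := ∀ x ∈ E, ∃ k, (k, adr k x) ∈ Q

/-- dyadic content -/
def H (s : ℝ) (E : Set ℝ) : ℝ≥0∞ := ⨅ (Q : Set (ℕ × ℕ)) (_ : Cov Q E), cost s Q

lemma H_le {s : ℝ} {E : Set ℝ} {Q : Set (ℕ × ℕ)} (h : Cov Q E) : H s E ≤ cost s Q :=
  iInf₂_le Q h

lemma le_H {s : ℝ} {E : Set ℝ} {c : ℝ≥0∞} (h : ∀ Q, Cov Q E → c ≤ cost s Q) : c ≤ H s E :=
  le_iInf₂ h

lemma Cov.mono {Q : Set (ℕ × ℕ)} {E F : Set ℝ} (h : Cov Q F) (hEF : E ⊆ F) : Cov Q E :=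
  fun x hx => h x (hEF hx)

lemma H_mono {s : ℝ} {E F : Set ℝ} (h : E ⊆ F) : H s E ≤ H s F :=
  le_H fun _ hQ => H_le (hQ.mono h)

lemma cost_mono {s : ℝ} {Q R : Set (ℕ × ℕ)} (h : Q ⊆ R) : cost s Q ≤ cost s R :=
  ENNReal.tsum_le_tsum fun q => indicator_le_indicator_of_subset h (fun _ => zero_le) q

lemma cost_singleton (s : ℝ) (q : ℕ × ℕ) : cost s {q} = W s q.1 := by
  unfold cost
  rw [tsum_eq_single q]
  · simp
  · intro b hb
    simp [hb]

lemma W_le_cost {s : ℝ} {Q : Set (ℕ × ℕ)} {q : ℕ × ℕ} (h : q ∈ Q) : W s q.1 ≤ cost s Q := by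
  rw [← cost_singleton]
  exact cost_mono (by simpa using h)

lemma cost_union_le (s : ℝ) (Q R : Set (ℕ × ℕ)) : cost s (Q ∪ R) ≤ cost s Q + cost s R := by
  unfold cost
  rw [← ENNReal.tsum_add]
  refine ENNReal.tsum_le_tsum fun q => ?_
  by_cases h1 : q ∈ Q <;> by_cases h2 : q ∈ R <;> simp [h1, h2]

/-- the node `q` is below (or equal to) the node `p` -/
def Below (q p : ℕ × ℕ) : Prop := p.1 ≤ q.1 ∧ q.2 / 2 ^ (q.1 - p.1) = p.2

/-- dyadic interval -/
def I (q : ℕ × ℕ) : Set ℝ := {x | x ∈ Ico (0 : ℝ) 1 ∧ adr q.1 x = q.2}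

/-- strong subadditivity -/
lemma strong_sub (s : ℝ) (A B : Set ℝ) : H s (A ∪ B) + H s (A ∩ B) ≤ H s A + H s B := by
  have key : ∀ QA QB : Set (ℕ × ℕ), Cov QA A → Cov QB B →
      H s (A ∪ B) + H s (A ∩ B) ≤ cost s QA + cost s QB := by
    intro QA QB hA hB
    set M : Set (ℕ × ℕ) := {q | q ∈ QA ∪ QB ∧ ∀ j < q.1, (j, q.2 / 2 ^ (q.1 - j)) ∉ QA ∪ QB} with hM
    have h1 : Cov M (A ∪ B) := by
      intro x hx
      have hex : ∃ k, (k, adr k x) ∈ QA ∪ QB := by
        rcases hx with hx | hx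
        · obtain ⟨k, hk⟩ := hA x hx
          exact ⟨k, Or.inl hk⟩
        · obtain ⟨k, hk⟩ := hB x hx
          exact ⟨k, Or.inr hk⟩
      classical
      refine ⟨Nat.find hex, Nat.find_spec hex, ?_⟩
      intro j hj
      have := Nat.find_min hex hj
      simp only at hj ⊢
      rwa [adr_le hj.le]
    have h2 : Cov ((QA ∩ QB) ∪ ((QA ∪ QB) \ M)) (A ∩ B) := by
      intro x hx
      obtain ⟨k, hk⟩ := hA x hx.1
      obtain ⟨j, hj⟩ := hB x hx.2
      rcases lt_trichotomy j k with h | h | h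
      · refine ⟨k, Or.inr ⟨Or.inl hk, ?_⟩⟩
        intro hm
        refine hm.2 j h ?_
        simp only
        rw [adr_le h.le]
        exact Or.inr hj
      · subst h
        exact ⟨j, Or.inl ⟨hk, hj⟩⟩
      · refine ⟨j, Or.inr ⟨Or.inr hj, ?_⟩⟩
        intro hm
        refine hm.2 k h ?_
        simp only
        rw [adr_le h.le]
        exact Or.inl hk
    refine (add_le_add (H_le h1) (H_le h2)).trans ?_
    unfold cost
    rw [← ENNReal.tsum_add, ← ENNReal.tsum_add]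
    refine ENNReal.tsum_le_tsum fun q => ?_
    by_cases hqM : q ∈ M
    · have hq : q ∈ QA ∪ QB := hqM.1
      by_cases h1 : q ∈ QA <;> by_cases h2 : q ∈ QB
      · simp [h1, h2, hqM]
      · simp [h1, h2, hqM]
      · simp [h1, h2, hqM]
      · exact absurd hq (by simp [h1, h2])
    · by_cases h1 : q ∈ QA <;> by_cases h2 : q ∈ QB
      · simp [h1, h2, hqM]
      · simp [h1, h2, hqM]
      · simp [h1, h2, hqM]
      · simp [h1, h2, hqM]
  have h1 : ∀ QA : Set (ℕ × ℕ), Cov QA A → H s (A ∪ B) + H s (A ∩ B) ≤ cost s QA + H s B := by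
    intro QA hA
    show _ ≤ cost s QA + ⨅ (Q : Set (ℕ × ℕ)) (_ : Cov Q B), cost s Q
    rw [ENNReal.add_iInf]
    refine le_iInf fun QB => ?_
    rw [ENNReal.add_iInf]
    exact le_iInf fun hB => key QA QB hA hB
  show _ ≤ (⨅ (Q : Set (ℕ × ℕ)) (_ : Cov Q A), cost s Q) + H s B
  rw [ENNReal.iInf_add]
  refine le_iInf fun QA => ?_
  rw [ENNReal.iInf_add]
  exact le_iInf fun hA => h1 QA hA


lemma Below.refl (q : ℕ × ℕ) : Below q q := ⟨le_rfl, by simp⟩

lemma mem_I_below {p q : ℕ × ℕ} (h : Below q p) {x : ℝ} (hx : x ∈ I q) : x ∈ I p :=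
  ⟨hx.1, by rw [← adr_le h.1, hx.2, h.2]⟩

lemma adr_below {j k : ℕ} (h : j ≤ k) (x : ℝ) : Below (k, adr k x) (j, adr j x) :=
  ⟨h, adr_le h x⟩

/-- the two children of a node -/
def ch (q : ℕ × ℕ) (b : ℕ) : ℕ × ℕ := (q.1 + 1, 2 * q.2 + b)

lemma below_child {q : ℕ × ℕ} {b : ℕ} (hb : b < 2) : Below (ch q b) q := by
  refine ⟨Nat.le_succ _, ?_⟩
  simp only [ch]
  rw [Nat.add_sub_cancel_left, pow_one]
  omega

lemma Below.trans {r q p : ℕ × ℕ} (h1 : Below r q) (h2 : Below q p) : Below r p := by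
  refine ⟨h2.1.trans h1.1, ?_⟩
  rw [← h2.2, ← h1.2, Nat.div_div_eq_div_mul, ← pow_add]
  congr 2
  have := h1.1
  have := h2.1
  omega

lemma below_iff_child {q p : ℕ × ℕ} (h : Below q p) (hne : q ≠ p) :
    Below q (ch p 0) ∨ Below q (ch p 1) := by
  obtain ⟨h1, h2⟩ := h
  have hlt : p.1 < q.1 := by
    rcases h1.lt_or_eq with h | h
    · exact h
    · exfalso
      apply hne
      rw [h, Nat.sub_self, pow_zero, Nat.div_one] at h2
      exact Prod.ext h.symm h2
  have h3 : q.2 / 2 ^ (q.1 - (p.1 + 1)) / 2 = p.2 := by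
    rw [Nat.div_div_eq_div_mul, ← pow_succ, ← h2]
    congr 2
    omega
  have h4 : q.2 / 2 ^ (q.1 - (p.1 + 1)) = 2 * p.2 ∨ q.2 / 2 ^ (q.1 - (p.1 + 1)) = 2 * p.2 + 1 := by
    omega
  rcases h4 with h4 | h4
  · left; exact ⟨hlt, by simpa [ch] using h4⟩
  · right; exact ⟨hlt, by simpa [ch] using h4⟩

lemma not_below_both {q p : ℕ × ℕ} (h0 : Below q (ch p 0)) (h1 : Below q (ch p 1)) : False := by
  have a := h0.2
  have b := h1.2
  simp only [ch] at a b
  omega

lemma I_child_union (q : ℕ × ℕ) : I q = I (ch q 0) ∪ I (ch q 1) := by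
  ext x
  constructor
  · rintro ⟨hx, h⟩
    have h2 := adr_succ q.1 x
    rw [h] at h2
    have : adr (q.1 + 1) x = 2 * q.2 + 0 ∨ adr (q.1 + 1) x = 2 * q.2 + 1 := by omega
    rcases this with h | h
    · exact Or.inl ⟨hx, h⟩
    · exact Or.inr ⟨hx, h⟩
  · rintro (h | h)
    · exact mem_I_below (below_child (by norm_num)) h
    · exact mem_I_below (below_child (by norm_num)) h

lemma I_root : I (0, 0) = Ico (0 : ℝ) 1 := by
  ext x
  exact ⟨fun h => h.1, fun h => ⟨h, adr_zero h⟩⟩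

lemma wt_anti {s : ℝ} (hs : 0 ≤ s) {j k : ℕ} (h : j ≤ k) : wt s k ≤ wt s j := by
  unfold wt
  apply Real.rpow_le_rpow (by positivity) _ hs
  exact one_div_le_one_div_of_le (by positivity) (pow_le_pow_right₀ (by norm_num) h)

lemma W_anti {s : ℝ} (hs : 0 ≤ s) {j k : ℕ} (h : j ≤ k) : W s k ≤ W s j :=
  ENNReal.ofReal_le_ofReal (wt_anti hs h)

/-- lower recursion for contents inside a node -/
lemma node_dichotomy {s : ℝ} (hs : 0 ≤ s) (V : Set ℝ) (q : ℕ × ℕ) :
    min (W s q.1) (H s (V ∩ I (ch q 0)) + H s (V ∩ I (ch q 1))) ≤ H s (V ∩ I q) := by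
  classical
  refine le_H fun Q hQ => ?_
  by_cases hanc : ∃ r ∈ Q, Below q r
  · obtain ⟨r, hr, hqr⟩ := hanc
    exact (min_le_left _ _).trans ((W_anti hs hqr.1).trans (W_le_cost hr))
  · push Not at hanc
    refine (min_le_right _ _).trans ?_
    set Q0 : Set (ℕ × ℕ) := {r | r ∈ Q ∧ Below r (ch q 0)}
    set Q1 : Set (ℕ × ℕ) := {r | r ∈ Q ∧ Below r (ch q 1)}
    have hb : ∀ b < 2, Cov {r | r ∈ Q ∧ Below r (ch q b)} (V ∩ I (ch q b)) := by
      intro b hb x hx
      obtain ⟨k, hk⟩ := hQ x ⟨hx.1, mem_I_below (below_child hb) hx.2⟩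
      refine ⟨k, hk, ?_⟩
      have hx2 : adr (q.1 + 1) x = 2 * q.2 + b := hx.2.2
      have hlt : q.1 < k := by
        by_contra hcon
        push Not at hcon
        apply hanc _ hk
        have := adr_below hcon x
        rwa [(mem_I_below (below_child hb) hx.2).2] at this
      have h5 := adr_below (j := q.1 + 1) (k := k) hlt x
      rw [hx2] at h5
      exact h5
    refine (add_le_add (H_le (hb 0 (by norm_num))) (H_le (hb 1 (by norm_num)))).trans ?_
    unfold cost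
    rw [← ENNReal.tsum_add]
    refine ENNReal.tsum_le_tsum fun r => ?_
    by_cases hr : r ∈ Q
    · by_cases h0 : Below r (ch q 0) <;> by_cases h1 : Below r (ch q 1)
      · exact (not_below_both h0 h1).elim
      · simp [hr, h0, h1]
      · simp [hr, h0, h1]
      · simp [hr, h0, h1]
    · simp [hr]


lemma volume_I_le (q : ℕ × ℕ) : volume (I q) ≤ ENNReal.ofReal (1 / 2 ^ q.1) := by
  have h : I q ⊆ Ico ((q.2 : ℝ) / 2 ^ q.1) (((q.2 : ℝ) + 1) / 2 ^ q.1) := by
    rintro x ⟨hx, h⟩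
    have hp : (0 : ℝ) < 2 ^ q.1 := by positivity
    have hx0 : 0 ≤ x * 2 ^ q.1 := mul_nonneg hx.1 hp.le
    unfold adr at h
    have h1 := Nat.floor_le hx0
    have h2 := Nat.lt_floor_add_one (x * 2 ^ q.1)
    rw [h] at h1 h2
    exact ⟨by rw [div_le_iff₀ hp]; exact h1, by rw [lt_div_iff₀ hp]; exact h2⟩
  refine (measure_mono h).trans ?_
  rw [Real.volume_Ico]
  apply ENNReal.ofReal_le_ofReal
  rw [← sub_div]
  simp

lemma volume_I_eq {q : ℕ × ℕ} (hq : q.2 < 2 ^ q.1) : ENNReal.ofReal (1 / 2 ^ q.1) ≤ volume (I q) := by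
  have h : Ico ((q.2 : ℝ) / 2 ^ q.1) (((q.2 : ℝ) + 1) / 2 ^ q.1) ⊆ I q := by
    rintro x ⟨h1, h2⟩
    have hp : (0 : ℝ) < 2 ^ q.1 := by positivity
    rw [div_le_iff₀ hp] at h1
    rw [lt_div_iff₀ hp] at h2
    have hq' : (q.2 : ℝ) + 1 ≤ 2 ^ q.1 := by exact_mod_cast hq
    refine ⟨⟨?_, ?_⟩, ?_⟩
    · by_contra hcon
      push Not at hcon
      have : x * 2 ^ q.1 < 0 := mul_neg_of_neg_of_pos hcon hp
      have h0 : (0 : ℝ) ≤ q.2 := Nat.cast_nonneg _
      linarith
    · have : x * 2 ^ q.1 < 1 * 2 ^ q.1 := by linarith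
      exact lt_of_mul_lt_mul_right this hp.le
    · unfold adr
      rw [Nat.floor_eq_iff (le_trans (Nat.cast_nonneg _) h1)]
      exact ⟨h1, h2⟩
  refine le_trans ?_ (measure_mono h)
  rw [Real.volume_Ico]
  apply ENNReal.ofReal_le_ofReal
  rw [← sub_div]
  simp

/-- full intervals have full content -/
lemma W_le_H_I {s : ℝ} (hs : 0 ≤ s) (hs1 : s ≤ 1) {q : ℕ × ℕ} (hq : q.2 < 2 ^ q.1) :
    W s q.1 ≤ H s (I q) := by
  classical
  refine le_H fun Q hQ => ?_
  by_cases hanc : ∃ r ∈ Q, Below q r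
  · obtain ⟨r, hr, hqr⟩ := hanc
    exact (W_anti hs hqr.1).trans (W_le_cost hr)
  · push Not at hanc
    have hsub : I q ⊆ ⋃ r : ℕ × ℕ, (if r ∈ Q ∧ q.1 ≤ r.1 then I r else ∅) := by
      intro x hx
      obtain ⟨k, hk⟩ := hQ x hx
      have hlt : q.1 < k := by
        by_contra hcon
        push Not at hcon
        apply hanc _ hk
        have := adr_below hcon x
        rwa [hx.2] at this
      rw [mem_iUnion]
      refine ⟨(k, adr k x), ?_⟩
      rw [if_pos ⟨hk, hlt.le⟩]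
      exact ⟨hx.1, rfl⟩
    set c : ℝ≥0∞ := ENNReal.ofReal (((1 : ℝ) / 2 ^ q.1) ^ (1 - s)) with hc
    have hc0 : c ≠ 0 := by
      rw [hc]
      simp only [ne_eq, ENNReal.ofReal_eq_zero, not_le]
      positivity
    have hctop : c ≠ ∞ := ENNReal.ofReal_ne_top
    have h1 : volume (I q) ≤ cost s Q * c := by
      refine (measure_mono hsub).trans ((measure_iUnion_le _).trans ?_)
      unfold cost
      rw [← ENNReal.tsum_mul_right]
      refine ENNReal.tsum_le_tsum fun r => ?_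
      by_cases hr : r ∈ Q ∧ q.1 ≤ r.1
      · rw [if_pos hr, indicator_of_mem hr.1]
        refine (volume_I_le r).trans ?_
        unfold W wt
        rw [hc, ← ENNReal.ofReal_mul (by positivity)]
        apply ENNReal.ofReal_le_ofReal
        have hp : (0 : ℝ) < 1 / 2 ^ r.1 := by positivity
        calc (1 : ℝ) / 2 ^ r.1 = (1 / 2 ^ r.1) ^ s * (1 / 2 ^ r.1) ^ (1 - s) := by
              rw [← Real.rpow_add hp]; simp
          _ ≤ (1 / 2 ^ r.1) ^ s * (1 / 2 ^ q.1) ^ (1 - s) := by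
              apply mul_le_mul_of_nonneg_left _ (by positivity)
              apply Real.rpow_le_rpow hp.le _ (by linarith)
              exact one_div_le_one_div_of_le (by positivity) (pow_le_pow_right₀ (by norm_num) hr.2)
      · rw [if_neg hr]
        simp
    have h2 : W s q.1 * c ≤ cost s Q * c := by
      refine le_trans ?_ ((volume_I_eq hq).trans h1)
      unfold W wt
      rw [hc, ← ENNReal.ofReal_mul (by positivity), ← Real.rpow_add (by positivity)]
      simp
    exact (ENNReal.mul_le_mul_iff_left hc0 hctop).1 h2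

/-- the maximal nodes of a set of nodes -/
def Mx (F : Set (ℕ × ℕ)) : Set (ℕ × ℕ) := {q | q ∈ F ∧ ∀ j < q.1, (j, q.2 / 2 ^ (q.1 - j)) ∉ F}

lemma mx_cost_aux {s : ℝ} (h : ℕ × ℕ → ℝ≥0∞)
    (hrec : ∀ q, min (W s q.1) (h (ch q 0) + h (ch q 1)) ≤ h q) (D : ℕ) :
    ∀ q : ℕ × ℕ, (∀ j < q.1, (j, q.2 / 2 ^ (q.1 - j)) ∉ {q | W s q.1 ≤ h q}) →
      cost s (Mx {q | W s q.1 ≤ h q} ∩ {p | Below p q ∧ p.1 ≤ q.1 + D}) ≤ h q := by
  set F : Set (ℕ × ℕ) := {q | W s q.1 ≤ h q} with hF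
  have hfull : ∀ D : ℕ, ∀ q ∈ F, cost s (Mx F ∩ {p | Below p q ∧ p.1 ≤ q.1 + D}) ≤ h q := by
    intro D q hq
    refine le_trans ?_ (show W s q.1 ≤ h q from hq)
    rw [← cost_singleton]
    apply cost_mono
    rintro p ⟨hpM, hpq, -⟩
    rw [mem_singleton_iff]
    by_contra hne
    have hlt : q.1 < p.1 := by
      rcases hpq.1.lt_or_eq with h | h
      · exact h
      · exfalso
        apply hne
        have := hpq.2
        rw [h, Nat.sub_self, pow_zero, Nat.div_one] at this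
        exact Prod.ext h.symm this
    have := hpM.2 q.1 hlt
    rw [hpq.2] at this
    exact this hq
  induction D with
  | zero =>
    intro q hq
    by_cases hqF : q ∈ F
    · exact hfull 0 q hqF
    · have : Mx F ∩ {p | Below p q ∧ p.1 ≤ q.1 + 0} = ∅ := by
        rw [eq_empty_iff_forall_notMem]
        rintro p ⟨hpM, hpq, hle⟩
        have h1 : p.1 = q.1 := le_antisymm (by simpa using hle) hpq.1
        have h2 := hpq.2
        rw [h1, Nat.sub_self, pow_zero, Nat.div_one] at h2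
        exact hqF (Prod.ext h1 h2 ▸ hpM.1)
      rw [this]
      unfold cost
      simp
  | succ D ih =>
    intro q hq
    by_cases hqF : q ∈ F
    · exact hfull _ q hqF
    · have hanc : ∀ b < 2, ∀ j < (ch q b).1, (j, (ch q b).2 / 2 ^ ((ch q b).1 - j)) ∉ F := by
        intro b hb j hj
        simp only [ch] at hj ⊢
        rcases (Nat.lt_succ_iff.1 hj).lt_or_eq with hlt | heq
        · have h1 : (2 * q.2 + b) / 2 ^ (q.1 + 1 - j) = q.2 / 2 ^ (q.1 - j) := by
            have : q.1 + 1 - j = (q.1 - j) + 1 := by omega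
            rw [this, pow_succ', ← Nat.div_div_eq_div_mul]
            congr 1
            omega
          rw [h1]
          exact hq j hlt
        · have h1 : (2 * q.2 + b) / 2 ^ (q.1 + 1 - j) = q.2 := by
            have : q.1 + 1 - j = 1 := by omega
            rw [this, pow_one]
            omega
          rw [h1, heq]
          exact hqF
      have h0 := ih (ch q 0) (hanc 0 (by norm_num))
      have h1 := ih (ch q 1) (hanc 1 (by norm_num))
      have hsub : Mx F ∩ {p | Below p q ∧ p.1 ≤ q.1 + (D + 1)} ⊆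
          (Mx F ∩ {p | Below p (ch q 0) ∧ p.1 ≤ (ch q 0).1 + D}) ∪
          (Mx F ∩ {p | Below p (ch q 1) ∧ p.1 ≤ (ch q 1).1 + D}) := by
        rintro p ⟨hpM, hpq, hle⟩
        have hne : p ≠ q := by
          rintro rfl
          exact hqF hpM.1
        have hle' : p.1 ≤ q.1 + 1 + D := by omega
        rcases below_iff_child hpq hne with h | h
        · exact Or.inl ⟨hpM, h, hle'⟩
        · exact Or.inr ⟨hpM, h, hle'⟩
      refine (cost_mono hsub).trans ((cost_union_le _ _ _).trans ((add_le_add h0 h1).trans ?_))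
      have h3 := hrec q
      rcases min_le_iff.1 h3 with h4 | h4
      · exact absurd h4 hqF
      · exact h4

lemma mx_cost {s : ℝ} (h : ℕ × ℕ → ℝ≥0∞)
    (hrec : ∀ q, min (W s q.1) (h (ch q 0) + h (ch q 1)) ≤ h q) :
    cost s (Mx {q | W s q.1 ≤ h q} ∩ {p | Below p (0, 0)}) ≤ h (0, 0) := by
  classical
  set F : Set (ℕ × ℕ) := {q | W s q.1 ≤ h q} with hF
  unfold cost
  rw [ENNReal.tsum_eq_iSup_sum]
  refine iSup_le fun T => ?_
  have h1 := mx_cost_aux h hrec (T.sup Prod.fst) (0, 0) (by intro j hj; exact absurd hj (Nat.not_lt_zero _))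
  refine le_trans ?_ h1
  unfold cost
  refine le_trans ?_ (ENNReal.sum_le_tsum T)
  refine Finset.sum_le_sum fun p hp => ?_
  by_cases hpM : p ∈ Mx F ∩ {p | Below p (0, 0)}
  · rw [indicator_of_mem hpM, indicator_of_mem]
    refine ⟨hpM.1, hpM.2, ?_⟩
    simp only [zero_add]
    exact Finset.le_sup (f := Prod.fst) hp
  · rw [indicator_of_notMem hpM]
    exact zero_le


lemma adr_lt {x : ℝ} (hx : x ∈ Ico (0 : ℝ) 1) (k : ℕ) : adr k x < 2 ^ k := by
  unfold adr
  have hp : (0 : ℝ) < 2 ^ k := by positivity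
  rw [Nat.floor_lt (mul_nonneg hx.1 hp.le)]
  push_cast
  have : x * 2 ^ k < 1 * 2 ^ k := mul_lt_mul_of_pos_right hx.2 hp
  linarith

/-- the content is continuous along increasing sequences of unions of dyadic intervals -/
lemma H_iUnion_open {s : ℝ} (hs : 0 ≤ s) (hs1 : s ≤ 1) (V : ℕ → Set ℝ) (hmono : Monotone V)
    (hV : ∀ n, V n ⊆ Ico 0 1) (hop : ∀ n, ∀ x ∈ V n, ∃ k, I (k, adr k x) ⊆ V n) :
    H s (⋃ n, V n) ≤ ⨆ n, H s (V n) := by
  classical
  set h : ℕ × ℕ → ℝ≥0∞ := fun q => ⨆ n, H s (V n ∩ I q) with hh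
  have hrec : ∀ q, min (W s q.1) (h (ch q 0) + h (ch q 1)) ≤ h q := by
    intro q
    by_cases hq : W s q.1 ≤ h q
    · exact (min_le_left _ _).trans hq
    · push Not at hq
      refine (min_le_right _ _).trans ?_
      rw [hh]
      simp only
      rw [ENNReal.iSup_add_iSup_of_monotone]
      · refine iSup_le fun n => ?_
        have h1 := node_dichotomy hs (V n) q
        have h2 : H s (V n ∩ I q) ≤ h q := le_iSup (fun n => H s (V n ∩ I q)) n
        rcases min_le_iff.1 h1 with h3 | h3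
        · exact absurd (h3.trans h2) (not_le.2 hq)
        · exact h3.trans h2
      · intro a b hab
        exact H_mono (inter_subset_inter_left _ (hmono hab))
      · intro a b hab
        exact H_mono (inter_subset_inter_left _ (hmono hab))
  have hcov : Cov (Mx {q | W s q.1 ≤ h q} ∩ {p | Below p (0, 0)}) (⋃ n, V n) := by
    intro x hx
    obtain ⟨n, hn⟩ := mem_iUnion.1 hx
    have hx01 := hV n hn
    have hex : ∃ k, (k, adr k x) ∈ {q : ℕ × ℕ | W s q.1 ≤ h q} := by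
      obtain ⟨k, hk⟩ := hop n x hn
      refine ⟨k, ?_⟩
      have h1 : W s k ≤ H s (I (k, adr k x)) := W_le_H_I hs hs1 (q := (k, adr k x)) (adr_lt hx01 k)
      refine h1.trans ?_
      refine le_trans (H_mono ?_) (le_iSup (fun n => H s (V n ∩ I (k, adr k x))) n)
      exact subset_inter hk subset_rfl
    refine ⟨Nat.find hex, ⟨Nat.find_spec hex, ?_⟩, ?_⟩
    · intro j hj
      simp only at hj ⊢
      rw [adr_le hj.le]
      exact Nat.find_min hex hj
    · have := adr_below (j := 0) (k := Nat.find hex) (Nat.zero_le _) x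
      rwa [adr_zero hx01] at this
  refine (H_le hcov).trans ((mx_cost h hrec).trans ?_)
  exact iSup_mono fun n => H_mono inter_subset_left

lemma H_le_W0 {s : ℝ} {E : Set ℝ} (hE : E ⊆ Ico 0 1) : H s E ≤ W s 0 := by
  have : Cov {((0 : ℕ), (0 : ℕ))} E := by
    intro x hx
    exact ⟨0, by rw [adr_zero (hE hx)]; rfl⟩
  have h2 := H_le (s := s) this
  rwa [cost_singleton] at h2

lemma H_ne_top {s : ℝ} {E : Set ℝ} (hE : E ⊆ Ico 0 1) : H s E ≠ ∞ :=
  ne_top_of_le_ne_top (W_ne_top s 0) (H_le_W0 hE)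

lemma exists_cover {s : ℝ} {E : Set ℝ} {c : ℝ≥0∞} (h : H s E < c) : ∃ Q, Cov Q E ∧ cost s Q < c := by
  unfold H at h
  obtain ⟨Q, hQ⟩ := iInf_lt_iff.1 h
  obtain ⟨h1, h2⟩ := iInf_lt_iff.1 hQ
  exact ⟨Q, h1, h2⟩

/-- the increasing sets lemma -/
lemma H_iUnion {s : ℝ} (hs : 0 ≤ s) (hs1 : s ≤ 1) (A : ℕ → Set ℝ) (hmono : Monotone A)
    (hA : ∀ n, A n ⊆ Ico 0 1) : H s (⋃ n, A n) ≤ ⨆ n, H s (A n) := by
  classical
  refine ENNReal.le_of_forall_pos_le_add fun ε hε _ => ?_
  obtain ⟨e, he, hsum⟩ := ENNReal.exists_pos_sum_of_countable (ε := (ε : ℝ≥0∞)) (by simpa using hε.ne') ℕ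
  have hQ : ∀ n, ∃ Q, Cov Q (A n) ∧ cost s Q < H s (A n) + e n := fun n =>
    exists_cover (ENNReal.lt_add_right (H_ne_top (hA n)) (by simpa using (he n).ne'))
  choose Q hQc hQcost using hQ
  set U : ℕ → Set ℝ := fun n => {x | x ∈ Ico (0 : ℝ) 1 ∧ ∃ k, (k, adr k x) ∈ Q n} with hU
  have hUcov : ∀ n, Cov (Q n) (U n) := fun n x hx => hx.2
  have hAU : ∀ n, A n ⊆ U n := fun n x hx => ⟨hA n hx, hQc n x hx⟩
  have hUop : ∀ n, ∀ x ∈ U n, ∃ k, I (k, adr k x) ⊆ U n := by
    rintro n x ⟨hx, k, hk⟩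
    refine ⟨k, fun y hy => ⟨hy.1, k, ?_⟩⟩
    have : adr k y = adr k x := hy.2
    rw [this]
    exact hk
  have hcl : ∀ n, H s (accumulate U n) ≤ H s (A n) + ∑ i ∈ Finset.range (n + 1), (e i : ℝ≥0∞) := by
    intro n
    induction n with
    | zero =>
      simp only [accumulate_zero_nat, zero_add, Finset.range_one, Finset.sum_singleton]
      exact (H_le (hUcov 0)).trans (hQcost 0).le
    | succ n ih =>
      have hfin : H s (A n) ≠ ∞ := H_ne_top (hA n)
      rw [accumulate_succ]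
      have h1 := strong_sub s (accumulate U n) (U (n + 1))
      have h2 : H s (A n) ≤ H s (accumulate U n ∩ U (n + 1)) := by
        apply H_mono
        refine subset_inter ((hAU n).trans subset_accumulate) ((hmono (Nat.le_succ n)).trans (hAU _))
      have h3 : H s (accumulate U n ∪ U (n + 1)) + H s (A n) ≤
          (H s (A (n + 1)) + ∑ i ∈ Finset.range (n + 1 + 1), (e i : ℝ≥0∞)) + H s (A n) := by
        refine (add_le_add le_rfl h2).trans (h1.trans ((add_le_add ih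
          ((H_le (hUcov (n + 1))).trans (hQcost (n + 1)).le)).trans ?_))
        rw [Finset.sum_range_succ _ (n + 1)]
        apply le_of_eq
        ring
      exact (ENNReal.add_le_add_iff_right hfin).1 h3
  have hsub : (⋃ n, A n) ⊆ ⋃ n, accumulate U n := by
    refine iUnion_mono fun n => (hAU n).trans subset_accumulate
  refine (H_mono hsub).trans ((H_iUnion_open hs hs1 _ monotone_accumulate ?_ ?_).trans ?_)
  · intro n x hx
    obtain ⟨i, -, hi⟩ := mem_accumulate.1 hx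
    exact hi.1
  · intro n x hx
    obtain ⟨i, hin, hi⟩ := mem_accumulate.1 hx
    obtain ⟨k, hk⟩ := hUop i x hi
    exact ⟨k, hk.trans fun y hy => mem_accumulate.2 ⟨i, hin, hy⟩⟩
  · refine iSup_le fun n => (hcl n).trans ?_
    refine add_le_add (le_iSup (fun n => H s (A n)) n) ?_
    exact (ENNReal.sum_le_tsum _).trans hsum.le

lemma I_ediam_le (q : ℕ × ℕ) : Metric.ediam (I q) ≤ ENNReal.ofReal (1 / 2 ^ q.1) := by
  refine Metric.ediam_le ?_
  rintro x ⟨hx, hx1⟩ y ⟨hy, hy1⟩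
  rw [edist_dist]
  apply ENNReal.ofReal_le_ofReal
  have hp : (0 : ℝ) < 2 ^ q.1 := by positivity
  have hx0 : 0 ≤ x * 2 ^ q.1 := mul_nonneg hx.1 hp.le
  have hy0 : 0 ≤ y * 2 ^ q.1 := mul_nonneg hy.1 hp.le
  unfold adr at hx1 hy1
  have a1 := Nat.floor_le hx0
  have a2 := Nat.lt_floor_add_one (x * 2 ^ q.1)
  have b1 := Nat.floor_le hy0
  have b2 := Nat.lt_floor_add_one (y * 2 ^ q.1)
  rw [hx1] at a1 a2
  rw [hy1] at b1 b2
  rw [Real.dist_eq, abs_le, le_div_iff₀ hp, ← neg_div, div_le_iff₀ hp]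
  constructor <;> nlinarith

/-- sets of dimension larger than `s` have positive content -/
lemma H_pos {A : Set ℝ} (hA01 : A ⊆ Ico 0 1) {s : ℝ} (hs0 : 0 < s)
    (h : ENNReal.ofReal s < dimH A) : 0 < H s A := by
  classical
  rw [pos_iff_ne_zero]
  intro h0
  have hQ : ∀ n : ℕ, ∃ Q, Cov Q A ∧ cost s Q < ((n : ℝ≥0∞) + 1)⁻¹ := fun n => by
    apply exists_cover
    rw [h0, ENNReal.inv_pos]
    exact ENNReal.add_ne_top.2 ⟨ENNReal.natCast_ne_top n, ENNReal.one_ne_top⟩
  choose Q hQc hQcost using hQ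
  have hlim : Filter.Tendsto (fun n : ℕ => ((n : ℝ≥0∞) + 1)⁻¹) Filter.atTop (nhds 0) := by
    have := (Filter.tendsto_add_atTop_iff_nat 1).2 ENNReal.tendsto_inv_nat_nhds_zero
    simpa using this
  have hlim2 : Filter.Tendsto (fun n : ℕ => (((n : ℝ≥0∞) + 1)⁻¹) ^ s⁻¹) Filter.atTop (nhds 0) := by
    have h1 := (ENNReal.continuous_rpow_const (y := s⁻¹)).tendsto 0
    rw [ENNReal.zero_rpow_of_pos (by positivity)] at h1
    exact h1.comp hlim
  have hdiam : ∀ n q, (Metric.ediam (if q ∈ Q n then I q else (∅ : Set ℝ))) ^ s ≤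
      (Q n).indicator (fun q => W s q.1) q := by
    intro n q
    by_cases hq : q ∈ Q n
    · rw [if_pos hq, indicator_of_mem hq]
      unfold W wt
      rw [← ENNReal.ofReal_rpow_of_nonneg (by positivity) hs0.le]
      exact ENNReal.rpow_le_rpow (I_ediam_le q) hs0.le
    · rw [if_neg hq, indicator_of_notMem hq, Metric.ediam_empty, ENNReal.zero_rpow_of_pos hs0]
  have key : μH[s] A ≤ 0 := by
    have h1 := Measure.hausdorffMeasure_le_liminf_tsum (X := ℝ) (ι := fun _ : ℕ => ℕ × ℕ) s A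
      (fun n : ℕ => (((n : ℝ≥0∞) + 1)⁻¹) ^ s⁻¹) hlim2
      (fun n q => if q ∈ Q n then I q else ∅) ?_ ?_
    · refine h1.trans ?_
      have h2 : Filter.liminf (fun n : ℕ => ∑' q, (Metric.ediam (if q ∈ Q n then I q else (∅ : Set ℝ))) ^ s)
          Filter.atTop ≤ Filter.liminf (fun n : ℕ => ((n : ℝ≥0∞) + 1)⁻¹) Filter.atTop := by
        refine Filter.liminf_le_liminf (Filter.Eventually.of_forall fun n => ?_)
        exact (ENNReal.tsum_le_tsum (hdiam n)).trans (hQcost n).le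
      refine h2.trans ?_
      rw [hlim.liminf_eq]
    · refine Filter.Eventually.of_forall fun n q => ?_
      have h2 : (Metric.ediam (if q ∈ Q n then I q else (∅ : Set ℝ))) ^ s ≤ ((n : ℝ≥0∞) + 1)⁻¹ :=
        (hdiam n q).trans ((ENNReal.le_tsum q).trans (hQcost n).le)
      rw [ENNReal.le_rpow_inv_iff hs0]
      exact h2
    · refine Filter.Eventually.of_forall fun n x hx => ?_
      obtain ⟨k, hk⟩ := hQc n x hx
      rw [mem_iUnion]
      refine ⟨(k, adr k x), ?_⟩
      rw [if_pos hk]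
      exact ⟨hA01 hx, rfl⟩
  have h3 : dimH A ≤ (s.toNNReal : ℝ≥0∞) := by
    apply dimH_le_of_hausdorffMeasure_ne_top
    rw [Real.coe_toNNReal s hs0.le]
    exact ne_top_of_le_ne_top ENNReal.zero_ne_top key
  exact absurd h (not_lt.2 h3)


/-- sequences bounded by `n` on the first `k` coordinates -/
def Bd (n : ℕ → ℕ) (k : ℕ) : Set (ℕ → ℕ) := {x | ∀ i < k, x i ≤ n i}

/-- capacitability of Borel sets -/
lemma capacitable {s : ℝ} (hs : 0 ≤ s) (hs1 : s ≤ 1) {A : Set ℝ} (hA : MeasurableSet A)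
    (hA01 : A ⊆ Ico 0 1) {c : ℝ≥0∞} (hc : c < H s A) :
    ∃ K ⊆ A, IsCompact K ∧ ∀ U, IsOpen U → K ⊆ U → c < H s (U ∩ Ico 0 1) := by
  classical
  have han := hA.analyticSet
  rw [AnalyticSet] at han
  rcases han with h0 | ⟨f, hf, hfr⟩
  · exfalso
    rw [h0] at hc
    have : H s (∅ : Set ℝ) ≤ cost s ∅ := H_le (fun x hx => hx.elim)
    have h2 : cost s ∅ = 0 := by unfold cost; simp
    rw [h2] at this
    exact absurd (hc.trans_le this) (not_lt.2 zero_le)
  · have hsubA : ∀ B : Set (ℕ → ℕ), f '' B ⊆ Ico 0 1 := fun B =>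
      (image_subset_range f B).trans (hfr ▸ hA01)
    have step : ∀ (n : ℕ → ℕ) (k : ℕ), c < H s (f '' Bd n k) →
        ∃ m, c < H s (f '' Bd (Function.update n k m) (k + 1)) := by
      intro n k h
      have hU : f '' Bd n k ⊆ ⋃ m, f '' Bd (Function.update n k m) (k + 1) := by
        rintro _ ⟨x, hx, rfl⟩
        rw [mem_iUnion]
        refine ⟨x k, x, ?_, rfl⟩
        intro i hi
        rcases (Nat.lt_succ_iff.1 hi).lt_or_eq with h | h
        · rw [Function.update_of_ne h.ne]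
          exact hx i h
        · subst h
          rw [Function.update_self]
      have h2 := h.trans_le ((H_mono hU).trans (H_iUnion hs hs1 _ ?_ (fun _ => hsubA _)))
      · exact lt_iSup_iff.1 h2
      · intro a b hab
        apply image_mono
        intro x hx i hi
        refine (hx i hi).trans ?_
        by_cases h : i = k
        · subst h; simpa using hab
        · rw [Function.update_of_ne h, Function.update_of_ne h]
    have h0 : c < H s (f '' Bd (fun _ => 0) 0) := by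
      have : f '' Bd (fun _ => 0) 0 = A := by
        rw [← hfr, ← image_univ]
        congr 1
        ext x
        simp [Bd]
      rwa [this]
    choose! m hm using step
    let g : ℕ → (ℕ → ℕ) := fun k => Nat.rec (fun _ => 0) (fun k p => Function.update p k (m p k)) k
    have hg0 : g 0 = fun _ => 0 := rfl
    have hgs : ∀ k, g (k + 1) = Function.update (g k) k (m (g k) k) := fun k => rfl
    have hgc : ∀ k, c < H s (f '' Bd (g k) k) := by
      intro k
      induction k with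
      | zero => exact h0
      | succ k ih => rw [hgs]; exact hm _ _ ih
    set nn : ℕ → ℕ := fun i => g (i + 1) i with hnn
    have hgn : ∀ k, ∀ i < k, g k i = nn i := by
      intro k
      induction k with
      | zero => intro i hi; exact absurd hi (Nat.not_lt_zero _)
      | succ k ih =>
        intro i hi
        rcases (Nat.lt_succ_iff.1 hi).lt_or_eq with h | h
        · rw [hgs, Function.update_of_ne h.ne]
          exact ih i h
        · subst h; rfl
    have hBd : ∀ k, Bd (g k) k = Bd nn k := by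
      intro k
      ext x
      constructor
      · intro hx i hi
        rw [← hgn k i hi]
        exact hx i hi
      · intro hx i hi
        rw [hgn k i hi]
        exact hx i hi
    have hP : IsCompact (Set.pi univ fun i => Iic (nn i)) :=
      isCompact_univ_pi fun i => (Set.finite_Iic (nn i)).isCompact
    refine ⟨f '' (Set.pi univ fun i => Iic (nn i)), ?_, hP.image hf, ?_⟩
    · rw [← hfr]; exact image_subset_range _ _
    · intro U hU hKU
      have hk : ∃ k, f '' Bd nn k ⊆ U := by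
        by_contra hcon
        push Not at hcon
        have hcon' : ∀ k, ∃ x ∈ Bd nn k, f x ∉ U := by
          intro k
          obtain ⟨y, ⟨x, hx, rfl⟩, hy⟩ := not_subset.1 (hcon k)
          exact ⟨x, hx, hy⟩
        choose x hx hxU using hcon'
        obtain ⟨y0, hy0, φ, hφ, ht⟩ := hP.tendsto_subseq (x := fun k i => min (x k i) (nn i))
          (by intro k i _; show min (x k i) (nn i) ≤ nn i; exact min_le_right _ _)
        have ht2 : Filter.Tendsto (fun k => x (φ k)) Filter.atTop (nhds y0) := by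
          rw [tendsto_pi_nhds] at ht ⊢
          intro i
          refine (ht i).congr' ?_
          filter_upwards [Filter.eventually_gt_atTop i] with k hk
          have h1 : i < φ k := hk.trans_le (hφ.id_le k)
          exact min_eq_left (hx (φ k) i h1)
        have ht3 := (hf.tendsto y0).comp ht2
        have hfy : f y0 ∈ U := hKU ⟨y0, hy0, rfl⟩
        obtain ⟨k, hk⟩ := (ht3.eventually (hU.mem_nhds hfy)).exists
        exact hxU _ hk
      obtain ⟨k, hk⟩ := hk
      have h1 := hgc k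
      rw [hBd] at h1
      exact h1.trans_le (H_mono (subset_inter hk (hsubA _)))

lemma cost_image_le (s : ℝ) (Q : Set (ℕ × ℕ)) (φ : ℕ × ℕ → ℕ × ℕ) (hφ : ∀ q, (φ q).1 = q.1) :
    cost s (φ '' Q) ≤ cost s Q := by
  unfold cost
  rw [← tsum_subtype, ← tsum_subtype]
  have h := ENNReal.tsum_le_tsum_comp_of_surjective (f := fun q : Q => (⟨φ q, mem_image_of_mem φ q.2⟩ : φ '' Q))
    (by rintro ⟨_, q, hq, rfl⟩; exact ⟨⟨q, hq⟩, rfl⟩) (fun q => W s q.1.1)
  refine h.trans (le_of_eq ?_)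
  congr 1
  ext q
  simp only [hφ]

/-- the content of a set with large open neighbourhoods -/
lemma cost_ge {s : ℝ} {K : Set ℝ} (hK01 : K ⊆ Ico 0 1) {c : ℝ≥0∞}
    (hK : ∀ U, IsOpen U → K ⊆ U → c < H s (U ∩ Ico 0 1)) {Q : Set (ℕ × ℕ)} (hQ : Cov Q K) :
    c ≤ 3 * cost s Q := by
  classical
  set U : Set ℝ := ⋃ q ∈ Q, Ioo (((q.2 : ℝ) - 1) / 2 ^ q.1) (((q.2 : ℝ) + 2) / 2 ^ q.1) with hU
  have hUo : IsOpen U := isOpen_biUnion fun q _ => isOpen_Ioo
  have hKU : K ⊆ U := by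
    intro x hx
    obtain ⟨k, hk⟩ := hQ x hx
    rw [hU, mem_iUnion₂]
    refine ⟨_, hk, ?_⟩
    have hp : (0 : ℝ) < 2 ^ k := by positivity
    have hx0 : 0 ≤ x * 2 ^ k := mul_nonneg (hK01 hx).1 hp.le
    have a1 := Nat.floor_le hx0
    have a2 := Nat.lt_floor_add_one (x * 2 ^ k)
    unfold adr
    simp only [mem_Ioo]
    rw [div_lt_iff₀ hp, lt_div_iff₀ hp]
    constructor <;> linarith
  have h1 := (hK U hUo hKU).le
  have hcov : Cov (Q ∪ ((fun q : ℕ × ℕ => (q.1, q.2 + 1)) '' Q ∪ (fun q : ℕ × ℕ => (q.1, q.2 - 1)) '' Q))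
      (U ∩ Ico 0 1) := by
    rintro x ⟨hxU, hx⟩
    rw [hU, mem_iUnion₂] at hxU
    obtain ⟨⟨k, m⟩, hq, hxq⟩ := hxU
    simp only [mem_Ioo] at hxq
    have hp : (0 : ℝ) < 2 ^ k := by positivity
    rw [div_lt_iff₀ hp, lt_div_iff₀ hp] at hxq
    have hx0 : 0 ≤ x * 2 ^ k := mul_nonneg hx.1 hp.le
    have a1 := Nat.floor_le hx0
    have a2 := Nat.lt_floor_add_one (x * 2 ^ k)
    refine ⟨k, ?_⟩
    have h3 : (adr k x : ℝ) < m + 2 := lt_of_le_of_lt a1 hxq.2
    have h4 : (m : ℝ) - 1 < adr k x + 1 := lt_of_lt_of_le hxq.1 a2.le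
    have h3' : adr k x < m + 2 := by exact_mod_cast h3
    have h4' : m < adr k x + 2 := by
      have : (m : ℝ) < adr k x + 2 := by linarith
      exact_mod_cast this
    have h5 : adr k x = m ∨ adr k x = m + 1 ∨ adr k x = m - 1 := by omega
    rcases h5 with h | h | h
    · left; rw [h]; exact hq
    · right; left; exact ⟨(k, m), hq, by simp [h]⟩
    · right; right; exact ⟨(k, m), hq, by simp [h]⟩
  refine h1.trans ((H_le hcov).trans ?_)
  refine (cost_union_le _ _ _).trans ?_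
  refine (add_le_add le_rfl (cost_union_le _ _ _)).trans ?_
  have e1 := cost_image_le s Q (fun q : ℕ × ℕ => (q.1, q.2 + 1)) (fun _ => rfl)
  have e2 := cost_image_le s Q (fun q : ℕ × ℕ => (q.1, q.2 - 1)) (fun _ => rfl)
  refine (add_le_add le_rfl (add_le_add e1 e2)).trans ?_
  apply le_of_eq
  ring


open Classical in
/-- capacities of the nodes, from the leaves (level `N`) upwards; `cap s K N d m` belongs to the node
`(N - d, m)` -/
def cap (s : ℝ) (K : Set ℝ) (N : ℕ) : ℕ → ℕ → ℝ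
  | 0, m => if ∃ x ∈ K, adr N x = m then wt s N else 0
  | d + 1, m => min (wt s (N - (d + 1))) (cap s K N d (2 * m) + cap s K N d (2 * m + 1))

lemma cap_nonneg (s : ℝ) (K : Set ℝ) (N : ℕ) : ∀ d m, 0 ≤ cap s K N d m := by
  intro d
  induction d with
  | zero =>
    intro m
    unfold cap
    split_ifs
    · exact (wt_pos s N).le
    · exact le_rfl
  | succ d ih =>
    intro m
    unfold cap
    exact le_min (wt_pos s _).le (add_nonneg (ih _) (ih _))

lemma cap_le_wt (s : ℝ) (K : Set ℝ) (N : ℕ) : ∀ d m, cap s K N d m ≤ wt s (N - d) := by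
  intro d m
  cases d with
  | zero =>
    unfold cap
    split_ifs
    · exact le_rfl
    · exact (wt_pos s N).le
  | succ d =>
    unfold cap
    exact min_le_left _ _

lemma cap_cover (s : ℝ) (K : Set ℝ) (N : ℕ) : ∀ d, d ≤ N → ∀ m, ∃ Q : Finset (ℕ × ℕ),
    Cov (Q : Set (ℕ × ℕ)) (K ∩ I (N - d, m)) ∧ ∑ q ∈ Q, wt s q.1 ≤ cap s K N d m := by
  classical
  intro d
  induction d with
  | zero =>
    intro _ m
    by_cases h : ∃ x ∈ K, adr N x = m
    · refine ⟨{(N, m)}, ?_, ?_⟩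
      · rintro x ⟨_, hx⟩
        exact ⟨N, by have := hx.2; simp only [Nat.sub_zero] at this; simp [this]⟩
      · rw [cap, if_pos h]
        simp
    · refine ⟨∅, ?_, ?_⟩
      · rintro x ⟨hxK, hx⟩
        exact absurd ⟨x, hxK, hx.2⟩ h
      · rw [cap, if_neg h]
        simp
  | succ d ih =>
    intro hd m
    by_cases hmin : wt s (N - (d + 1)) ≤ cap s K N d (2 * m) + cap s K N d (2 * m + 1)
    · refine ⟨{(N - (d + 1), m)}, ?_, ?_⟩
      · rintro x ⟨_, hx⟩
        exact ⟨N - (d + 1), by have := hx.2; simp only at this; simp [this]⟩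
      · rw [cap, min_eq_left hmin]
        simp
    · push Not at hmin
      obtain ⟨Q0, h0, c0⟩ := ih (by omega) (2 * m)
      obtain ⟨Q1, h1, c1⟩ := ih (by omega) (2 * m + 1)
      refine ⟨Q0 ∪ Q1, ?_, ?_⟩
      · rintro x ⟨hxK, hx⟩
        rw [I_child_union] at hx
        have e : N - (d + 1) + 1 = N - d := by omega
        rcases hx with hx | hx
        · have hx' : x ∈ I (N - d, 2 * m) := by
            rw [ch, e] at hx
            exact hx
          obtain ⟨k, hk⟩ := h0 x ⟨hxK, hx'⟩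
          exact ⟨k, by push_cast; exact Or.inl hk⟩
        · have hx' : x ∈ I (N - d, 2 * m + 1) := by
            rw [ch, e] at hx
            exact hx
          obtain ⟨k, hk⟩ := h1 x ⟨hxK, hx'⟩
          exact ⟨k, by push_cast; exact Or.inr hk⟩
      · rw [cap, min_eq_right hmin.le]
        have h3 := Finset.sum_union_inter (s₁ := Q0) (s₂ := Q1) (f := fun q : ℕ × ℕ => wt s q.1)
        have h4 : 0 ≤ ∑ q ∈ Q0 ∩ Q1, wt s q.1 := Finset.sum_nonneg fun q _ => (wt_pos s _).le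
        linarith

/-- the normalised flow from the root to the leaves -/
def flow (s : ℝ) (K : Set ℝ) (N : ℕ) : ℕ → ℕ → ℝ
  | 0, m => if m = 0 then 1 else 0
  | k + 1, m => flow s K N k (m / 2) * (cap s K N (N - (k + 1)) m /
      (cap s K N (N - (k + 1)) (2 * (m / 2)) + cap s K N (N - (k + 1)) (2 * (m / 2) + 1)))

lemma flow_nonneg (s : ℝ) (K : Set ℝ) (N : ℕ) : ∀ k m, 0 ≤ flow s K N k m := by
  intro k
  induction k with
  | zero =>
    intro m
    unfold flow
    split_ifs <;> norm_num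
  | succ k ih =>
    intro m
    unfold flow
    exact mul_nonneg (ih _) (div_nonneg (cap_nonneg _ _ _ _ _)
      (add_nonneg (cap_nonneg _ _ _ _ _) (cap_nonneg _ _ _ _ _)))

lemma flow_le (s : ℝ) (K : Set ℝ) (N : ℕ) (hroot : 0 < cap s K N N 0) :
    ∀ k, k ≤ N → ∀ m, flow s K N k m ≤ cap s K N (N - k) m / cap s K N N 0 := by
  intro k
  induction k with
  | zero =>
    intro _ m
    unfold flow
    by_cases hm : m = 0
    · subst hm
      rw [if_pos rfl, Nat.sub_zero, div_self hroot.ne']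
    · rw [if_neg hm]
      exact div_nonneg (cap_nonneg _ _ _ _ _) hroot.le
  | succ k ih =>
    intro hk m
    unfold flow
    have e : N - k = N - (k + 1) + 1 := by omega
    have h1 := ih (by omega) (m / 2)
    rw [e, cap] at h1
    set S := cap s K N (N - (k + 1)) (2 * (m / 2)) + cap s K N (N - (k + 1)) (2 * (m / 2) + 1) with hS
    have hS0 : 0 ≤ S := add_nonneg (cap_nonneg _ _ _ _ _) (cap_nonneg _ _ _ _ _)
    have h2 : flow s K N k (m / 2) ≤ S / cap s K N N 0 :=
      h1.trans (div_le_div_of_nonneg_right (min_le_right _ _) hroot.le)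
    have hc := cap_nonneg s K N (N - (k + 1)) m
    rcases hS0.eq_or_lt with h0 | hpos
    · rw [← h0, div_zero, mul_zero]
      exact div_nonneg hc hroot.le
    · calc flow s K N k (m / 2) * (cap s K N (N - (k + 1)) m / S)
          ≤ (S / cap s K N N 0) * (cap s K N (N - (k + 1)) m / S) :=
            mul_le_mul_of_nonneg_right h2 (div_nonneg hc hpos.le)
        _ = cap s K N (N - (k + 1)) m / cap s K N N 0 := by
            field_simp

lemma flow_add (s : ℝ) (K : Set ℝ) (N : ℕ) (hroot : 0 < cap s K N N 0) (k : ℕ) (hk : k + 1 ≤ N) (m : ℕ) :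
    flow s K N (k + 1) (2 * m) + flow s K N (k + 1) (2 * m + 1) = flow s K N k m := by
  have e1 : 2 * m / 2 = m := by omega
  have e2 : (2 * m + 1) / 2 = m := by omega
  rw [flow, flow, e1, e2]
  set S := cap s K N (N - (k + 1)) (2 * m) + cap s K N (N - (k + 1)) (2 * m + 1) with hS
  have hS0 : 0 ≤ S := add_nonneg (cap_nonneg _ _ _ _ _) (cap_nonneg _ _ _ _ _)
  rcases hS0.eq_or_lt with h0 | hpos
  · have h1 := flow_le s K N hroot k (by omega) m
    have e : N - k = N - (k + 1) + 1 := by omega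
    rw [e, cap, ← hS] at h1
    have h2 : flow s K N k m ≤ S / cap s K N N 0 :=
      h1.trans (div_le_div_of_nonneg_right (min_le_right _ _) hroot.le)
    rw [← h0, zero_div] at h2
    have h3 : flow s K N k m = 0 := le_antisymm h2 (flow_nonneg _ _ _ _ _)
    rw [h3]
    simp
  · rw [← mul_add, ← add_div, ← hS, div_self hpos.ne', mul_one]

lemma flow_sum (s : ℝ) (K : Set ℝ) (N : ℕ) (hroot : 0 < cap s K N N 0) (e : ℕ) : ∀ k, k + e ≤ N → ∀ m,
    ∑ i ∈ Finset.Ico (m * 2 ^ e) ((m + 1) * 2 ^ e), flow s K N (k + e) i = flow s K N k m := by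
  induction e with
  | zero => intro k _ m; simp
  | succ e ih =>
    intro k hk m
    have h1 := ih (k + 1) (by omega) (2 * m)
    have h2 := ih (k + 1) (by omega) (2 * m + 1)
    have e0 : k + 1 + e = k + (e + 1) := by omega
    rw [e0] at h1 h2
    have e1 : m * 2 ^ (e + 1) = 2 * m * 2 ^ e := by ring
    have e2 : (m + 1) * 2 ^ (e + 1) = (2 * m + 1 + 1) * 2 ^ e := by ring
    rw [e1, e2, ← Finset.sum_Ico_consecutive _ (show 2 * m * 2 ^ e ≤ (2 * m + 1) * 2 ^ e from
      Nat.mul_le_mul_right _ (by omega)) (show (2 * m + 1) * 2 ^ e ≤ (2 * m + 1 + 1) * 2 ^ e from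
      Nat.mul_le_mul_right _ (by omega)), h1, h2]
    exact flow_add s K N hroot k (by omega) m

end

end Pool.Agent.Lib.MP_e5d0a4_an.Frostman

namespace Pool.Agent.Lib.MP_e5d0a4_an

open Frostman

/-- A discrete Frostman lemma: a Borel subset `A` of `[0,1)` of Hausdorff dimension larger than `s`
contains a compact set `K` such that, at every dyadic scale `2 ^ (-N)`, there is a probability weight
`w` on the dyadic points of the scale which is carried by the points close to `K` and satisfies the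
Frostman condition of exponent `s` down to the scale, with a constant independent of `N`. -/
theorem exists_compact_weights {A : Set ℝ} (hA : MeasurableSet A) (hA01 : A ⊆ Set.Ico 0 1) {s : ℝ}
    (hs0 : 0 < s) (hs1 : s ≤ 1) (h : ENNReal.ofReal s < dimH A) :
    ∃ K : Set ℝ, K ⊆ A ∧ IsCompact K ∧ ∃ C : ℝ, 0 < C ∧ ∀ N : ℕ, ∃ w : ℕ → ℝ, (∀ i, 0 ≤ w i) ∧
      (∀ i, w i ≠ 0 → i < 2 ^ N ∧ ∃ x ∈ K, |x - (i : ℝ) / 2 ^ N| ≤ 1 / 2 ^ N) ∧
      ∑ i ∈ Finset.range (2 ^ N), w i = 1 ∧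
      ∀ m L : ℕ, 1 ≤ L → ∑ i ∈ Finset.Ico m (m + L), w i ≤ C * ((L : ℝ) / 2 ^ N) ^ s := by
  classical
  have hpos := H_pos hA01 hs0 h
  obtain ⟨c, hc0, hcH⟩ := exists_between hpos
  obtain ⟨K, hKA, hKc, hK⟩ := capacitable hs0.le hs1 hA hA01 hcH
  have hctop : c ≠ ∞ := hcH.ne_top
  have hc'pos : 0 < c.toReal := ENNReal.toReal_pos hc0.ne' hctop
  set c' := c.toReal with hc'
  refine ⟨K, hKA, hKc, 1 + 12 / c', by positivity, ?_⟩
  intro N
  have hroot : c' / 3 ≤ cap s K N N 0 := by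
    obtain ⟨Q, hQ, hsum⟩ := cap_cover s K N N le_rfl 0
    have hQ' : Cov (Q : Set (ℕ × ℕ)) K := by
      intro x hx
      apply hQ x ⟨hx, ?_⟩
      rw [Nat.sub_self, I_root]
      exact hA01 (hKA hx)
    have h1 := cost_ge (hKA.trans hA01) hK hQ'
    have h2 : cost s (Q : Set (ℕ × ℕ)) = ENNReal.ofReal (∑ q ∈ Q, wt s q.1) := by
      unfold cost
      rw [tsum_eq_sum (s := Q) (fun q hq => by simp [hq]), ENNReal.ofReal_sum_of_nonneg
        (fun q _ => (wt_pos s _).le)]
      refine Finset.sum_congr rfl fun q hq => ?_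
      simp [hq, W]
    have h3 : 0 ≤ ∑ q ∈ Q, wt s q.1 := Finset.sum_nonneg fun q _ => (wt_pos s _).le
    rw [h2] at h1
    have h4 : c' ≤ 3 * ∑ q ∈ Q, wt s q.1 := by
      have h5 := ENNReal.toReal_mono (by finiteness) h1
      rw [ENNReal.toReal_mul, ENNReal.toReal_ofReal h3] at h5
      simpa using h5
    linarith
  have hrpos : 0 < cap s K N N 0 := lt_of_lt_of_le (by positivity) hroot
  have hsupp : ∀ i, flow s K N N i ≠ 0 → ∃ x ∈ K, adr N x = i := by
    intro i hi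
    have h1 := flow_le s K N hrpos N le_rfl i
    rw [Nat.sub_self, cap] at h1
    by_contra hcon
    rw [if_neg hcon, zero_div] at h1
    exact hi (le_antisymm h1 (flow_nonneg _ _ _ _ _))
  have hlt : ∀ i, flow s K N N i ≠ 0 → i < 2 ^ N := by
    intro i hi
    obtain ⟨x, hx, rfl⟩ := hsupp i hi
    exact adr_lt (hA01 (hKA hx)) N
  have htot : ∑ i ∈ Finset.range (2 ^ N), flow s K N N i = 1 := by
    have h1 := flow_sum s K N hrpos N 0 (by omega) 0
    simp only [Nat.zero_mul, Nat.zero_add, Nat.one_mul] at h1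
    rw [Finset.range_eq_Ico, h1]
    rfl
  refine ⟨flow s K N N, flow_nonneg _ _ _ _, ?_, htot, ?_⟩
  · intro i hi
    refine ⟨hlt i hi, ?_⟩
    obtain ⟨x, hx, rfl⟩ := hsupp i hi
    refine ⟨x, hx, ?_⟩
    have hx01 := hA01 (hKA hx)
    have hp : (0 : ℝ) < 2 ^ N := by positivity
    have hx0 : 0 ≤ x * 2 ^ N := mul_nonneg hx01.1 hp.le
    have a1 := Nat.floor_le hx0
    have a2 := Nat.lt_floor_add_one (x * 2 ^ N)
    unfold adr
    have e : x - (⌊x * 2 ^ N⌋₊ : ℝ) / 2 ^ N = (x * 2 ^ N - ⌊x * 2 ^ N⌋₊) / 2 ^ N := by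
      field_simp
    rw [e, abs_of_nonneg (div_nonneg (by linarith) hp.le)]
    exact div_le_div_of_nonneg_right (by linarith) hp.le
  · intro m L hL
    have hLpos : (0 : ℝ) < (L : ℝ) := by exact_mod_cast hL
    have hp : (0 : ℝ) < 2 ^ N := by positivity
    have hLN : 0 < ((L : ℝ) / 2 ^ N) := by positivity
    rcases le_or_gt (2 ^ N) L with hbig | hsmall
    · have h1 : ∑ i ∈ Finset.Ico m (m + L), flow s K N N i ≤ 1 := by
        rw [← htot, ← Finset.sum_filter_ne_zero (s := Finset.Ico m (m + L))]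
        apply Finset.sum_le_sum_of_subset_of_nonneg
        · intro i hi
          rw [Finset.mem_filter] at hi
          exact Finset.mem_range.2 (hlt i hi.2)
        · intro i _ _
          exact flow_nonneg _ _ _ _ _
      have h2 : 1 ≤ ((L : ℝ) / 2 ^ N) ^ s := by
        apply Real.one_le_rpow _ hs0.le
        rw [le_div_iff₀ hp, one_mul]
        exact_mod_cast hbig
      have h3 : 0 ≤ 12 / c' := by positivity
      nlinarith
    · set j := Nat.clog 2 L with hj
      have hj1 : L ≤ 2 ^ j := Nat.le_pow_clog (by norm_num) L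
      have hjN : j ≤ N := by
        rw [hj, Nat.clog_le_iff_le_pow (by norm_num)]
        exact hsmall.le
      have hj2 : 2 ^ j ≤ 2 * L := by
        rcases Nat.lt_or_ge 1 L with h1 | h1
        · have h3 : 2 ^ (j - 1) < L := Nat.pow_pred_clog_lt_self (by norm_num) h1
          have hjpos : 0 < j := Nat.clog_pos (by norm_num) h1
          have h4 : 2 ^ j = 2 * 2 ^ (j - 1) := by
            rw [← pow_succ']; congr 1; omega
          omega
        · have : L = 1 := le_antisymm h1 hL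
          rw [hj, this]; simp
      have hblock : ∀ p, ∑ i ∈ Finset.Ico (p * 2 ^ j) ((p + 1) * 2 ^ j), flow s K N N i ≤
          wt s (N - j) / (c' / 3) := by
        intro p
        have h1 := flow_sum s K N hrpos j (N - j) (by omega) p
        rw [Nat.sub_add_cancel hjN] at h1
        rw [h1]
        refine (flow_le s K N hrpos (N - j) (by omega) p).trans ?_
        refine div_le_div₀ (wt_pos s _).le ?_ (by positivity) hroot
        have := cap_le_wt s K N (N - (N - j)) p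
        have e : N - (N - (N - j)) = N - j := by omega
        rwa [e] at this
      have hwt : wt s (N - j) ≤ 2 * ((L : ℝ) / 2 ^ N) ^ s := by
        unfold wt
        have e1 : (1 : ℝ) / 2 ^ (N - j) = 2 ^ j / 2 ^ N := by
          rw [div_eq_div_iff (by positivity) (by positivity), one_mul, ← pow_add]
          congr 1
          omega
        rw [e1]
        have h1 : ((2 : ℝ) ^ j / 2 ^ N) ≤ 2 * ((L : ℝ) / 2 ^ N) := by
          rw [← mul_div_assoc]
          apply div_le_div_of_nonneg_right _ hp.le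
          exact_mod_cast hj2
        calc ((2 : ℝ) ^ j / 2 ^ N) ^ s ≤ (2 * ((L : ℝ) / 2 ^ N)) ^ s :=
              Real.rpow_le_rpow (by positivity) h1 hs0.le
          _ = 2 ^ s * ((L : ℝ) / 2 ^ N) ^ s := Real.mul_rpow (by norm_num) hLN.le
          _ ≤ 2 * ((L : ℝ) / 2 ^ N) ^ s := by
              apply mul_le_mul_of_nonneg_right _ (by positivity)
              calc (2 : ℝ) ^ s ≤ 2 ^ (1 : ℝ) := Real.rpow_le_rpow_of_exponent_le (by norm_num) hs1
                _ = 2 := Real.rpow_one 2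
      set p := m / 2 ^ j with hpdef
      have hm1 : p * 2 ^ j ≤ m := Nat.div_mul_le_self m _
      have hm2 : m < (p + 1) * 2 ^ j := by
        have := Nat.lt_div_mul_add (a := m) (b := 2 ^ j) (by positivity)
        rw [← hpdef] at this
        nlinarith
      have hsub : Finset.Ico m (m + L) ⊆ Finset.Ico (p * 2 ^ j) ((p + 1 + 1) * 2 ^ j) := by
        intro i hi
        rw [Finset.mem_Ico] at hi ⊢
        refine ⟨hm1.trans hi.1, ?_⟩
        have : (p + 1 + 1) * 2 ^ j = (p + 1) * 2 ^ j + 2 ^ j := by ring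
        omega
      have h5 : ∑ i ∈ Finset.Ico m (m + L), flow s K N N i ≤
          wt s (N - j) / (c' / 3) + wt s (N - j) / (c' / 3) := by
        refine (Finset.sum_le_sum_of_subset_of_nonneg hsub fun i _ _ => flow_nonneg _ _ _ _ _).trans ?_
        rw [← Finset.sum_Ico_consecutive _ (show p * 2 ^ j ≤ (p + 1) * 2 ^ j from
          Nat.mul_le_mul_right _ (by omega)) (show (p + 1) * 2 ^ j ≤ (p + 1 + 1) * 2 ^ j from
          Nat.mul_le_mul_right _ (by omega))]
        exact add_le_add (hblock p) (hblock (p + 1))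
      refine h5.trans ?_
      have h6 : wt s (N - j) / (c' / 3) + wt s (N - j) / (c' / 3) = 6 / c' * wt s (N - j) := by
        field_simp
        ring
      rw [h6]
      have h7 : 0 ≤ ((L : ℝ) / 2 ^ N) ^ s := by positivity
      calc 6 / c' * wt s (N - j) ≤ 6 / c' * (2 * ((L : ℝ) / 2 ^ N) ^ s) :=
            mul_le_mul_of_nonneg_left hwt (by positivity)
        _ = 12 / c' * ((L : ℝ) / 2 ^ N) ^ s := by ring
        _ ≤ (1 + 12 / c') * ((L : ℝ) / 2 ^ N) ^ s := by nlinarith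

end Pool.Agent.Lib.MP_e5d0a4_an
end
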