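import Mathlib
import Pool.Agent.Lib.MP_e5d0a4_an.Frostman

section

section

/-!
# Gaussian identities for finite exponential sums
-/

namespace Pool.Agent.Lib.MP_e5d0a4_an

open Finset MeasureTheory
open scoped Real

/-- Gaussian integral against a cosine. -/
lemma integrable_gauss {ρ : ℝ} (hρ : 0 < ρ) :
    Integrable (fun ξ : ℝ => Real.exp (-π * (ξ / ρ) ^ 2)) := by
  have h := integrable_exp_neg_mul_sq (b := π / ρ ^ 2) (by positivity)
  refine h.congr (Filter.Eventually.of_forall fun ξ => ?_)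
  simp only
  congr 1
  field_simp

lemma gauss_cos {ρ : ℝ} (hρ : 0 < ρ) (y : ℝ) :
    ∫ ξ : ℝ, Real.exp (-π * (ξ / ρ) ^ 2) * Real.cos (2 * π * y * ξ) =
      ρ * Real.exp (-π * (ρ * y) ^ 2) := by
  have hb : 0 < (π / ρ ^ 2 : ℝ) := by positivity
  have hb' : 0 < ((π / ρ ^ 2 : ℝ) : ℂ).re := by rw [Complex.ofReal_re]; exact hb
  have h := fourierIntegral_gaussian hb' ((2 * π * y : ℝ) : ℂ)
  have hint : Integrable (fun x : ℝ => Complex.exp (Complex.I * ((2 * π * y : ℝ) : ℂ) * x) *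
      Complex.exp (-((π / ρ ^ 2 : ℝ) : ℂ) * x ^ 2)) := by
    have h2 := integrable_cexp_quadratic hb' (Complex.I * ((2 * π * y : ℝ) : ℂ)) 0
    refine h2.congr (Filter.Eventually.of_forall fun x => ?_)
    simp only
    rw [← Complex.exp_add]
    congr 1
    ring
  have h3 := congrArg Complex.re h
  have h4 := integral_re (𝕜 := ℂ) hint
  simp only [RCLike.re_to_complex] at h4
  rw [← h4] at h3
  have h5 : ∀ x : ℝ, (Complex.exp (Complex.I * ((2 * π * y : ℝ) : ℂ) * x) *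
      Complex.exp (-((π / ρ ^ 2 : ℝ) : ℂ) * x ^ 2)).re =
      Real.exp (-π * (x / ρ) ^ 2) * Real.cos (2 * π * y * x) := by
    intro x
    have e1 : Complex.I * ((2 * π * y : ℝ) : ℂ) * x = ((2 * π * y * x : ℝ) : ℂ) * Complex.I := by
      push_cast
      ring
    have e2 : -((π / ρ ^ 2 : ℝ) : ℂ) * x ^ 2 = ((-π * (x / ρ) ^ 2 : ℝ) : ℂ) := by
      push_cast
      field_simp
    rw [e1, e2, ← Complex.ofReal_exp, Complex.re_mul_ofReal, Complex.exp_ofReal_mul_I_re]
    ring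
  simp only [h5] at h3
  rw [h3]
  have e3 : ((π : ℂ) / ((π / ρ ^ 2 : ℝ) : ℂ)) = ((ρ ^ 2 : ℝ) : ℂ) := by
    push_cast
    have : (π : ℂ) ≠ 0 := by exact_mod_cast Real.pi_ne_zero
    have : (ρ : ℂ) ≠ 0 := by exact_mod_cast hρ.ne'
    field_simp
  have e4 : (-((2 * π * y : ℝ) : ℂ) ^ 2 / (4 * ((π / ρ ^ 2 : ℝ) : ℂ))) =
      ((-π * (ρ * y) ^ 2 : ℝ) : ℂ) := by
    push_cast
    have : (π : ℂ) ≠ 0 := by exact_mod_cast Real.pi_ne_zero
    have : (ρ : ℂ) ≠ 0 := by exact_mod_cast hρ.ne'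
    field_simp
    ring
  have e5 : (((ρ ^ 2 : ℝ) : ℂ)) ^ (1 / 2 : ℂ) = (ρ : ℂ) := by
    have : (1 / 2 : ℂ) = (((1 / 2 : ℝ)) : ℂ) := by push_cast; ring
    rw [this, ← Complex.ofReal_cpow (by positivity), ← Real.sqrt_eq_rpow, Real.sqrt_sq hρ.le]
  rw [e3, e4, e5, ← Complex.ofReal_exp, ← Complex.ofReal_mul, Complex.ofReal_re]

/-- exponential sums -/
noncomputable def SS {ι : Type*} (P : Finset ι) (c y : ι → ℝ) (ξ : ℝ) : ℂ :=
  ∑ p ∈ P, (c p : ℂ) * Complex.exp (((2 * π * y p * ξ : ℝ) : ℂ) * Complex.I)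

/-- squared modulus -/
noncomputable def NN {ι : Type*} (P : Finset ι) (c y : ι → ℝ) (ξ : ℝ) : ℝ :=
  Complex.normSq (SS P c y ξ)

lemma SS_mul_conj {ι κ : Type*} (P : Finset ι) (c y : ι → ℝ) (Q : Finset κ) (d z : κ → ℝ)
    (ξ : ℝ) : (SS P c y ξ * (starRingEnd ℂ) (SS Q d z ξ)).re =
      ∑ p ∈ P, ∑ q ∈ Q, c p * d q * Real.cos (2 * π * (y p - z q) * ξ) := by
  unfold SS
  rw [map_sum, sum_mul_sum, Complex.re_sum]
  refine sum_congr rfl fun p _ => ?_
  rw [Complex.re_sum]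
  refine sum_congr rfl fun q _ => ?_
  rw [map_mul, Complex.conj_ofReal, ← Complex.exp_conj, map_mul, Complex.conj_ofReal,
    Complex.conj_I]
  have h1 : (c p : ℂ) * Complex.exp (((2 * π * y p * ξ : ℝ) : ℂ) * Complex.I) *
      ((d q : ℂ) * Complex.exp (((2 * π * z q * ξ : ℝ) : ℂ) * -Complex.I)) =
      ((c p * d q : ℝ) : ℂ) *
        Complex.exp (((2 * π * (y p - z q) * ξ : ℝ) : ℂ) * Complex.I) := by
    have h2 : ((2 * π * (y p - z q) * ξ : ℝ) : ℂ) * Complex.I =
        ((2 * π * y p * ξ : ℝ) : ℂ) * Complex.I + ((2 * π * z q * ξ : ℝ) : ℂ) * -Complex.I := by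
      push_cast
      ring
    rw [h2, Complex.exp_add]
    push_cast
    ring
  rw [h1, Complex.re_ofReal_mul, Complex.exp_ofReal_mul_I_re]

lemma NN_eq {ι : Type*} (P : Finset ι) (c y : ι → ℝ) (ξ : ℝ) :
    NN P c y ξ = ∑ p ∈ P, ∑ q ∈ P, c p * c q * Real.cos (2 * π * (y p - y q) * ξ) := by
  unfold NN
  rw [← SS_mul_conj, Complex.mul_conj, Complex.ofReal_re]

lemma NN_nonneg {ι : Type*} (P : Finset ι) (c y : ι → ℝ) (ξ : ℝ) : 0 ≤ NN P c y ξ :=
  Complex.normSq_nonneg _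

lemma NN_continuous {ι : Type*} (P : Finset ι) (c y : ι → ℝ) : Continuous (NN P c y) := by
  have : NN P c y = fun ξ => ∑ p ∈ P, ∑ q ∈ P, c p * c q * Real.cos (2 * π * (y p - y q) * ξ) := by
    ext ξ
    exact NN_eq P c y ξ
  rw [this]
  fun_prop

lemma NN_le {ι : Type*} (P : Finset ι) (c y : ι → ℝ) (ξ : ℝ) :
    NN P c y ξ ≤ (∑ p ∈ P, |c p|) ^ 2 := by
  rw [NN_eq, sq, sum_mul_sum]
  refine sum_le_sum fun p _ => sum_le_sum fun q _ => ?_
  calc c p * c q * Real.cos (2 * π * (y p - y q) * ξ)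
      ≤ |c p * c q * Real.cos (2 * π * (y p - y q) * ξ)| := le_abs_self _
    _ = |c p| * |c q| * |Real.cos (2 * π * (y p - y q) * ξ)| := by rw [abs_mul, abs_mul]
    _ ≤ |c p| * |c q| * 1 :=
        mul_le_mul_of_nonneg_left (Real.abs_cos_le_one _) (by positivity)
    _ = |c p| * |c q| := mul_one _

lemma gauss_energy {ι : Type*} (P : Finset ι) (c y : ι → ℝ) {ρ : ℝ} (hρ : 0 < ρ) :
    ∫ ξ : ℝ, Real.exp (-π * (ξ / ρ) ^ 2) * NN P c y ξ =
      ρ * ∑ p ∈ P, ∑ q ∈ P, c p * c q * Real.exp (-π * (ρ * (y p - y q)) ^ 2) := by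
  have hint : ∀ p q : ι, Integrable (fun ξ : ℝ => Real.exp (-π * (ξ / ρ) ^ 2) *
      (c p * c q * Real.cos (2 * π * (y p - y q) * ξ))) := by
    intro p q
    apply (integrable_gauss hρ).mul_bdd (c := |c p * c q|)
    · fun_prop
    · refine Filter.Eventually.of_forall fun ξ => ?_
      rw [norm_mul, Real.norm_eq_abs, Real.norm_eq_abs]
      calc |c p * c q| * |Real.cos (2 * π * (y p - y q) * ξ)| ≤ |c p * c q| * 1 :=
            mul_le_mul_of_nonneg_left (Real.abs_cos_le_one _) (abs_nonneg _)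
        _ = _ := mul_one _
  have h1 : ∀ ξ : ℝ, Real.exp (-π * (ξ / ρ) ^ 2) * NN P c y ξ =
      ∑ p ∈ P, ∑ q ∈ P, Real.exp (-π * (ξ / ρ) ^ 2) *
        (c p * c q * Real.cos (2 * π * (y p - y q) * ξ)) := by
    intro ξ
    rw [NN_eq, mul_sum]
    refine sum_congr rfl fun p _ => ?_
    rw [mul_sum]
  simp only [h1]
  rw [integral_finsetSum _ (fun p _ => integrable_finsetSum _ fun q _ => hint p q), mul_sum]
  refine sum_congr rfl fun p _ => ?_
  rw [integral_finsetSum _ (fun q _ => hint p q), mul_sum]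
  refine sum_congr rfl fun q _ => ?_
  have h2 : ∀ ξ : ℝ, Real.exp (-π * (ξ / ρ) ^ 2) *
      (c p * c q * Real.cos (2 * π * (y p - y q) * ξ)) =
      (c p * c q) * (Real.exp (-π * (ξ / ρ) ^ 2) * Real.cos (2 * π * (y p - y q) * ξ)) := by
    intro ξ; ring
  simp only [h2]
  rw [integral_const_mul, gauss_cos hρ]
  ring

/-- the weight `Ω_R` -/
noncomputable def Om (R ξ : ℝ) : ℝ :=
  Real.exp (-π * (ξ / R) ^ 2) * (1 - Real.exp (-3 * π * (ξ / R) ^ 2)) ^ 2

lemma Om_nonneg (R ξ : ℝ) : 0 ≤ Om R ξ := by unfold Om; positivity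

lemma Om_continuous (R : ℝ) : Continuous (Om R) := by unfold Om; fun_prop

lemma Om_le (R ξ : ℝ) : Om R ξ ≤ Real.exp (-π * (ξ / R) ^ 2) := by
  unfold Om
  have h1 : 0 < Real.exp (-3 * π * (ξ / R) ^ 2) := Real.exp_pos _
  have h2 : Real.exp (-3 * π * (ξ / R) ^ 2) ≤ 1 := by
    rw [Real.exp_le_one_iff]
    have : 0 ≤ 3 * π * (ξ / R) ^ 2 := by positivity
    linarith
  have h3 : (1 - Real.exp (-3 * π * (ξ / R) ^ 2)) ^ 2 ≤ 1 := by nlinarith
  have h4 : 0 < Real.exp (-π * (ξ / R) ^ 2) := Real.exp_pos _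
  nlinarith

lemma Om_integrable {R : ℝ} (hR : 0 < R) : Integrable (Om R) := by
  refine (integrable_gauss hR).mono' (Om_continuous R).aestronglyMeasurable ?_
  refine Filter.Eventually.of_forall fun ξ => ?_
  rw [Real.norm_eq_abs, abs_of_nonneg (Om_nonneg R ξ)]
  exact Om_le R ξ

/-- difference of two Gaussian kernels -/
noncomputable def psi (R x : ℝ) : ℝ :=
  R * Real.exp (-π * (R * x) ^ 2) - (R / 2) * Real.exp (-π * (R / 2 * x) ^ 2)

lemma NN_integrable {ι : Type*} (P : Finset ι) (c y : ι → ℝ) {f : ℝ → ℝ} (hf : Integrable f) :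
    Integrable (fun ξ => f ξ * NN P c y ξ) := by
  apply hf.mul_bdd (c := (∑ p ∈ P, |c p|) ^ 2) (NN_continuous P c y).aestronglyMeasurable
  refine Filter.Eventually.of_forall fun ξ => ?_
  rw [Real.norm_eq_abs, abs_of_nonneg (NN_nonneg _ _ _ _)]
  exact NN_le _ _ _ _

/-- **Pairing inequality.** -/
lemma pairing {ι κ : Type*} (P : Finset ι) (c y : ι → ℝ) (Q : Finset κ) (d z : κ → ℝ)
    {R lam : ℝ} (hR : 0 < R) (hlam : 0 < lam) :
    ∑ p ∈ P, ∑ q ∈ Q, c p * d q * psi R (y p - z q) ≤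
      (lam / 2) * (∫ ξ : ℝ, Om R ξ * NN Q d z ξ) +
      (1 / (2 * lam)) * (R * ∑ p ∈ P, ∑ q ∈ P,
        c p * c q * Real.exp (-π * (R * (y p - y q)) ^ 2)) := by
  have hR2 : 0 < R / 2 := by positivity
  -- Fourier representation of `psi`
  have hcosint : ∀ (ρ : ℝ), 0 < ρ → ∀ x : ℝ, Integrable (fun ξ : ℝ =>
      Real.exp (-π * (ξ / ρ) ^ 2) * Real.cos (2 * π * x * ξ)) := by
    intro ρ hρ x
    apply (integrable_gauss hρ).mul_bdd (c := 1)
    · fun_prop
    · refine Filter.Eventually.of_forall fun ξ => ?_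
      rw [Real.norm_eq_abs]
      exact Real.abs_cos_le_one _
  have hpsi : ∀ x : ℝ, psi R x = ∫ ξ : ℝ, (Real.exp (-π * (ξ / R) ^ 2) *
      (1 - Real.exp (-3 * π * (ξ / R) ^ 2))) * Real.cos (2 * π * x * ξ) := by
    intro x
    unfold psi
    rw [← gauss_cos hR, ← gauss_cos hR2, ← integral_sub (hcosint R hR x) (hcosint _ hR2 x)]
    congr 1
    ext ξ
    have h1 : Real.exp (-π * (ξ / (R / 2)) ^ 2) =
        Real.exp (-π * (ξ / R) ^ 2) * Real.exp (-3 * π * (ξ / R) ^ 2) := by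
      rw [← Real.exp_add]
      congr 1
      field_simp
      ring
    rw [h1]
    ring
  have hpsiint : ∀ x : ℝ, Integrable (fun ξ : ℝ => (Real.exp (-π * (ξ / R) ^ 2) *
      (1 - Real.exp (-3 * π * (ξ / R) ^ 2))) * Real.cos (2 * π * x * ξ)) := by
    intro x
    refine (integrable_gauss hR).mono' (by fun_prop) ?_
    refine Filter.Eventually.of_forall fun ξ => ?_
    rw [norm_mul, norm_mul, Real.norm_eq_abs, Real.norm_eq_abs, Real.norm_eq_abs,
      abs_of_pos (Real.exp_pos _)]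
    have h1 : 0 < Real.exp (-3 * π * (ξ / R) ^ 2) := Real.exp_pos _
    have h2 : Real.exp (-3 * π * (ξ / R) ^ 2) ≤ 1 := by
      rw [Real.exp_le_one_iff]
      have : 0 ≤ 3 * π * (ξ / R) ^ 2 := by positivity
      linarith
    have h3 : |1 - Real.exp (-3 * π * (ξ / R) ^ 2)| ≤ 1 := by
      rw [abs_le]; constructor <;> linarith
    calc Real.exp (-π * (ξ / R) ^ 2) * |1 - Real.exp (-3 * π * (ξ / R) ^ 2)| *
          |Real.cos (2 * π * x * ξ)| ≤ Real.exp (-π * (ξ / R) ^ 2) * 1 * 1 := by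
          gcongr
          exact Real.abs_cos_le_one _
      _ = _ := by ring
  have hlhs : ∑ p ∈ P, ∑ q ∈ Q, c p * d q * psi R (y p - z q) =
      ∫ ξ : ℝ, (Real.exp (-π * (ξ / R) ^ 2) * (1 - Real.exp (-3 * π * (ξ / R) ^ 2))) *
        (SS P c y ξ * (starRingEnd ℂ) (SS Q d z ξ)).re := by
    simp only [SS_mul_conj]
    have h1 : ∀ ξ : ℝ, (Real.exp (-π * (ξ / R) ^ 2) * (1 - Real.exp (-3 * π * (ξ / R) ^ 2))) *
        ∑ p ∈ P, ∑ q ∈ Q, c p * d q * Real.cos (2 * π * (y p - z q) * ξ) =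
        ∑ p ∈ P, ∑ q ∈ Q, (c p * d q) * ((Real.exp (-π * (ξ / R) ^ 2) *
          (1 - Real.exp (-3 * π * (ξ / R) ^ 2))) * Real.cos (2 * π * (y p - z q) * ξ)) := by
      intro ξ
      rw [mul_sum]
      refine sum_congr rfl fun p _ => ?_
      rw [mul_sum]
      refine sum_congr rfl fun q _ => ?_
      ring
    simp only [h1]
    rw [integral_finsetSum _ (fun p _ => integrable_finsetSum _ fun q _ =>
      (hpsiint _).const_mul _)]
    refine sum_congr rfl fun p _ => ?_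
    rw [integral_finsetSum _ (fun q _ => (hpsiint _).const_mul _)]
    refine sum_congr rfl fun q _ => ?_
    rw [integral_const_mul, ← hpsi]
  rw [hlhs, ← gauss_energy P c y hR, ← integral_const_mul, ← integral_const_mul]
  rw [← integral_add ((NN_integrable Q d z (Om_integrable hR)).const_mul _)
    ((NN_integrable P c y (integrable_gauss hR)).const_mul _)]
  apply integral_mono
  · refine (integrable_finsetSum P (f := fun p ξ => ∑ q ∈ Q, (c p * d q) *
      ((Real.exp (-π * (ξ / R) ^ 2) * (1 - Real.exp (-3 * π * (ξ / R) ^ 2))) *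
        Real.cos (2 * π * (y p - z q) * ξ))) fun p _ => integrable_finsetSum _ fun q _ =>
      (hpsiint _).const_mul _).congr ?_
    refine Filter.Eventually.of_forall fun ξ => ?_
    simp only
    rw [SS_mul_conj, mul_sum]
    refine sum_congr rfl fun p _ => ?_
    rw [mul_sum]
    refine sum_congr rfl fun q _ => ?_
    ring
  · exact ((NN_integrable Q d z (Om_integrable hR)).const_mul _).add
      ((NN_integrable P c y (integrable_gauss hR)).const_mul _)
  · intro ξ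
    simp only
    unfold Om NN
    set g := Real.exp (-π * (ξ / R) ^ 2) with hg
    set e := 1 - Real.exp (-3 * π * (ξ / R) ^ 2) with he
    have hg0 : 0 < g := Real.exp_pos _
    have he0 : 0 ≤ e := by
      rw [he]
      have : Real.exp (-3 * π * (ξ / R) ^ 2) ≤ 1 := by
        rw [Real.exp_le_one_iff]
        have : 0 ≤ 3 * π * (ξ / R) ^ 2 := by positivity
        linarith
      linarith
    set A := ‖SS P c y ξ‖ with hA
    set B := ‖SS Q d z ξ‖ with hB
    have hre : (SS P c y ξ * (starRingEnd ℂ) (SS Q d z ξ)).re ≤ A * B := by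
      refine (Complex.re_le_norm _).trans (le_of_eq ?_)
      rw [norm_mul, RCLike.norm_conj]
    rw [Complex.normSq_eq_norm_sq, Complex.normSq_eq_norm_sq, ← hA, ← hB]
    calc g * e * (SS P c y ξ * (starRingEnd ℂ) (SS Q d z ξ)).re ≤ g * e * (A * B) :=
          mul_le_mul_of_nonneg_left hre (by positivity)
      _ ≤ lam / 2 * (g * e ^ 2 * B ^ 2) + 1 / (2 * lam) * (g * A ^ 2) := by
          have h1 : lam / 2 * (g * e ^ 2 * B ^ 2) + 1 / (2 * lam) * (g * A ^ 2) -
              g * e * (A * B) = g / (2 * lam) * (lam * e * B - A) ^ 2 := by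
            field_simp
            ring
          have h2 : 0 ≤ g / (2 * lam) * (lam * e * B - A) ^ 2 := by positivity
          linarith

end Pool.Agent.Lib.MP_e5d0a4_an
end

section

/-!
# Choice of the dilations by averaging, one at a time
-/

namespace Pool.Agent.Lib.MP_e5d0a4_an

open Finset MeasureTheory
open scoped Real

variable {ι : Type*}

/-- Gaussian energy of a weighted family of points at frequency `ρ` -/
noncomputable def JJ (P : Finset ι) (w y : ι → ℝ) (ρ : ℝ) : ℝ :=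
  ∑ p ∈ P, ∑ q ∈ P, w p * w q * Real.exp (-π * (ρ * (y p - y q)) ^ 2)

lemma JJ_continuous (P : Finset ι) (w y : ι → ℝ) : Continuous (JJ P w y) := by
  unfold JJ; fun_prop

lemma JJ_nonneg (P : Finset ι) (w y : ι → ℝ) (hw : ∀ p, 0 ≤ w p) (ρ : ℝ) : 0 ≤ JJ P w y ρ := by
  unfold JJ
  exact sum_nonneg fun p _ => sum_nonneg fun q _ =>
    mul_nonneg (mul_nonneg (hw p) (hw q)) (Real.exp_pos _).le

lemma JJ_le (P : Finset ι) (w y : ι → ℝ) (hw : ∀ p, 0 ≤ w p) (ρ : ℝ) :
    JJ P w y ρ ≤ (∑ p ∈ P, w p) ^ 2 := by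
  unfold JJ
  rw [sq, sum_mul_sum]
  refine sum_le_sum fun p _ => sum_le_sum fun q _ => ?_
  have h1 : Real.exp (-π * (ρ * (y p - y q)) ^ 2) ≤ 1 := by
    rw [Real.exp_le_one_iff]
    have : 0 ≤ π * (ρ * (y p - y q)) ^ 2 := by positivity
    linarith
  calc w p * w q * Real.exp (-π * (ρ * (y p - y q)) ^ 2) ≤ w p * w q * 1 :=
        mul_le_mul_of_nonneg_left h1 (mul_nonneg (hw p) (hw q))
    _ = _ := mul_one _

lemma NN_mul (P : Finset ι) (w y : ι → ℝ) (t ξ : ℝ) :
    NN P w y (t * ξ) = NN P w (fun p => y p * ξ) t := by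
  unfold NN SS
  congr 1
  refine sum_congr rfl fun p _ => ?_
  congr 3
  ring_nf

/-- averaging over a dilation in `[0, 1]` -/
lemma average_NN (P : Finset ι) (w y : ι → ℝ) (ξ : ℝ) :
    ∫ t in Set.Icc (0 : ℝ) 1, NN P w y (t * ξ) ≤ Real.exp π * JJ P w y ξ := by
  have h1 : Integrable (fun t : ℝ => Real.exp (-π * (t / 1) ^ 2) * NN P w (fun p => y p * ξ) t) :=
    NN_integrable _ _ _ (integrable_gauss one_pos)
  have h2 := gauss_energy P w (fun p => y p * ξ) (ρ := 1) one_pos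
  have h3 : JJ P w y ξ = 1 * ∑ p ∈ P, ∑ q ∈ P,
      w p * w q * Real.exp (-π * (1 * (y p * ξ - y q * ξ)) ^ 2) := by
    unfold JJ
    rw [one_mul]
    refine sum_congr rfl fun p _ => sum_congr rfl fun q _ => ?_
    congr 3
    ring
  rw [h3, ← h2, ← integral_const_mul]
  calc ∫ t in Set.Icc (0 : ℝ) 1, NN P w y (t * ξ)
      ≤ ∫ t in Set.Icc (0 : ℝ) 1,
          Real.exp π * (Real.exp (-π * (t / 1) ^ 2) * NN P w (fun p => y p * ξ) t) := by
        apply setIntegral_mono_on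
        · have : Continuous (fun t : ℝ => NN P w y (t * ξ)) :=
            (NN_continuous P w y).comp (by fun_prop)
          exact this.integrableOn_Icc
        · exact (h1.const_mul _).integrableOn
        · exact measurableSet_Icc
        · intro t ht
          rw [NN_mul, ← mul_assoc, ← Real.exp_add]
          have h4 : 1 ≤ Real.exp (π + -π * (t / 1) ^ 2) := by
            apply Real.one_le_exp
            have : t ^ 2 ≤ 1 := by nlinarith [ht.1, ht.2]
            have := Real.pi_pos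
            rw [div_one]
            nlinarith
          exact le_mul_of_one_le_left (NN_nonneg _ _ _ _) h4
    _ ≤ _ := by
        apply setIntegral_le_integral (h1.const_mul _)
        refine Filter.Eventually.of_forall fun t => ?_
        exact mul_nonneg (Real.exp_pos _).le (mul_nonneg (Real.exp_pos _).le (NN_nonneg _ _ _ _))

lemma one_step (P : Finset ι) (w y : ι → ℝ) (h : ℝ → ℝ) (hc : Continuous h)
    (h0 : ∀ ξ, 0 ≤ h ξ) (hi : Integrable h) :
    ∃ t ∈ Set.Icc (0 : ℝ) 1, ∫ ξ, h ξ * NN P w y (t * ξ) ≤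
      ∫ ξ, h ξ * (Real.exp π * JJ P w y ξ) := by
  set C := (∑ p ∈ P, |w p|) ^ 2 with hC
  have hF : Integrable (fun z : ℝ × ℝ => h z.2 * NN P w y (z.1 * z.2))
      ((volume.restrict (Set.Icc (0 : ℝ) 1)).prod volume) := by
    have h1 : Integrable (fun z : ℝ × ℝ => C * h z.2)
        ((volume.restrict (Set.Icc (0 : ℝ) 1)).prod volume) := by
      have h2 : Integrable (fun _ : ℝ => C) (volume.restrict (Set.Icc (0 : ℝ) 1)) :=
        integrable_const C
      exact h2.mul_prod hi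
    refine h1.mono' ?_ ?_
    · have h3 : Continuous (fun z : ℝ × ℝ => h z.2 * NN P w y (z.1 * z.2)) :=
        (hc.comp continuous_snd).mul ((NN_continuous P w y).comp (by fun_prop))
      exact h3.aestronglyMeasurable
    · refine Filter.Eventually.of_forall fun z => ?_
      rw [Real.norm_eq_abs, abs_of_nonneg (mul_nonneg (h0 _) (NN_nonneg _ _ _ _)), mul_comm]
      exact mul_le_mul_of_nonneg_right (NN_le _ _ _ _) (h0 _)
  have hf : IntegrableOn (fun t => ∫ ξ, h ξ * NN P w y (t * ξ)) (Set.Icc (0 : ℝ) 1) :=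
    hF.integral_prod_left
  obtain ⟨t, ht, hle⟩ := exists_le_setAverage (μ := volume) (s := Set.Icc (0 : ℝ) 1)
    (by simp) (by simp) hf
  refine ⟨t, ht, hle.trans ?_⟩
  have h1 : ⨍ t in Set.Icc (0 : ℝ) 1, ∫ ξ, h ξ * NN P w y (t * ξ) =
      ∫ t in Set.Icc (0 : ℝ) 1, ∫ ξ, h ξ * NN P w y (t * ξ) := by
    rw [setAverage_eq]
    simp
  rw [h1, integral_integral_swap hF]
  apply integral_mono_of_nonneg
  · refine Filter.Eventually.of_forall fun ξ => ?_
    apply integral_nonneg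
    intro t
    exact mul_nonneg (h0 _) (NN_nonneg _ _ _ _)
  · -- integrability of the right-hand side
    apply hi.mul_bdd (c := Real.exp π * C)
    · exact ((JJ_continuous P w y).const_smul (Real.exp π)).aestronglyMeasurable
    · refine Filter.Eventually.of_forall fun ξ => ?_
      rw [norm_mul, Real.norm_eq_abs, Real.norm_eq_abs, abs_of_pos (Real.exp_pos _)]
      apply mul_le_mul_of_nonneg_left _ (Real.exp_pos _).le
      unfold JJ
      refine (abs_sum_le_sum_abs _ _).trans ?_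
      rw [hC, sq, sum_mul_sum]
      refine sum_le_sum fun p _ => ?_
      refine (abs_sum_le_sum_abs _ _).trans ?_
      refine sum_le_sum fun q _ => ?_
      rw [abs_mul, abs_mul, abs_of_pos (Real.exp_pos _)]
      have h1 : Real.exp (-π * (ξ * (y p - y q)) ^ 2) ≤ 1 := by
        rw [Real.exp_le_one_iff]
        have : 0 ≤ π * (ξ * (y p - y q)) ^ 2 := by positivity
        linarith
      calc |w p| * |w q| * Real.exp (-π * (ξ * (y p - y q)) ^ 2) ≤ |w p| * |w q| * 1 :=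
            mul_le_mul_of_nonneg_left h1 (by positivity)
        _ = _ := mul_one _
  · refine Filter.Eventually.of_forall fun ξ => ?_
    simp only
    rw [integral_const_mul]
    exact mul_le_mul_of_nonneg_left (average_NN P w y ξ) (h0 ξ)

lemma choose_u (P : Finset ι) (w y : ι → ℝ) (hw : ∀ p, 0 ≤ w p) (m : ℕ) :
    ∀ h : ℝ → ℝ, Continuous h → (∀ ξ, 0 ≤ h ξ) → Integrable h →
    ∃ u : Fin m → ℝ, (∀ j, u j ∈ Set.Icc (0 : ℝ) 1) ∧
      ∫ ξ, h ξ * ∏ j, NN P w y (u j * ξ) ≤ ∫ ξ, h ξ * (Real.exp π * JJ P w y ξ) ^ m := by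
  induction m with
  | zero =>
    intro h _ _ _
    exact ⟨fun j => j.elim0, fun j => j.elim0, by simp⟩
  | succ m ih =>
    intro h hc h0 hi
    have hJ0 := JJ_nonneg P w y hw
    -- the weight for the induction hypothesis
    have hJc : Continuous (fun ξ => Real.exp π * JJ P w y ξ) :=
      continuous_const.mul (JJ_continuous P w y)
    have hJ' : Integrable (fun ξ => h ξ * (Real.exp π * JJ P w y ξ)) := by
      apply hi.mul_bdd (c := Real.exp π * (∑ p ∈ P, w p) ^ 2) hJc.aestronglyMeasurable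
      refine Filter.Eventually.of_forall fun ξ => ?_
      rw [Real.norm_eq_abs, abs_of_nonneg (mul_nonneg (Real.exp_pos _).le (hJ0 ξ))]
      exact mul_le_mul_of_nonneg_left (JJ_le P w y hw ξ) (Real.exp_pos _).le
    obtain ⟨u', hu', hle'⟩ := ih (fun ξ => h ξ * (Real.exp π * JJ P w y ξ)) (hc.mul hJc)
      (fun ξ => mul_nonneg (h0 ξ) (mul_nonneg (Real.exp_pos _).le (hJ0 ξ))) hJ'
    have hprodc : Continuous (fun ξ => ∏ j, NN P w y (u' j * ξ)) :=
      continuous_finsetProd _ fun j _ => (NN_continuous P w y).comp (by fun_prop)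
    have hprod0 : ∀ ξ, 0 ≤ ∏ j, NN P w y (u' j * ξ) := fun ξ =>
      Finset.prod_nonneg fun j _ => NN_nonneg _ _ _ _
    have hprodi : Integrable (fun ξ => h ξ * ∏ j, NN P w y (u' j * ξ)) := by
      apply hi.mul_bdd (c := ∏ _j : Fin m, (∑ p ∈ P, |w p|) ^ 2) hprodc.aestronglyMeasurable
      refine Filter.Eventually.of_forall fun ξ => ?_
      rw [Real.norm_eq_abs, abs_of_nonneg (hprod0 ξ)]
      exact Finset.prod_le_prod (fun j _ => NN_nonneg _ _ _ _) fun j _ => NN_le _ _ _ _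
    obtain ⟨t, ht, hle⟩ := one_step P w y (fun ξ => h ξ * ∏ j, NN P w y (u' j * ξ))
      (hc.mul hprodc) (fun ξ => mul_nonneg (h0 ξ) (hprod0 ξ)) hprodi
    refine ⟨Fin.cons t u', ?_, ?_⟩
    · intro j
      refine Fin.cases ?_ (fun i => ?_) j
      · simpa using ht
      · simpa using hu' i
    · calc ∫ ξ, h ξ * ∏ j, NN P w y ((Fin.cons t u' : Fin (m + 1) → ℝ) j * ξ)
          = ∫ ξ, (h ξ * ∏ j, NN P w y (u' j * ξ)) * NN P w y (t * ξ) := by
            congr 1
            ext ξ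
            rw [Fin.prod_univ_succ]
            simp only [Fin.cons_zero, Fin.cons_succ]
            ring
        _ ≤ _ := hle
        _ = ∫ ξ, (h ξ * (Real.exp π * JJ P w y ξ)) * ∏ j, NN P w y (u' j * ξ) := by
            congr 1
            ext ξ
            ring
        _ ≤ _ := hle'
        _ = _ := by
            congr 1
            ext ξ
            rw [pow_succ]
            ring

end Pool.Agent.Lib.MP_e5d0a4_an
end

section

/-!
# Gaussian energies of Frostman weights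
-/

namespace Pool.Agent.Lib.MP_e5d0a4_an

open Finset MeasureTheory
open scoped Real

lemma exists_gauss_const : ∃ CJ : ℝ, 1 ≤ CJ ∧ ∀ M : ℕ,
    ∑ m ∈ range M, Real.exp (-π * (m : ℝ) ^ 2) * (3 * (m + 1)) ≤ CJ := by
  have h1 : Summable (fun m : ℕ => (m : ℝ) ^ 1 * Real.exp (-1 * (m : ℝ))) :=
    Real.summable_pow_mul_exp_neg_nat_mul 1 one_pos
  have h0 : Summable (fun m : ℕ => (m : ℝ) ^ 0 * Real.exp (-1 * (m : ℝ))) :=
    Real.summable_pow_mul_exp_neg_nat_mul 0 one_pos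
  have h2 : Summable (fun m : ℕ => 3 * ((m : ℝ) ^ 1 * Real.exp (-1 * (m : ℝ))) +
      3 * ((m : ℝ) ^ 0 * Real.exp (-1 * (m : ℝ)))) := (h1.mul_left 3).add (h0.mul_left 3)
  refine ⟨1 + ∑' m : ℕ, (3 * ((m : ℝ) ^ 1 * Real.exp (-1 * (m : ℝ))) +
      3 * ((m : ℝ) ^ 0 * Real.exp (-1 * (m : ℝ)))), ?_, ?_⟩
  · have : 0 ≤ ∑' m : ℕ, (3 * ((m : ℝ) ^ 1 * Real.exp (-1 * (m : ℝ))) +
      3 * ((m : ℝ) ^ 0 * Real.exp (-1 * (m : ℝ)))) := tsum_nonneg fun m => by positivity
    linarith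
  · intro M
    have h3 : ∑ m ∈ range M, (3 * ((m : ℝ) ^ 1 * Real.exp (-1 * (m : ℝ))) +
      3 * ((m : ℝ) ^ 0 * Real.exp (-1 * (m : ℝ)))) ≤
      ∑' m : ℕ, (3 * ((m : ℝ) ^ 1 * Real.exp (-1 * (m : ℝ))) +
      3 * ((m : ℝ) ^ 0 * Real.exp (-1 * (m : ℝ)))) :=
      h2.sum_le_tsum _ fun m _ => by positivity
    have h4 : ∑ m ∈ range M, Real.exp (-π * (m : ℝ) ^ 2) * (3 * (m + 1)) ≤
        ∑ m ∈ range M, (3 * ((m : ℝ) ^ 1 * Real.exp (-1 * (m : ℝ))) +
      3 * ((m : ℝ) ^ 0 * Real.exp (-1 * (m : ℝ)))) := by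
      refine sum_le_sum fun m _ => ?_
      have h5 : Real.exp (-π * (m : ℝ) ^ 2) ≤ Real.exp (-1 * (m : ℝ)) := by
        rw [Real.exp_le_exp]
        have h6 : (m : ℝ) ≤ (m : ℝ) ^ 2 := by
          rcases Nat.eq_zero_or_pos m with h | h
          · rw [h]; norm_num
          · have : (1 : ℝ) ≤ m := by exact_mod_cast h
            nlinarith
        have h7 := Real.pi_gt_three
        nlinarith [sq_nonneg (m : ℝ)]
      calc Real.exp (-π * (m : ℝ) ^ 2) * (3 * (m + 1)) ≤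
            Real.exp (-1 * (m : ℝ)) * (3 * (m + 1)) :=
            mul_le_mul_of_nonneg_right h5 (by positivity)
        _ = _ := by ring
    linarith

/-- shell decomposition of a Gaussian -/
lemma exp_le_shells {x : ℝ} {M : ℕ} (hx : |x| < M) :
    Real.exp (-π * x ^ 2) ≤ ∑ m ∈ range M, Real.exp (-π * (m : ℝ) ^ 2) *
      (if |x| ≤ m + 1 then (1 : ℝ) else 0) := by
  have h1 : (⌊|x|⌋₊ : ℝ) ≤ |x| := Nat.floor_le (abs_nonneg x)
  have h2 : |x| < ⌊|x|⌋₊ + 1 := Nat.lt_floor_add_one _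
  have h3 : ⌊|x|⌋₊ < M := (Nat.floor_lt (abs_nonneg x)).2 hx
  have h4 : Real.exp (-π * x ^ 2) ≤ Real.exp (-π * (⌊|x|⌋₊ : ℝ) ^ 2) *
      (if |x| ≤ (⌊|x|⌋₊ : ℝ) + 1 then (1 : ℝ) else 0) := by
    rw [if_pos h2.le, mul_one, Real.exp_le_exp]
    have h5 : (⌊|x|⌋₊ : ℝ) ^ 2 ≤ x ^ 2 := by
      rw [← sq_abs x]
      exact pow_le_pow_left₀ (by positivity) h1 2
    have := Real.pi_pos
    nlinarith
  refine h4.trans ?_
  exact single_le_sum (f := fun m : ℕ => Real.exp (-π * (m : ℝ) ^ 2) *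
      (if |x| ≤ (m : ℝ) + 1 then (1 : ℝ) else 0)) (fun m _ => by
        apply mul_nonneg (Real.exp_pos _).le
        split_ifs <;> norm_num) (mem_range.2 h3)

/-- positions of the grid -/
noncomputable def pos (R0 : ℕ) (i : ℕ) : ℝ := (i : ℝ) / R0

lemma JJ_bound {CJ : ℝ} (hCJ : ∀ M : ℕ,
    ∑ m ∈ range M, Real.exp (-π * (m : ℝ) ^ 2) * (3 * (m + 1)) ≤ CJ) {R0 : ℕ} (hR0 : 1 ≤ R0)
    {w : ℕ → ℝ} {C0 s : ℝ} (hw : Frost R0 C0 s w) (hC0 : 0 ≤ C0) (hs0 : 0 ≤ s) (hs1 : s ≤ 1)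
    {ρ : ℝ} (hρ : 0 < ρ) (hρR : ρ ≤ R0) :
    JJ (range R0) w (pos R0) ρ ≤ CJ * C0 * ρ ^ (-s) := by
  have hR : (0 : ℝ) < R0 := by exact_mod_cast (by omega : 0 < R0)
  have hinner : ∀ p ∈ range R0, ∑ q ∈ range R0,
      w q * Real.exp (-π * (ρ * (pos R0 p - pos R0 q)) ^ 2) ≤ CJ * C0 * ρ ^ (-s) := by
    intro p hp
    have hpR := mem_range.1 hp
    have hmass : ∀ m : ℕ, ∑ q ∈ (range R0).filter
        (fun q => |ρ * (pos R0 p - pos R0 q)| ≤ m + 1), w q ≤ C0 * (3 * (m + 1)) * ρ ^ (-s) := by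
      intro m
      have h1 := hw.interval hC0 hs0 (c := p) (ρ := (m + 1) * R0 / ρ) (by positivity)
        (S := (range R0).filter (fun q => |ρ * (pos R0 p - pos R0 q)| ≤ m + 1)) (by
          intro q hq
          have h2 := (mem_filter.1 hq).2
          unfold pos at h2
          have h3 : ρ * ((p : ℝ) / R0 - (q : ℝ) / R0) = -((ρ / R0) * ((q : ℝ) - p)) := by
            field_simp
            ring
          rw [h3, abs_neg, abs_mul, abs_of_pos (by positivity)] at h2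
          rw [le_div_iff₀ hρ]
          rw [div_mul_eq_mul_div, div_le_iff₀ hR] at h2
          linarith)
      refine h1.trans ?_
      rw [mul_assoc]
      apply mul_le_mul_of_nonneg_left _ hC0
      have h4 : (2 * ((m + 1) * R0 / ρ) + 1) / R0 ≤ 3 * (m + 1) * ρ⁻¹ := by
        rw [div_le_iff₀ hR]
        have h5 : 1 ≤ (m + 1) * R0 / ρ := by
          rw [one_le_div hρ]
          have : (0 : ℝ) ≤ m := by positivity
          nlinarith
        calc 2 * ((m + 1) * R0 / ρ) + 1 ≤ 3 * ((m + 1) * R0 / ρ) := by linarith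
          _ = _ := by ring
      calc ((2 * ((m + 1) * R0 / ρ) + 1) / R0) ^ s ≤ (3 * (m + 1) * ρ⁻¹) ^ s :=
            Real.rpow_le_rpow (by positivity) h4 hs0
        _ = (3 * (m + 1)) ^ s * ρ ^ (-s) := by
            rw [Real.mul_rpow (by positivity) (by positivity), Real.rpow_neg hρ.le,
              Real.inv_rpow hρ.le]
        _ ≤ (3 * (m + 1)) ^ (1 : ℝ) * ρ ^ (-s) := by
            apply mul_le_mul_of_nonneg_right _ (by positivity)
            apply Real.rpow_le_rpow_of_exponent_le _ hs1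
            have : (0 : ℝ) ≤ m := by positivity
            linarith
        _ = _ := by rw [Real.rpow_one]
    calc ∑ q ∈ range R0, w q * Real.exp (-π * (ρ * (pos R0 p - pos R0 q)) ^ 2)
        ≤ ∑ q ∈ range R0, w q * ∑ m ∈ range (R0 + 1), Real.exp (-π * (m : ℝ) ^ 2) *
          (if |ρ * (pos R0 p - pos R0 q)| ≤ m + 1 then (1 : ℝ) else 0) := by
          refine sum_le_sum fun q hq => mul_le_mul_of_nonneg_left ?_ (hw.nonneg q)
          apply exp_le_shells
          have hqR := mem_range.1 hq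
          rw [abs_mul, abs_of_pos hρ]
          have h1 : |pos R0 p - pos R0 q| ≤ 1 := by
            unfold pos
            rw [← sub_div, abs_div, abs_of_pos hR, div_le_one hR, abs_le]
            have e1 : (p : ℝ) < R0 := by exact_mod_cast hpR
            have e2 : (q : ℝ) < R0 := by exact_mod_cast hqR
            have e3 : (0 : ℝ) ≤ p := by positivity
            have e4 : (0 : ℝ) ≤ q := by positivity
            constructor <;> linarith
          push_cast
          nlinarith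
      _ = ∑ m ∈ range (R0 + 1), Real.exp (-π * (m : ℝ) ^ 2) *
          ∑ q ∈ (range R0).filter (fun q => |ρ * (pos R0 p - pos R0 q)| ≤ m + 1), w q := by
          simp only [mul_sum, sum_filter]
          rw [sum_comm]
          refine sum_congr rfl fun m _ => sum_congr rfl fun q _ => ?_
          split_ifs <;> ring
      _ ≤ ∑ m ∈ range (R0 + 1), Real.exp (-π * (m : ℝ) ^ 2) *
          (C0 * (3 * (m + 1)) * ρ ^ (-s)) :=
          sum_le_sum fun m _ => mul_le_mul_of_nonneg_left (hmass m) (Real.exp_pos _).le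
      _ = (∑ m ∈ range (R0 + 1), Real.exp (-π * (m : ℝ) ^ 2) * (3 * (m + 1))) *
          (C0 * ρ ^ (-s)) := by
          rw [sum_mul]
          refine sum_congr rfl fun m _ => ?_
          ring
      _ ≤ CJ * (C0 * ρ ^ (-s)) := mul_le_mul_of_nonneg_right (hCJ _) (by positivity)
      _ = _ := by ring
  unfold JJ
  have hX : 0 ≤ CJ * C0 * ρ ^ (-s) := by
    have h := hinner 0 (mem_range.2 (by omega))
    refine le_trans (sum_nonneg fun q _ => mul_nonneg (hw.nonneg q) (Real.exp_pos _).le) h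
  calc ∑ p ∈ range R0, ∑ q ∈ range R0, w p * w q *
        Real.exp (-π * (ρ * (pos R0 p - pos R0 q)) ^ 2)
      = ∑ p ∈ range R0, w p * ∑ q ∈ range R0,
          w q * Real.exp (-π * (ρ * (pos R0 p - pos R0 q)) ^ 2) := by
        refine sum_congr rfl fun p _ => ?_
        rw [mul_sum]
        refine sum_congr rfl fun q _ => ?_
        ring
    _ ≤ ∑ p ∈ range R0, w p * (CJ * C0 * ρ ^ (-s)) :=
        sum_le_sum fun p hp => mul_le_mul_of_nonneg_left (hinner p hp) (hw.nonneg p)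
    _ = (∑ p ∈ range R0, w p) * (CJ * C0 * ρ ^ (-s)) := by rw [sum_mul]
    _ ≤ 1 * (CJ * C0 * ρ ^ (-s)) := mul_le_mul_of_nonneg_right hw.sum_le hX
    _ = _ := one_mul _

lemma JJ_antitone {ι : Type*} (P : Finset ι) (w y : ι → ℝ) (hw : ∀ p, 0 ≤ w p) {a b : ℝ}
    (h : |a| ≤ |b|) : JJ P w y b ≤ JJ P w y a := by
  unfold JJ
  refine sum_le_sum fun p _ => sum_le_sum fun q _ => ?_
  apply mul_le_mul_of_nonneg_left _ (mul_nonneg (hw p) (hw q))
  rw [Real.exp_le_exp, mul_pow, mul_pow]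
  have h1 : a ^ 2 ≤ b ^ 2 := sq_le_sq.2 h
  have h2 : a ^ 2 * (y p - y q) ^ 2 ≤ b ^ 2 * (y p - y q) ^ 2 :=
    mul_le_mul_of_nonneg_right h1 (sq_nonneg _)
  have := Real.pi_pos
  nlinarith

lemma JJ_abs {ι : Type*} (P : Finset ι) (w y : ι → ℝ) (a : ℝ) : JJ P w y |a| = JJ P w y a := by
  unfold JJ
  refine sum_congr rfl fun p _ => sum_congr rfl fun q _ => ?_
  rw [mul_pow, mul_pow, sq_abs]

lemma one_sub_exp_sq_le {x : ℝ} (hx : 0 ≤ x) : (1 - Real.exp (-x)) ^ 2 ≤ x := by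
  have h1 : Real.exp (-x) ≤ 1 := Real.exp_le_one_iff.2 (by linarith)
  have h2 : 0 < Real.exp (-x) := Real.exp_pos _
  have h3 : 1 - x ≤ Real.exp (-x) := by
    have := Real.add_one_le_exp (-x)
    linarith
  nlinarith

/-- pointwise bound -/
lemma Om_mul_le {CJ : ℝ} (hCJ1 : 1 ≤ CJ) (hCJ : ∀ M : ℕ,
    ∑ m ∈ range M, Real.exp (-π * (m : ℝ) ^ 2) * (3 * (m + 1)) ≤ CJ) {R0 : ℕ} (hR0 : 1 ≤ R0)
    {w : ℕ → ℝ} {C0 s : ℝ} (hw : Frost R0 C0 s w) (hC0 : 1 ≤ C0) (hs0 : 0 ≤ s) (hs1 : s ≤ 1)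
    {R : ℝ} (hR1 : 1 ≤ R) (hRR : R ≤ R0) (m : ℕ) (hms : m * s ≤ 2) (ξ : ℝ) :
    Om R ξ * (Real.exp π * JJ (range R0) w (pos R0) ξ) ^ m ≤
      (10 * (Real.exp π * (CJ * C0)) ^ m * R ^ (-(m * s))) * Real.exp (-π * (ξ / R) ^ 2) := by
  have hRpos : 0 < R := by linarith
  have hJ0 := JJ_nonneg (range R0) w (pos R0) hw.nonneg
  have hA1 : 1 ≤ CJ * C0 := by nlinarith
  have hg : 0 < Real.exp (-π * (ξ / R) ^ 2) := Real.exp_pos _
  have hE : 0 < Real.exp π := Real.exp_pos _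
  rcases le_total R |ξ| with hξ | hξ
  · -- far
    have h1 : JJ (range R0) w (pos R0) ξ ≤ CJ * C0 * R ^ (-s) := by
      refine (JJ_antitone _ _ _ hw.nonneg (a := R) (b := ξ) (by rwa [abs_of_pos hRpos])).trans ?_
      exact JJ_bound hCJ hR0 hw (by linarith) hs0 hs1 hRpos hRR
    have h2 : (Real.exp π * JJ (range R0) w (pos R0) ξ) ^ m ≤
        (Real.exp π * (CJ * C0)) ^ m * R ^ (-(m * s)) := by
      calc (Real.exp π * JJ (range R0) w (pos R0) ξ) ^ m ≤
            (Real.exp π * (CJ * C0 * R ^ (-s))) ^ m :=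
            pow_le_pow_left₀ (mul_nonneg hE.le (hJ0 ξ)) (mul_le_mul_of_nonneg_left h1 hE.le) m
        _ = (Real.exp π * (CJ * C0)) ^ m * R ^ (-(m * s)) := by
            rw [← mul_assoc (Real.exp π), mul_pow _ (R ^ (-s)), ← Real.rpow_natCast (R ^ (-s)),
              ← Real.rpow_mul hRpos.le]
            congr 2
            ring
    calc Om R ξ * (Real.exp π * JJ (range R0) w (pos R0) ξ) ^ m
        ≤ Real.exp (-π * (ξ / R) ^ 2) * ((Real.exp π * (CJ * C0)) ^ m * R ^ (-(m * s))) :=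
          mul_le_mul (Om_le R ξ) h2 (pow_nonneg (mul_nonneg hE.le (hJ0 ξ)) m) hg.le
      _ ≤ _ := by
          have : 0 ≤ Real.exp (-π * (ξ / R) ^ 2) *
            ((Real.exp π * (CJ * C0)) ^ m * R ^ (-(m * s))) := by positivity
          linarith
  · -- near: `Om ≤ gauss * 10 * (ξ/R)^2`
    have hOm : Om R ξ ≤ Real.exp (-π * (ξ / R) ^ 2) * (10 * (ξ / R) ^ 2) := by
      unfold Om
      apply mul_le_mul_of_nonneg_left _ hg.le
      have h1 := one_sub_exp_sq_le (x := 3 * π * (ξ / R) ^ 2) (by positivity)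
      have h2 : -(3 * π * (ξ / R) ^ 2) = -3 * π * (ξ / R) ^ 2 := by ring
      rw [h2] at h1
      have h3 := Real.pi_lt_d2
      nlinarith [sq_nonneg (ξ / R)]
    -- the claim `(e^π J)^m (ξ/R)^2 ≤ (e^π CJ C0)^m R^{-ms}`
    have hkey : (Real.exp π * JJ (range R0) w (pos R0) ξ) ^ m * (ξ / R) ^ 2 ≤
        (Real.exp π * (CJ * C0)) ^ m * R ^ (-(m * s)) := by
      rcases le_total 1 |ξ| with h1 | h1
      · have hξpos : 0 < |ξ| := by linarith
        have h2 : JJ (range R0) w (pos R0) ξ ≤ CJ * C0 * |ξ| ^ (-s) := by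
          rw [← JJ_abs]
          exact JJ_bound hCJ hR0 hw (by linarith) hs0 hs1 hξpos (hξ.trans hRR)
        have h3 : (Real.exp π * JJ (range R0) w (pos R0) ξ) ^ m ≤
            (Real.exp π * (CJ * C0)) ^ m * |ξ| ^ (-(m * s)) := by
          calc (Real.exp π * JJ (range R0) w (pos R0) ξ) ^ m ≤
                (Real.exp π * (CJ * C0 * |ξ| ^ (-s))) ^ m :=
                pow_le_pow_left₀ (mul_nonneg hE.le (hJ0 ξ)) (mul_le_mul_of_nonneg_left h2 hE.le) m
            _ = (Real.exp π * (CJ * C0)) ^ m * |ξ| ^ (-(m * s)) := by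
                rw [← mul_assoc (Real.exp π), mul_pow _ (|ξ| ^ (-s)),
                  ← Real.rpow_natCast (|ξ| ^ (-s)), ← Real.rpow_mul hξpos.le]
                congr 2
                ring
        have h4 : |ξ| ^ (-(m * s)) * (ξ / R) ^ 2 ≤ R ^ (-(m * s)) := by
          have h5 : (ξ / R) ^ 2 = (|ξ| / R) ^ (2 : ℝ) := by
            rw [Real.rpow_two, ← sq_abs (ξ / R), abs_div, abs_of_pos hRpos]
          have h6 : (|ξ| / R) ^ (2 : ℝ) ≤ (|ξ| / R) ^ (m * s) := by
            apply Real.rpow_le_rpow_of_exponent_ge (by positivity)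
            · rw [div_le_one hRpos]; exact hξ
            · exact hms
          calc |ξ| ^ (-(m * s)) * (ξ / R) ^ 2 ≤ |ξ| ^ (-(m * s)) * (|ξ| / R) ^ (m * s) := by
                rw [h5]
                exact mul_le_mul_of_nonneg_left h6 (by positivity)
            _ = R ^ (-(m * s)) := by
                rw [Real.div_rpow hξpos.le hRpos.le, Real.rpow_neg hξpos.le,
                  Real.rpow_neg hRpos.le]
                have : |ξ| ^ (m * s) ≠ 0 := (Real.rpow_pos_of_pos hξpos _).ne'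
                field_simp
        calc (Real.exp π * JJ (range R0) w (pos R0) ξ) ^ m * (ξ / R) ^ 2
            ≤ ((Real.exp π * (CJ * C0)) ^ m * |ξ| ^ (-(m * s))) * (ξ / R) ^ 2 :=
              mul_le_mul_of_nonneg_right h3 (sq_nonneg _)
          _ = (Real.exp π * (CJ * C0)) ^ m * (|ξ| ^ (-(m * s)) * (ξ / R) ^ 2) := by ring
          _ ≤ _ := mul_le_mul_of_nonneg_left h4 (by positivity)
      · have h2 : JJ (range R0) w (pos R0) ξ ≤ CJ * C0 := by
          refine (JJ_le _ _ _ hw.nonneg ξ).trans ?_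
          have h3 : 0 ≤ ∑ p ∈ range R0, w p := sum_nonneg fun p _ => hw.nonneg p
          have h4 := hw.sum_le
          nlinarith
        have h3 : (Real.exp π * JJ (range R0) w (pos R0) ξ) ^ m ≤
            (Real.exp π * (CJ * C0)) ^ m :=
          pow_le_pow_left₀ (mul_nonneg hE.le (hJ0 ξ)) (mul_le_mul_of_nonneg_left h2 hE.le) m
        have h4 : (ξ / R) ^ 2 ≤ R ^ (-(m * s)) := by
          calc (ξ / R) ^ 2 ≤ (1 / R) ^ 2 := by
                rw [← sq_abs (ξ / R), abs_div, abs_of_pos hRpos]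
                apply pow_le_pow_left₀ (by positivity)
                exact div_le_div_of_nonneg_right h1 hRpos.le
            _ = R ^ (-(2 : ℝ)) := by
                rw [Real.rpow_neg hRpos.le, Real.rpow_two]
                field_simp
            _ ≤ R ^ (-(m * s)) := Real.rpow_le_rpow_of_exponent_le hR1 (by linarith)
        exact mul_le_mul h3 h4 (sq_nonneg _) (by positivity)
    calc Om R ξ * (Real.exp π * JJ (range R0) w (pos R0) ξ) ^ m
        ≤ (Real.exp (-π * (ξ / R) ^ 2) * (10 * (ξ / R) ^ 2)) *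
          (Real.exp π * JJ (range R0) w (pos R0) ξ) ^ m :=
          mul_le_mul_of_nonneg_right hOm (pow_nonneg (mul_nonneg hE.le (hJ0 ξ)) m)
      _ = (10 * Real.exp (-π * (ξ / R) ^ 2)) *
          ((Real.exp π * JJ (range R0) w (pos R0) ξ) ^ m * (ξ / R) ^ 2) := by ring
      _ ≤ (10 * Real.exp (-π * (ξ / R) ^ 2)) *
          ((Real.exp π * (CJ * C0)) ^ m * R ^ (-(m * s))) :=
          mul_le_mul_of_nonneg_left hkey (by positivity)
      _ = _ := by ring

/-- bound for the averaged energy -/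
lemma E_bound {CJ : ℝ} (hCJ1 : 1 ≤ CJ) (hCJ : ∀ M : ℕ,
    ∑ m ∈ range M, Real.exp (-π * (m : ℝ) ^ 2) * (3 * (m + 1)) ≤ CJ) {R0 : ℕ} (hR0 : 1 ≤ R0)
    {w : ℕ → ℝ} {C0 s : ℝ} (hw : Frost R0 C0 s w) (hC0 : 1 ≤ C0) (hs0 : 0 ≤ s) (hs1 : s ≤ 1)
    {R : ℝ} (hR1 : 1 ≤ R) (hRR : R ≤ R0) (m : ℕ) (hms : m * s ≤ 2) :
    ∫ ξ, (Om R ξ * NN (range R0) w (pos R0) ξ) *
        (Real.exp π * JJ (range R0) w (pos R0) ξ) ^ m ≤
      10 * (Real.exp π * (CJ * C0)) ^ m * (CJ * C0) * R ^ (1 - (m + 1) * s) := by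
  have hRpos : 0 < R := by linarith
  have hJ0 := JJ_nonneg (range R0) w (pos R0) hw.nonneg
  have hE : 0 < Real.exp π := Real.exp_pos _
  set A := 10 * (Real.exp π * (CJ * C0)) ^ m * R ^ (-(m * s)) with hA
  have hA0 : 0 ≤ A := by positivity
  calc ∫ ξ, (Om R ξ * NN (range R0) w (pos R0) ξ) *
        (Real.exp π * JJ (range R0) w (pos R0) ξ) ^ m
      ≤ ∫ ξ, A * (Real.exp (-π * (ξ / R) ^ 2) * NN (range R0) w (pos R0) ξ) := by
        apply integral_mono_of_nonneg
        · refine Filter.Eventually.of_forall fun ξ => ?_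
          exact mul_nonneg (mul_nonneg (Om_nonneg _ _) (NN_nonneg _ _ _ _))
            (pow_nonneg (mul_nonneg hE.le (hJ0 ξ)) m)
        · exact (NN_integrable _ _ _ (integrable_gauss hRpos)).const_mul _
        · refine Filter.Eventually.of_forall fun ξ => ?_
          simp only
          have h1 := Om_mul_le hCJ1 hCJ hR0 hw hC0 hs0 hs1 hR1 hRR m hms ξ
          rw [← hA] at h1
          calc (Om R ξ * NN (range R0) w (pos R0) ξ) *
                (Real.exp π * JJ (range R0) w (pos R0) ξ) ^ m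
              = (Om R ξ * (Real.exp π * JJ (range R0) w (pos R0) ξ) ^ m) *
                NN (range R0) w (pos R0) ξ := by ring
            _ ≤ (A * Real.exp (-π * (ξ / R) ^ 2)) * NN (range R0) w (pos R0) ξ :=
                mul_le_mul_of_nonneg_right h1 (NN_nonneg _ _ _ _)
            _ = _ := by ring
    _ = A * (R * JJ (range R0) w (pos R0) R) := by
        rw [integral_const_mul, gauss_energy _ _ _ hRpos]
        rfl
    _ ≤ A * (R * (CJ * C0 * R ^ (-s))) := by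
        apply mul_le_mul_of_nonneg_left _ hA0
        apply mul_le_mul_of_nonneg_left _ hRpos.le
        exact JJ_bound hCJ hR0 hw (by linarith) hs0 hs1 hRpos hRR
    _ = 10 * (Real.exp π * (CJ * C0)) ^ m * (CJ * C0) * R ^ (1 - (m + 1) * s) := by
        have h1 : R ^ (1 - (m + 1) * s) = R ^ (-(m * s)) * (R * R ^ (-s)) := by
          have h2 : R * R ^ (-s) = R ^ (1 + -s) := by
            rw [Real.rpow_add hRpos, Real.rpow_one]
          rw [h2, ← Real.rpow_add hRpos]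
          congr 1
          ring
        rw [h1, hA]
        ring

end Pool.Agent.Lib.MP_e5d0a4_an
end
end

section

section

/-!
# The local counts
-/

namespace Pool.Agent.Lib.MP_e5d0a4_an

open Finset

variable {R : ℕ} {θ : ℝ} {w : ℕ → ℝ} {C0 s : ℝ}

/-- weighted number of `(j, i, i')` with `κ + t_j (i - i')` small -/
noncomputable def TT (R : ℕ) (w t : ℕ → ℝ) (Θ : Finset ℕ) (κ : ℝ) : ℝ :=
  ∑ j ∈ Θ, ∑ i ∈ range R, ∑ i' ∈ range R,
    if |κ + t j * ((i : ℝ) - i')| ≤ 5 then w i * w i' else 0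

lemma TT_le_trivial (hw : Frost R C0 s w) (hR : 1 ≤ R) (hθ : 0 ≤ θ) {Θ : Finset ℕ}
    (hΘ : Θ ⊆ range R) (κ : ℝ) :
    TT R w (tt R θ) Θ κ ≤ R * (11 * (C0 * (1 / (R : ℝ)) ^ s)) := by
  have hβ := hw.beta_nonneg
  unfold TT
  have key : ∀ j ∈ Θ, ∀ i ∈ range R, ∑ i' ∈ range R,
      (if |κ + tt R θ j * ((i : ℝ) - i')| ≤ 5 then w i * w i' else 0) ≤
        w i * (11 * (C0 * (1 / (R : ℝ)) ^ s)) := by
    intro j _ i _
    have ht := tt_ge_one (R := R) hR hθ j
    rw [← sum_filter]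
    have hcard : (((range R).filter
        (fun i' : ℕ => |κ + tt R θ j * ((i : ℝ) - i')| ≤ 5)).card : ℝ) ≤ 2 * 5 + 1 := by
      apply card_le_of_abs (c := i + κ / tt R θ j) (by norm_num)
      intro a ha
      have h1 := (mem_filter.1 ha).2
      have h2 : κ + tt R θ j * ((i : ℝ) - a) = -(tt R θ j * (a - (i + κ / tt R θ j))) := by
        field_simp
        ring
      rw [h2, abs_neg, abs_mul, abs_of_pos (tt_pos j)] at h1
      calc |(a : ℝ) - (i + κ / tt R θ j)| ≤ tt R θ j * |(a : ℝ) - (i + κ / tt R θ j)| :=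
            le_mul_of_one_le_left (abs_nonneg _) ht
        _ ≤ 5 := h1
    calc ∑ i' ∈ (range R).filter (fun i' : ℕ => |κ + tt R θ j * ((i : ℝ) - i')| ≤ 5), w i * w i'
        ≤ ∑ i' ∈ (range R).filter (fun i' : ℕ => |κ + tt R θ j * ((i : ℝ) - i')| ≤ 5),
            w i * (C0 * (1 / (R : ℝ)) ^ s) :=
          sum_le_sum fun i' _ => mul_le_mul_of_nonneg_left (hw.le_beta i') (hw.nonneg i)
      _ = (((range R).filter
            (fun i' : ℕ => |κ + tt R θ j * ((i : ℝ) - i')| ≤ 5)).card : ℝ) *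
            (w i * (C0 * (1 / (R : ℝ)) ^ s)) := by rw [sum_const, nsmul_eq_mul]
      _ ≤ (2 * 5 + 1) * (w i * (C0 * (1 / (R : ℝ)) ^ s)) := by
          apply mul_le_mul_of_nonneg_right hcard
          exact mul_nonneg (hw.nonneg i) hβ
      _ = w i * (11 * (C0 * (1 / (R : ℝ)) ^ s)) := by ring
  calc ∑ j ∈ Θ, ∑ i ∈ range R, ∑ i' ∈ range R,
        (if |κ + tt R θ j * ((i : ℝ) - i')| ≤ 5 then w i * w i' else 0)
      ≤ ∑ j ∈ Θ, ∑ i ∈ range R, w i * (11 * (C0 * (1 / (R : ℝ)) ^ s)) :=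
        sum_le_sum fun j hj => sum_le_sum fun i hi => key j hj i hi
    _ = ∑ j ∈ Θ, (∑ i ∈ range R, w i) * (11 * (C0 * (1 / (R : ℝ)) ^ s)) := by
        refine sum_congr rfl fun j _ => ?_
        rw [sum_mul]
    _ ≤ ∑ j ∈ Θ, 1 * (11 * (C0 * (1 / (R : ℝ)) ^ s)) := by
        refine sum_le_sum fun j _ => ?_
        exact mul_le_mul_of_nonneg_right hw.sum_le (by positivity)
    _ = (Θ.card : ℝ) * (11 * (C0 * (1 / (R : ℝ)) ^ s)) := by
        rw [sum_const, nsmul_eq_mul, one_mul]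
    _ ≤ R * (11 * (C0 * (1 / (R : ℝ)) ^ s)) := by
        apply mul_le_mul_of_nonneg_right _ (by positivity)
        have := card_le_card hΘ
        rw [card_range] at this
        exact_mod_cast this

/-- number of `j` with `t_j u` close to `X` -/
lemma card_near (hR : 1 ≤ R) (hθ : 0 ≤ θ) (hθ1 : θ ≤ 1) {Θ : Finset ℕ} (hΘ : Θ ⊆ range R)
    {u X ρ : ℝ} (hρ : 0 ≤ ρ) (hX : 2 * ρ ≤ |X|) (hX0 : 0 < |X|) :
    (((Θ.filter (fun j => |tt R θ j * u - X| ≤ ρ)).card : ℝ)) ≤ 12 * ρ * R / |X| + 1 := by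
  rcases (Θ.filter (fun j => |tt R θ j * u - X| ≤ ρ)).eq_empty_or_nonempty with h0 | ⟨j0, hj0⟩
  · rw [h0]
    simp only [card_empty, Nat.cast_zero]
    positivity
  · have h1 := (mem_filter.1 hj0).2
    have hj0R := mem_range.1 (hΘ (mem_filter.1 hj0).1)
    have ht3 := tt_le_three (R := R) hR hθ1 hj0R
    have htp := tt_pos (R := R) (θ := θ) j0
    have hu : |X| / 6 ≤ |u| := by
      have h2 : |X| - ρ ≤ |tt R θ j0 * u| := by
        have := abs_sub_abs_le_abs_sub X (tt R θ j0 * u)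
        rw [abs_sub_comm] at this
        linarith
      rw [abs_mul, abs_of_pos htp] at h2
      have h3 : tt R θ j0 * |u| ≤ 3 * |u| := mul_le_mul_of_nonneg_right ht3 (abs_nonneg _)
      linarith
    have hu0 : 0 < |u| := lt_of_lt_of_le (by positivity) hu
    have hune : u ≠ 0 := abs_pos.1 hu0
    have h4 : (((Θ.filter (fun j => |tt R θ j * u - X| ≤ ρ)).card : ℝ)) ≤
        2 * (ρ / |u|) * R + 1 := by
      apply card_tt_le (θ := θ) (c := X / u) hR hθ (by positivity)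
      intro j hj
      have h5 := (mem_filter.1 hj).2
      have h6 : tt R θ j * u - X = (tt R θ j - X / u) * u := by
        field_simp
      rw [h6, abs_mul] at h5
      rw [le_div_iff₀ hu0]
      exact h5
    have h7 : ρ / |u| ≤ 6 * ρ / |X| := by
      rw [div_le_div_iff₀ hu0 hX0]
      nlinarith
    calc (((Θ.filter (fun j => |tt R θ j * u - X| ≤ ρ)).card : ℝ)) ≤ 2 * (ρ / |u|) * R + 1 := h4
      _ ≤ 2 * (6 * ρ / |X|) * R + 1 := by
          have : (0 : ℝ) ≤ R := by positivity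
          nlinarith
      _ = 12 * ρ * R / |X| + 1 := by ring

/-- the product `(A R / x + 1) * mass` bound used twice -/
lemma mass_bound (hw : Frost R C0 s w) (hC0 : 1 ≤ C0) (hs0 : 0 ≤ s) (hs1 : s ≤ 1) (hR : 1 ≤ R)
    {A x x0 c B : ℝ} (hA : 0 ≤ A) (hx0 : 1 ≤ x0) (hx : x0 ≤ x) (hx0R : x0 ≤ R) (hB : 1 ≤ B)
    {S : Finset ℕ} (hSR : S ⊆ range R) (hS : ∀ i ∈ S, |(i : ℝ) - c| ≤ B * x) :
    (A * R / x + 1) * ∑ i ∈ S, w i ≤ (A + 1) * (3 * B) * C0 * ((R : ℝ) / x0) ^ (1 - s) := by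
  have hR' : (1 : ℝ) ≤ R := by exact_mod_cast hR
  have hRpos : (0 : ℝ) < R := by linarith
  have hxpos : 0 < x := by linarith
  have hx0pos : 0 < x0 := by linarith
  have hsum0 : 0 ≤ ∑ i ∈ S, w i := sum_nonneg fun i _ => hw.nonneg i
  have hRx0 : 1 ≤ (R : ℝ) / x0 := by rwa [one_le_div hx0pos]
  have hpow1 : 1 ≤ ((R : ℝ) / x0) ^ (1 - s) := Real.one_le_rpow hRx0 (by linarith)
  rcases le_total x R with hxR | hxR
  · have hRx : 1 ≤ (R : ℝ) / x := by rwa [one_le_div hxpos]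
    have h1 : A * R / x + 1 ≤ (A + 1) * (R / x) := by
      have : A * R / x = A * (R / x) := by ring
      rw [this]
      linarith
    have h2 : ∑ i ∈ S, w i ≤ C0 * ((2 * (B * x) + 1) / R) ^ s :=
      hw.interval (by linarith) hs0 (by positivity) hS
    have h3 : ((2 * (B * x) + 1) / R) ^ s ≤ (3 * B) * (x / R) ^ s := by
      have h4 : (2 * (B * x) + 1) / R ≤ (3 * B) * (x / R) := by
        rw [← mul_div_assoc]
        apply div_le_div_of_nonneg_right _ hRpos.le
        nlinarith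
      calc ((2 * (B * x) + 1) / R) ^ s ≤ ((3 * B) * (x / R)) ^ s :=
            Real.rpow_le_rpow (by positivity) h4 hs0
        _ = (3 * B) ^ s * (x / R) ^ s := Real.mul_rpow (by positivity) (by positivity)
        _ ≤ (3 * B) ^ (1 : ℝ) * (x / R) ^ s := by
            apply mul_le_mul_of_nonneg_right _ (by positivity)
            exact Real.rpow_le_rpow_of_exponent_le (by linarith) hs1
        _ = (3 * B) * (x / R) ^ s := by rw [Real.rpow_one]
    have h5 : (R / x) * (x / R) ^ s = ((R : ℝ) / x) ^ (1 - s) := by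
      rw [Real.rpow_sub (by positivity), Real.rpow_one]
      have h6 : (x / R) ^ s = (((R : ℝ) / x) ^ s)⁻¹ := by
        rw [← Real.inv_rpow (by positivity), inv_div]
      rw [h6]
      rfl
    have h7 : ((R : ℝ) / x) ^ (1 - s) ≤ ((R : ℝ) / x0) ^ (1 - s) := by
      apply Real.rpow_le_rpow (by positivity) _ (by linarith)
      exact div_le_div_of_nonneg_left hRpos.le hx0pos hx
    calc (A * R / x + 1) * ∑ i ∈ S, w i
        ≤ ((A + 1) * (R / x)) * (C0 * ((3 * B) * (x / R) ^ s)) := by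
          apply mul_le_mul h1 _ hsum0 (by positivity)
          exact h2.trans (mul_le_mul_of_nonneg_left h3 (by linarith))
      _ = (A + 1) * (3 * B) * C0 * ((R / x) * (x / R) ^ s) := by ring
      _ = (A + 1) * (3 * B) * C0 * ((R : ℝ) / x) ^ (1 - s) := by rw [h5]
      _ ≤ (A + 1) * (3 * B) * C0 * ((R : ℝ) / x0) ^ (1 - s) := by
          apply mul_le_mul_of_nonneg_left h7 (by positivity)
  · have h1 : A * R / x + 1 ≤ A + 1 := by
      have : A * R / x ≤ A := by
        rw [div_le_iff₀ hxpos]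
        nlinarith
      linarith
    have h2 : ∑ i ∈ S, w i ≤ 1 :=
      (sum_le_sum_of_subset_of_nonneg hSR fun i _ _ => hw.nonneg i).trans hw.sum_le
    calc (A * R / x + 1) * ∑ i ∈ S, w i ≤ (A + 1) * 1 :=
          mul_le_mul h1 h2 hsum0 (by positivity)
      _ ≤ (A + 1) * ((3 * B) * C0 * ((R : ℝ) / x0) ^ (1 - s)) := by
          apply mul_le_mul_of_nonneg_left _ (by positivity)
          have h8 : 1 ≤ 3 * B * C0 := by nlinarith
          nlinarith
      _ = _ := by ring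

lemma TT_le_far (hw : Frost R C0 s w) (hC0 : 1 ≤ C0) (hs0 : 0 ≤ s) (hs1 : s ≤ 1)
    (hR : 1 ≤ R) (hθ : 0 ≤ θ) (hθ1 : θ ≤ 1) {Θ : Finset ℕ} (hΘ : Θ ⊆ range R) {κ κ0 : ℝ}
    (hκ0 : 10 ≤ κ0) (hκ0R : κ0 ≤ R) (hκ : κ0 ≤ |κ|) :
    TT R w (tt R θ) Θ κ ≤ 366 * C0 * ((R : ℝ) / κ0) ^ (1 - s) := by
  have hκpos : 0 < |κ| := by linarith
  unfold TT
  have hcount : ∀ i i' : ℕ, ((Θ.filter (fun j => |κ + tt R θ j * ((i : ℝ) - i')| ≤ 5)).card : ℝ) ≤
      60 * R / |κ| + 1 := by
    intro i i'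
    have h := card_near (θ := θ) hR hθ hθ1 hΘ (u := (i : ℝ) - i') (X := -κ) (ρ := 5) (by norm_num)
      (by rw [abs_neg]; linarith) (by rw [abs_neg]; exact hκpos)
    rw [abs_neg] at h
    have h2 : ∀ j : ℕ, tt R θ j * ((i : ℝ) - i') - -κ = κ + tt R θ j * ((i : ℝ) - i') := by
      intro j; ring
    simp only [h2] at h
    calc _ ≤ _ := h
      _ = _ := by ring
  have hcond : ∀ j ∈ Θ, ∀ i i' : ℕ, |κ + tt R θ j * ((i : ℝ) - i')| ≤ 5 →
      |(i' : ℝ) - i| ≤ 2 * |κ| := by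
    intro j _ i i' h
    have ht := tt_ge_one (R := R) hR hθ j
    have h1 : |tt R θ j * ((i : ℝ) - i')| ≤ 5 + |κ| := by
      have h2 : tt R θ j * ((i : ℝ) - i') = (κ + tt R θ j * ((i : ℝ) - i')) + (-κ) := by ring
      rw [h2]
      calc _ ≤ |κ + tt R θ j * ((i : ℝ) - i')| + |-κ| := abs_add_le _ _
        _ ≤ 5 + |κ| := by rw [abs_neg]; linarith
    rw [abs_mul, abs_of_pos (tt_pos j)] at h1
    rw [abs_sub_comm]
    have h3 : |(i : ℝ) - i'| ≤ tt R θ j * |(i : ℝ) - i'| :=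
      le_mul_of_one_le_left (abs_nonneg _) ht
    linarith
  calc ∑ j ∈ Θ, ∑ i ∈ range R, ∑ i' ∈ range R,
        (if |κ + tt R θ j * ((i : ℝ) - i')| ≤ 5 then w i * w i' else 0)
      ≤ ∑ j ∈ Θ, ∑ i ∈ range R, ∑ i' ∈ (range R).filter (fun i' : ℕ => |(i' : ℝ) - i| ≤ 2 * |κ|),
        (if |κ + tt R θ j * ((i : ℝ) - i')| ≤ 5 then w i * w i' else 0) := by
        refine sum_le_sum fun j hj => sum_le_sum fun i _ => ?_
        rw [sum_filter]
        refine sum_le_sum fun i' _ => ?_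
        split_ifs with h1 h2
        · exact le_rfl
        · exact absurd (hcond j hj i i' h1) h2
        · exact le_rfl
        · exact le_rfl
    _ = ∑ i ∈ range R, ∑ i' ∈ (range R).filter (fun i' : ℕ => |(i' : ℝ) - i| ≤ 2 * |κ|),
        ((Θ.filter (fun j => |κ + tt R θ j * ((i : ℝ) - i')| ≤ 5)).card : ℝ) * (w i * w i') := by
        rw [sum_comm]
        refine sum_congr rfl fun i _ => ?_
        rw [sum_comm]
        refine sum_congr rfl fun i' _ => ?_
        rw [← sum_filter, sum_const, nsmul_eq_mul]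
    _ ≤ ∑ i ∈ range R, ∑ i' ∈ (range R).filter (fun i' : ℕ => |(i' : ℝ) - i| ≤ 2 * |κ|),
        (60 * R / |κ| + 1) * (w i * w i') := by
        refine sum_le_sum fun i _ => sum_le_sum fun i' _ => ?_
        exact mul_le_mul_of_nonneg_right (hcount i i') (mul_nonneg (hw.nonneg i) (hw.nonneg i'))
    _ = ∑ i ∈ range R, w i * ((60 * R / |κ| + 1) *
          ∑ i' ∈ (range R).filter (fun i' : ℕ => |(i' : ℝ) - i| ≤ 2 * |κ|), w i') := by
        refine sum_congr rfl fun i _ => ?_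
        rw [mul_sum, mul_sum]
        refine sum_congr rfl fun i' _ => ?_
        ring
    _ ≤ ∑ i ∈ range R, w i * ((60 + 1) * (3 * 2) * C0 * ((R : ℝ) / κ0) ^ (1 - s)) := by
        refine sum_le_sum fun i _ => mul_le_mul_of_nonneg_left ?_ (hw.nonneg i)
        apply mass_bound hw hC0 hs0 hs1 hR (by norm_num) (by linarith) hκ hκ0R (by norm_num)
          (filter_subset _ _) (c := i)
        intro i' hi'
        exact (mem_filter.1 hi').2
    _ = (∑ i ∈ range R, w i) * ((60 + 1) * (3 * 2) * C0 * ((R : ℝ) / κ0) ^ (1 - s)) := by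
        rw [sum_mul]
    _ ≤ 1 * ((60 + 1) * (3 * 2) * C0 * ((R : ℝ) / κ0) ^ (1 - s)) := by
        apply mul_le_mul_of_nonneg_right hw.sum_le
        positivity
    _ = _ := by ring

end Pool.Agent.Lib.MP_e5d0a4_an
end

section

/-!
# Large square function implies many approximate additive-multiplicative quadruples
-/

namespace Pool.Agent.Lib.MP_e5d0a4_an

open Finset

variable {R : ℕ} {θ : ℝ} {w Y : ℕ → ℝ} {C0 s : ℝ}

/-- the defect of a quadruple -/
noncomputable def kap (t Y : ℕ → ℝ) (a b a' b' : ℕ) : ℝ :=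
  Y b - Y b' - (t b / t a) * (Y a - Y a')

/-- the number of quadruples with small defect -/
noncomputable def EE (t Y : ℕ → ℝ) (Θ : Finset ℕ) (κ0 : ℝ) : ℝ :=
  ∑ a ∈ Θ, ∑ b ∈ Θ, ∑ a' ∈ Θ, ∑ b' ∈ Θ,
    if b + a' = b' + a ∧ |kap t Y a b a' b'| < κ0 then (1 : ℝ) else 0

/-- Cauchy–Schwarz with keys -/
lemma cs_key {Ω κ : Type*} [DecidableEq κ] (S : Finset Ω) (key : Ω → κ) (K : Finset κ)
    (h : ∀ x ∈ S, key x ∈ K) (W : Ω → ℝ) :
    (∑ x ∈ S, W x) ^ 2 ≤ (K.card : ℝ) *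
      ∑ x ∈ S, ∑ y ∈ S, if key x = key y then W x * W y else 0 := by
  have h1 : ∑ x ∈ S, W x = ∑ k ∈ K, ∑ x ∈ S, if key x = k then W x else 0 := by
    rw [Finset.sum_comm]
    refine sum_congr rfl fun x hx => ?_
    rw [sum_ite_eq, if_pos (h x hx)]
  have h2 : ∑ x ∈ S, ∑ y ∈ S, (if key x = key y then W x * W y else 0) =
      ∑ k ∈ K, (∑ x ∈ S, if key x = k then W x else 0) ^ 2 := by
    have h3 : ∀ k ∈ K, (∑ x ∈ S, if key x = k then W x else 0) ^ 2 =
        ∑ x ∈ S, ∑ y ∈ S, (if key x = k then (if key y = k then W x * W y else 0) else 0) := by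
      intro k _
      rw [sq, sum_mul_sum]
      refine sum_congr rfl fun x _ => sum_congr rfl fun y _ => ?_
      split_ifs <;> simp
    refine Eq.trans ?_ (sum_congr rfl h3).symm
    rw [Finset.sum_comm (s := K)]
    refine sum_congr rfl fun x hx => ?_
    rw [Finset.sum_comm (s := K)]
    refine sum_congr rfl fun y _ => ?_
    rw [sum_ite_eq, if_pos (h x hx)]
    simp only [eq_comm]
  rw [h1, h2]
  exact sq_sum_le_card_mul_sum_sq

/-- the second moment bound: `(∑ w r)² ≤ ∑ w r²` when `∑ w ≤ 1` -/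
lemma sq_sum_le_of_mass {ι : Type*} (S : Finset ι) (w r : ι → ℝ) (hw : ∀ i ∈ S, 0 ≤ w i)
    (h1 : ∑ i ∈ S, w i ≤ 1) : (∑ i ∈ S, w i * r i) ^ 2 ≤ ∑ i ∈ S, w i * r i ^ 2 := by
  set A := ∑ i ∈ S, w i * r i with hA
  have h2 : 0 ≤ ∑ i ∈ S, w i * (r i - A) ^ 2 :=
    sum_nonneg fun i hi => mul_nonneg (hw i hi) (sq_nonneg _)
  have h3 : ∑ i ∈ S, w i * (r i - A) ^ 2 =
      ∑ i ∈ S, w i * r i ^ 2 - 2 * A * A + (∑ i ∈ S, w i) * A ^ 2 := by
    have h4 : ∀ i ∈ S, w i * (r i - A) ^ 2 =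
        w i * r i ^ 2 - (2 * A) * (w i * r i) + w i * A ^ 2 := by
      intro i _; ring
    rw [sum_congr rfl h4, sum_add_distrib, sum_sub_distrib, ← mul_sum, ← sum_mul, ← hA]
  rw [h3] at h2
  nlinarith [sq_nonneg A]

/-- number of quadruples with `b + a' = b' + a` -/
lemma card_quads (hR : 1 ≤ R) {Θ : Finset ℕ} (hΘ : Θ ⊆ range R) :
    ∑ a ∈ Θ, ∑ b ∈ Θ, ∑ a' ∈ Θ, ∑ b' ∈ Θ, (if b + a' = b' + a then (1 : ℝ) else 0) ≤
      (R : ℝ) ^ 3 := by
  have hc : (Θ.card : ℝ) ≤ R := by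
    have := card_le_card hΘ
    rw [card_range] at this
    exact_mod_cast this
  have hR' : (0 : ℝ) ≤ R := by positivity
  have h1 : ∀ a b a' : ℕ, ∑ b' ∈ Θ, (if b + a' = b' + a then (1 : ℝ) else 0) ≤ 1 := by
    intro a b a'
    apply sum_ite_le_of_subsingleton (f := fun _ => (1 : ℝ)) (by norm_num) (fun _ _ => le_rfl)
    intro i _ i' _ h h'
    omega
  calc ∑ a ∈ Θ, ∑ b ∈ Θ, ∑ a' ∈ Θ, ∑ b' ∈ Θ, (if b + a' = b' + a then (1 : ℝ) else 0)
      ≤ ∑ a ∈ Θ, ∑ b ∈ Θ, ∑ a' ∈ Θ, (1 : ℝ) :=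
        sum_le_sum fun a _ => sum_le_sum fun b _ => sum_le_sum fun a' _ => h1 a b a'
    _ = (Θ.card : ℝ) * ((Θ.card : ℝ) * (Θ.card : ℝ)) := by
        simp only [sum_const, nsmul_eq_mul, mul_one]
    _ ≤ R * (R * R) := by
        have h0 : (0 : ℝ) ≤ Θ.card := by positivity
        exact mul_le_mul hc (mul_le_mul hc hc h0 hR') (by positivity) hR'
    _ = _ := by ring

/-- geometry of a coincidence -/
lemma kap_close (hR : 1 ≤ R) (hθ : 0 ≤ θ) (hθ1 : θ ≤ 1) {a b a' b' j i1 i1' i i' : ℕ}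
    (hb : b < R) (hquad : b + a' = b' + a)
    (h1 : hh (tt R θ) Y a i1 = hh (tt R θ) Y a' i1')
    (h2 : hh (tt R θ) Y j i = hh (tt R θ) Y b i1)
    (h3 : hh (tt R θ) Y j i' = hh (tt R θ) Y b' i1') :
    |kap (tt R θ) Y a b a' b' + tt R θ j * ((i : ℝ) - i')| ≤ 5 := by
  have e1 := hh_close h1
  have e2 := hh_close h2
  have e3 := hh_close h3
  have hq := tt_ratio (R := R) (θ := θ) hquad
  set q := tt R θ b / tt R θ a with hqdef
  have hta := tt_ge_one (R := R) hR hθ a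
  have htb := tt_le_three (R := R) hR hθ1 hb
  have hq0 : 0 ≤ q := div_nonneg (tt_pos b).le (tt_pos a).le
  have hq3 : q ≤ 3 := by
    rw [hqdef, div_le_iff₀ (tt_pos a)]
    nlinarith
  have f1 : tt R θ b = q * tt R θ a := by
    rw [hqdef]; field_simp [(tt_pos a).ne']
  have f2 : tt R θ b' = q * tt R θ a' := by
    rw [hq]; field_simp [(tt_pos a').ne']
  unfold kap
  rw [← hqdef]
  have h4 : Y b - Y b' - q * (Y a - Y a') + tt R θ j * ((i : ℝ) - i') =
      -((Y j - tt R θ j * i) - (Y b - tt R θ b * i1)) +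
      ((Y j - tt R θ j * i') - (Y b' - tt R θ b' * i1')) +
      (-(q * ((Y a - tt R θ a * i1) - (Y a' - tt R θ a' * i1')))) := by
    rw [f1, f2]
    ring
  rw [h4]
  have h5 : |(-(q * ((Y a - tt R θ a * i1) - (Y a' - tt R θ a' * i1'))))| ≤ 3 := by
    rw [abs_neg, abs_mul, abs_of_nonneg hq0]
    calc q * |(Y a - tt R θ a * i1) - (Y a' - tt R θ a' * i1')| ≤ 3 * 1 :=
          mul_le_mul hq3 e1.le (abs_nonneg _) (by norm_num)
      _ = 3 := by norm_num
  calc _ ≤ |(-((Y j - tt R θ j * i) - (Y b - tt R θ b * i1)) +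
        ((Y j - tt R θ j * i') - (Y b' - tt R θ b' * i1')))| + _ := abs_add_le _ _
    _ ≤ (|(-((Y j - tt R θ j * i) - (Y b - tt R θ b * i1)))| +
        |((Y j - tt R θ j * i') - (Y b' - tt R θ b' * i1'))|) + 3 := by
        gcongr
        exact abs_add_le _ _
    _ ≤ (1 + 1) + 3 := by
        rw [abs_neg]
        gcongr
    _ = 5 := by norm_num

lemma swap5 {A B C D E : Finset ℕ} (f : ℕ → ℕ → ℕ → ℕ → ℕ → ℝ) :
    ∑ j ∈ A, ∑ a ∈ B, ∑ b ∈ C, ∑ i ∈ D, ∑ k ∈ E, f j a b i k =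
      ∑ k ∈ E, ∑ a ∈ B, ∑ b ∈ C, ∑ j ∈ A, ∑ i ∈ D, f j a b i k := by
  calc ∑ j ∈ A, ∑ a ∈ B, ∑ b ∈ C, ∑ i ∈ D, ∑ k ∈ E, f j a b i k
      = ∑ j ∈ A, ∑ a ∈ B, ∑ b ∈ C, ∑ k ∈ E, ∑ i ∈ D, f j a b i k :=
        sum_congr rfl fun j _ => sum_congr rfl fun a _ => sum_congr rfl fun b _ => sum_comm
    _ = ∑ j ∈ A, ∑ a ∈ B, ∑ k ∈ E, ∑ b ∈ C, ∑ i ∈ D, f j a b i k :=
        sum_congr rfl fun j _ => sum_congr rfl fun a _ => sum_comm
    _ = ∑ j ∈ A, ∑ k ∈ E, ∑ a ∈ B, ∑ b ∈ C, ∑ i ∈ D, f j a b i k :=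
        sum_congr rfl fun j _ => sum_comm
    _ = ∑ k ∈ E, ∑ j ∈ A, ∑ a ∈ B, ∑ b ∈ C, ∑ i ∈ D, f j a b i k := sum_comm
    _ = ∑ k ∈ E, ∑ a ∈ B, ∑ j ∈ A, ∑ b ∈ C, ∑ i ∈ D, f j a b i k :=
        sum_congr rfl fun k _ => sum_comm
    _ = _ := sum_congr rfl fun k _ => sum_congr rfl fun a _ => sum_comm

lemma swap7 {J A B I A' B' I' : Finset ℕ} (f : ℕ → ℕ → ℕ → ℕ → ℕ → ℕ → ℕ → ℝ) :
    ∑ j ∈ J, ∑ a ∈ A, ∑ b ∈ B, ∑ i ∈ I, ∑ a' ∈ A', ∑ b' ∈ B', ∑ i' ∈ I', f j a b i a' b' i' =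
      ∑ a ∈ A, ∑ b ∈ B, ∑ a' ∈ A', ∑ b' ∈ B', ∑ j ∈ J, ∑ i ∈ I, ∑ i' ∈ I',
        f j a b i a' b' i' := by
  calc ∑ j ∈ J, ∑ a ∈ A, ∑ b ∈ B, ∑ i ∈ I, ∑ a' ∈ A', ∑ b' ∈ B', ∑ i' ∈ I', f j a b i a' b' i'
      = ∑ a ∈ A, ∑ j ∈ J, ∑ b ∈ B, ∑ i ∈ I, ∑ a' ∈ A', ∑ b' ∈ B', ∑ i' ∈ I',
          f j a b i a' b' i' := sum_comm
    _ = ∑ a ∈ A, ∑ b ∈ B, ∑ j ∈ J, ∑ i ∈ I, ∑ a' ∈ A', ∑ b' ∈ B', ∑ i' ∈ I',
          f j a b i a' b' i' := sum_congr rfl fun a _ => sum_comm
    _ = ∑ a ∈ A, ∑ b ∈ B, ∑ j ∈ J, ∑ a' ∈ A', ∑ i ∈ I, ∑ b' ∈ B', ∑ i' ∈ I',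
          f j a b i a' b' i' :=
        sum_congr rfl fun a _ => sum_congr rfl fun b _ => sum_congr rfl fun j _ => sum_comm
    _ = ∑ a ∈ A, ∑ b ∈ B, ∑ j ∈ J, ∑ a' ∈ A', ∑ b' ∈ B', ∑ i ∈ I, ∑ i' ∈ I',
          f j a b i a' b' i' :=
        sum_congr rfl fun a _ => sum_congr rfl fun b _ => sum_congr rfl fun j _ =>
          sum_congr rfl fun a' _ => sum_comm
    _ = ∑ a ∈ A, ∑ b ∈ B, ∑ a' ∈ A', ∑ j ∈ J, ∑ b' ∈ B', ∑ i ∈ I, ∑ i' ∈ I',
          f j a b i a' b' i' :=
        sum_congr rfl fun a _ => sum_congr rfl fun b _ => sum_comm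
    _ = _ :=
        sum_congr rfl fun a _ => sum_congr rfl fun b _ => sum_congr rfl fun a' _ => sum_comm

/-- second moment for a fixed `j` -/
lemma second_moment (hw : Frost R C0 s w) (hR : 1 ≤ R) (hθ : 0 ≤ θ) (hθ1 : θ ≤ 1)
    {Θ : Finset ℕ} (hΘ : Θ ⊆ range R) (D1 : Finset ℤ) (j : ℕ) {β : ℝ} (hβ : 0 ≤ β)
    (hwβ : ∀ i, w i ≤ β) :
    ∑ x ∈ (Θ ×ˢ Θ ×ˢ range R ×ˢ range R).filter (fun x : ℕ × ℕ × ℕ × ℕ =>
        hh (tt R θ) Y x.1 x.2.2.2 ∈ D1 ∧ hh (tt R θ) Y x.2.1 x.2.2.2 ∈ D1 ∧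
          hh (tt R θ) Y j x.2.2.1 = hh (tt R θ) Y x.2.1 x.2.2.2),
      ∑ y ∈ (Θ ×ˢ Θ ×ˢ range R ×ˢ range R).filter (fun x : ℕ × ℕ × ℕ × ℕ =>
        hh (tt R θ) Y x.1 x.2.2.2 ∈ D1 ∧ hh (tt R θ) Y x.2.1 x.2.2.2 ∈ D1 ∧
          hh (tt R θ) Y j x.2.2.1 = hh (tt R θ) Y x.2.1 x.2.2.2),
        (if (hh (tt R θ) Y x.1 x.2.2.2, x.2.1 + R - x.1) =
            (hh (tt R θ) Y y.1 y.2.2.2, y.2.1 + R - y.1)
          then (w x.2.2.2 * w x.2.2.1) * (w y.2.2.2 * w y.2.2.1) else 0) ≤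
    ∑ a ∈ Θ, ∑ b ∈ Θ, ∑ i ∈ range R, ∑ a' ∈ Θ, ∑ b' ∈ Θ, ∑ i' ∈ range R,
      (if b + a' = b' + a then (if |kap (tt R θ) Y a b a' b' + tt R θ j * ((i : ℝ) - i')| ≤ 5
        then w i * w i' else 0) else 0) * β ^ 2 := by
  have hwn := hw.nonneg
  set t := tt R θ with ht
  have hu : ∀ b i : ℕ, b ∈ Θ →
      ∑ k ∈ range R, (if hh t Y b k = hh t Y j i then w k else 0) ≤ β := by
    intro b i hb
    apply sum_ite_le_of_subsingleton hβ (fun k _ => hwβ k)
    intro k _ k' _ h h'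
    exact hh_inj (tt_ge_one hR hθ b) (h.trans h'.symm)
  have hg : ∀ a b i a' b' i' : ℕ, 0 ≤ (if b + a' = b' + a then
      (if |kap t Y a b a' b' + t j * ((i : ℝ) - i')| ≤ 5 then w i * w i' else 0) else 0) := by
    intro a b i a' b' i'
    split_ifs
    · exact mul_nonneg (hwn i) (hwn i')
    · exact le_rfl
    · exact le_rfl
  -- expand
  rw [sum_filter]
  simp only [sum_filter, sum_product]
  refine sum_le_sum fun a ha => sum_le_sum fun b hb => sum_le_sum fun i _ => ?_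
  have hbR := mem_range.1 (hΘ hb)
  calc _ ≤ ∑ k ∈ range R, (if hh t Y b k = hh t Y j i then w k else 0) *
        ∑ a' ∈ Θ, ∑ b' ∈ Θ, ∑ i' ∈ range R, (if b + a' = b' + a then
          (if |kap t Y a b a' b' + t j * ((i : ℝ) - i')| ≤ 5 then w i * w i' else 0) else 0) *
          β := by
        refine sum_le_sum fun k hk => ?_
        split_ifs with h1 h2 h3
        · rw [mul_sum]
          refine sum_le_sum fun a' ha' => ?_
          rw [mul_sum]
          refine sum_le_sum fun b' hb' => ?_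
          rw [mul_sum]
          refine sum_le_sum fun i' hi' => ?_
          calc _ ≤ ∑ k' ∈ range R, (w k * (if b + a' = b' + a then
                  (if |kap t Y a b a' b' + t j * ((i : ℝ) - i')| ≤ 5 then w i * w i' else 0)
                    else 0)) * (if hh t Y b' k' = hh t Y j i' then w k' else 0) := by
                refine sum_le_sum fun k' hk' => ?_
                have hR0 : 0 ≤ (w k * (if b + a' = b' + a then
                  (if |kap t Y a b a' b' + t j * ((i : ℝ) - i')| ≤ 5 then w i * w i' else 0)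
                    else 0)) * (if hh t Y b' k' = hh t Y j i' then w k' else 0) := by
                  apply mul_nonneg (mul_nonneg (hwn k) (hg a b i a' b' i'))
                  split_ifs
                  · exact hwn k'
                  · exact le_rfl
                by_cases g1 : hh t Y a' k' ∈ D1 ∧ hh t Y b' k' ∈ D1 ∧
                    hh t Y j i' = hh t Y b' k'
                · rw [if_pos g1]
                  by_cases g2 : (hh t Y a k, b + R - a) = (hh t Y a' k', b' + R - a')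
                  · rw [if_pos g2]
                    have ha'R := mem_range.1 (hΘ ha')
                    have haR := mem_range.1 (hΘ ha)
                    have g3 : hh t Y a k = hh t Y a' k' := (Prod.mk.inj g2).1
                    have g4 : b + R - a = b' + R - a' := (Prod.mk.inj g2).2
                    have g5 : b + a' = b' + a := by omega
                    have g6 := kap_close hR hθ hθ1 (j := j) (i := i) (i' := i') hbR g5 g3
                      h1.2.2 g1.2.2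
                    rw [if_pos g5, if_pos g6, if_pos g1.2.2.symm]
                    exact le_of_eq (by ring)
                  · rw [if_neg g2]
                    exact hR0
                · rw [if_neg g1]
                  exact hR0
            _ = (w k * (if b + a' = b' + a then
                  (if |kap t Y a b a' b' + t j * ((i : ℝ) - i')| ≤ 5 then w i * w i' else 0)
                    else 0)) * ∑ k' ∈ range R, (if hh t Y b' k' = hh t Y j i' then w k' else 0) := by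
                rw [mul_sum]
            _ ≤ (w k * (if b + a' = b' + a then
                  (if |kap t Y a b a' b' + t j * ((i : ℝ) - i')| ≤ 5 then w i * w i' else 0)
                    else 0)) * β := by
                apply mul_le_mul_of_nonneg_left (hu b' i' hb')
                exact mul_nonneg (hwn k) (hg a b i a' b' i')
            _ = _ := by ring
        · exact absurd h1.2.2.symm h2
        · apply mul_nonneg (hwn k)
          exact sum_nonneg fun a' _ => sum_nonneg fun b' _ => sum_nonneg fun i' _ =>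
            mul_nonneg (hg a b i a' b' i') hβ
        · simp
    _ = (∑ k ∈ range R, (if hh t Y b k = hh t Y j i then w k else 0)) *
        ∑ a' ∈ Θ, ∑ b' ∈ Θ, ∑ i' ∈ range R, (if b + a' = b' + a then
          (if |kap t Y a b a' b' + t j * ((i : ℝ) - i')| ≤ 5 then w i * w i' else 0) else 0) *
          β := by
        rw [sum_mul]
    _ ≤ β * ∑ a' ∈ Θ, ∑ b' ∈ Θ, ∑ i' ∈ range R, (if b + a' = b' + a then
          (if |kap t Y a b a' b' + t j * ((i : ℝ) - i')| ≤ 5 then w i * w i' else 0) else 0) *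
          β := by
        apply mul_le_mul_of_nonneg_right (hu b i hb)
        exact sum_nonneg fun a' _ => sum_nonneg fun b' _ => sum_nonneg fun i' _ =>
            mul_nonneg (hg a b i a' b' i') hβ
    _ = _ := by
        rw [mul_sum]
        refine sum_congr rfl fun a' _ => ?_
        rw [mul_sum]
        refine sum_congr rfl fun b' _ => ?_
        rw [mul_sum]
        refine sum_congr rfl fun i' _ => ?_
        ring

/-- **Step 1.** A large square function forces many quadruples of small defect. -/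
theorem step_one (hw : Frost R C0 s w) (hC0 : 1 ≤ C0) (hs0 : 0 ≤ s) (hs1 : s ≤ 1)
    (hR : 1 ≤ R) (hθ : 0 ≤ θ) (hθ1 : θ ≤ 1) {Θ : Finset ℕ} (hΘ : Θ ⊆ range R) {K κ0 : ℝ}
    (hK : 1 ≤ K) (hκ0 : 10 ≤ κ0) (hκ0R : κ0 ≤ R) (hκK : 512 * 366 * K ^ 7 ≤ κ0 ^ (1 - s))
    (hQ : (R : ℝ) ^ 2 * (C0 * (1 / (R : ℝ)) ^ s) / K ≤ QQ R w (tt R θ) Y Θ) :
    (R : ℝ) ^ 3 / (5632 * K ^ 7) ≤ EE (tt R θ) Y Θ κ0 := by
  classical
  have hR' : (1 : ℝ) ≤ R := by exact_mod_cast hR
  have hRpos : (0 : ℝ) < R := by linarith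
  have hκpos : 0 < κ0 := by linarith
  set t := tt R θ with ht
  have ht1 : ∀ j < R, 1 ≤ t j := fun j _ => tt_ge_one hR hθ j
  set β := C0 * (1 / (R : ℝ)) ^ s with hβdef
  have hβ : 0 < β := by
    rw [hβdef]; positivity
  have hwβ : ∀ i, w i ≤ β := fun i => hw.le_beta i
  have hKpos : 0 < K := by linarith
  set r := rr R w t Y Θ with hr
  have hr0 : ∀ d, 0 ≤ r d := fun d => rr_nonneg hw Θ d
  have hrle : ∀ d, r d ≤ R * β := fun d => rr_le hw hΘ ht1 d
  set lam := (R : ℝ) * β / (2 * K) with hlam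
  have hlampos : 0 < lam := by positivity
  set D1 := (DD R t Y).filter (fun d => lam ≤ r d) with hD1
  have hΘc : (Θ.card : ℝ) ≤ R := by
    have := card_le_card hΘ
    rw [card_range] at this
    exact_mod_cast this
  -- (a)
  have ha : (R : ℝ) ^ 2 * β / (2 * K) ≤ ∑ d ∈ D1, r d ^ 2 := by
    have h1 : QQ R w t Y Θ = ∑ d ∈ D1, r d ^ 2 +
        ∑ d ∈ (DD R t Y).filter (fun d => ¬ lam ≤ r d), r d ^ 2 := by
      unfold QQ
      rw [hD1, sum_filter_add_sum_filter_not]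
    have h2 : ∑ d ∈ (DD R t Y).filter (fun d => ¬ lam ≤ r d), r d ^ 2 ≤ lam * R := by
      calc ∑ d ∈ (DD R t Y).filter (fun d => ¬ lam ≤ r d), r d ^ 2
          ≤ ∑ d ∈ (DD R t Y).filter (fun d => ¬ lam ≤ r d), lam * r d := by
            refine sum_le_sum fun d hd => ?_
            have h3 := (not_le.1 (mem_filter.1 hd).2).le
            rw [sq]
            exact mul_le_mul_of_nonneg_right h3 (hr0 d)
        _ = lam * ∑ d ∈ (DD R t Y).filter (fun d => ¬ lam ≤ r d), r d := by rw [mul_sum]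
        _ ≤ lam * R := mul_le_mul_of_nonneg_left (sum_rr hw Θ hΘ _) hlampos.le
    have h3 : lam * R = (R : ℝ) ^ 2 * β / (2 * K) := by
      rw [hlam]; ring
    have h4 : (R : ℝ) ^ 2 * β / K = (R : ℝ) ^ 2 * β / (2 * K) + (R : ℝ) ^ 2 * β / (2 * K) := by
      field_simp
      ring
    linarith
  -- (b)
  have hb : (R : ℝ) / (2 * K) ≤ ∑ d ∈ D1, r d := by
    have h1 : ∑ d ∈ D1, r d ^ 2 ≤ (R * β) * ∑ d ∈ D1, r d := by
      rw [mul_sum]
      refine sum_le_sum fun d _ => ?_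
      rw [sq]
      exact mul_le_mul_of_nonneg_right (hrle d) (hr0 d)
    have h2 : (R * β) * (R / (2 * K)) ≤ (R * β) * ∑ d ∈ D1, r d := by
      calc (R * β) * (R / (2 * K)) = (R : ℝ) ^ 2 * β / (2 * K) := by ring
        _ ≤ _ := ha.trans h1
    exact le_of_mul_le_mul_left h2 (by positivity)
  -- (c)
  have hc : (D1.card : ℝ) ≤ 2 * K / β := by
    have h1 : (D1.card : ℝ) * lam ≤ R := by
      calc (D1.card : ℝ) * lam = ∑ d ∈ D1, lam := by rw [sum_const, nsmul_eq_mul]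
        _ ≤ ∑ d ∈ D1, r d := sum_le_sum fun d hd => (mem_filter.1 hd).2
        _ ≤ R := sum_rr hw Θ hΘ _
    have h2 : (D1.card : ℝ) ≤ R / lam := (le_div_iff₀ hlampos).2 h1
    have h3 : R / lam = 2 * K / β := by
      rw [hlam]
      field_simp
    rw [← h3]
    exact h2
  -- (d), (e)
  set r1 : ℕ → ℝ := fun i => ∑ j ∈ Θ, if hh t Y j i ∈ D1 then (1 : ℝ) else 0 with hr1
  have hd : ∑ i ∈ range R, w i * r1 i = ∑ d ∈ D1, r d := by
    have h1 := sum_rr_mul (R := R) (w := w) (t := t) (Y := Y) Θ D1 (fun _ => 1)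
    simp only [mul_one] at h1
    rw [hr, h1, sum_comm]
    refine sum_congr rfl fun i _ => ?_
    rw [hr1, mul_sum]
    refine sum_congr rfl fun j _ => ?_
    split_ifs <;> simp
  have he : ((R : ℝ) / (2 * K)) ^ 2 ≤ ∑ i ∈ range R, w i * r1 i ^ 2 := by
    have h1 := sq_sum_le_of_mass (range R) w r1 (fun i _ => hw.nonneg i) hw.sum_le
    rw [hd] at h1
    refine le_trans ?_ h1
    exact pow_le_pow_left₀ (by positivity) hb 2
  -- the quantity `T`; `x = (a, b, i, i1)`
  set Tj : ℕ → ℝ := fun j => ∑ x ∈ (Θ ×ˢ Θ ×ˢ range R ×ˢ range R).filter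
      (fun x : ℕ × ℕ × ℕ × ℕ => hh t Y x.1 x.2.2.2 ∈ D1 ∧ hh t Y x.2.1 x.2.2.2 ∈ D1 ∧
        hh t Y j x.2.2.1 = hh t Y x.2.1 x.2.2.2), w x.2.2.2 * w x.2.2.1 with hTj
  have hT : (R : ℝ) ^ 3 * β / (8 * K ^ 3) ≤ ∑ j ∈ Θ, Tj j := by
    have h1 : ∑ j ∈ Θ, Tj j = ∑ k ∈ range R, ∑ a ∈ Θ, ∑ b ∈ Θ, w k *
        (if hh t Y a k ∈ D1 then (if hh t Y b k ∈ D1 then r (hh t Y b k) else 0) else 0) := by
      calc ∑ j ∈ Θ, Tj j = ∑ j ∈ Θ, ∑ a ∈ Θ, ∑ b ∈ Θ, ∑ i ∈ range R, ∑ k ∈ range R,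
            (if hh t Y a k ∈ D1 then (if hh t Y b k ∈ D1 then
              (if hh t Y j i = hh t Y b k then w k * w i else 0) else 0) else 0) := by
            refine sum_congr rfl fun j _ => ?_
            simp only [hTj]
            rw [sum_filter]
            simp only [sum_product]
            refine sum_congr rfl fun a _ => sum_congr rfl fun b _ => sum_congr rfl fun i _ =>
              sum_congr rfl fun k _ => ?_
            by_cases h1 : hh t Y a k ∈ D1 <;> by_cases h2 : hh t Y b k ∈ D1 <;>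
              by_cases h3 : hh t Y j i = hh t Y b k <;> simp [h1, h2, h3]
        _ = ∑ k ∈ range R, ∑ a ∈ Θ, ∑ b ∈ Θ, ∑ j ∈ Θ, ∑ i ∈ range R,
            (if hh t Y a k ∈ D1 then (if hh t Y b k ∈ D1 then
              (if hh t Y j i = hh t Y b k then w k * w i else 0) else 0) else 0) := swap5 _
        _ = _ := by
            refine sum_congr rfl fun k _ => sum_congr rfl fun a _ => sum_congr rfl fun b _ => ?_
            by_cases h1 : hh t Y a k ∈ D1
            · by_cases h2 : hh t Y b k ∈ D1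
              · simp only [h1, h2, if_true, hr]
                unfold rr
                rw [mul_sum]
                refine sum_congr rfl fun j _ => ?_
                rw [mul_sum]
                refine sum_congr rfl fun i _ => ?_
                split_ifs <;> simp
              · simp [h2]
            · simp [h1]
    rw [h1]
    calc (R : ℝ) ^ 3 * β / (8 * K ^ 3) = lam * ((R : ℝ) / (2 * K)) ^ 2 := by
          rw [hlam]
          field_simp
          ring
      _ ≤ lam * ∑ i ∈ range R, w i * r1 i ^ 2 := mul_le_mul_of_nonneg_left he hlampos.le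
      _ = ∑ k ∈ range R, ∑ a ∈ Θ, ∑ b ∈ Θ, w k *
        (if hh t Y a k ∈ D1 then (if hh t Y b k ∈ D1 then lam else 0) else 0) := by
          rw [mul_sum]
          refine sum_congr rfl fun k _ => ?_
          rw [hr1]
          simp only [sq]
          rw [sum_mul_sum, mul_sum, mul_sum]
          refine sum_congr rfl fun a _ => ?_
          rw [mul_sum, mul_sum]
          refine sum_congr rfl fun b _ => ?_
          split_ifs <;> simp [mul_comm]
      _ ≤ _ := by
          refine sum_le_sum fun k _ => sum_le_sum fun a _ => sum_le_sum fun b _ => ?_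
          apply mul_le_mul_of_nonneg_left _ (hw.nonneg k)
          split_ifs with h1 h2
          · exact (mem_filter.1 h2).2
          · exact le_rfl
          · exact le_rfl
  -- second moments
  set S2 : ℝ := ∑ a ∈ Θ, ∑ b ∈ Θ, ∑ a' ∈ Θ, ∑ b' ∈ Θ,
    (if b + a' = b' + a then TT R w t Θ (kap t Y a b a' b') else 0) * β ^ 2 with hS2
  have hTj2 : ∑ j ∈ Θ, Tj j ^ 2 ≤ (2 * K / β * (2 * R)) * S2 := by
    have h1 : ∀ j ∈ Θ, Tj j ^ 2 ≤ (2 * K / β * (2 * R)) *
        ∑ a ∈ Θ, ∑ b ∈ Θ, ∑ i ∈ range R, ∑ a' ∈ Θ, ∑ b' ∈ Θ, ∑ i' ∈ range R,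
      (if b + a' = b' + a then (if |kap t Y a b a' b' + t j * ((i : ℝ) - i')| ≤ 5
        then w i * w i' else 0) else 0) * β ^ 2 := by
      intro j _
      have h2 := cs_key ((Θ ×ˢ Θ ×ˢ range R ×ˢ range R).filter
        (fun x : ℕ × ℕ × ℕ × ℕ => hh t Y x.1 x.2.2.2 ∈ D1 ∧ hh t Y x.2.1 x.2.2.2 ∈ D1 ∧
          hh t Y j x.2.2.1 = hh t Y x.2.1 x.2.2.2))
        (fun x => (hh t Y x.1 x.2.2.2, x.2.1 + R - x.1)) (D1 ×ˢ range (2 * R)) (by
          intro x hx
          rw [mem_filter, mem_product, mem_product] at hx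
          obtain ⟨⟨ha, hb, _⟩, h1, _⟩ := hx
          have haR := mem_range.1 (hΘ ha)
          have hbR := mem_range.1 (hΘ hb)
          rw [mem_product]
          refine ⟨h1, ?_⟩
          rw [mem_range]
          simp only
          omega) (fun x => w x.2.2.2 * w x.2.2.1)
      have h3 := second_moment (Y := Y) hw hR hθ hθ1 hΘ D1 j hβ.le hwβ
      have h4 : ((D1 ×ˢ range (2 * R)).card : ℝ) ≤ 2 * K / β * (2 * R) := by
        rw [card_product, card_range]
        push_cast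
        apply mul_le_mul_of_nonneg_right hc (by positivity)
      refine h2.trans ?_
      apply mul_le_mul h4 h3 _ (by positivity)
      refine sum_nonneg fun x _ => sum_nonneg fun y _ => ?_
      split_ifs
      · have := hw.nonneg
        exact mul_nonneg (mul_nonneg (this _) (this _)) (mul_nonneg (this _) (this _))
      · exact le_rfl
    refine (sum_le_sum h1).trans ?_
    rw [← mul_sum]
    apply mul_le_mul_of_nonneg_left _ (by positivity)
    rw [swap7, hS2]
    refine le_of_eq ?_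
    refine sum_congr rfl fun a _ => sum_congr rfl fun b _ => sum_congr rfl fun a' _ =>
      sum_congr rfl fun b' _ => ?_
    by_cases h : b + a' = b' + a
    · simp only [h, if_true]
      unfold TT
      simp only [sum_mul]
    · simp [h]
  -- bound of `S2`
  set X := 366 * C0 * ((R : ℝ) / κ0) ^ (1 - s) with hX
  have hS2le : S2 ≤ ((R : ℝ) ^ 3 * X + EE t Y Θ κ0 * (11 * R * β)) * β ^ 2 := by
    have h1 : ∀ a b a' b' : ℕ, (if b + a' = b' + a then TT R w t Θ (kap t Y a b a' b') else 0) ≤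
        (if b + a' = b' + a then (1 : ℝ) else 0) * X +
        (if b + a' = b' + a ∧ |kap t Y a b a' b'| < κ0 then (1 : ℝ) else 0) * (11 * R * β) := by
      intro a b a' b'
      have hX0 : 0 ≤ X := by positivity
      by_cases h : b + a' = b' + a
      · by_cases h' : |kap t Y a b a' b'| < κ0
        · simp only [h, h', true_and, if_true]
          have := TT_le_trivial hw hR hθ hΘ (kap t Y a b a' b')
          rw [← hβdef] at this
          linarith
        · simp only [h, h', if_true, true_and, if_false]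
          have := TT_le_far hw hC0 hs0 hs1 hR hθ hθ1 hΘ hκ0 hκ0R (not_lt.1 h')
          rw [← hX] at this
          linarith
      · simp [h]
    rw [hS2]
    calc ∑ a ∈ Θ, ∑ b ∈ Θ, ∑ a' ∈ Θ, ∑ b' ∈ Θ,
          (if b + a' = b' + a then TT R w t Θ (kap t Y a b a' b') else 0) * β ^ 2
        ≤ ∑ a ∈ Θ, ∑ b ∈ Θ, ∑ a' ∈ Θ, ∑ b' ∈ Θ,
          ((if b + a' = b' + a then (1 : ℝ) else 0) * X +
        (if b + a' = b' + a ∧ |kap t Y a b a' b'| < κ0 then (1 : ℝ) else 0) * (11 * R * β)) *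
          β ^ 2 :=
          sum_le_sum fun a _ => sum_le_sum fun b _ => sum_le_sum fun a' _ =>
            sum_le_sum fun b' _ => mul_le_mul_of_nonneg_right (h1 a b a' b') (by positivity)
      _ = ((∑ a ∈ Θ, ∑ b ∈ Θ, ∑ a' ∈ Θ, ∑ b' ∈ Θ,
            (if b + a' = b' + a then (1 : ℝ) else 0)) * X + EE t Y Θ κ0 * (11 * R * β)) *
              β ^ 2 := by
          unfold EE
          simp only [add_mul, sum_mul, sum_add_distrib]
      _ ≤ _ := by
          apply mul_le_mul_of_nonneg_right _ (by positivity)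
          have hX0 : 0 ≤ X := by positivity
          have := mul_le_mul_of_nonneg_right (card_quads hR hΘ) hX0
          linarith
  -- conclusion
  have hX2 : (R : ℝ) ^ 3 * X ≤ (R : ℝ) ^ 4 * β / (512 * K ^ 7) := by
    rw [le_div_iff₀ (by positivity)]
    have h1 : ((R : ℝ) / κ0) ^ (1 - s) * κ0 ^ (1 - s) = (R : ℝ) ^ (1 - s) := by
      rw [← Real.mul_rpow (by positivity) (by positivity)]
      congr 1
      field_simp
    have h2 : (R : ℝ) * (1 / (R : ℝ)) ^ s = (R : ℝ) ^ (1 - s) := by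
      rw [Real.rpow_sub hRpos, Real.rpow_one, one_div, Real.inv_rpow hRpos.le]
      rfl
    calc (R : ℝ) ^ 3 * X * (512 * K ^ 7) = (R : ℝ) ^ 3 * C0 * (((R : ℝ) / κ0) ^ (1 - s) *
          (512 * 366 * K ^ 7)) := by rw [hX]; ring
      _ ≤ (R : ℝ) ^ 3 * C0 * (((R : ℝ) / κ0) ^ (1 - s) * κ0 ^ (1 - s)) := by
          apply mul_le_mul_of_nonneg_left _ (by positivity)
          exact mul_le_mul_of_nonneg_left hκK (by positivity)
      _ = (R : ℝ) ^ 3 * C0 * ((R : ℝ) * (1 / (R : ℝ)) ^ s) := by rw [h1, h2]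
      _ = (R : ℝ) ^ 4 * β := by rw [hβdef]; ring
  have hmain : ((R : ℝ) ^ 3 * β / (8 * K ^ 3)) ^ 2 ≤ R * ((2 * K / β * (2 * R)) *
      (((R : ℝ) ^ 4 * β / (512 * K ^ 7) + EE t Y Θ κ0 * (11 * R * β)) * β ^ 2)) := by
    have h1 : (∑ j ∈ Θ, Tj j) ^ 2 ≤ (Θ.card : ℝ) * ∑ j ∈ Θ, Tj j ^ 2 := sq_sum_le_card_mul_sum_sq
    calc ((R : ℝ) ^ 3 * β / (8 * K ^ 3)) ^ 2 ≤ (∑ j ∈ Θ, Tj j) ^ 2 :=
          pow_le_pow_left₀ (by positivity) hT 2
      _ ≤ (Θ.card : ℝ) * ∑ j ∈ Θ, Tj j ^ 2 := h1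
      _ ≤ R * ∑ j ∈ Θ, Tj j ^ 2 :=
          mul_le_mul_of_nonneg_right hΘc (sum_nonneg fun _ _ => sq_nonneg _)
      _ ≤ R * ((2 * K / β * (2 * R)) * S2) := mul_le_mul_of_nonneg_left hTj2 hRpos.le
      _ ≤ _ := by
          apply mul_le_mul_of_nonneg_left _ hRpos.le
          apply mul_le_mul_of_nonneg_left _ (by positivity)
          refine hS2le.trans ?_
          apply mul_le_mul_of_nonneg_right _ (by positivity)
          linarith
  have h1 : ((R : ℝ) ^ 3 * β / (8 * K ^ 3)) ^ 2 =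
      (4 * K * R ^ 2 * β) * ((R : ℝ) ^ 4 * β / (256 * K ^ 7)) := by
    field_simp
    ring
  have h2 : R * ((2 * K / β * (2 * R)) *
      (((R : ℝ) ^ 4 * β / (512 * K ^ 7) + EE t Y Θ κ0 * (11 * R * β)) * β ^ 2)) =
      (4 * K * R ^ 2 * β) * ((R : ℝ) ^ 4 * β / (512 * K ^ 7) + EE t Y Θ κ0 * (11 * R * β)) := by
    field_simp
    ring
  rw [h1, h2] at hmain
  have h3 := le_of_mul_le_mul_left hmain (by positivity)
  have h4 : (R : ℝ) ^ 4 * β / (256 * K ^ 7) =
      (R : ℝ) ^ 4 * β / (512 * K ^ 7) + (R : ℝ) ^ 4 * β / (512 * K ^ 7) := by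
    field_simp
    ring
  have h5 : (R : ℝ) ^ 4 * β / (512 * K ^ 7) ≤ EE t Y Θ κ0 * (11 * R * β) := by linarith
  have h6 : ((R : ℝ) ^ 3 / (5632 * K ^ 7)) * (11 * R * β) ≤ EE t Y Θ κ0 * (11 * R * β) := by
    calc ((R : ℝ) ^ 3 / (5632 * K ^ 7)) * (11 * R * β) = (R : ℝ) ^ 4 * β / (512 * K ^ 7) := by
          field_simp
          ring
      _ ≤ _ := h5
  exact le_of_mul_le_mul_right h6 (by positivity)

end Pool.Agent.Lib.MP_e5d0a4_an
end

section

/-!
# Energy inequalities: shifting the key does not increase the energy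
-/

namespace Pool.Agent.Lib.MP_e5d0a4_an

open Finset

/-- energy of a weighted family with keys `(k, c)` -/
noncomputable def energy {Ω κ : Type*} [DecidableEq κ] (S : Finset Ω) (k : Ω → κ) (c : Ω → ℤ)
    (W : Ω → ℝ) : ℝ :=
  ∑ x ∈ S, ∑ y ∈ S, if k x = k y ∧ c x = c y then W x * W y else 0

lemma energy_nonneg {Ω κ : Type*} [DecidableEq κ] (S : Finset Ω) (k : Ω → κ) (c : Ω → ℤ)
    (W : Ω → ℝ) (hW : ∀ x ∈ S, 0 ≤ W x) : 0 ≤ energy S k c W := by
  refine sum_nonneg fun x hx => sum_nonneg fun y hy => ?_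
  split_ifs
  · exact mul_nonneg (hW x hx) (hW y hy)
  · exact le_rfl

lemma shift_energy {Ω κ : Type*} [DecidableEq κ] (S : Finset Ω) (k : Ω → κ) (c : Ω → ℤ)
    (W : Ω → ℝ) (u : ℤ) :
    ∑ x ∈ S, ∑ y ∈ S, (if k x = k y ∧ c x = c y + u then W x * W y else 0) ≤
      energy S k c W := by
  classical
  set key : Ω → κ × ℤ := fun x => (k x, c x) with hkey
  set Keys : Finset (κ × ℤ) := S.image key with hKeys
  set M : κ × ℤ → ℝ := fun p => ∑ y ∈ S, if key y = p then W y else 0 with hM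
  set sh : κ × ℤ → κ × ℤ := fun p => (p.1, p.2 - u) with hsh
  have hinj : Function.Injective sh := by
    rintro ⟨a, b⟩ ⟨a', b'⟩ h
    simp only [hsh, Prod.mk.injEq] at h
    ext
    · exact h.1
    · simpa using h.2
  have h1 : ∑ x ∈ S, ∑ y ∈ S, (if k x = k y ∧ c x = c y + u then W x * W y else 0) =
      ∑ p ∈ Keys, M p * M (sh p) := by
    have h2 : ∀ p ∈ Keys, M p * M (sh p) =
        ∑ x ∈ S, (if key x = p then W x * M (sh p) else 0) := by
      intro p _
      rw [hM]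
      simp only
      rw [sum_mul]
      refine sum_congr rfl fun x _ => ?_
      split_ifs <;> simp
    refine Eq.trans ?_ (sum_congr rfl h2).symm
    rw [Finset.sum_comm (s := Keys)]
    refine sum_congr rfl fun x hx => ?_
    rw [sum_ite_eq, if_pos (mem_image_of_mem key hx)]
    simp only [hM]
    rw [mul_sum]
    refine sum_congr rfl fun y _ => ?_
    have h3 : (k x = k y ∧ c x = c y + u) ↔ key y = sh (key x) := by
      simp only [hkey, hsh, Prod.mk.injEq]
      constructor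
      · rintro ⟨a, b⟩
        exact ⟨a.symm, by omega⟩
      · rintro ⟨a, b⟩
        exact ⟨a.symm, by omega⟩
    by_cases h4 : key y = sh (key x)
    · rw [if_pos (h3.2 h4), if_pos h4]
    · rw [if_neg (fun h => h4 (h3.1 h)), if_neg h4, mul_zero]
  have h1' : energy S k c W = ∑ p ∈ Keys, M p ^ 2 := by
    have h2 : ∀ p ∈ Keys, M p ^ 2 =
        ∑ x ∈ S, (if key x = p then W x * M p else 0) := by
      intro p _
      rw [sq]
      nth_rewrite 1 [hM]
      simp only
      rw [sum_mul]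
      refine sum_congr rfl fun x _ => ?_
      split_ifs <;> simp
    refine Eq.trans ?_ (sum_congr rfl h2).symm
    rw [Finset.sum_comm (s := Keys)]
    unfold energy
    refine sum_congr rfl fun x hx => ?_
    rw [sum_ite_eq, if_pos (mem_image_of_mem key hx)]
    simp only [hM]
    rw [mul_sum]
    refine sum_congr rfl fun y _ => ?_
    have h3 : (k x = k y ∧ c x = c y) ↔ key y = key x := by
      simp only [hkey, Prod.mk.injEq]
      constructor
      · rintro ⟨a, b⟩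
        exact ⟨a.symm, b.symm⟩
      · rintro ⟨a, b⟩
        exact ⟨a.symm, b.symm⟩
    by_cases h4 : key y = key x
    · rw [if_pos (h3.2 h4), if_pos h4]
    · rw [if_neg (fun h => h4 (h3.1 h)), if_neg h4, mul_zero]
  rw [h1, h1']
  have h5 : ∑ p ∈ Keys, M (sh p) ^ 2 ≤ ∑ p ∈ Keys, M p ^ 2 := by
    have h6 : ∑ p ∈ Keys, M (sh p) ^ 2 = ∑ p ∈ Keys.image sh, M p ^ 2 :=
      (sum_image (f := fun p => M p ^ 2) (g := sh) (s := Keys) (fun a _ b _ h => hinj h)).symm
    rw [h6]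
    calc ∑ p ∈ Keys.image sh, M p ^ 2 ≤ ∑ p ∈ Keys.image sh ∪ Keys, M p ^ 2 :=
          sum_le_sum_of_subset_of_nonneg subset_union_left fun _ _ _ => sq_nonneg _
      _ = ∑ p ∈ Keys, M p ^ 2 := by
          symm
          apply sum_subset subset_union_right
          intro p _ hp
          have h7 : M p = 0 := by
            rw [hM]
            simp only
            apply sum_eq_zero
            intro y hy
            rw [if_neg]
            rintro rfl
            exact hp (mem_image_of_mem key hy)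
          rw [h7]
          norm_num
  have h8 : ∑ p ∈ Keys, M p * M (sh p) ≤
      ∑ p ∈ Keys, (M p ^ 2 / 2 + M (sh p) ^ 2 / 2) := by
    refine sum_le_sum fun p _ => ?_
    nlinarith [sq_nonneg (M p - M (sh p))]
  rw [sum_add_distrib, ← sum_div, ← sum_div] at h8
  linarith

/-- Schur type bound -/
lemma weighted_energy {Ω κ : Type*} [DecidableEq κ] (S : Finset Ω) (k : Ω → κ) (c : Ω → ℤ)
    (W : Ω → ℝ) (g : ℤ → ℝ) (hg : ∀ u, 0 ≤ g u) (U : Finset ℤ)
    (hU : ∀ x ∈ S, ∀ y ∈ S, g (c x - c y) ≠ 0 → c x - c y ∈ U) :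
    ∑ x ∈ S, ∑ y ∈ S, (if k x = k y then g (c x - c y) * (W x * W y) else 0) ≤
      (∑ u ∈ U, g u) * energy S k c W := by
  classical
  rw [sum_mul]
  calc ∑ x ∈ S, ∑ y ∈ S, (if k x = k y then g (c x - c y) * (W x * W y) else 0)
      = ∑ x ∈ S, ∑ y ∈ S, ∑ u ∈ U,
          g u * (if k x = k y ∧ c x = c y + u then W x * W y else 0) := by
        refine sum_congr rfl fun x hx => sum_congr rfl fun y hy => ?_
        by_cases h : k x = k y
        · simp only [h, if_true, true_and]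
          have h1 : ∀ u ∈ U, g u * (if c x = c y + u then W x * W y else 0) =
              (if c x - c y = u then g u * (W x * W y) else 0) := by
            intro u _
            have h2 : c x = c y + u ↔ c x - c y = u := by omega
            by_cases h3 : c x - c y = u
            · rw [if_pos (h2.2 h3), if_pos h3]
            · rw [if_neg (fun h => h3 (h2.1 h)), if_neg h3, mul_zero]
          rw [sum_congr rfl h1, sum_ite_eq]
          by_cases h4 : c x - c y ∈ U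
          · rw [if_pos h4]
          · rw [if_neg h4]
            have h5 : g (c x - c y) = 0 := by
              by_contra h6
              exact h4 (hU x hx y hy h6)
            rw [h5, zero_mul]
        · simp [h]
    _ = ∑ u ∈ U, g u * ∑ x ∈ S, ∑ y ∈ S,
          (if k x = k y ∧ c x = c y + u then W x * W y else 0) := by
        calc _ = ∑ x ∈ S, ∑ u ∈ U, ∑ y ∈ S,
              g u * (if k x = k y ∧ c x = c y + u then W x * W y else 0) :=
              sum_congr rfl fun x _ => sum_comm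
          _ = ∑ u ∈ U, ∑ x ∈ S, ∑ y ∈ S,
              g u * (if k x = k y ∧ c x = c y + u then W x * W y else 0) := sum_comm
          _ = _ := by
              refine sum_congr rfl fun u _ => ?_
              simp only [mul_sum]
    _ ≤ _ := sum_le_sum fun u _ => mul_le_mul_of_nonneg_left (shift_energy S k c W u) (hg u)

/-- energy of nearby keys -/
lemma near_energy {Ω κ : Type*} [DecidableEq κ] (S : Finset Ω) (k : Ω → κ) (c : Ω → ℤ)
    (m : ℕ) :
    ∑ x ∈ S, ∑ y ∈ S, (if k x = k y ∧ |c x - c y| ≤ m then (1 : ℝ) else 0) ≤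
      (2 * m + 1) * energy S k c (fun _ => 1) := by
  classical
  have h := weighted_energy S k c (fun _ => (1 : ℝ)) (fun u => if |u| ≤ m then (1 : ℝ) else 0)
    (fun u => by split_ifs <;> norm_num) (Icc (-(m : ℤ)) m) (by
      intro x _ y _ hne
      by_contra h1
      apply hne
      rw [if_neg]
      intro h2
      exact h1 (mem_Icc.2 (abs_le.1 h2)))
  have h2 : ∑ u ∈ Icc (-(m : ℤ)) m, (if |u| ≤ m then (1 : ℝ) else 0) ≤ 2 * m + 1 := by
    calc ∑ u ∈ Icc (-(m : ℤ)) m, (if |u| ≤ m then (1 : ℝ) else 0)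
        ≤ ∑ u ∈ Icc (-(m : ℤ)) m, (1 : ℝ) := by
          refine sum_le_sum fun u _ => ?_
          split_ifs <;> norm_num
      _ = ((Icc (-(m : ℤ)) m).card : ℝ) := by rw [sum_const, nsmul_eq_mul, mul_one]
      _ = 2 * m + 1 := by
          rw [Int.card_Icc]
          have : ((m : ℤ) + 1 - -(m : ℤ)).toNat = 2 * m + 1 := by omega
          rw [this]
          push_cast
          ring
  calc ∑ x ∈ S, ∑ y ∈ S, (if k x = k y ∧ |c x - c y| ≤ m then (1 : ℝ) else 0)
      = ∑ x ∈ S, ∑ y ∈ S, (if k x = k y then (if |c x - c y| ≤ m then (1 : ℝ) else 0) * (1 * 1)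
          else 0) := by
        refine sum_congr rfl fun x _ => sum_congr rfl fun y _ => ?_
        by_cases h3 : k x = k y <;> by_cases h4 : |c x - c y| ≤ m <;> simp [h3, h4]
    _ ≤ _ := h
    _ ≤ _ := mul_le_mul_of_nonneg_right h2 (energy_nonneg S k c _ fun _ _ => zero_le_one)

end Pool.Agent.Lib.MP_e5d0a4_an
end
end
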