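import Pool.Agent.Lib.MP_e5d0a4_an.StepFour
import Pool.Agent.Lib.MP_e5d0a4_an.Energy

section

/-!
# The key lemma: power saving for the square function
-/

namespace Pool.Agent.Lib.MP_e5d0a4_an

open Finset Filter

variable {R : ℕ} {θ : ℝ} {w Y : ℕ → ℝ} {C0 s : ℝ}

/-- iteration -/
lemma iterate_step {K' B M : ℝ} (hK' : 0 < K') (hR : 1 ≤ R) (t : ℕ → ℝ)
    (hstep : ∀ Θ ⊆ range R, B ≤ QQ R w t Y Θ → ∃ L ⊆ Θ, (R : ℝ) / K' ≤ (L.card : ℝ) ∧
      QQ R w t Y L ≤ M) (Θ : Finset ℕ) (hΘ : Θ ⊆ range R) :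
    √(QQ R w t Y Θ) ≤ √B + (Θ.card * K' / R) * √M := by
  classical
  have hRpos : (0 : ℝ) < R := by exact_mod_cast (by omega : 0 < R)
  induction Θ using Finset.strongInduction with
  | H Θ ih =>
    rcases lt_or_ge (QQ R w t Y Θ) B with h | h
    · have h1 : √(QQ R w t Y Θ) ≤ √B := Real.sqrt_le_sqrt h.le
      have h2 : 0 ≤ (Θ.card * K' / R) * √M := by positivity
      linarith
    · obtain ⟨L, hLΘ, hLcard, hLM⟩ := hstep Θ hΘ h
      have hLpos : 0 < L.card := by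
        have : (0 : ℝ) < (L.card : ℝ) := lt_of_lt_of_le (by positivity) hLcard
        exact_mod_cast this
      have hne : L.Nonempty := card_pos.1 hLpos
      have hss : Θ \ L ⊂ Θ := sdiff_ssubset hLΘ hne
      have h1 := ih (Θ \ L) hss (sdiff_subset.trans hΘ)
      have h2 := sqrt_QQ_le (R := R) (w := w) (t := t) (Y := Y) (Θ := Θ)
        (Θ₁ := Θ \ L) (Θ₂ := L) sdiff_disjoint (by rw [sdiff_union_of_subset hLΘ])
      have h3 : √(QQ R w t Y L) ≤ √M := Real.sqrt_le_sqrt hLM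
      have h4 : (((Θ \ L).card : ℕ) : ℝ) = Θ.card - L.card := by
        rw [card_sdiff_of_subset hLΘ, Nat.cast_sub (card_le_card hLΘ)]
      rw [h4] at h1
      have h5 : 1 ≤ (L.card : ℝ) * K' / R := by
        rw [div_le_iff₀ hK'] at hLcard
        rw [one_le_div hRpos]
        exact hLcard
      have h6 : ((Θ.card : ℝ) - L.card) * K' / R = Θ.card * K' / R - L.card * K' / R := by ring
      rw [h6] at h1
      have h7 : 0 ≤ √M := Real.sqrt_nonneg M
      nlinarith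

/-- the exponent gain -/
noncomputable def eps0 (s : ℝ) : ℝ := s * (1 - s) ^ 2 / 1000

/-- conditional form of the key lemma -/
lemma key_conditional (hw : Frost R C0 s w) (hC0 : 1 ≤ C0) (hs0 : 0 < s) (hs1 : s < 1)
    (hR : 1 ≤ R) (hθ : 0 ≤ θ) (hθ1 : θ ≤ 1) {K : ℝ} (hK : 1 ≤ K)
    (h1 : (187392 * K ^ 7) ^ (1 / (1 - s)) ≤ (R : ℝ))
    (h2 : 41472 * (5632 * K ^ 7) ^ 2 * K2 (5632 * K ^ 7) ≤ R) (Θ : Finset ℕ)
    (hΘ : Θ ⊆ range R) :
    QQ R w (tt R θ) Y Θ ≤ 2 * ((R : ℝ) ^ 2 * (C0 * (1 / (R : ℝ)) ^ s) / K) +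
      2 * (20736 * (5632 * K ^ 7) ^ 2 * K2 (5632 * K ^ 7) ^ 2) ^ 2 *
      (243 * C0 ^ 2 * (746496 * (5632 * K ^ 7) ^ 2 * K2 (5632 * K ^ 7) *
        (187392 * K ^ 7) ^ (1 / (1 - s))) * (R : ℝ) ^ (2 - s - s * (1 - s) / 2)) := by
  have hRpos : (0 : ℝ) < R := by exact_mod_cast (by omega : 0 < R)
  have hKpos : 0 < K := by linarith
  have hK7 : 1 ≤ K ^ 7 := one_le_pow₀ hK
  set K1 : ℝ := 5632 * K ^ 7 with hK1
  have hK1' : 1 ≤ K1 := by rw [hK1]; linarith
  have hK1pos : 0 < K1 := by linarith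
  have hK2' : 1 ≤ K2 K1 := by
    unfold K2
    have : 1 ≤ (6 * K1) ^ 9 := one_le_pow₀ (by linarith)
    linarith
  set κ0 : ℝ := (187392 * K ^ 7) ^ (1 / (1 - s)) with hκ0
  have hκ0' : 10 ≤ κ0 := by
    have h3 : (187392 * K ^ 7) ^ (1 : ℝ) ≤ κ0 := by
      rw [hκ0]
      apply Real.rpow_le_rpow_of_exponent_le (by linarith)
      rw [le_div_iff₀ (by linarith)]
      linarith
    rw [Real.rpow_one] at h3
    linarith
  have hκK : 512 * 366 * K ^ 7 ≤ κ0 ^ (1 - s) := by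
    rw [hκ0, ← Real.rpow_mul (by positivity)]
    have : 1 / (1 - s) * (1 - s) = 1 := by
      have : (1 - s) ≠ 0 := by linarith
      field_simp
    rw [this, Real.rpow_one]
    linarith
  set K' : ℝ := 20736 * K1 ^ 2 * K2 K1 ^ 2 with hK'
  have hK'pos : 0 < K' := by positivity
  set κ1 : ℝ := 746496 * K1 ^ 2 * K2 K1 * κ0 with hκ1
  have hκ1' : 1 ≤ κ1 := by
    rw [hκ1]
    have h3 : 1 ≤ K1 ^ 2 := one_le_pow₀ hK1'
    have h4 : 1 ≤ K1 ^ 2 * K2 K1 := by nlinarith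
    have h5 : 1 ≤ K1 ^ 2 * K2 K1 * κ0 := by nlinarith
    linarith
  set M : ℝ := 243 * C0 ^ 2 * κ1 * (R : ℝ) ^ (2 - s - s * (1 - s) / 2) with hM
  have hM0 : 0 ≤ M := by positivity
  set B : ℝ := (R : ℝ) ^ 2 * (C0 * (1 / (R : ℝ)) ^ s) / K with hB
  have hB0 : 0 ≤ B := by positivity
  have hstep : ∀ Θ ⊆ range R, B ≤ QQ R w (tt R θ) Y Θ → ∃ L ⊆ Θ, (R : ℝ) / K' ≤ (L.card : ℝ) ∧
      QQ R w (tt R θ) Y L ≤ M := by
    intro Θ hΘ hQ
    have h3 := step_one hw hC0 hs0.le hs1.le hR hθ hθ1 hΘ hK hκ0' h1 hκK hQ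
    rw [← hK1] at h3
    obtain ⟨L, hLΘ, hLcard, c, b, hLY⟩ := step_two (Y := Y) hR hθ hθ1 hΘ hK1' (by linarith) h2 h3
    refine ⟨L, hLΘ, hLcard, ?_⟩
    exact step_four hw hC0 hs0.le hs1.le hR hθ hθ1 (hLΘ.trans hΘ) hκ1' hLY
  have h3 := iterate_step hK'pos hR (tt R θ) hstep Θ hΘ
  have h4 : √(QQ R w (tt R θ) Y Θ) ≤ √B + K' * √M := by
    refine h3.trans ?_
    have h5 : (Θ.card : ℝ) * K' / R ≤ K' := by
      rw [div_le_iff₀ hRpos]
      have := card_le_R hΘ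
      nlinarith
    have h6 := mul_le_mul_of_nonneg_right h5 (Real.sqrt_nonneg M)
    linarith
  have h5 : QQ R w (tt R θ) Y Θ = √(QQ R w (tt R θ) Y Θ) ^ 2 :=
    (Real.sq_sqrt (QQ_nonneg Θ)).symm
  rw [h5]
  calc √(QQ R w (tt R θ) Y Θ) ^ 2 ≤ (√B + K' * √M) ^ 2 :=
        pow_le_pow_left₀ (Real.sqrt_nonneg _) h4 2
    _ ≤ 2 * √B ^ 2 + 2 * K' ^ 2 * √M ^ 2 := by nlinarith [sq_nonneg (√B - K' * √M)]
    _ = 2 * B + 2 * K' ^ 2 * M := by rw [Real.sq_sqrt hB0, Real.sq_sqrt hM0]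

lemma eventually_mul_rpow_le (c a : ℝ) (ha : a < 1) :
    ∀ᶠ R : ℕ in atTop, c * (R : ℝ) ^ a ≤ (R : ℝ) := by
  have h1 : Tendsto (fun R : ℕ => (R : ℝ) ^ (1 - a)) atTop atTop :=
    (tendsto_rpow_atTop (by linarith)).comp tendsto_natCast_atTop_atTop
  filter_upwards [h1.eventually_ge_atTop c, eventually_ge_atTop 1] with R hR hR1
  have hRpos : (0 : ℝ) < R := by exact_mod_cast (by omega : 0 < R)
  calc c * (R : ℝ) ^ a ≤ (R : ℝ) ^ (1 - a) * (R : ℝ) ^ a :=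
        mul_le_mul_of_nonneg_right hR (by positivity)
    _ = (R : ℝ) := by
        rw [← Real.rpow_add hRpos]
        simp

/-- **Key lemma.** -/
theorem key_lemma {s C0 : ℝ} (hs0 : 0 < s) (hs1 : s < 1) (hC0 : 1 ≤ C0) :
    ∃ C : ℝ, 0 < C ∧ ∀ R : ℕ, 1 ≤ R → ∀ w : ℕ → ℝ, Frost R C0 s w → ∀ θ : ℝ, 0 ≤ θ → θ ≤ 1 →
      ∀ Y : ℕ → ℝ, ∀ Θ ⊆ range R, QQ R w (tt R θ) Y Θ ≤ C * (R : ℝ) ^ (2 - s - eps0 s) := by
  set ε : ℝ := eps0 s with hε
  have hε' : ε = s * (1 - s) ^ 2 / 1000 := rfl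
  have h1s : 0 < 1 - s := by linarith
  have hεpos : 0 < ε := by rw [hε']; positivity
  have hsle : s * (1 - s) ^ 2 ≤ 1 := by
    have : (1 - s) ^ 2 ≤ 1 := by nlinarith
    nlinarith [sq_nonneg (1 - s)]
  have hε77 : 77 * ε < 1 := by rw [hε']; linarith
  set a7 : ℝ := 7 * ε / (1 - s) with ha7
  have ha7' : a7 = 7 * s * (1 - s) / 1000 := by
    rw [ha7, hε']
    field_simp
  have ha7lt : a7 < 1 := by rw [ha7']; nlinarith
  -- constants
  set c5 : ℝ := 41472 * 5632 ^ 2 * (122880 * (6 * 5632) ^ 9) with hc5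
  set c4 : ℝ := (187392 : ℝ) ^ (1 / (1 - s)) with hc4
  have hc4pos : 0 < c4 := by positivity
  set c3 : ℝ := (20736 * 5632 ^ 2 * (122880 * (6 * 5632) ^ 9) ^ 2) ^ 2 *
    (746496 * 5632 ^ 2 * (122880 * (6 * 5632) ^ 9)) with hc3
  have hc3pos : 0 < c3 := by positivity
  obtain ⟨R0, hR0⟩ := eventually_atTop.1
    ((eventually_mul_rpow_le c5 (77 * ε) hε77).and (eventually_mul_rpow_le c4 a7 ha7lt))
  set C1 : ℝ := 2 * C0 + 2 * (c3 * 243 * C0 ^ 2 * c4) with hC1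
  have hC1pos : 0 < C1 := by positivity
  set C2 : ℝ := C0 * ((R0 : ℝ) + 1) ^ ε with hC2
  have hC2pos : 0 < C2 := by positivity
  refine ⟨C1 + C2, by positivity, ?_⟩
  intro R hR w hw θ hθ hθ1 Y Θ hΘ
  have hR1 : (1 : ℝ) ≤ R := by exact_mod_cast hR
  have hRpos : (0 : ℝ) < R := by linarith
  have hpow : 0 < (R : ℝ) ^ (2 - s - ε) := by positivity
  have e0 : (R : ℝ) ^ 2 * (C0 * (1 / (R : ℝ)) ^ s) = C0 * (R : ℝ) ^ (2 - s) := by
    have e2 : (R : ℝ) ^ 2 = (R : ℝ) ^ (2 : ℝ) := by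
      rw [← Real.rpow_natCast]
      norm_num
    rw [Real.rpow_sub hRpos, one_div, Real.inv_rpow hRpos.le, e2]
    ring
  rcases le_or_gt R0 R with hRR0 | hRR0
  · obtain ⟨hb5, hb4⟩ := hR0 R hRR0
    set K : ℝ := (R : ℝ) ^ ε with hK
    have hK1 : 1 ≤ K := Real.one_le_rpow hR1 hεpos.le
    have hKpos : 0 < K := by linarith
    have hKpow : ∀ n : ℕ, K ^ n = (R : ℝ) ^ (n * ε) := by
      intro n
      rw [hK, ← Real.rpow_natCast, ← Real.rpow_mul hRpos.le, mul_comm]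
    have hκ : (187392 * K ^ 7) ^ (1 / (1 - s)) = c4 * (R : ℝ) ^ a7 := by
      rw [Real.mul_rpow (by norm_num) (by positivity), hKpow, ← Real.rpow_mul hRpos.le, ← hc4]
      congr 2
      rw [ha7]
      push_cast
      ring
    have h1 : (187392 * K ^ 7) ^ (1 / (1 - s)) ≤ (R : ℝ) := by rw [hκ]; exact hb4
    have h2 : 41472 * (5632 * K ^ 7) ^ 2 * K2 (5632 * K ^ 7) ≤ R := by
      have e3 : 41472 * (5632 * K ^ 7) ^ 2 * K2 (5632 * K ^ 7) = c5 * K ^ 77 := by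
        unfold K2
        rw [hc5]
        ring
      rw [e3, hKpow]
      exact_mod_cast hb5
    have h3 := key_conditional (Y := Y) hw hC0 hs0 hs1 hR hθ hθ1 hK1 h1 h2 Θ hΘ
    refine h3.trans ?_
    have e1 : 2 * ((R : ℝ) ^ 2 * (C0 * (1 / (R : ℝ)) ^ s) / K) =
        2 * C0 * (R : ℝ) ^ (2 - s - ε) := by
      rw [e0, Real.rpow_sub hRpos _ ε, ← hK]
      ring
    have e4 : 2 * (20736 * (5632 * K ^ 7) ^ 2 * K2 (5632 * K ^ 7) ^ 2) ^ 2 *
      (243 * C0 ^ 2 * (746496 * (5632 * K ^ 7) ^ 2 * K2 (5632 * K ^ 7) *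
        (187392 * K ^ 7) ^ (1 / (1 - s))) * (R : ℝ) ^ (2 - s - s * (1 - s) / 2)) =
        2 * (c3 * 243 * C0 ^ 2 * c4) *
          (K ^ 357 * (R : ℝ) ^ a7 * (R : ℝ) ^ (2 - s - s * (1 - s) / 2)) := by
      rw [hκ]
      unfold K2
      rw [hc3]
      ring
    have e5 : K ^ 357 * (R : ℝ) ^ a7 * (R : ℝ) ^ (2 - s - s * (1 - s) / 2) ≤
        (R : ℝ) ^ (2 - s - ε) := by
      rw [hKpow, ← Real.rpow_add hRpos, ← Real.rpow_add hRpos]
      apply Real.rpow_le_rpow_of_exponent_le hR1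
      rw [ha7', hε']
      push_cast
      have h4 : 0 < s * (1 - s) := by positivity
      have h5 : s * (1 - s) ^ 2 ≤ s * (1 - s) := by nlinarith
      nlinarith
    rw [e1, e4]
    calc 2 * C0 * (R : ℝ) ^ (2 - s - ε) + 2 * (c3 * 243 * C0 ^ 2 * c4) *
          (K ^ 357 * (R : ℝ) ^ a7 * (R : ℝ) ^ (2 - s - s * (1 - s) / 2))
        ≤ 2 * C0 * (R : ℝ) ^ (2 - s - ε) + 2 * (c3 * 243 * C0 ^ 2 * c4) *
          (R : ℝ) ^ (2 - s - ε) := by
          gcongr
      _ = C1 * (R : ℝ) ^ (2 - s - ε) := by rw [hC1]; ring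
      _ ≤ (C1 + C2) * (R : ℝ) ^ (2 - s - ε) := by
          apply mul_le_mul_of_nonneg_right _ hpow.le
          linarith
  · have h1 := QQ_le_trivial (Y := Y) (t := tt R θ) hw hΘ (fun j _ => tt_ge_one hR hθ j)
    rw [e0] at h1
    have h2 : (R : ℝ) ^ (2 - s) = (R : ℝ) ^ ε * (R : ℝ) ^ (2 - s - ε) := by
      rw [← Real.rpow_add hRpos]
      congr 1
      ring
    have h3 : (R : ℝ) ^ ε ≤ ((R0 : ℝ) + 1) ^ ε := by
      apply Real.rpow_le_rpow hRpos.le _ hεpos.le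
      have : (R : ℝ) < R0 := by exact_mod_cast hRR0
      linarith
    calc QQ R w (tt R θ) Y Θ ≤ C0 * (R : ℝ) ^ (2 - s) := h1
      _ = C0 * ((R : ℝ) ^ ε * (R : ℝ) ^ (2 - s - ε)) := by rw [h2]
      _ ≤ C0 * (((R0 : ℝ) + 1) ^ ε * (R : ℝ) ^ (2 - s - ε)) := by
          apply mul_le_mul_of_nonneg_left _ (by linarith)
          exact mul_le_mul_of_nonneg_right h3 hpow.le
      _ = C2 * (R : ℝ) ^ (2 - s - ε) := by rw [hC2]; ring
      _ ≤ (C1 + C2) * (R : ℝ) ^ (2 - s - ε) := by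
          apply mul_le_mul_of_nonneg_right _ hpow.le
          linarith

end Pool.Agent.Lib.MP_e5d0a4_an
end

section

/-!
# From Gaussian energies of dilates to the discrete square function
-/

namespace Pool.Agent.Lib.MP_e5d0a4_an

open Finset MeasureTheory
open scoped Real

/-- coarse weights: sum over blocks of length `D` -/
noncomputable def wc (R D : ℕ) (w : ℕ → ℝ) (l : ℕ) : ℝ :=
  ∑ i ∈ range (R * D), if i / D = l then w i else 0

lemma sum_wc (R D : ℕ) (w : ℕ → ℝ) (S : Finset ℕ) (f : ℕ → ℝ) :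
    ∑ l ∈ S, wc R D w l * f l =
      ∑ i ∈ range (R * D), if i / D ∈ S then w i * f (i / D) else 0 := by
  unfold wc
  simp only [sum_mul]
  rw [sum_comm]
  refine sum_congr rfl fun i _ => ?_
  simp only [ite_mul, zero_mul]
  rw [sum_ite_eq]

lemma group_wc {R D : ℕ} (hD : 1 ≤ D) (w : ℕ → ℝ) (f : ℕ → ℝ) :
    ∑ i ∈ range (R * D), w i * f (i / D) = ∑ l ∈ range R, wc R D w l * f l := by
  rw [sum_wc]
  refine sum_congr rfl fun i hi => ?_
  have h1 : i / D ∈ range R := by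
    rw [mem_range] at hi ⊢
    exact (Nat.div_lt_iff_lt_mul (by omega)).2 hi
  rw [if_pos h1]

lemma coarse_frost {R D : ℕ} (hR : 1 ≤ R) (hD : 1 ≤ D) {w : ℕ → ℝ} {C0 s : ℝ}
    (hw : Frost (R * D) C0 s w) : Frost R C0 s (wc R D w) := by
  have hR' : (0 : ℝ) < R := by exact_mod_cast (by omega : 0 < R)
  have hD' : (0 : ℝ) < D := by exact_mod_cast (by omega : 0 < D)
  refine ⟨?_, ?_, ?_⟩
  · intro l
    unfold wc
    refine sum_nonneg fun i _ => ?_
    split_ifs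
    · exact hw.nonneg i
    · exact le_rfl
  · have h := group_wc (R := R) hD w (fun _ => 1)
    simp only [mul_one] at h
    rw [← h]
    exact hw.sum_le
  · intro m L hL
    have h := sum_wc R D w (Ico m (m + L)) (fun _ => 1)
    simp only [mul_one] at h
    rw [h]
    have h1 := hw.frost (m * D) (L * D) (Nat.mul_pos hL hD)
    have h2 : ((L * D : ℕ) : ℝ) / ((R * D : ℕ) : ℝ) = (L : ℝ) / R := by
      push_cast
      field_simp
    rw [h2] at h1
    refine le_trans ?_ h1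
    rw [← sum_filter]
    apply sum_le_sum_of_subset_of_nonneg
    · intro i hi
      rw [mem_filter, mem_Ico] at hi
      rw [mem_Ico]
      obtain ⟨_, h3, h4⟩ := hi
      have h5 : m * D ≤ i := (Nat.le_div_iff_mul_le (by omega)).1 h3
      have h6 : i < (m + L) * D := (Nat.div_lt_iff_lt_mul (by omega)).1 h4
      refine ⟨h5, ?_⟩
      calc i < (m + L) * D := h6
        _ = m * D + L * D := by ring
    · intro i _ _
      exact hw.nonneg i

/-- the majorant of the Gaussian on integers -/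
noncomputable def gmaj (u : ℤ) : ℝ := if u = 0 then 33 else 33 * (1 / (u : ℝ) ^ 2)

lemma gmaj_nonneg (u : ℤ) : 0 ≤ gmaj u := by unfold gmaj; split_ifs <;> positivity

lemma exists_gmaj_const : ∃ CG : ℝ, 1 ≤ CG ∧ ∀ U : Finset ℤ, ∑ u ∈ U, gmaj u ≤ CG := by
  have h1 : Summable (fun n : ℤ => 1 / (n : ℝ) ^ 2) :=
    Real.summable_one_div_int_pow.2 (by norm_num)
  have h2 := h1.mul_left 33
  have h0 : 0 ≤ ∑' n : ℤ, 33 * (1 / (n : ℝ) ^ 2) := tsum_nonneg fun n => by positivity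
  refine ⟨33 + ∑' n : ℤ, 33 * (1 / (n : ℝ) ^ 2), by linarith, ?_⟩
  intro U
  calc ∑ u ∈ U, gmaj u ≤ ∑ u ∈ U, ((if u = 0 then (33 : ℝ) else 0) + 33 * (1 / (u : ℝ) ^ 2)) := by
        refine sum_le_sum fun u _ => ?_
        unfold gmaj
        split_ifs with h
        · have : (0 : ℝ) ≤ 33 * (1 / (u : ℝ) ^ 2) := by positivity
          linarith
        · linarith
    _ = ∑ u ∈ U, (if u = 0 then (33 : ℝ) else 0) + ∑ u ∈ U, 33 * (1 / (u : ℝ) ^ 2) :=
        sum_add_distrib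
    _ ≤ 33 + ∑' n : ℤ, 33 * (1 / (n : ℝ) ^ 2) := by
        apply add_le_add
        · rw [sum_ite_eq']
          split_ifs <;> norm_num
        · exact h2.sum_le_tsum _ fun n _ => by positivity

lemma exp_le_gmaj {y : ℝ} {u : ℤ} (h : |y - u| ≤ 4) : Real.exp (-π * y ^ 2) ≤ gmaj u := by
  have h1 : 1 + y ^ 2 ≤ Real.exp (π * y ^ 2) := by
    have h2 := Real.add_one_le_exp (π * y ^ 2)
    have h3 := Real.pi_gt_three
    nlinarith [sq_nonneg y]
  have h2 : Real.exp (-π * y ^ 2) ≤ 1 / (1 + y ^ 2) := by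
    have h3 : -π * y ^ 2 = -(π * y ^ 2) := by ring
    rw [h3, Real.exp_neg, ← one_div]
    exact one_div_le_one_div_of_le (by positivity) h1
  refine h2.trans ?_
  unfold gmaj
  split_ifs with hu
  · rw [div_le_iff₀ (by positivity)]
    nlinarith [sq_nonneg y]
  · have hu' : (u : ℝ) ≠ 0 := by exact_mod_cast hu
    have hu2 : 0 < (u : ℝ) ^ 2 := by positivity
    rw [mul_one_div, div_le_div_iff₀ (by positivity) hu2]
    have h4 := abs_le.1 h
    have h5 : (y - u) ^ 2 ≤ 16 := by nlinarith [h4.1, h4.2]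
    nlinarith [sq_nonneg (y + (u : ℝ)), sq_nonneg (2 * y - u), sq_nonneg y]

/-- Gaussian energy of dilates at scale `1/R` versus the square function -/
lemma energy_le_QQ {CG : ℝ} (hCG : ∀ U : Finset ℤ, ∑ u ∈ U, gmaj u ≤ CG) {R D : ℕ} (hR : 1 ≤ R)
    (hD : 1 ≤ D) {w : ℕ → ℝ} {C0 s : ℝ} (hw : Frost (R * D) C0 s w) {θ : ℝ}
    (hθ1 : θ ≤ 1) {J : Finset ℕ} (hJ : J ⊆ range R) (x σ : ℕ → ℝ) (hσ : ∀ j, |σ j| ≤ 1) :
    ∑ p ∈ J ×ˢ range (R * D), ∑ q ∈ J ×ˢ range (R * D),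
      (σ p.1 * w p.2) * (σ q.1 * w q.2) * Real.exp (-π * ((R : ℝ) *
        ((x p.1 - tt R θ p.1 * pos (R * D) p.2) - (x q.1 - tt R θ q.1 * pos (R * D) q.2))) ^ 2) ≤
      CG * QQ R (wc R D w) (tt R θ) (fun j => (R : ℝ) * x j) J := by
  classical
  have hR' : (0 : ℝ) < R := by exact_mod_cast (by omega : 0 < R)
  have hD' : (0 : ℝ) < D := by exact_mod_cast (by omega : 0 < D)
  set Y : ℕ → ℝ := fun j => (R : ℝ) * x j with hY
  set S := J ×ˢ range (R * D) with hS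
  set c : ℕ × ℕ → ℤ := fun p => hh (tt R θ) Y p.1 (p.2 / D) with hc
  -- comparison of the real position with the cell
  have hcell : ∀ p ∈ S, |(R : ℝ) * (x p.1 - tt R θ p.1 * pos (R * D) p.2) - (c p + (-1))| ≤ 2 := by
    intro p hp
    rw [hS, mem_product] at hp
    have hp1 := mem_range.1 (hJ hp.1)
    have ht0 := tt_pos (R := R) (θ := θ) p.1
    have ht3 := tt_le_three (R := R) hR hθ1 hp1
    have h1 : (R : ℝ) * (x p.1 - tt R θ p.1 * pos (R * D) p.2) =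
        Y p.1 - tt R θ p.1 * ((p.2 : ℝ) / D) := by
      unfold pos
      rw [hY]
      push_cast
      field_simp
    rw [h1]
    simp only [hc]
    unfold hh
    have h2 : ((p.2 / D : ℕ) : ℝ) ≤ (p.2 : ℝ) / D := Nat.cast_div_le
    have h3 : (p.2 : ℝ) / D < ((p.2 / D : ℕ) : ℝ) + 1 := by
      rw [div_lt_iff₀ hD']
      have h4 := Nat.div_add_mod p.2 D
      have h5 := Nat.mod_lt p.2 (by omega : D > 0)
      have h6 : p.2 < (p.2 / D + 1) * D := by nlinarith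
      exact_mod_cast h6
    have h4 := Int.floor_le (Y p.1 - tt R θ p.1 * ((p.2 / D : ℕ) : ℝ))
    have h5 := Int.lt_floor_add_one (Y p.1 - tt R θ p.1 * ((p.2 / D : ℕ) : ℝ))
    have h6 : tt R θ p.1 * ((p.2 : ℝ) / D - ((p.2 / D : ℕ) : ℝ)) ≤ 3 := by nlinarith
    have h7 : 0 ≤ tt R θ p.1 * ((p.2 : ℝ) / D - ((p.2 / D : ℕ) : ℝ)) :=
      mul_nonneg ht0.le (by linarith)
    rw [abs_le]
    constructor <;> linarith
  have hpt : ∀ p ∈ S, ∀ q ∈ S, (σ p.1 * w p.2) * (σ q.1 * w q.2) * Real.exp (-π * ((R : ℝ) *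
        ((x p.1 - tt R θ p.1 * pos (R * D) p.2) - (x q.1 - tt R θ q.1 * pos (R * D) q.2))) ^ 2) ≤
      gmaj (c p - c q) * (w p.2 * w q.2) := by
    intro p hp q hq
    have h1 := hcell p hp
    have h2 := hcell q hq
    have h3 : |(R : ℝ) * ((x p.1 - tt R θ p.1 * pos (R * D) p.2) -
        (x q.1 - tt R θ q.1 * pos (R * D) q.2)) - ((c p - c q : ℤ) : ℝ)| ≤ 4 := by
      have h4 : (R : ℝ) * ((x p.1 - tt R θ p.1 * pos (R * D) p.2) -
        (x q.1 - tt R θ q.1 * pos (R * D) q.2)) - ((c p - c q : ℤ) : ℝ) =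
        ((R : ℝ) * (x p.1 - tt R θ p.1 * pos (R * D) p.2) - (c p + (-1))) -
        ((R : ℝ) * (x q.1 - tt R θ q.1 * pos (R * D) q.2) - (c q + (-1))) := by
        push_cast
        ring
      rw [h4]
      calc _ ≤ |((R : ℝ) * (x p.1 - tt R θ p.1 * pos (R * D) p.2) - (c p + (-1)))| +
          |((R : ℝ) * (x q.1 - tt R θ q.1 * pos (R * D) q.2) - (c q + (-1)))| := abs_sub _ _
        _ ≤ 4 := by linarith
    have h5 := exp_le_gmaj h3
    have h6 : (σ p.1 * w p.2) * (σ q.1 * w q.2) ≤ w p.2 * w q.2 := by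
      have h7 : σ p.1 * σ q.1 ≤ 1 := by
        calc σ p.1 * σ q.1 ≤ |σ p.1 * σ q.1| := le_abs_self _
          _ = |σ p.1| * |σ q.1| := abs_mul _ _
          _ ≤ 1 * 1 := mul_le_mul (hσ _) (hσ _) (abs_nonneg _) (by norm_num)
          _ = 1 := one_mul _
      calc (σ p.1 * w p.2) * (σ q.1 * w q.2) = (σ p.1 * σ q.1) * (w p.2 * w q.2) := by ring
        _ ≤ 1 * (w p.2 * w q.2) :=
            mul_le_mul_of_nonneg_right h7 (mul_nonneg (hw.nonneg _) (hw.nonneg _))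
        _ = _ := one_mul _
    calc _ ≤ (w p.2 * w q.2) * Real.exp (-π * ((R : ℝ) *
        ((x p.1 - tt R θ p.1 * pos (R * D) p.2) -
          (x q.1 - tt R θ q.1 * pos (R * D) q.2))) ^ 2) :=
          mul_le_mul_of_nonneg_right h6 (Real.exp_pos _).le
      _ ≤ (w p.2 * w q.2) * gmaj (c p - c q) :=
          mul_le_mul_of_nonneg_left h5 (mul_nonneg (hw.nonneg _) (hw.nonneg _))
      _ = _ := by ring
  have hE := weighted_energy S (fun _ => ()) c (fun p => w p.2) gmaj gmaj_nonneg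
    ((S ×ˢ S).image (fun pq => c pq.1 - c pq.2)) (by
      intro p hp q hq _
      exact mem_image.2 ⟨(p, q), mem_product.2 ⟨hp, hq⟩, rfl⟩)
  simp only [if_true] at hE
  have hQ : energy S (fun _ => ()) c (fun p => w p.2) =
      QQ R (wc R D w) (tt R θ) Y J := by
    rw [QQ_eq J hJ]
    unfold energy
    rw [hS]
    simp only [sum_product, true_and]
    refine sum_congr rfl fun j _ => ?_
    calc ∑ i ∈ range (R * D), ∑ j' ∈ J, ∑ i' ∈ range (R * D),
          (if c (j, i) = c (j', i') then w i * w i' else 0)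
        = ∑ i ∈ range (R * D), w i * (fun l => ∑ j' ∈ J, ∑ l' ∈ range R,
            (if hh (tt R θ) Y j' l' = hh (tt R θ) Y j l then wc R D w l' else 0)) (i / D) := by
          refine sum_congr rfl fun i _ => ?_
          simp only
          rw [mul_sum]
          refine sum_congr rfl fun j' _ => ?_
          have h1 := group_wc (R := R) hD w (fun l' =>
            if hh (tt R θ) Y j' l' = hh (tt R θ) Y j (i / D) then (1 : ℝ) else 0)
          simp only [mul_ite, mul_one, mul_zero] at h1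
          rw [← h1, mul_sum]
          refine sum_congr rfl fun i' _ => ?_
          simp only [hc]
          by_cases h2 : hh (tt R θ) Y j (i / D) = hh (tt R θ) Y j' (i' / D)
          · rw [if_pos h2, if_pos h2.symm]
          · rw [if_neg h2, if_neg (fun h => h2 h.symm), mul_zero]
      _ = _ := by
          refine (group_wc (R := R) hD w (fun l => ∑ j' ∈ J, ∑ l' ∈ range R,
            (if hh (tt R θ) Y j' l' = hh (tt R θ) Y j l then wc R D w l' else 0))).trans ?_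
          refine sum_congr rfl fun l _ => ?_
          rw [mul_sum]
          refine sum_congr rfl fun j' _ => ?_
          rw [mul_sum]
          refine sum_congr rfl fun l' _ => ?_
          rw [mul_ite, mul_zero]
  calc _ ≤ ∑ p ∈ S, ∑ q ∈ S, gmaj (c p - c q) * (w p.2 * w q.2) :=
        sum_le_sum fun p hp => sum_le_sum fun q hq => hpt p hp q hq
    _ ≤ _ := hE
    _ ≤ CG * QQ R (wc R D w) (tt R θ) Y J := by
        rw [hQ]
        exact mul_le_mul_of_nonneg_right (hCG _) (QQ_nonneg J)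

end Pool.Agent.Lib.MP_e5d0a4_an
end

section

/-!
# Selection of the dilations at a finite scale
-/

namespace Pool.Agent.Lib.MP_e5d0a4_an

open Finset MeasureTheory
open scoped Real

/-- index set of the summands other than the second one -/
def Lam (R0 m : ℕ) : Finset (ℕ × (Fin m → ℕ)) :=
  range R0 ×ˢ Fintype.piFinset (fun _ => range R0)

/-- their weights -/
noncomputable def WL (m : ℕ) (w : ℕ → ℝ) (l : ℕ × (Fin m → ℕ)) : ℝ := w l.1 * ∏ j, w (l.2 j)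

/-- their positions -/
noncomputable def PL (R0 : ℕ) {m : ℕ} (u : Fin m → ℝ) (l : ℕ × (Fin m → ℕ)) : ℝ :=
  pos R0 l.1 + ∑ j, u j * pos R0 (l.2 j)

lemma WL_nonneg {m : ℕ} {w : ℕ → ℝ} (hw : ∀ i, 0 ≤ w i) (l : ℕ × (Fin m → ℕ)) : 0 ≤ WL m w l :=
  mul_nonneg (hw _) (Finset.prod_nonneg fun _ _ => hw _)

lemma sum_WL (R0 m : ℕ) (w : ℕ → ℝ) :
    ∑ l ∈ Lam R0 m, WL m w l = (∑ i ∈ range R0, w i) ^ (m + 1) := by
  unfold Lam WL
  rw [sum_product]
  simp only
  have h1 : ∀ i ∈ range R0, ∑ b ∈ Fintype.piFinset (fun _ : Fin m => range R0),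
      w i * ∏ j, w (b j) = w i * (∑ i ∈ range R0, w i) ^ m := by
    intro i _
    rw [← mul_sum]
    congr 1
    have h2 := Finset.sum_prod_piFinset (range R0) (fun (_ : Fin m) (i : ℕ) => w i)
    simp only [prod_const, card_univ, Fintype.card_fin] at h2
    exact h2
  rw [sum_congr rfl h1, ← sum_mul, pow_succ, mul_comm]

lemma SS_Lam (R0 m : ℕ) (w : ℕ → ℝ) (u : Fin m → ℝ) (ξ : ℝ) :
    SS (Lam R0 m) (WL m w) (PL R0 u) ξ =
      SS (range R0) w (pos R0) ξ * ∏ j, SS (range R0) w (pos R0) (u j * ξ) := by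
  unfold SS
  have h2 := Finset.sum_prod_piFinset (range R0) (fun (j : Fin m) (i : ℕ) =>
    (w i : ℂ) * Complex.exp (((2 * π * pos R0 i * (u j * ξ) : ℝ) : ℂ) * Complex.I))
  rw [← h2]
  unfold Lam
  rw [sum_product, sum_mul_sum]
  refine sum_congr rfl fun i _ => sum_congr rfl fun b _ => ?_
  unfold WL PL
  simp only
  rw [prod_mul_distrib, ← Complex.exp_sum]
  have h3 : (((2 * π * (pos R0 i + ∑ j, u j * pos R0 (b j)) * ξ : ℝ) : ℂ) * Complex.I) =
      ((2 * π * pos R0 i * ξ : ℝ) : ℂ) * Complex.I +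
      ∑ j, (((2 * π * pos R0 (b j) * (u j * ξ) : ℝ) : ℂ) * Complex.I) := by
    rw [← sum_mul, ← add_mul, ← Complex.ofReal_sum, ← Complex.ofReal_add]
    congr 2
    rw [mul_add, add_mul, mul_sum, sum_mul]
    congr 1
    refine sum_congr rfl fun j _ => ?_
    ring
  rw [h3, Complex.exp_add]
  push_cast
  ring

lemma NN_Lam (R0 m : ℕ) (w : ℕ → ℝ) (u : Fin m → ℝ) (ξ : ℝ) :
    NN (Lam R0 m) (WL m w) (PL R0 u) ξ =
      NN (range R0) w (pos R0) ξ * ∏ j, NN (range R0) w (pos R0) (u j * ξ) := by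
  unfold NN
  rw [SS_Lam, Complex.normSq_mul, map_prod]

/-- smoothed distribution at scale `1/R'` -/
noncomputable def GG (R0 m : ℕ) (w : ℕ → ℝ) (u : Fin m → ℝ) (R' t x : ℝ) : ℝ :=
  ∑ l ∈ Lam R0 m, ∑ i ∈ range R0, WL m w l * w i *
    (R' * Real.exp (-π * (R' * (x - t * pos R0 i - PL R0 u l)) ^ 2))

/-- Littlewood–Paley piece -/
noncomputable def FF (R0 m : ℕ) (w : ℕ → ℝ) (u : Fin m → ℝ) (R t x : ℝ) : ℝ :=
  ∑ l ∈ Lam R0 m, ∑ i ∈ range R0, WL m w l * w i * psi R (x - t * pos R0 i - PL R0 u l)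

lemma FF_eq (R0 m : ℕ) (w : ℕ → ℝ) (u : Fin m → ℝ) (R t x : ℝ) :
    FF R0 m w u R t x = GG R0 m w u R t x - GG R0 m w u (R / 2) t x := by
  unfold FF GG
  rw [← sum_sub_distrib]
  refine sum_congr rfl fun l _ => ?_
  rw [← sum_sub_distrib]
  refine sum_congr rfl fun i _ => ?_
  unfold psi
  ring

/-- number of bad dilations in a net -/
lemma bad_count {CG CK : ℝ} (hCG0 : 0 ≤ CG) (hCG : ∀ U : Finset ℤ, ∑ u ∈ U, gmaj u ≤ CG)
    {R D : ℕ} (hR : 1 ≤ R) (hD : 1 ≤ D) {w : ℕ → ℝ} {C0 s : ℝ} (hw : Frost (R * D) C0 s w)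
    (hCK : ∀ w : ℕ → ℝ, Frost R C0 s w → ∀ θ : ℝ, 0 ≤ θ → θ ≤ 1 →
      ∀ Y : ℕ → ℝ, ∀ Θ ⊆ range R, QQ R w (tt R θ) Y Θ ≤ CK * (R : ℝ) ^ (2 - s - eps0 s))
    {m : ℕ} (u : Fin m → ℝ) {θ η lam : ℝ} (hθ : 0 ≤ θ) (hθ1 : θ ≤ 1) (hlam : 0 < lam)
    {J : Finset ℕ} (hJ : J ⊆ range R)
    (hbad : ∀ j ∈ J, ∃ x, η < |FF (R * D) m w u R (tt R θ j) x|) :
    (J.card : ℝ) * η ≤ (lam / 2) * (∫ ξ : ℝ, (Om R ξ * NN (range (R * D)) w (pos (R * D)) ξ) *
        ∏ j, NN (range (R * D)) w (pos (R * D)) (u j * ξ)) +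
      (1 / (2 * lam)) * (CG * CK * (R : ℝ) ^ (3 - s - eps0 s)) := by
  classical
  have hR' : (0 : ℝ) < R := by exact_mod_cast (by omega : 0 < R)
  have hx : ∀ j : ℕ, ∃ x : ℝ, j ∈ J → η < |FF (R * D) m w u R (tt R θ j) x| := by
    intro j
    by_cases hj : j ∈ J
    · obtain ⟨x, hx⟩ := hbad j hj
      exact ⟨x, fun _ => hx⟩
    · exact ⟨0, fun h => absurd h hj⟩
  choose x hx using hx
  set σ : ℕ → ℝ := fun j => if 0 ≤ FF (R * D) m w u R (tt R θ j) (x j) then 1 else -1 with hσ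
  have hσ1 : ∀ j, |σ j| ≤ 1 := by
    intro j
    simp only [hσ]
    split_ifs <;> simp
  have hσF : ∀ j, σ j * FF (R * D) m w u R (tt R θ j) (x j) =
      |FF (R * D) m w u R (tt R θ j) (x j)| := by
    intro j
    simp only [hσ]
    split_ifs with h
    · rw [one_mul, abs_of_nonneg h]
    · rw [abs_of_neg (not_le.1 h)]
      ring
  have h1 : (J.card : ℝ) * η ≤ ∑ j ∈ J, σ j * FF (R * D) m w u R (tt R θ j) (x j) := by
    calc (J.card : ℝ) * η = ∑ j ∈ J, η := by rw [sum_const, nsmul_eq_mul]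
      _ ≤ _ := by
          refine sum_le_sum fun j hj => ?_
          rw [hσF]
          exact (hx j hj).le
  have h2 : ∑ j ∈ J, σ j * FF (R * D) m w u R (tt R θ j) (x j) =
      ∑ p ∈ J ×ˢ range (R * D), ∑ q ∈ Lam (R * D) m, (σ p.1 * w p.2) * WL m w q *
        psi R ((x p.1 - tt R θ p.1 * pos (R * D) p.2) - PL (R * D) u q) := by
    rw [sum_product]
    refine sum_congr rfl fun j _ => ?_
    unfold FF
    rw [mul_sum]
    simp only
    rw [sum_comm (s := range (R * D))]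
    refine sum_congr rfl fun l _ => ?_
    rw [mul_sum]
    refine sum_congr rfl fun i _ => ?_
    ring
  have h3 := pairing (J ×ˢ range (R * D)) (fun p => σ p.1 * w p.2)
    (fun p => x p.1 - tt R θ p.1 * pos (R * D) p.2) (Lam (R * D) m) (WL m w) (PL (R * D) u)
    hR' hlam
  have h4 := energy_le_QQ hCG hR hD hw hθ1 hJ x σ hσ1
  have h5 := hCK (wc R D w) (coarse_frost hR hD hw) θ hθ hθ1 (fun j => (R : ℝ) * x j) J hJ
  have h6 : (R : ℝ) * (CG * (CK * (R : ℝ) ^ (2 - s - eps0 s))) =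
      CG * CK * (R : ℝ) ^ (3 - s - eps0 s) := by
    have : (R : ℝ) ^ (3 - s - eps0 s) = R * (R : ℝ) ^ (2 - s - eps0 s) := by
      have h7 : 3 - s - eps0 s = 1 + (2 - s - eps0 s) := by ring
      rw [h7, Real.rpow_add hR', Real.rpow_one]
    rw [this]
    ring
  calc (J.card : ℝ) * η ≤ _ := h1
    _ = _ := h2
    _ ≤ _ := h3
    _ ≤ _ := by
        apply add_le_add
        · apply le_of_eq
          congr 2
          ext ξ
          rw [NN_Lam]
          ring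
        · apply mul_le_mul_of_nonneg_left _ (by positivity)
          rw [← h6]
          apply mul_le_mul_of_nonneg_left _ hR'.le
          exact h4.trans (mul_le_mul_of_nonneg_left h5 hCG0)

/-- counting over residues -/
lemma card_filter_mul_le (R D : ℕ) (hD : 1 ≤ D) (P : ℕ → Prop) [DecidablePred P] {b : ℝ}
    (h : ∀ r ∈ range D, (((range R).filter (fun j => P (j * D + r))).card : ℝ) ≤ b) :
    (((range (R * D)).filter P).card : ℝ) ≤ D * b := by
  classical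
  have h1 : ((range (R * D)).filter P).card ≤
      ((range D ×ˢ range R).filter (fun p => P (p.2 * D + p.1))).card := by
    apply card_le_card_of_injOn (fun l => (l % D, l / D))
    · intro l hl
      rw [mem_coe, mem_filter, mem_range] at hl
      rw [mem_coe, mem_filter, mem_product, mem_range, mem_range]
      refine ⟨⟨Nat.mod_lt _ (by omega), (Nat.div_lt_iff_lt_mul (by omega)).2 hl.1⟩, ?_⟩
      have h2 : l / D * D + l % D = l := Nat.div_add_mod' l D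
      simp only
      rw [h2]
      exact hl.2
    · intro l _ l' _ h
      simp only [Prod.mk.injEq] at h
      rw [← Nat.div_add_mod' l D, ← Nat.div_add_mod' l' D, h.1, h.2]
  have h2 : (((range D ×ˢ range R).filter (fun p => P (p.2 * D + p.1))).card : ℝ) =
      ∑ r ∈ range D, (((range R).filter (fun j => P (j * D + r))).card : ℝ) := by
    rw [card_filter, sum_product]
    push_cast
    refine sum_congr rfl fun r _ => ?_
    rw [card_filter]
    push_cast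
    rfl
  calc (((range (R * D)).filter P).card : ℝ) ≤ _ := by exact_mod_cast h1
    _ = _ := h2
    _ ≤ ∑ r ∈ range D, b := sum_le_sum h
    _ = D * b := by rw [sum_const, nsmul_eq_mul, card_range]

/-- selection of `θ` -/
lemma select_theta {N k0 : ℕ} {m : ℕ} {w : ℕ → ℝ} {u : Fin m → ℝ} (η b : ℕ → ℝ)
    (hcount : ∀ k ∈ Ico k0 N, ∀ θ : ℝ, 0 ≤ θ → θ ≤ 1 → ∀ J ⊆ range (2 ^ (k + 1)),
      (∀ j ∈ J, ∃ x, η k < |FF (2 ^ N) m w u (2 ^ (k + 1)) (tt (2 ^ (k + 1)) θ j) x|) →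
      (J.card : ℝ) ≤ b k)
    (hsum : ∑ k ∈ Ico k0 N, b k / 2 ^ (k + 1) < 1) :
    ∃ θ : ℝ, 0 ≤ θ ∧ θ ≤ 1 ∧ ∀ k ∈ Ico k0 N, ∀ x,
      |FF (2 ^ N) m w u (2 ^ (k + 1)) (Real.exp θ) x| ≤ η k := by
  classical
  by_contra hcon
  push Not at hcon
  set Bad : ℕ → ℕ → Prop := fun k l => ∃ x, η k <
    |FF (2 ^ N) m w u (2 ^ (k + 1)) (Real.exp ((l : ℝ) / 2 ^ N)) x| with hBad
  have h1 : ∀ l ∈ range (2 ^ N), ∃ k ∈ Ico k0 N, Bad k l := by
    intro l hl
    have hl' := mem_range.1 hl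
    have hl'' : (l : ℝ) < 2 ^ N := by exact_mod_cast hl'
    obtain ⟨k, hk, x, hx⟩ := hcon ((l : ℝ) / 2 ^ N) (by positivity) (by
      rw [div_le_one (by positivity)]
      exact hl''.le)
    exact ⟨k, hk, x, hx⟩
  have h2 : ∀ k ∈ Ico k0 N, (((range (2 ^ N)).filter (Bad k)).card : ℝ) ≤
      2 ^ N * (b k / 2 ^ (k + 1)) := by
    intro k hk
    have hkN := (mem_Ico.1 hk).2
    have hND : 2 ^ N = 2 ^ (k + 1) * 2 ^ (N - k - 1) := by
      rw [← pow_add]
      congr 1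
      omega
    have h3 := card_filter_mul_le (2 ^ (k + 1)) (2 ^ (N - k - 1)) Nat.one_le_two_pow (Bad k)
      (b := b k) (by
        intro r hr
        have hr' := mem_range.1 hr
        have hr'' : (r : ℝ) < 2 ^ (N - k - 1) := by exact_mod_cast hr'
        apply hcount k hk ((r : ℝ) / 2 ^ (N - k - 1)) (by positivity)
          (by rw [div_le_one (by positivity)]; exact hr''.le) _ (filter_subset _ _)
        intro j hj
        obtain ⟨x, hx⟩ := (mem_filter.1 hj).2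
        refine ⟨x, ?_⟩
        have h4 : Real.exp (((j * 2 ^ (N - k - 1) + r : ℕ) : ℝ) / 2 ^ N) =
            tt (2 ^ (k + 1)) ((r : ℝ) / 2 ^ (N - k - 1)) j := by
          unfold tt
          congr 1
          have h5 : (2 : ℝ) ^ N = 2 ^ (k + 1) * 2 ^ (N - k - 1) := by exact_mod_cast hND
          rw [h5]
          push_cast
          field_simp
        rw [← h4]
        exact hx)
    rw [← hND] at h3
    refine h3.trans (le_of_eq ?_)
    have h5 : (2 : ℝ) ^ N = 2 ^ (k + 1) * 2 ^ (N - k - 1) := by exact_mod_cast hND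
    rw [h5]
    push_cast
    field_simp
  have h3 : ((2 : ℝ) ^ N) ≤ ∑ k ∈ Ico k0 N, (((range (2 ^ N)).filter (Bad k)).card : ℝ) := by
    have h4 : range (2 ^ N) ⊆ (Ico k0 N).biUnion (fun k => (range (2 ^ N)).filter (Bad k)) := by
      intro l hl
      obtain ⟨k, hk, hb⟩ := h1 l hl
      rw [mem_biUnion]
      exact ⟨k, hk, mem_filter.2 ⟨hl, hb⟩⟩
    have h5 := (card_le_card h4).trans card_biUnion_le
    rw [card_range] at h5
    exact_mod_cast h5
  have h4 : ∑ k ∈ Ico k0 N, (((range (2 ^ N)).filter (Bad k)).card : ℝ) ≤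
      2 ^ N * ∑ k ∈ Ico k0 N, b k / 2 ^ (k + 1) := by
    rw [mul_sum]
    exact sum_le_sum h2
  have h5 : (2 : ℝ) ^ N * ∑ k ∈ Ico k0 N, b k / 2 ^ (k + 1) < 2 ^ N * 1 :=
    mul_lt_mul_of_pos_left hsum (by positivity)
  linarith

end Pool.Agent.Lib.MP_e5d0a4_an
end

section

/-!
# The theorem at a finite scale
-/

namespace Pool.Agent.Lib.MP_e5d0a4_an

open Finset MeasureTheory
open scoped Real

lemma pos_nonneg (R0 i : ℕ) : 0 ≤ pos R0 i := by unfold pos; positivity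

lemma pos_lt_one {R0 i : ℕ} (hi : i ∈ range R0) : pos R0 i < 1 := by
  have h := mem_range.1 hi
  unfold pos
  have h1 : (0 : ℝ) < R0 := by exact_mod_cast (by omega : 0 < R0)
  rw [div_lt_one h1]
  exact_mod_cast h

lemma PL_nonneg {R0 m : ℕ} {u : Fin m → ℝ} (hu : ∀ j, u j ∈ Set.Icc (0 : ℝ) 1)
    (l : ℕ × (Fin m → ℕ)) : 0 ≤ PL R0 u l := by
  unfold PL
  exact add_nonneg (pos_nonneg _ _) (sum_nonneg fun j _ =>
    mul_nonneg (hu j).1 (pos_nonneg _ _))

lemma PL_lt {R0 m : ℕ} {u : Fin m → ℝ} (hu : ∀ j, u j ∈ Set.Icc (0 : ℝ) 1)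
    {l : ℕ × (Fin m → ℕ)} (hl : l ∈ Lam R0 m) : PL R0 u l < m + 1 := by
  unfold Lam at hl
  rw [mem_product, Fintype.mem_piFinset] at hl
  unfold PL
  have h1 : ∑ j, u j * pos R0 (l.2 j) ≤ ∑ _j : Fin m, (1 : ℝ) := by
    refine sum_le_sum fun j _ => ?_
    have h2 := pos_nonneg R0 (l.2 j)
    have h3 := pos_lt_one (hl.2 j)
    have h4 := hu j
    nlinarith [h4.1, h4.2]
  rw [sum_const, nsmul_eq_mul, mul_one, card_univ, Fintype.card_fin] at h1
  have h2 := pos_lt_one hl.1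
  linarith

/-- at the starting scale the smoothed distribution is bounded below on an interval -/
lemma GG_lower {N m k0 : ℕ} {w : ℕ → ℝ} (hw : ∀ i, 0 ≤ w i) (hsum : ∑ i ∈ range (2 ^ N), w i = 1)
    {u : Fin m → ℝ} (hu : ∀ j, u j ∈ Set.Icc (0 : ℝ) 1) {t : ℝ} (ht0 : 0 ≤ t) (ht3 : t ≤ 3) :
    ∃ x0 : ℝ, 0 ≤ x0 ∧ x0 ≤ m + 4 ∧ ∀ x, |x - x0| ≤ 1 / 2 ^ k0 →
      Real.exp (-(4 * π)) / (m + 4) ≤ GG (2 ^ N) m w u (2 ^ k0) t x := by
  classical
  set S := Lam (2 ^ N) m ×ˢ range (2 ^ N) with hS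
  set Z : (ℕ × (Fin m → ℕ)) × ℕ → ℝ := fun q => t * pos (2 ^ N) q.2 + PL (2 ^ N) u q.1 with hZ
  set W : (ℕ × (Fin m → ℕ)) × ℕ → ℝ := fun q => WL m w q.1 * w q.2 with hW
  have hW0 : ∀ q, 0 ≤ W q := fun q => mul_nonneg (WL_nonneg hw _) (hw _)
  have hWsum : ∑ q ∈ S, W q = 1 := by
    rw [hS, sum_product]
    simp only [hW]
    have h1 := sum_WL (2 ^ N) m w
    rw [hsum, one_pow] at h1
    calc ∑ l ∈ Lam (2 ^ N) m, ∑ i ∈ range (2 ^ N), WL m w l * w i
        = ∑ l ∈ Lam (2 ^ N) m, WL m w l := by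
          refine sum_congr rfl fun l _ => ?_
          rw [← mul_sum, hsum, mul_one]
      _ = 1 := h1
  have hZ0 : ∀ q ∈ S, 0 ≤ Z q := by
    intro q _
    exact add_nonneg (mul_nonneg ht0 (pos_nonneg _ _)) (PL_nonneg hu _)
  have hZ1 : ∀ q ∈ S, Z q < m + 4 := by
    intro q hq
    rw [hS, mem_product] at hq
    have h1 := PL_lt hu hq.1
    have h2 := pos_lt_one hq.2
    have h3 := pos_nonneg (2 ^ N) q.2
    simp only [hZ]
    nlinarith
  set M : ℕ := (m + 4) * 2 ^ k0 with hM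
  have hMpos : 0 < M := by positivity
  have hpk : (0 : ℝ) < 2 ^ k0 := by positivity
  set v : (ℕ × (Fin m → ℕ)) × ℕ → ℕ := fun q => ⌊Z q * 2 ^ k0⌋₊ with hv
  have hvM : ∀ q ∈ S, v q ∈ range M := by
    intro q hq
    rw [mem_range]
    simp only [hv]
    rw [Nat.floor_lt (mul_nonneg (hZ0 q hq) hpk.le), hM]
    push_cast
    exact mul_lt_mul_of_pos_right (hZ1 q hq) hpk
  obtain ⟨c, hc, hcW⟩ : ∃ c ∈ range M, 1 / (M : ℝ) ≤ ∑ q ∈ S.filter (fun q => v q = c), W q := by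
    by_contra hcon
    push Not at hcon
    have h1 : ∑ q ∈ S, W q = ∑ c ∈ range M, ∑ q ∈ S.filter (fun q => v q = c), W q :=
      (sum_fiberwise_of_maps_to hvM W).symm
    have h2 : ∑ c ∈ range M, ∑ q ∈ S.filter (fun q => v q = c), W q <
        ∑ c ∈ range M, 1 / (M : ℝ) :=
      sum_lt_sum_of_nonempty ⟨0, mem_range.2 hMpos⟩ hcon
    rw [← h1, hWsum, sum_const, nsmul_eq_mul, card_range] at h2
    have h3 : (M : ℝ) * (1 / M) = 1 := by
      have : (M : ℝ) ≠ 0 := by exact_mod_cast hMpos.ne'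
      field_simp
    linarith
  refine ⟨(c : ℝ) / 2 ^ k0, by positivity, ?_, ?_⟩
  · rw [div_le_iff₀ hpk]
    have h1 := mem_range.1 hc
    have h2 : (c : ℝ) ≤ M := by exact_mod_cast h1.le
    rw [hM] at h2
    push_cast at h2
    exact h2
  · intro x hx
    have h1 : GG (2 ^ N) m w u (2 ^ k0) t x =
        ∑ q ∈ S, W q * (2 ^ k0 * Real.exp (-π * (2 ^ k0 * (x - Z q)) ^ 2)) := by
      unfold GG
      rw [hS, sum_product]
      refine sum_congr rfl fun l _ => sum_congr rfl fun i _ => ?_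
      simp only [hW, hZ]
      congr 5
      ring
    rw [h1]
    calc Real.exp (-(4 * π)) / (m + 4) = (1 / (M : ℝ)) * (2 ^ k0 * Real.exp (-(4 * π))) := by
          rw [hM]
          push_cast
          field_simp
      _ ≤ (∑ q ∈ S.filter (fun q => v q = c), W q) * (2 ^ k0 * Real.exp (-(4 * π))) :=
          mul_le_mul_of_nonneg_right hcW (by positivity)
      _ = ∑ q ∈ S.filter (fun q => v q = c), W q * (2 ^ k0 * Real.exp (-(4 * π))) := by
          rw [sum_mul]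
      _ ≤ ∑ q ∈ S.filter (fun q => v q = c),
          W q * (2 ^ k0 * Real.exp (-π * (2 ^ k0 * (x - Z q)) ^ 2)) := by
          refine sum_le_sum fun q hq => mul_le_mul_of_nonneg_left ?_ (hW0 q)
          apply mul_le_mul_of_nonneg_left _ hpk.le
          rw [Real.exp_le_exp]
          rw [mem_filter] at hq
          have h2 : (c : ℝ) ≤ Z q * 2 ^ k0 := by
            rw [← hq.2]
            exact Nat.floor_le (mul_nonneg (hZ0 q hq.1) hpk.le)
          have h3 : Z q * 2 ^ k0 < c + 1 := by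
            rw [← hq.2]
            exact Nat.lt_floor_add_one _
          have h4 : |2 ^ k0 * (x - (c : ℝ) / 2 ^ k0)| ≤ 1 := by
            rw [abs_mul, abs_of_pos hpk]
            rw [le_div_iff₀ hpk] at hx
            linarith
          have h5 : 2 ^ k0 * (x - (c : ℝ) / 2 ^ k0) = 2 ^ k0 * x - c := by
            field_simp
          rw [h5] at h4
          have h6 := abs_le.1 h4
          have h7 : (2 ^ k0 * (x - Z q)) ^ 2 ≤ 4 := by
            have h8 : 2 ^ k0 * (x - Z q) = 2 ^ k0 * x - Z q * 2 ^ k0 := by ring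
            rw [h8]
            have h9 : -2 ≤ 2 ^ k0 * x - Z q * 2 ^ k0 := by linarith [h6.1]
            have h10 : 2 ^ k0 * x - Z q * 2 ^ k0 ≤ 2 := by linarith [h6.2]
            nlinarith
          have := Real.pi_pos
          nlinarith
      _ ≤ _ := by
          apply sum_le_sum_of_subset_of_nonneg (filter_subset _ _)
          intro q _ _
          exact mul_nonneg (hW0 q) (by positivity)

/-- telescoping -/
lemma GG_telescope {R0 m k0 N : ℕ} (hk : k0 ≤ N) (w : ℕ → ℝ) (u : Fin m → ℝ) (t x : ℝ) :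
    GG R0 m w u (2 ^ N) t x = GG R0 m w u (2 ^ k0) t x +
      ∑ k ∈ Ico k0 N, FF R0 m w u (2 ^ (k + 1)) t x := by
  induction N, hk using Nat.le_induction with
  | base => simp
  | succ N hN ih =>
    rw [sum_Ico_succ_top hN, ← add_assoc, ← ih, FF_eq]
    have : (2 : ℝ) ^ (N + 1) / 2 = 2 ^ N := by
      rw [pow_succ]
      ring
    rw [this]
    ring

lemma geom_tail {q : ℝ} (hq0 : 0 < q) (hq1 : q < 1) (k0 N : ℕ) :
    ∑ k ∈ Ico k0 N, q ^ (k + 1) ≤ q ^ k0 / (1 - q) := by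
  rcases le_total k0 N with h | h
  · rw [le_div_iff₀ (by linarith)]
    have h1 : (∑ k ∈ Ico k0 N, q ^ (k + 1)) * (1 - q) = q * (q ^ k0 - q ^ N) := by
      induction N, h using Nat.le_induction with
      | base => simp
      | succ N hN ih =>
        rw [sum_Ico_succ_top hN, add_mul, ih]
        ring
    rw [h1]
    have h2 : 0 < q ^ N := by positivity
    have h3 : q ^ N ≤ q ^ k0 := pow_le_pow_of_le_one hq0.le hq1.le h
    nlinarith [pow_pos hq0 k0]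
  · rw [Ico_eq_empty (by omega), sum_empty]
    apply div_nonneg (by positivity) (by linarith)

/-- **Finite scale theorem.** -/
theorem finite_scale {m : ℕ} {s C0 : ℝ} (hs0 : 0 < s) (hs1 : s < 1) (hC0 : 1 ≤ C0)
    (hns : 2 - eps0 s / 2 ≤ (m + 2) * s) (hms : m * s ≤ 2) :
    ∃ (k0 : ℕ) (c : ℝ), 0 < c ∧ ∀ N : ℕ, k0 ≤ N → ∀ w : ℕ → ℝ, Frost (2 ^ N) C0 s w →
      ∑ i ∈ range (2 ^ N), w i = 1 →
      ∃ θ : ℝ, 0 ≤ θ ∧ θ ≤ 1 ∧ ∃ u : Fin m → ℝ, (∀ j, u j ∈ Set.Icc (0 : ℝ) 1) ∧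
        ∃ x0 : ℝ, 0 ≤ x0 ∧ x0 ≤ m + 4 ∧ ∀ x, |x - x0| ≤ 1 / 2 ^ k0 →
          c ≤ GG (2 ^ N) m w u (2 ^ N) (Real.exp θ) x := by
  classical
  obtain ⟨CJ, hCJ1, hCJ⟩ := exists_gauss_const
  obtain ⟨CG, hCG1, hCG⟩ := exists_gmaj_const
  obtain ⟨CK, hCK0, hCK⟩ := key_lemma hs0 hs1 hC0
  set ε : ℝ := eps0 s with hε
  have hεpos : 0 < ε := by
    rw [hε]
    unfold eps0
    have : 0 < 1 - s := by linarith
    positivity
  set q : ℝ := (2 : ℝ) ^ (-(ε / 8)) with hq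
  have hq0 : 0 < q := by positivity
  have hq1 : q < 1 := Real.rpow_lt_one_of_one_lt_of_neg (by norm_num) (by linarith)
  set CE : ℝ := 10 * (Real.exp π * (CJ * C0)) ^ m * (CJ * C0) with hCE
  have hCE0 : 0 < CE := by positivity
  set C1 : ℝ := CE + CG * CK with hC1
  have hC10 : 0 < C1 := by positivity
  set c' : ℝ := Real.exp (-(4 * π)) / (m + 4) with hc'
  have hc'0 : 0 < c' := by positivity
  -- choice of `k0`
  have htend : Filter.Tendsto (fun k : ℕ => q ^ k / (1 - q)) Filter.atTop (nhds 0) := by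
    have h1 := (tendsto_pow_atTop_nhds_zero_of_lt_one hq0.le hq1).div_const (1 - q)
    rwa [zero_div] at h1
  have hd : 0 < min (1 / C1) (c' / 2) := by positivity
  obtain ⟨k0, hk0⟩ := (htend.eventually (gt_mem_nhds hd)).exists
  have hk01 : q ^ k0 / (1 - q) < 1 / C1 := lt_of_lt_of_le hk0 (min_le_left _ _)
  have hk02 : q ^ k0 / (1 - q) < c' / 2 := lt_of_lt_of_le hk0 (min_le_right _ _)
  refine ⟨k0, c' / 2, by positivity, ?_⟩
  intro N hN w hw hsum
  -- parameters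
  set Rk : ℕ → ℝ := fun k => 2 ^ (k + 1) with hRk
  have hRk1 : ∀ k, 1 ≤ Rk k := fun k => one_le_pow₀ (by norm_num)
  have hRk0 : ∀ k, 0 < Rk k := fun k => by linarith [hRk1 k]
  have hRkq : ∀ k, Rk k ^ (-(ε / 8)) = q ^ (k + 1) := by
    intro k
    simp only [hRk, hq]
    rw [← Real.rpow_natCast, ← Real.rpow_natCast, ← Real.rpow_mul (by norm_num),
      ← Real.rpow_mul (by norm_num), mul_comm]
  set η : ℕ → ℝ := fun k => q ^ (k + 1) with hη
  have hη0 : ∀ k, 0 < η k := fun k => by positivity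
  set lam : ℕ → ℝ := fun k => Rk k ^ ((2 + m * s - ε) / 2) with hlam
  have hlam0 : ∀ k, 0 < lam k := fun k => Real.rpow_pos_of_pos (hRk0 k) _
  set α : ℕ → ℝ := fun k => (lam k / 2) / (η k * Rk k) with hα
  have hα0 : ∀ k, 0 < α k := fun k => by
    have := hlam0 k
    have := hη0 k
    have := hRk0 k
    positivity
  -- the combined weight
  set P := range (2 ^ N) with hP
  set y := pos (2 ^ N) with hy
  set h : ℝ → ℝ := fun ξ => ∑ k ∈ Ico k0 N, α k * (Om (Rk k) ξ * NN P w y ξ) with hh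
  have hOmN : ∀ k, Integrable (fun ξ => Om (Rk k) ξ * NN P w y ξ) := fun k =>
    NN_integrable _ _ _ (Om_integrable (hRk0 k))
  have hOmNc : ∀ k, Continuous (fun ξ => Om (Rk k) ξ * NN P w y ξ) := fun k =>
    (Om_continuous _).mul (NN_continuous _ _ _)
  have hhc : Continuous h := continuous_finsetSum _ fun k _ => (hOmNc k).const_smul (α k)
  have hh0 : ∀ ξ, 0 ≤ h ξ := fun ξ => sum_nonneg fun k _ =>
    mul_nonneg (hα0 k).le (mul_nonneg (Om_nonneg _ _) (NN_nonneg _ _ _ _))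
  have hhi : Integrable h := integrable_finsetSum _ fun k _ => (hOmN k).const_mul _
  obtain ⟨u, hu, hule⟩ := choose_u P w y hw.nonneg m h hhc hh0 hhi
  have hJ0 := JJ_nonneg P w y hw.nonneg
  -- left side
  have hprodc : Continuous (fun ξ => ∏ j, NN P w y (u j * ξ)) :=
    continuous_finsetProd _ fun j _ => (NN_continuous P w y).comp (by fun_prop)
  have hprod0 : ∀ ξ, 0 ≤ ∏ j, NN P w y (u j * ξ) := fun ξ =>
    Finset.prod_nonneg fun j _ => NN_nonneg _ _ _ _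
  have hprodi : ∀ k, Integrable (fun ξ => (Om (Rk k) ξ * NN P w y ξ) *
      ∏ j, NN P w y (u j * ξ)) := by
    intro k
    apply (hOmN k).mul_bdd (c := ∏ _j : Fin m, (∑ p ∈ P, |w p|) ^ 2) hprodc.aestronglyMeasurable
    refine Filter.Eventually.of_forall fun ξ => ?_
    rw [Real.norm_eq_abs, abs_of_nonneg (hprod0 ξ)]
    exact Finset.prod_le_prod (fun j _ => NN_nonneg _ _ _ _) fun j _ => NN_le _ _ _ _
  set Φ : ℕ → ℝ := fun k => ∫ ξ, (Om (Rk k) ξ * NN P w y ξ) * ∏ j, NN P w y (u j * ξ) with hΦ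
  have hleft : ∫ ξ, h ξ * ∏ j, NN P w y (u j * ξ) = ∑ k ∈ Ico k0 N, α k * Φ k := by
    have h1 : ∀ ξ, h ξ * ∏ j, NN P w y (u j * ξ) = ∑ k ∈ Ico k0 N,
        α k * ((Om (Rk k) ξ * NN P w y ξ) * ∏ j, NN P w y (u j * ξ)) := by
      intro ξ
      simp only [hh]
      rw [sum_mul]
      refine sum_congr rfl fun k _ => ?_
      ring
    simp only [h1]
    rw [integral_finsetSum _ fun k _ => (hprodi k).const_mul _]
    refine sum_congr rfl fun k _ => ?_
    rw [integral_const_mul]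
  -- right side
  have hJm : ∀ k, Integrable (fun ξ => (Om (Rk k) ξ * NN P w y ξ) *
      (Real.exp π * JJ P w y ξ) ^ m) := by
    intro k
    have hc : Continuous (fun ξ => (Real.exp π * JJ P w y ξ) ^ m) :=
      (continuous_const.mul (JJ_continuous P w y)).pow m
    apply (hOmN k).mul_bdd (c := (Real.exp π * (∑ p ∈ P, w p) ^ 2) ^ m) hc.aestronglyMeasurable
    refine Filter.Eventually.of_forall fun ξ => ?_
    rw [Real.norm_eq_abs, abs_of_nonneg (pow_nonneg (mul_nonneg (Real.exp_pos _).le (hJ0 ξ)) m)]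
    apply pow_le_pow_left₀ (mul_nonneg (Real.exp_pos _).le (hJ0 ξ))
    exact mul_le_mul_of_nonneg_left (JJ_le P w y hw.nonneg ξ) (Real.exp_pos _).le
  have hright : ∫ ξ, h ξ * (Real.exp π * JJ P w y ξ) ^ m ≤
      ∑ k ∈ Ico k0 N, α k * (CE * Rk k ^ (1 - (m + 1) * s)) := by
    have h1 : ∀ ξ, h ξ * (Real.exp π * JJ P w y ξ) ^ m = ∑ k ∈ Ico k0 N,
        α k * ((Om (Rk k) ξ * NN P w y ξ) * (Real.exp π * JJ P w y ξ) ^ m) := by
      intro ξ
      simp only [hh]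
      rw [sum_mul]
      refine sum_congr rfl fun k _ => ?_
      ring
    simp only [h1]
    rw [integral_finsetSum _ fun k _ => (hJm k).const_mul _]
    refine sum_le_sum fun k hk => ?_
    rw [integral_const_mul]
    apply mul_le_mul_of_nonneg_left _ (hα0 k).le
    apply E_bound hCJ1 hCJ (Nat.one_le_two_pow) hw hC0 hs0.le hs1.le (hRk1 k) _ m hms
    have h2 := (mem_Ico.1 hk).2
    simp only [hRk]
    push_cast
    exact pow_le_pow_right₀ (by norm_num) (by omega)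
  -- the bound for the number of bad dilations
  set b : ℕ → ℝ := fun k => ((lam k / 2) * Φ k +
    (1 / (2 * lam k)) * (CG * CK * Rk k ^ (3 - s - ε))) / η k with hb
  have hcount : ∀ k ∈ Ico k0 N, ∀ θ : ℝ, 0 ≤ θ → θ ≤ 1 → ∀ J ⊆ range (2 ^ (k + 1)),
      (∀ j ∈ J, ∃ x, η k < |FF (2 ^ N) m w u (2 ^ (k + 1)) (tt (2 ^ (k + 1)) θ j) x|) →
      (J.card : ℝ) ≤ b k := by
    intro k hk θ hθ hθ1 J hJ hbad
    have hkN := (mem_Ico.1 hk).2
    have hND : 2 ^ N = 2 ^ (k + 1) * 2 ^ (N - k - 1) := by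
      rw [← pow_add]
      congr 1
      omega
    have hw' : Frost (2 ^ (k + 1) * 2 ^ (N - k - 1)) C0 s w := by rwa [← hND]
    have h1 := bad_count (by linarith : 0 ≤ CG) hCG (R := 2 ^ (k + 1)) (D := 2 ^ (N - k - 1))
      Nat.one_le_two_pow Nat.one_le_two_pow hw' (hCK _ Nat.one_le_two_pow) u (η := η k)
      (lam := lam k) hθ hθ1 (hlam0 k) hJ (by
        intro j hj
        obtain ⟨x, hx⟩ := hbad j hj
        refine ⟨x, ?_⟩
        rw [← hND]
        push_cast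
        exact hx)
    rw [← hND] at h1
    push_cast at h1
    simp only [hb]
    rw [le_div_iff₀ (hη0 k)]
    exact h1
  -- exponents
  have hexp : ∀ k, Rk k ^ (1 - (m + 2) * s / 2 - 3 * ε / 8) ≤ q ^ (k + 1) := by
    intro k
    rw [← hRkq]
    apply Real.rpow_le_rpow_of_exponent_le (hRk1 k)
    linarith
  have hsum1 : ∑ k ∈ Ico k0 N, b k / 2 ^ (k + 1) < 1 := by
    have h1 : ∀ k ∈ Ico k0 N, b k / 2 ^ (k + 1) = α k * Φ k +
        (1 / (2 * lam k)) * (CG * CK * Rk k ^ (3 - s - ε)) / (η k * Rk k) := by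
      intro k _
      have h2 : (2 : ℝ) ^ (k + 1) = Rk k := rfl
      rw [h2]
      simp only [hb, hα]
      have := (hη0 k).ne'
      have := (hRk0 k).ne'
      have := (hlam0 k).ne'
      field_simp
    have hη' : ∀ k, (η k)⁻¹ = Rk k ^ (ε / 8) := by
      intro k
      simp only [hη]
      rw [← hRkq, ← Real.rpow_neg (hRk0 k).le]
      congr 1
      ring
    have h2 : ∀ k, α k * (CE * Rk k ^ (1 - (m + 1) * s)) =
        (CE / 2) * Rk k ^ (1 - (m + 2) * s / 2 - 3 * ε / 8) := by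
      intro k
      have h3 : α k * (CE * Rk k ^ (1 - (m + 1) * s)) = (CE / 2) *
          (lam k * (η k)⁻¹ * (Rk k)⁻¹ * Rk k ^ (1 - (m + 1) * s)) := by
        simp only [hα]
        have := (hη0 k).ne'
        have := (hRk0 k).ne'
        field_simp
      rw [h3]
      congr 1
      rw [hη' k, ← Real.rpow_neg_one (Rk k)]
      simp only [hlam]
      rw [← Real.rpow_add (hRk0 k), ← Real.rpow_add (hRk0 k), ← Real.rpow_add (hRk0 k)]
      congr 1
      ring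
    have h3 : ∀ k, (1 / (2 * lam k)) * (CG * CK * Rk k ^ (3 - s - ε)) / (η k * Rk k) =
        (CG * CK / 2) * Rk k ^ (1 - (m + 2) * s / 2 - 3 * ε / 8) := by
      intro k
      have h4 : (1 / (2 * lam k)) * (CG * CK * Rk k ^ (3 - s - ε)) / (η k * Rk k) =
          (CG * CK / 2) * ((lam k)⁻¹ * (η k)⁻¹ * (Rk k)⁻¹ * Rk k ^ (3 - s - ε)) := by
        have := (hη0 k).ne'
        have := (hRk0 k).ne'
        have := (hlam0 k).ne'
        field_simp
      rw [h4]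
      congr 1
      rw [hη' k, ← Real.rpow_neg_one (Rk k)]
      simp only [hlam]
      rw [← Real.rpow_neg (hRk0 k).le, ← Real.rpow_add (hRk0 k), ← Real.rpow_add (hRk0 k),
        ← Real.rpow_add (hRk0 k)]
      congr 1
      ring
    rw [sum_congr rfl h1, sum_add_distrib]
    have h4 : ∑ k ∈ Ico k0 N, α k * Φ k ≤
        ∑ k ∈ Ico k0 N, (CE / 2) * q ^ (k + 1) := by
      rw [← hleft]
      refine hule.trans (hright.trans ?_)
      refine sum_le_sum fun k _ => ?_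
      rw [h2]
      exact mul_le_mul_of_nonneg_left (hexp k) (by positivity)
    have h5 : ∑ k ∈ Ico k0 N, (1 / (2 * lam k)) * (CG * CK * Rk k ^ (3 - s - ε)) /
        (η k * Rk k) ≤ ∑ k ∈ Ico k0 N, (CG * CK / 2) * q ^ (k + 1) := by
      refine sum_le_sum fun k _ => ?_
      rw [h3]
      exact mul_le_mul_of_nonneg_left (hexp k) (by positivity)
    rw [← mul_sum] at h4 h5
    have h6 := geom_tail hq0 hq1 k0 N
    have h7 : C1 * (q ^ k0 / (1 - q)) < 1 := by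
      have := mul_lt_mul_of_pos_left hk01 hC10
      rwa [mul_one_div_cancel hC10.ne'] at this
    have h8 : (CE / 2) * ∑ k ∈ Ico k0 N, q ^ (k + 1) + (CG * CK / 2) *
        ∑ k ∈ Ico k0 N, q ^ (k + 1) ≤ (C1 / 2) * (q ^ k0 / (1 - q)) := by
      rw [← add_mul]
      have h9 : CE / 2 + CG * CK / 2 = C1 / 2 := by rw [hC1]; ring
      rw [h9]
      exact mul_le_mul_of_nonneg_left h6 (by positivity)
    have h10 : 0 ≤ C1 * (q ^ k0 / (1 - q)) := by
      have : 0 < 1 - q := by linarith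
      positivity
    linarith
  obtain ⟨θ, hθ, hθ1, hθF⟩ := select_theta η b hcount hsum1
  refine ⟨θ, hθ, hθ1, u, hu, ?_⟩
  have ht3 : Real.exp θ ≤ 3 := by
    calc Real.exp θ ≤ Real.exp 1 := Real.exp_le_exp.2 hθ1
      _ ≤ 3 := by
          have := Real.exp_one_lt_d9
          linarith
  obtain ⟨x0, hx00, hx01, hx0⟩ := GG_lower (k0 := k0) hw.nonneg hsum hu (Real.exp_pos θ).le ht3
  refine ⟨x0, hx00, hx01, ?_⟩
  intro x hx
  have h1 := hx0 x hx
  rw [← hc'] at h1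
  rw [GG_telescope hN]
  have h2 : -∑ k ∈ Ico k0 N, η k ≤ ∑ k ∈ Ico k0 N, FF (2 ^ N) m w u (2 ^ (k + 1)) (Real.exp θ) x := by
    rw [← sum_neg_distrib]
    refine sum_le_sum fun k hk => ?_
    exact (abs_le.1 (hθF k hk x)).1
  have h3 := geom_tail hq0 hq1 k0 N
  have h4 : ∑ k ∈ Ico k0 N, η k ≤ q ^ k0 / (1 - q) := h3
  linarith

end Pool.Agent.Lib.MP_e5d0a4_an
end

section

/-!
# Passage to the limit
-/

namespace Pool.Agent.Lib.MP_e5d0a4_an

open Finset Filter Topology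
open scoped Real

/-- if the smoothed distribution at scale `2^{-N}` is at least `c` at `x`, then `x` is close to
the dilated sumset of `K` -/
lemma approx_point {m N : ℕ} {c : ℝ} (hcN : 1 < c * 2 ^ N) {K : Set ℝ} {w : ℕ → ℝ}
    (hw : ∀ i, 0 ≤ w i) (hsum : ∑ i ∈ range (2 ^ N), w i = 1)
    (hK : ∀ i, w i ≠ 0 → ∃ a ∈ K, |a - (i : ℝ) / 2 ^ N| ≤ 1 / 2 ^ N)
    {u : Fin m → ℝ} (hu : ∀ j, u j ∈ Set.Icc (0 : ℝ) 1) {t : ℝ} (ht0 : 0 ≤ t) (ht3 : t ≤ 3)
    {x : ℝ} (hx : c ≤ GG (2 ^ N) m w u (2 ^ N) t x) :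
    ∃ a0 ∈ K, ∃ a1 ∈ K, ∃ b : Fin m → ℝ, (∀ j, b j ∈ K) ∧
      |x - (a0 + t * a1 + ∑ j, u j * b j)| ≤ (1 / √2) ^ N + (m + 4) / 2 ^ N := by
  classical
  have hpN : (0 : ℝ) < 2 ^ N := by positivity
  set δ : ℝ := (1 / √2) ^ N with hδ
  have hδ0 : 0 < δ := by positivity
  have hδ2 : (2 ^ N * δ) ^ 2 = 2 ^ N := by
    rw [hδ, mul_pow, ← pow_mul, ← pow_mul, mul_comm N 2, pow_mul (1 / √2) 2 N, div_pow, one_pow,
      Real.sq_sqrt (by norm_num), pow_mul, ← mul_pow]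
    norm_num
  -- there is a contributing pair
  obtain ⟨l, hl, i, hi, hne, hclose⟩ : ∃ l ∈ Lam (2 ^ N) m, ∃ i ∈ range (2 ^ N),
      WL m w l * w i ≠ 0 ∧ |x - t * pos (2 ^ N) i - PL (2 ^ N) u l| ≤ δ := by
    by_contra hcon
    push Not at hcon
    have h1 : GG (2 ^ N) m w u (2 ^ N) t x ≤ 2 ^ N * Real.exp (-π * 2 ^ N) := by
      unfold GG
      calc ∑ l ∈ Lam (2 ^ N) m, ∑ i ∈ range (2 ^ N), WL m w l * w i *
            (2 ^ N * Real.exp (-π * (2 ^ N * (x - t * pos (2 ^ N) i - PL (2 ^ N) u l)) ^ 2))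
          ≤ ∑ l ∈ Lam (2 ^ N) m, ∑ i ∈ range (2 ^ N), WL m w l * w i *
            (2 ^ N * Real.exp (-π * 2 ^ N)) := by
            refine sum_le_sum fun l hl => sum_le_sum fun i hi => ?_
            by_cases hne : WL m w l * w i = 0
            · rw [hne, zero_mul, zero_mul]
            · apply mul_le_mul_of_nonneg_left _ (mul_nonneg (WL_nonneg hw _) (hw _))
              apply mul_le_mul_of_nonneg_left _ hpN.le
              rw [Real.exp_le_exp]
              have h2 := hcon l hl i hi hne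
              have h3 : (2 : ℝ) ^ N ≤
                  (2 ^ N * (x - t * pos (2 ^ N) i - PL (2 ^ N) u l)) ^ 2 := by
                calc (2 : ℝ) ^ N = (2 ^ N * δ) ^ 2 := hδ2.symm
                  _ ≤ (2 ^ N * |x - t * pos (2 ^ N) i - PL (2 ^ N) u l|) ^ 2 := by
                      apply pow_le_pow_left₀ (by positivity)
                      exact mul_le_mul_of_nonneg_left h2.le hpN.le
                  _ = _ := by rw [mul_pow, sq_abs, mul_pow]
              have := Real.pi_pos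
              have h4 : (2 ^ N * δ) ^ 2 = 2 ^ N := hδ2
              nlinarith
        _ = (∑ l ∈ Lam (2 ^ N) m, WL m w l) * (2 ^ N * Real.exp (-π * 2 ^ N)) := by
            rw [sum_mul]
            refine sum_congr rfl fun l _ => ?_
            rw [← sum_mul, ← mul_sum, hsum, mul_one]
        _ = 2 ^ N * Real.exp (-π * 2 ^ N) := by
            rw [sum_WL, hsum, one_pow, one_mul]
    have h2 : 2 ^ N * Real.exp (-π * 2 ^ N) < c := by
      have h3 : ((2 : ℝ) ^ N) ^ 2 ≤ Real.exp (π * 2 ^ N) := by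
        have h4 := Real.quadratic_le_exp_of_nonneg (x := π * 2 ^ N) (by positivity)
        have h5 := Real.pi_gt_three
        have h6 : 0 ≤ π * 2 ^ N := by positivity
        have h7 : ((2 : ℝ) ^ N) ^ 2 ≤ (π * 2 ^ N) ^ 2 / 2 := by
          have h8 : (π * 2 ^ N) ^ 2 = π ^ 2 * ((2 : ℝ) ^ N) ^ 2 := by ring
          rw [h8]
          have h9 : 2 ≤ π ^ 2 := by nlinarith
          have h10 : 0 ≤ ((2 : ℝ) ^ N) ^ 2 := by positivity
          nlinarith
        linarith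
      have h4 : Real.exp (-π * 2 ^ N) ≤ 1 / ((2 : ℝ) ^ N) ^ 2 := by
        rw [neg_mul, Real.exp_neg, ← one_div]
        exact one_div_le_one_div_of_le (by positivity) h3
      calc 2 ^ N * Real.exp (-π * 2 ^ N) ≤ 2 ^ N * (1 / ((2 : ℝ) ^ N) ^ 2) :=
            mul_le_mul_of_nonneg_left h4 hpN.le
        _ = 1 / 2 ^ N := by field_simp
        _ < c := by
            rw [div_lt_iff₀ hpN]
            exact hcN
    linarith
  -- the components are nonzero
  have hi0 : w i ≠ 0 := right_ne_zero_of_mul hne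
  have hl0 : WL m w l ≠ 0 := left_ne_zero_of_mul hne
  unfold WL at hl0
  have hl1 : w l.1 ≠ 0 := left_ne_zero_of_mul hl0
  have hl2 : ∀ j, w (l.2 j) ≠ 0 := by
    have := right_ne_zero_of_mul hl0
    rw [Finset.prod_ne_zero_iff] at this
    exact fun j => this j (mem_univ j)
  obtain ⟨a0, ha0, ha0'⟩ := hK _ hl1
  obtain ⟨a1, ha1, ha1'⟩ := hK _ hi0
  choose b hb hb' using fun j => hK _ (hl2 j)
  refine ⟨a0, ha0, a1, ha1, b, hb, ?_⟩
  have hpos : ∀ i : ℕ, pos (2 ^ N) i = (i : ℝ) / 2 ^ N := by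
    intro i
    unfold pos
    push_cast
    rfl
  have h1 : x - (a0 + t * a1 + ∑ j, u j * b j) = (x - t * pos (2 ^ N) i - PL (2 ^ N) u l) -
      (a0 - (l.1 : ℝ) / 2 ^ N) - t * (a1 - (i : ℝ) / 2 ^ N) -
      ∑ j, u j * (b j - (l.2 j : ℝ) / 2 ^ N) := by
    unfold PL
    simp only [hpos, mul_sub, sum_sub_distrib]
    ring
  rw [h1]
  have h2 : |∑ j, u j * (b j - (l.2 j : ℝ) / 2 ^ N)| ≤ m * (1 / 2 ^ N) := by
    calc |∑ j, u j * (b j - (l.2 j : ℝ) / 2 ^ N)|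
        ≤ ∑ j, |u j * (b j - (l.2 j : ℝ) / 2 ^ N)| := abs_sum_le_sum_abs _ _
      _ ≤ ∑ _j : Fin m, (1 : ℝ) / 2 ^ N := by
          refine sum_le_sum fun j _ => ?_
          rw [abs_mul, abs_of_nonneg (hu j).1]
          calc u j * |b j - (l.2 j : ℝ) / 2 ^ N| ≤ 1 * (1 / 2 ^ N) :=
                mul_le_mul (hu j).2 (hb' j) (abs_nonneg _) (by norm_num)
            _ = 1 / 2 ^ N := one_mul _
      _ = m * (1 / 2 ^ N) := by
          rw [sum_const, nsmul_eq_mul, card_univ, Fintype.card_fin]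
  have h3 : |t * (a1 - (i : ℝ) / 2 ^ N)| ≤ 3 * (1 / 2 ^ N) := by
    rw [abs_mul, abs_of_nonneg ht0]
    exact mul_le_mul ht3 ha1' (abs_nonneg _) (by norm_num)
  calc _ ≤ |(x - t * pos (2 ^ N) i - PL (2 ^ N) u l) - (a0 - (l.1 : ℝ) / 2 ^ N) -
        t * (a1 - (i : ℝ) / 2 ^ N)| + |∑ j, u j * (b j - (l.2 j : ℝ) / 2 ^ N)| := abs_sub _ _
    _ ≤ (|(x - t * pos (2 ^ N) i - PL (2 ^ N) u l) - (a0 - (l.1 : ℝ) / 2 ^ N)| +
        |t * (a1 - (i : ℝ) / 2 ^ N)|) + |∑ j, u j * (b j - (l.2 j : ℝ) / 2 ^ N)| := by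
        gcongr
        exact abs_sub _ _
    _ ≤ ((|(x - t * pos (2 ^ N) i - PL (2 ^ N) u l)| + |(a0 - (l.1 : ℝ) / 2 ^ N)|) +
        |t * (a1 - (i : ℝ) / 2 ^ N)|) + |∑ j, u j * (b j - (l.2 j : ℝ) / 2 ^ N)| := by
        gcongr
        exact abs_sub _ _
    _ ≤ ((δ + 1 / 2 ^ N) + 3 * (1 / 2 ^ N)) + m * (1 / 2 ^ N) := by
        gcongr
    _ = δ + (m + 4) / 2 ^ N := by ring

/-- the dilated sumset -/
def sumset {m : ℕ} (K : Set ℝ) (θ : ℝ) (u : Fin m → ℝ) : Set ℝ :=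
  {x | ∃ a0 ∈ K, ∃ a1 ∈ K, ∃ b : Fin m → ℝ, (∀ j, b j ∈ K) ∧
    x = a0 + Real.exp θ * a1 + ∑ j, u j * b j}

/-- **Main theorem for compact sets carrying Frostman weights.** -/
theorem interior_of_weights {m : ℕ} {s C0 : ℝ} (hs0 : 0 < s) (hs1 : s < 1) (hC0 : 1 ≤ C0)
    (hns : 2 - eps0 s / 2 ≤ (m + 2) * s) (hms : m * s ≤ 2) {K : Set ℝ} (hK : IsCompact K)
    (hW : ∀ N : ℕ, ∃ w : ℕ → ℝ, Frost (2 ^ N) C0 s w ∧ ∑ i ∈ range (2 ^ N), w i = 1 ∧
      ∀ i, w i ≠ 0 → ∃ a ∈ K, |a - (i : ℝ) / 2 ^ N| ≤ 1 / 2 ^ N) :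
    ∃ θ : ℝ, ∃ u : Fin m → ℝ, (interior (sumset K θ u)).Nonempty := by
  obtain ⟨k0, c, hc, hfin⟩ := finite_scale (m := m) hs0 hs1 hC0 hns hms
  choose w hwF hwsum hwK using hW
  -- parameters at scale `n + k0`
  have hpar : ∀ n : ℕ, ∃ τ : ℝ × (Fin m → ℝ) × ℝ,
      τ ∈ Set.Icc (0 : ℝ) 1 ×ˢ ((Set.univ.pi fun _ => Set.Icc (0 : ℝ) 1) ×ˢ
        Set.Icc (0 : ℝ) (m + 4)) ∧
      ∀ x, |x - τ.2.2| ≤ 1 / 2 ^ k0 →
        c ≤ GG (2 ^ (n + k0)) m (w (n + k0)) τ.2.1 (2 ^ (n + k0)) (Real.exp τ.1) x := by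
    intro n
    obtain ⟨θ, hθ, hθ1, u, hu, x0, hx0, hx1, hx⟩ := hfin (n + k0) (by omega) (w (n + k0))
      (hwF _) (hwsum _)
    exact ⟨(θ, u, x0), ⟨⟨hθ, hθ1⟩, fun j _ => hu j, ⟨hx0, hx1⟩⟩, hx⟩
  choose τ hτ hτx using hpar
  have hcomp : IsCompact (Set.Icc (0 : ℝ) 1 ×ˢ ((Set.univ.pi fun _ : Fin m => Set.Icc (0 : ℝ) 1) ×ˢ
        Set.Icc (0 : ℝ) (m + 4))) :=
    isCompact_Icc.prod ((isCompact_univ_pi fun _ => isCompact_Icc).prod isCompact_Icc)
  obtain ⟨τ', _, φ, hφ, hlim⟩ := hcomp.tendsto_subseq hτ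
  refine ⟨τ'.1, τ'.2.1, ⟨τ'.2.2, ?_⟩⟩
  have hball : Metric.ball τ'.2.2 (1 / 2 ^ k0) ⊆ sumset K τ'.1 τ'.2.1 := by
    intro x hx
    rw [Metric.mem_ball, Real.dist_eq] at hx
    -- eventually close
    have hlim2 : Tendsto (fun n => (τ (φ n)).2.2) atTop (𝓝 τ'.2.2) :=
      ((continuous_snd.comp continuous_snd).tendsto τ').comp hlim
    have hev : ∀ᶠ n in atTop, |x - (τ (φ n)).2.2| < 1 / 2 ^ k0 := by
      have h1 : Tendsto (fun n => |x - (τ (φ n)).2.2|) atTop (𝓝 |x - τ'.2.2|) :=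
        (tendsto_const_nhds.sub hlim2).abs
      exact h1.eventually (gt_mem_nhds hx)
    have hev2 : ∀ᶠ n : ℕ in atTop, 1 < c * 2 ^ (φ n + k0) := by
      have h1 : Tendsto (fun n : ℕ => c * (2 : ℝ) ^ (φ n + k0)) atTop atTop := by
        apply Tendsto.const_mul_atTop hc
        have h2 : Tendsto (fun n : ℕ => (2 : ℝ) ^ n) atTop atTop :=
          tendsto_pow_atTop_atTop_of_one_lt (by norm_num)
        exact h2.comp (tendsto_atTop_mono (fun n => Nat.le_add_right _ _) hφ.tendsto_atTop)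
      exact h1.eventually_gt_atTop 1
    obtain ⟨n0, hn0⟩ := eventually_atTop.1 (hev.and hev2)
    have hpt : ∀ n : ℕ, ∃ a : ℝ × ℝ × (Fin m → ℝ),
        a ∈ K ×ˢ (K ×ˢ (Set.univ.pi fun _ => K)) ∧
        |x - (a.1 + Real.exp (τ (φ (n + n0))).1 * a.2.1 +
          ∑ j, (τ (φ (n + n0))).2.1 j * a.2.2 j)| ≤
          (1 / √2) ^ (φ (n + n0) + k0) + (m + 4) / 2 ^ (φ (n + n0) + k0) := by
      intro n
      obtain ⟨h1, h2⟩ := hn0 (n + n0) (by omega)
      have h3 := hτx (φ (n + n0)) x h1.le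
      have h4 := hτ (φ (n + n0))
      have h5 : Real.exp (τ (φ (n + n0))).1 ≤ 3 := by
        calc Real.exp (τ (φ (n + n0))).1 ≤ Real.exp 1 := Real.exp_le_exp.2 h4.1.2
          _ ≤ 3 := by
              have := Real.exp_one_lt_d9
              linarith
      obtain ⟨a0, ha0, a1, ha1, b, hb, hab⟩ := approx_point h2 (hwF _).nonneg (hwsum _) (hwK _)
        (fun j => h4.2.1 j (Set.mem_univ j)) (Real.exp_pos _).le h5 h3
      exact ⟨(a0, a1, b), ⟨ha0, ha1, fun j _ => hb j⟩, hab⟩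
    choose a ha hax using hpt
    have hcompK : IsCompact (K ×ˢ (K ×ˢ (Set.univ.pi fun _ : Fin m => K))) :=
      hK.prod (hK.prod (isCompact_univ_pi fun _ => hK))
    obtain ⟨a', ha', ψ, hψ, hlima⟩ := hcompK.tendsto_subseq ha
    refine ⟨a'.1, ha'.1, a'.2.1, ha'.2.1, a'.2.2, fun j => ha'.2.2 j (Set.mem_univ j), ?_⟩
    -- limit of the approximate identity
    have hidx : Tendsto (fun n => ψ n + n0) atTop atTop :=
      tendsto_atTop_mono (fun n => Nat.le_add_right _ _) hψ.tendsto_atTop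
    have hlimτ : Tendsto (fun n => τ (φ (ψ n + n0))) atTop (𝓝 τ') := hlim.comp hidx
    have hcont : Continuous (fun p : (ℝ × (Fin m → ℝ) × ℝ) × (ℝ × ℝ × (Fin m → ℝ)) =>
        |x - (p.2.1 + Real.exp p.1.1 * p.2.2.1 + ∑ j, p.1.2.1 j * p.2.2.2 j)|) := by
      fun_prop
    have h1 : Tendsto (fun n => |x - ((a (ψ n)).1 + Real.exp (τ (φ (ψ n + n0))).1 *
        (a (ψ n)).2.1 + ∑ j, (τ (φ (ψ n + n0))).2.1 j * (a (ψ n)).2.2 j)|) atTop
        (𝓝 |x - (a'.1 + Real.exp τ'.1 * a'.2.1 + ∑ j, τ'.2.1 j * a'.2.2 j)|) :=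
      (hcont.tendsto (τ', a')).comp (hlimτ.prodMk_nhds hlima)
    have h2 : Tendsto (fun n : ℕ => (1 / √2) ^ (φ (ψ n + n0) + k0) +
        ((m : ℝ) + 4) / 2 ^ (φ (ψ n + n0) + k0)) atTop (𝓝 0) := by
      have hidx2 : Tendsto (fun n => φ (ψ n + n0) + k0) atTop atTop :=
        tendsto_atTop_mono (fun n => Nat.le_add_right _ _) (hφ.tendsto_atTop.comp hidx)
      have h3 : Tendsto (fun n : ℕ => (1 / √2 : ℝ) ^ n) atTop (𝓝 0) := by
        apply tendsto_pow_atTop_nhds_zero_of_lt_one (by positivity)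
        rw [div_lt_one (by positivity)]
        exact Real.lt_sqrt_of_sq_lt (by norm_num)
      have h4 : Tendsto (fun n : ℕ => ((m : ℝ) + 4) / 2 ^ n) atTop (𝓝 0) := by
        have h5 : Tendsto (fun n : ℕ => ((m : ℝ) + 4) * (1 / 2 : ℝ) ^ n) atTop
            (𝓝 (((m : ℝ) + 4) * 0)) :=
          (tendsto_pow_atTop_nhds_zero_of_lt_one (by norm_num) (by norm_num)).const_mul _
        rw [mul_zero] at h5
        refine h5.congr fun n => ?_
        rw [one_div, inv_pow]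
        rfl
      have h5 := (h3.comp hidx2).add (h4.comp hidx2)
      rw [add_zero] at h5
      exact h5
    have h3 : |x - (a'.1 + Real.exp τ'.1 * a'.2.1 + ∑ j, τ'.2.1 j * a'.2.2 j)| ≤ 0 :=
      le_of_tendsto_of_tendsto' h1 h2 fun n => hax (ψ n)
    have h4 := abs_nonpos_iff.1 h3
    linarith
  exact interior_mono hball (by
    rw [Metric.isOpen_ball.interior_eq]
    exact Metric.mem_ball_self (by positivity))

end Pool.Agent.Lib.MP_e5d0a4_an
end
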