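import Mathlib
import Pool.Agent.Lib.MP_e5d0a4_an.Energy

section

/-!
# A Balog–Szemerédi–Gowers type graph lemma (dependent random choice)
-/

namespace Pool.Agent.Lib.MP_e5d0a4_an

open Finset

/-- If a bipartite graph `G` on `X × X` has at least `α R²` edges and `|X| ≤ R`, there is a large
`X' ⊆ X` such that any two elements of `X'` are joined by many walks
`x - y - x'' - y' - x'`. -/
theorem graph_lemma {ι : Type*} [DecidableEq ι] (X : Finset ι) (G : ι → ι → Prop)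
    [DecidableRel G] (R α : ℝ) (hR : 0 < R) (hα : 0 < α) (hX : (X.card : ℝ) ≤ R)
    (hG : α * R ^ 2 ≤ (((X ×ˢ X).filter (fun p => G p.1 p.2)).card : ℝ)) :
    ∃ X' ⊆ X, α * R / 4 ≤ (X'.card : ℝ) ∧ ∀ x ∈ X', ∀ x' ∈ X',
      α ^ 5 * R ^ 3 / 1024 ≤
        (((X ×ˢ X ×ˢ X).filter
          (fun p => G x p.1 ∧ G p.2.1 p.1 ∧ G p.2.1 p.2.2 ∧ G x' p.2.2)).card : ℝ) := by
  classical
  -- neighbourhoods
  set Nb : ι → Finset ι := fun y => X.filter (fun x => G x y) with hNb
  -- codegree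
  set cd : ι → ι → ℕ := fun x x' => (X.filter (fun y => G x y ∧ G x' y)).card with hcd
  -- bad pairs
  set bad : ι → ι → Prop := fun x x' => (cd x x' : ℝ) < α ^ 2 * R / 16 with hbad
  have hcd_symm : ∀ x x', cd x x' = cd x' x := by
    intro x x'
    simp only [hcd]
    congr 1
    ext y
    simp only [mem_filter]
    tauto
  -- sum of degrees
  have hdeg : ∑ y ∈ X, ((Nb y).card : ℝ) = (((X ×ˢ X).filter (fun p => G p.1 p.2)).card : ℝ) := by
    rw [card_filter, sum_product_right]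
    push_cast
    refine sum_congr rfl fun y _ => ?_
    simp only [hNb]
    rw [card_filter]
    push_cast
    rfl
  -- sum of squares of degrees
  have hsq : α ^ 2 * R ^ 3 ≤ ∑ y ∈ X, ((Nb y).card : ℝ) ^ 2 := by
    have h1 := sq_sum_le_card_mul_sum_sq (s := X) (f := fun y => ((Nb y).card : ℝ))
    rw [hdeg] at h1
    have h2 : (α * R ^ 2) ^ 2 ≤ R * ∑ y ∈ X, ((Nb y).card : ℝ) ^ 2 := by
      calc (α * R ^ 2) ^ 2 ≤ ((((X ×ˢ X).filter (fun p => G p.1 p.2)).card : ℝ)) ^ 2 := by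
            apply pow_le_pow_left₀ (by positivity) hG
        _ ≤ _ := h1
        _ ≤ _ := by
            exact mul_le_mul_of_nonneg_right hX (sum_nonneg fun i _ => sq_nonneg _)
    have h3 : R * (α ^ 2 * R ^ 3) ≤ R * ∑ y ∈ X, ((Nb y).card : ℝ) ^ 2 := by
      calc R * (α ^ 2 * R ^ 3) = (α * R ^ 2) ^ 2 := by ring
        _ ≤ _ := h2
    exact le_of_mul_le_mul_left h3 hR
  -- bad pairs inside neighbourhoods
  set bp : ι → ℝ := fun y =>
    (((Nb y) ×ˢ (Nb y)).filter (fun p => bad p.1 p.2)).card with hbp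
  have hbpsum : ∑ y ∈ X, bp y ≤ α ^ 2 * R ^ 3 / 16 := by
    have h1 : ∑ y ∈ X, bp y = ∑ p ∈ (X ×ˢ X).filter (fun p => bad p.1 p.2), (cd p.1 p.2 : ℝ) := by
      have h2 : ∀ y ∈ X, bp y = ∑ p ∈ (X ×ˢ X).filter (fun p => bad p.1 p.2),
          (if G p.1 y ∧ G p.2 y then (1 : ℝ) else 0) := by
        intro y _
        simp only [hbp, hNb]
        rw [← sum_filter, sum_const, nsmul_eq_mul, mul_one]
        congr 2
        ext p
        simp only [mem_filter, mem_product]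
        tauto
      rw [sum_congr rfl h2, sum_comm]
      refine sum_congr rfl fun p _ => ?_
      simp only [hcd]
      rw [← sum_filter, sum_const, nsmul_eq_mul, mul_one]
    rw [h1]
    calc ∑ p ∈ (X ×ˢ X).filter (fun p => bad p.1 p.2), (cd p.1 p.2 : ℝ)
        ≤ ∑ p ∈ (X ×ˢ X).filter (fun p => bad p.1 p.2), (α ^ 2 * R / 16) := by
          apply sum_le_sum
          intro p hp
          exact (mem_filter.1 hp).2.le
      _ = (((X ×ˢ X).filter (fun p => bad p.1 p.2)).card : ℝ) * (α ^ 2 * R / 16) := by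
          rw [sum_const, nsmul_eq_mul]
      _ ≤ (R * R) * (α ^ 2 * R / 16) := by
          apply mul_le_mul_of_nonneg_right _ (by positivity)
          have h3 : (((X ×ˢ X).filter (fun p => bad p.1 p.2)).card : ℝ) ≤ ((X ×ˢ X).card : ℝ) := by
            exact_mod_cast card_filter_le _ _
          rw [card_product] at h3
          push_cast at h3
          exact h3.trans (mul_le_mul hX hX (by positivity) hR.le)
      _ = α ^ 2 * R ^ 3 / 16 := by ring
  -- choose a good `y`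
  obtain ⟨y, hyX, hy⟩ : ∃ y ∈ X, α ^ 2 * R ^ 2 / 2 ≤ ((Nb y).card : ℝ) ^ 2 - 8 * bp y := by
    by_contra hcon
    push Not at hcon
    have h1 : ∑ y ∈ X, (((Nb y).card : ℝ) ^ 2 - 8 * bp y) ≤ ∑ y ∈ X, (α ^ 2 * R ^ 2 / 2) :=
      sum_le_sum fun y hy => (hcon y hy).le
    have hne : X.Nonempty := by
      rw [nonempty_iff_ne_empty]
      rintro rfl
      simp only [sum_empty] at hsq
      have : 0 < α ^ 2 * R ^ 3 := by positivity
      linarith
    have h1' : ∑ y ∈ X, (((Nb y).card : ℝ) ^ 2 - 8 * bp y) < ∑ y ∈ X, (α ^ 2 * R ^ 2 / 2) :=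
      sum_lt_sum_of_nonempty hne fun y hy => hcon y hy
    rw [sum_sub_distrib, ← mul_sum, sum_const, nsmul_eq_mul] at h1'
    have h2 : (X.card : ℝ) * (α ^ 2 * R ^ 2 / 2) ≤ R * (α ^ 2 * R ^ 2 / 2) :=
      mul_le_mul_of_nonneg_right hX (by positivity)
    nlinarith
  set X0 := Nb y with hX0
  have hX0X : X0 ⊆ X := filter_subset _ _
  have hbp0 : 0 ≤ bp y := by simp only [hbp]; positivity
  have hX0card : α * R / 2 ≤ (X0.card : ℝ) := by
    have h1 : (α * R / 2) ^ 2 ≤ (X0.card : ℝ) ^ 2 := by nlinarith [sq_nonneg (α * R)]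
    exact le_of_sq_le_sq h1 (by positivity)
  have hX0pos : 0 < (X0.card : ℝ) := lt_of_lt_of_le (by positivity) hX0card
  have hbpy : bp y ≤ (X0.card : ℝ) ^ 2 / 8 := by nlinarith [sq_nonneg (α * R)]
  -- bad partners
  set bd : ι → ℕ := fun x => (X0.filter (fun x' => bad x x')).card with hbd
  have hbdsum : ∑ x ∈ X0, (bd x : ℝ) = bp y := by
    simp only [hbp, hbd]
    rw [card_filter, sum_product]
    push_cast
    refine sum_congr rfl fun x _ => ?_
    rw [card_filter]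
    push_cast
    rfl
  set X' := X0.filter (fun x => (bd x : ℝ) ≤ (X0.card : ℝ) / 4) with hX'
  have hX'card : (X0.card : ℝ) / 2 ≤ (X'.card : ℝ) := by
    set Z := X0.filter (fun x => ¬ (bd x : ℝ) ≤ (X0.card : ℝ) / 4) with hZ
    have h1 : (X'.card : ℝ) + (Z.card : ℝ) = X0.card := by
      have := card_filter_add_card_filter_not (s := X0) (fun x => (bd x : ℝ) ≤ (X0.card : ℝ) / 4)
      exact_mod_cast this
    have h2 : (Z.card : ℝ) * ((X0.card : ℝ) / 4) ≤ (X0.card : ℝ) ^ 2 / 8 := by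
      calc (Z.card : ℝ) * ((X0.card : ℝ) / 4) = ∑ x ∈ Z, ((X0.card : ℝ) / 4) := by
            rw [sum_const, nsmul_eq_mul]
        _ ≤ ∑ x ∈ Z, (bd x : ℝ) := by
            apply sum_le_sum
            intro x hx
            exact (not_le.1 (mem_filter.1 hx).2).le
        _ ≤ ∑ x ∈ X0, (bd x : ℝ) := by
            apply sum_le_sum_of_subset_of_nonneg (filter_subset _ _)
            intros; positivity
        _ = bp y := hbdsum
        _ ≤ _ := hbpy
    have h3 : (Z.card : ℝ) ≤ (X0.card : ℝ) / 2 := by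
      have h4 : (X0.card : ℝ) * (Z.card : ℝ) ≤ (X0.card : ℝ) * ((X0.card : ℝ) / 2) := by nlinarith
      exact le_of_mul_le_mul_left h4 hX0pos
    linarith
  refine ⟨X', (filter_subset _ _).trans hX0X, by linarith, ?_⟩
  intro x hx x' hx'
  have hxX0 := (mem_filter.1 hx).1
  have hx'X0 := (mem_filter.1 hx').1
  have hbx := (mem_filter.1 hx).2
  have hbx' := (mem_filter.1 hx').2
  -- good middle vertices
  set W := X0.filter (fun z => ¬ bad x z ∧ ¬ bad x' z) with hW
  have hWcard : (X0.card : ℝ) / 2 ≤ (W.card : ℝ) := by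
    have h1 : X0 ⊆ W ∪ (X0.filter (fun z => bad x z) ∪ X0.filter (fun z => bad x' z)) := by
      intro z hz
      simp only [hW, mem_union, mem_filter]
      tauto
    have h2 : (X0.card : ℝ) ≤ W.card + (bd x + bd x') := by
      have h3 := (card_le_card h1).trans ((card_union_le _ _).trans
        (add_le_add_right (card_union_le _ _) _))
      exact_mod_cast h3
    linarith
  have hWX : W ⊆ X := (filter_subset _ _).trans hX0X
  calc α ^ 5 * R ^ 3 / 1024 = (α * R / 4) * ((α ^ 2 * R / 16) * (α ^ 2 * R / 16)) := by ring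
    _ ≤ (W.card : ℝ) * ((α ^ 2 * R / 16) * (α ^ 2 * R / 16)) := by
        apply mul_le_mul_of_nonneg_right _ (by positivity)
        linarith
    _ = ∑ z ∈ W, ((α ^ 2 * R / 16) * (α ^ 2 * R / 16)) := by rw [sum_const, nsmul_eq_mul]
    _ ≤ ∑ z ∈ W, ((cd x z : ℝ) * (cd z x' : ℝ)) := by
        apply sum_le_sum
        intro z hz
        have hz' := (mem_filter.1 hz).2
        have h1 : α ^ 2 * R / 16 ≤ (cd x z : ℝ) := not_lt.1 hz'.1
        have h2 : α ^ 2 * R / 16 ≤ (cd z x' : ℝ) := by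
          rw [hcd_symm z x']
          exact not_lt.1 hz'.2
        exact mul_le_mul h1 h2 (by positivity) (by positivity)
    _ ≤ ∑ z ∈ X, ((cd x z : ℝ) * (cd z x' : ℝ)) := by
        apply sum_le_sum_of_subset_of_nonneg hWX
        intros; positivity
    _ = _ := by
        rw [card_filter, sum_product]
        simp only [sum_product]
        rw [sum_comm]
        push_cast
        refine sum_congr rfl fun z _ => ?_
        simp only [hcd]
        rw [card_filter, card_filter]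
        push_cast
        rw [sum_mul_sum]
        refine sum_congr rfl fun u _ => sum_congr rfl fun v _ => ?_
        by_cases h1 : G x u <;> by_cases h2 : G z u <;> by_cases h3 : G z v <;>
          by_cases h4 : G x' v <;> simp [h1, h2, h3, h4]

end Pool.Agent.Lib.MP_e5d0a4_an
end

section

/-!
# Many quadruples of small defect force the shifts to be affine on a large set
-/

namespace Pool.Agent.Lib.MP_e5d0a4_an

open Finset

variable {R : ℕ} {θ : ℝ} {Y : ℕ → ℝ}

/-- right cell of a pair -/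
noncomputable def rcell (t Y : ℕ → ℝ) (κ0 : ℝ) (p : ℕ × ℕ) : ℤ :=
  ⌊(Y p.2 - Y p.1) / t p.1 / κ0⌋

/-- left cell of a pair -/
noncomputable def lcell (t Y : ℕ → ℝ) (κ0 : ℝ) (p : ℕ × ℕ) : ℤ :=
  ⌊(Y p.2 - (t p.2 / t p.1) * Y p.1) / κ0⌋

/-- shifted difference of a pair -/
def lv (R : ℕ) (p : ℕ × ℕ) : ℕ := p.2 + R - p.1

lemma floor_near {x y : ℝ} {m : ℕ} (h : |x - y| ≤ m) : |⌊x⌋ - ⌊y⌋| ≤ (m : ℤ) := by
  have h1 := abs_le.1 h
  rw [abs_le]
  constructor
  · have h2 : (⌊y⌋ : ℝ) < ⌊x⌋ + 1 + m := by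
      have := Int.floor_le y
      have := Int.lt_floor_add_one x
      linarith [h1.1]
    have h3 : ⌊y⌋ < ⌊x⌋ + 1 + m := by exact_mod_cast h2
    omega
  · have h2 : (⌊x⌋ : ℝ) < ⌊y⌋ + 1 + m := by
      have := Int.floor_le x
      have := Int.lt_floor_add_one y
      linarith [h1.2]
    have h3 : ⌊x⌋ < ⌊y⌋ + 1 + m := by exact_mod_cast h2
    omega

lemma tt_ratio_le (hR : 1 ≤ R) (hθ : 0 ≤ θ) (hθ1 : θ ≤ 1) {a b : ℕ} (hb : b < R) :
    tt R θ b / tt R θ a ≤ 3 := by
  rw [div_le_iff₀ (tt_pos a)]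
  have := tt_ge_one (R := R) hR hθ a
  have := tt_le_three (R := R) hR hθ1 hb
  nlinarith

lemma right_close (hR : 1 ≤ R) (hθ : 0 ≤ θ) {κ0 : ℝ} (hκ0 : 0 < κ0) {a b a' b' : ℕ}
    (hkap : |kap (tt R θ) Y a b a' b'| < κ0) :
    |rcell (tt R θ) Y κ0 (a, a') - rcell (tt R θ) Y κ0 (b, b')| ≤ 1 := by
  unfold rcell
  have h1 : |(Y a' - Y a) / tt R θ a / κ0 - (Y b' - Y b) / tt R θ b / κ0| ≤ ((1 : ℕ) : ℝ) := by
    have hta := tt_pos (R := R) (θ := θ) a
    have htb := tt_pos (R := R) (θ := θ) b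
    have h2 : (Y a' - Y a) / tt R θ a / κ0 - (Y b' - Y b) / tt R θ b / κ0 =
        kap (tt R θ) Y a b a' b' / (tt R θ b * κ0) := by
      unfold kap
      field_simp
      ring
    rw [h2, abs_div, abs_of_pos (by positivity : 0 < tt R θ b * κ0), Nat.cast_one,
      div_le_one (by positivity)]
    have h3 := tt_ge_one (R := R) hR hθ b
    nlinarith
  exact_mod_cast floor_near h1

lemma EE_le_energy (hR : 1 ≤ R) (hθ : 0 ≤ θ) {Θ : Finset ℕ} (hΘ : Θ ⊆ range R) {κ0 : ℝ}
    (hκ0 : 0 < κ0) :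
    EE (tt R θ) Y Θ κ0 ≤ 3 * energy (Θ ×ˢ Θ) (lv R) (rcell (tt R θ) Y κ0) (fun _ => 1) := by
  have h1 := near_energy (Θ ×ˢ Θ) (lv R) (rcell (tt R θ) Y κ0) 1
  have h2 : ((2 : ℝ) * (1 : ℕ) + 1) = 3 := by norm_num
  rw [h2] at h1
  refine le_trans ?_ h1
  unfold EE
  calc ∑ a ∈ Θ, ∑ b ∈ Θ, ∑ a' ∈ Θ, ∑ b' ∈ Θ,
        (if b + a' = b' + a ∧ |kap (tt R θ) Y a b a' b'| < κ0 then (1 : ℝ) else 0)
      = ∑ a ∈ Θ, ∑ a' ∈ Θ, ∑ b ∈ Θ, ∑ b' ∈ Θ,
        (if b + a' = b' + a ∧ |kap (tt R θ) Y a b a' b'| < κ0 then (1 : ℝ) else 0) :=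
        sum_congr rfl fun a _ => sum_comm
    _ ≤ _ := by
        simp only [sum_product]
        refine sum_le_sum fun a ha => sum_le_sum fun a' ha' => sum_le_sum fun b hb =>
          sum_le_sum fun b' hb' => ?_
        have haR := mem_range.1 (hΘ ha)
        have hbR := mem_range.1 (hΘ hb)
        by_cases h : b + a' = b' + a ∧ |kap (tt R θ) Y a b a' b'| < κ0
        · rw [if_pos h, if_pos]
          refine ⟨?_, ?_⟩
          · unfold lv
            simp only
            omega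
          · exact_mod_cast right_close hR hθ hκ0 h.2
        · rw [if_neg h]
          split_ifs <;> norm_num

/-- number of pairs with the same key -/
noncomputable def nn (R : ℕ) (S : Finset (ℕ × ℕ)) (c : ℕ × ℕ → ℤ) (p : ℕ × ℕ) : ℕ :=
  (S.filter (fun q => lv R q = lv R p ∧ c q = c p)).card

lemma energy_eq_nn (S : Finset (ℕ × ℕ)) (c : ℕ × ℕ → ℤ) :
    energy S (lv R) c (fun _ => 1) = ∑ p ∈ S, (nn R S c p : ℝ) := by
  unfold energy nn
  refine sum_congr rfl fun p _ => ?_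
  rw [card_filter]
  push_cast
  refine sum_congr rfl fun q _ => ?_
  have h : (lv R p = lv R q ∧ c p = c q) ↔ (lv R q = lv R p ∧ c q = c p) := by
    constructor <;> rintro ⟨a, b⟩ <;> exact ⟨a.symm, b.symm⟩
  by_cases h' : lv R p = lv R q ∧ c p = c q
  · rw [if_pos h', if_pos (h.1 h'), mul_one]
  · rw [if_neg h', if_neg (fun h'' => h' (h.2 h''))]

/-- pairs with a given difference -/
lemma card_lv_le {X : Finset ℕ} (hX : X ⊆ range R) (l : ℕ) :
    ((X ×ˢ X).filter (fun q => lv R q = l)).card ≤ X.card := by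
  apply card_le_card_of_injOn (fun q => q.1)
  · intro q hq
    have := (mem_filter.1 hq).1
    exact (mem_product.1 this).1
  · intro q hq q' hq' h
    rw [mem_coe, mem_filter, mem_product] at hq hq'
    have h1 := mem_range.1 (hX hq.1.1)
    have h2 := mem_range.1 (hX hq'.1.1)
    have h3 := hq.2.trans hq'.2.symm
    unfold lv at h3
    simp only at h
    ext
    · exact h
    · omega

lemma nn_le {X : Finset ℕ} (hX : X ⊆ range R) (c : ℕ × ℕ → ℤ) (p : ℕ × ℕ) :
    nn R (X ×ˢ X) c p ≤ X.card := by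
  refine le_trans ?_ (card_lv_le hX (lv R p))
  unfold nn
  apply card_le_card
  intro q hq
  rw [mem_filter] at hq ⊢
  exact ⟨hq.1, hq.2.1⟩

lemma card_le_R {Θ : Finset ℕ} (hΘ : Θ ⊆ range R) : (Θ.card : ℝ) ≤ R := by
  have := card_le_card hΘ
  rw [card_range] at this
  exact_mod_cast this

/-- popular pairs are numerous -/
lemma popular_card (hR : 1 ≤ R) {Θ : Finset ℕ} (hΘ : Θ ⊆ range R) (c : ℕ × ℕ → ℤ) {K : ℝ}
    (hK : 1 ≤ K) (hE : (R : ℝ) ^ 3 / K ≤ 3 * energy (Θ ×ˢ Θ) (lv R) c (fun _ => 1)) :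
    (R : ℝ) ^ 2 / (6 * K) ≤
      (((Θ ×ˢ Θ).filter (fun p => (R : ℝ) / (6 * K) ≤ nn R (Θ ×ˢ Θ) c p)).card : ℝ) := by
  have hRpos : (0 : ℝ) < R := by exact_mod_cast (by omega : 0 < R)
  have hKpos : 0 < K := by linarith
  have hc := card_le_R hΘ
  rw [energy_eq_nn] at hE
  set P := (Θ ×ˢ Θ).filter (fun p => (R : ℝ) / (6 * K) ≤ nn R (Θ ×ˢ Θ) c p) with hP
  set P' := (Θ ×ˢ Θ).filter (fun p => ¬ (R : ℝ) / (6 * K) ≤ nn R (Θ ×ˢ Θ) c p) with hP'
  have h1 : ∑ p ∈ Θ ×ˢ Θ, (nn R (Θ ×ˢ Θ) c p : ℝ) = ∑ p ∈ P, (nn R (Θ ×ˢ Θ) c p : ℝ) +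
      ∑ p ∈ P', (nn R (Θ ×ˢ Θ) c p : ℝ) := by
    rw [hP, hP', sum_filter_add_sum_filter_not]
  have h2 : ∑ p ∈ P', (nn R (Θ ×ˢ Θ) c p : ℝ) ≤ (R * R) * (R / (6 * K)) := by
    calc ∑ p ∈ P', (nn R (Θ ×ˢ Θ) c p : ℝ) ≤ ∑ p ∈ P', (R : ℝ) / (6 * K) :=
          sum_le_sum fun p hp => (not_le.1 (mem_filter.1 hp).2).le
      _ = (P'.card : ℝ) * (R / (6 * K)) := by rw [sum_const, nsmul_eq_mul]
      _ ≤ (R * R) * (R / (6 * K)) := by
          apply mul_le_mul_of_nonneg_right _ (by positivity)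
          calc (P'.card : ℝ) ≤ ((Θ ×ˢ Θ).card : ℝ) := by exact_mod_cast card_filter_le _ _
            _ = (Θ.card : ℝ) * Θ.card := by rw [card_product]; push_cast; ring
            _ ≤ R * R := mul_le_mul hc hc (by positivity) hRpos.le
  have h3 : ∑ p ∈ P, (nn R (Θ ×ˢ Θ) c p : ℝ) ≤ (P.card : ℝ) * R := by
    calc ∑ p ∈ P, (nn R (Θ ×ˢ Θ) c p : ℝ) ≤ ∑ p ∈ P, (R : ℝ) := by
          refine sum_le_sum fun p _ => ?_
          have : ((nn R (Θ ×ˢ Θ) c p : ℕ) : ℝ) ≤ Θ.card := by exact_mod_cast nn_le hΘ c p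
          linarith
      _ = (P.card : ℝ) * R := by rw [sum_const, nsmul_eq_mul]
  have h4 : (R : ℝ) ^ 3 / K = 6 * ((R * R) * (R / (6 * K))) := by
    field_simp
  have h5 : ((R : ℝ) ^ 2 / (6 * K)) * R ≤ (P.card : ℝ) * R := by
    have h6 : ((R : ℝ) ^ 2 / (6 * K)) * R = (R * R) * (R / (6 * K)) := by ring
    rw [h6]
    linarith
  exact le_of_mul_le_mul_right h5 hRpos

/-- cells of popular pairs with given difference -/
noncomputable def Pop (R : ℕ) (Θ : Finset ℕ) (c : ℕ × ℕ → ℤ) (K : ℝ) (l : ℕ) : Finset ℤ :=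
  ((Θ ×ˢ Θ).filter (fun p => lv R p = l ∧ (R : ℝ) / (6 * K) ≤ nn R (Θ ×ˢ Θ) c p)).image c

lemma Pop_card (hR : 1 ≤ R) {Θ : Finset ℕ} (hΘ : Θ ⊆ range R) (c : ℕ × ℕ → ℤ) {K : ℝ}
    (hK : 1 ≤ K) (l : ℕ) : ((Pop R Θ c K l).card : ℝ) ≤ 6 * K := by
  have hRpos : (0 : ℝ) < R := by exact_mod_cast (by omega : 0 < R)
  have hKpos : 0 < K := by linarith
  have hc := card_le_R hΘ
  have h1 : ∀ z ∈ Pop R Θ c K l, (R : ℝ) / (6 * K) ≤
      (((Θ ×ˢ Θ).filter (fun q => lv R q = l ∧ c q = z)).card : ℝ) := by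
    intro z hz
    unfold Pop at hz
    obtain ⟨p, hp, rfl⟩ := mem_image.1 hz
    rw [mem_filter] at hp
    have := hp.2.2
    unfold nn at this
    rw [hp.2.1] at this
    exact this
  have h2 : ∑ z ∈ Pop R Θ c K l, (((Θ ×ˢ Θ).filter (fun q => lv R q = l ∧ c q = z)).card : ℝ) ≤
      (((Θ ×ˢ Θ).filter (fun q => lv R q = l)).card : ℝ) := by
    have h3 : ((Pop R Θ c K l).biUnion
        (fun z => (Θ ×ˢ Θ).filter (fun q => lv R q = l ∧ c q = z))).card =
        ∑ z ∈ Pop R Θ c K l, ((Θ ×ˢ Θ).filter (fun q => lv R q = l ∧ c q = z)).card := by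
      apply card_biUnion
      intro z _ z' _ hne
      rw [Function.onFun, disjoint_left]
      intro q hq hq'
      rw [mem_filter] at hq hq'
      exact hne (hq.2.2.symm.trans hq'.2.2)
    have h4 : ((Pop R Θ c K l).biUnion
        (fun z => (Θ ×ˢ Θ).filter (fun q => lv R q = l ∧ c q = z))).card ≤
        ((Θ ×ˢ Θ).filter (fun q => lv R q = l)).card := by
      apply card_le_card
      intro q hq
      rw [mem_biUnion] at hq
      obtain ⟨z, _, hq⟩ := hq
      rw [mem_filter] at hq ⊢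
      exact ⟨hq.1, hq.2.1⟩
    rw [h3] at h4
    exact_mod_cast h4
  have h5 : ((Pop R Θ c K l).card : ℝ) * (R / (6 * K)) ≤ R := by
    calc ((Pop R Θ c K l).card : ℝ) * (R / (6 * K)) = ∑ z ∈ Pop R Θ c K l, (R : ℝ) / (6 * K) := by
          rw [sum_const, nsmul_eq_mul]
      _ ≤ _ := sum_le_sum h1
      _ ≤ _ := h2
      _ ≤ (Θ.card : ℝ) := by exact_mod_cast card_lv_le hΘ l
      _ ≤ R := hc
  rw [← le_div_iff₀ (by positivity)] at h5
  refine h5.trans (le_of_eq ?_)
  field_simp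

/-- the cell of a pair is determined up to `O(1)` by the cells along a path of length four -/
lemma chain_cell (hR : 1 ≤ R) (hθ : 0 ≤ θ) (hθ1 : θ ≤ 1) {κ0 : ℝ} (hκ0 : 0 < κ0)
    {x x' x'' y y' : ℕ} (hx' : x' < R) (hx'' : x'' < R) :
    |(rcell (tt R θ) Y κ0 (x, x') : ℝ) - (rcell (tt R θ) Y κ0 (x, y) -
      (tt R θ x'' / tt R θ x) * rcell (tt R θ) Y κ0 (x'', y) +
      (tt R θ x'' / tt R θ x) * rcell (tt R θ) Y κ0 (x'', y') -
      (tt R θ x' / tt R θ x) * rcell (tt R θ) Y κ0 (x', y'))| ≤ 7 := by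
  have hq2 := tt_ratio_le (a := x) hR hθ hθ1 hx''
  have hq1 := tt_ratio_le (a := x) hR hθ hθ1 hx'
  have hq2' : 0 < tt R θ x'' / tt R θ x := div_pos (tt_pos _) (tt_pos _)
  have hq1' : 0 < tt R θ x' / tt R θ x := div_pos (tt_pos _) (tt_pos _)
  have e0 : (Y x' - Y x) / tt R θ x / κ0 = (Y y - Y x) / tt R θ x / κ0 -
      (tt R θ x'' / tt R θ x) * ((Y y - Y x'') / tt R θ x'' / κ0) +
      (tt R θ x'' / tt R θ x) * ((Y y' - Y x'') / tt R θ x'' / κ0) -
      (tt R θ x' / tt R θ x) * ((Y y' - Y x') / tt R θ x' / κ0) := by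
    have h1 := tt_pos (R := R) (θ := θ) x
    have h2 := tt_pos (R := R) (θ := θ) x'
    have h3 := tt_pos (R := R) (θ := θ) x''
    field_simp
    ring
  unfold rcell
  simp only
  set A0 := (Y x' - Y x) / tt R θ x / κ0
  set A1 := (Y y - Y x) / tt R θ x / κ0
  set A2 := (Y y - Y x'') / tt R θ x'' / κ0
  set A3 := (Y y' - Y x'') / tt R θ x'' / κ0
  set A4 := (Y y' - Y x') / tt R θ x' / κ0
  set q2 := tt R θ x'' / tt R θ x
  set q1 := tt R θ x' / tt R θ x
  have a0 := Int.floor_le A0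
  have b0 := (Int.lt_floor_add_one A0).le
  have a1 := Int.floor_le A1
  have b1 := (Int.lt_floor_add_one A1).le
  have a2 := mul_le_mul_of_nonneg_left (Int.floor_le A2) hq2'.le
  have b2 := mul_le_mul_of_nonneg_left (Int.lt_floor_add_one A2).le hq2'.le
  have a3 := mul_le_mul_of_nonneg_left (Int.floor_le A3) hq2'.le
  have b3 := mul_le_mul_of_nonneg_left (Int.lt_floor_add_one A3).le hq2'.le
  have a4 := mul_le_mul_of_nonneg_left (Int.floor_le A4) hq1'.le
  have b4 := mul_le_mul_of_nonneg_left (Int.lt_floor_add_one A4).le hq1'.le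
  rw [abs_le]
  constructor <;> nlinarith

/-- cells of pairs of `X'` with given difference -/
noncomputable def Vl (R : ℕ) (X' : Finset ℕ) (c : ℕ × ℕ → ℤ) (l : ℕ) : Finset ℤ :=
  ((X' ×ˢ X').filter (fun p => lv R p = l)).image c

lemma Vl_card (hR : 1 ≤ R) (hθ : 0 ≤ θ) (hθ1 : θ ≤ 1) {Θ X' : Finset ℕ} (hΘ : Θ ⊆ range R)
    (hX' : X' ⊆ Θ) {κ0 : ℝ} (hκ0 : 0 < κ0) {K P0 : ℝ} (hK : 1 ≤ K) (G : ℕ → ℕ → Prop)
    [DecidableRel G]
    (hG : ∀ j ∈ Θ, ∀ j' ∈ Θ, G j j' → (R : ℝ) / (6 * K) ≤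
      nn R (Θ ×ˢ Θ) (rcell (tt R θ) Y κ0) (j, j'))
    (hpath : ∀ x ∈ X', ∀ x' ∈ X', P0 ≤ (((Θ ×ˢ Θ ×ˢ Θ).filter
          (fun p => G x p.1 ∧ G p.2.1 p.1 ∧ G p.2.1 p.2.2 ∧ G x' p.2.2)).card : ℝ)) (l : ℕ) :
    ((Vl R X' (rcell (tt R θ) Y κ0) l).card : ℝ) * P0 ≤ 15 * ((2 * R) ^ 3 * (6 * K) ^ 4) := by
  classical
  set c := rcell (tt R θ) Y κ0 with hc
  have hRpos : (0 : ℝ) < R := by exact_mod_cast (by omega : 0 < R)
  set V := Vl R X' c l with hV
  have hrep : ∀ v : ℤ, ∃ p : ℕ × ℕ, v ∈ V → (p.1 ∈ X' ∧ p.2 ∈ X' ∧ lv R p = l ∧ c p = v) := by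
    intro v
    by_cases hv : v ∈ V
    · rw [hV] at hv
      unfold Vl at hv
      obtain ⟨p, hp, rfl⟩ := mem_image.1 hv
      rw [mem_filter, mem_product] at hp
      exact ⟨p, fun _ => ⟨hp.1.1, hp.1.2, hp.2, rfl⟩⟩
    · exact ⟨(0, 0), fun h => absurd h hv⟩
  choose rep hrep using hrep
  set Ω : Finset (ℤ × ℕ × ℕ × ℕ) := (V ×ˢ (Θ ×ˢ Θ ×ˢ Θ)).filter
    (fun ω => G (rep ω.1).1 ω.2.1 ∧ G ω.2.2.1 ω.2.1 ∧ G ω.2.2.1 ω.2.2.2 ∧
      G (rep ω.1).2 ω.2.2.2) with hΩ
  have hΩcard : (V.card : ℝ) * P0 ≤ (Ω.card : ℝ) := by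
    have h1 : Ω.card = ∑ v ∈ V, ((Θ ×ˢ Θ ×ˢ Θ).filter
          (fun p => G (rep v).1 p.1 ∧ G p.2.1 p.1 ∧ G p.2.1 p.2.2 ∧ G (rep v).2 p.2.2)).card := by
      rw [hΩ, card_filter, sum_product]
      refine sum_congr rfl fun v _ => ?_
      rw [card_filter]
    rw [h1]
    push_cast
    calc (V.card : ℝ) * P0 = ∑ v ∈ V, P0 := by rw [sum_const, nsmul_eq_mul]
      _ ≤ _ := by
          refine sum_le_sum fun v hv => ?_
          exact hpath _ (hrep v hv).1 _ (hrep v hv).2.1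
  set f : ℤ × ℕ × ℕ × ℕ → (_ : ℕ × ℕ × ℕ) × (ℤ × ℤ × ℤ × ℤ) := fun ω =>
    ⟨(lv R ((rep ω.1).1, ω.2.1), lv R (ω.2.2.1, ω.2.1), lv R (ω.2.2.1, ω.2.2.2)),
      (c ((rep ω.1).1, ω.2.1), c (ω.2.2.1, ω.2.1), c (ω.2.2.1, ω.2.2.2),
        c ((rep ω.1).2, ω.2.2.2))⟩ with hf
  set T : Finset ((_ : ℕ × ℕ × ℕ) × (ℤ × ℤ × ℤ × ℤ)) :=
    (range (2 * R) ×ˢ range (2 * R) ×ˢ range (2 * R)).sigma (fun L =>
      Pop R Θ c K L.1 ×ˢ Pop R Θ c K L.2.1 ×ˢ Pop R Θ c K L.2.2 ×ˢ
        Pop R Θ c K (L.2.2 + L.1 + R - L.2.1 - l)) with hT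
  have hPopmem : ∀ j ∈ Θ, ∀ j' ∈ Θ, G j j' → ∀ m : ℕ, lv R (j, j') = m →
      c (j, j') ∈ Pop R Θ c K m := by
    intro j hj j' hj' hg m hm
    unfold Pop
    apply mem_image_of_mem
    rw [mem_filter, mem_product]
    exact ⟨⟨hj, hj'⟩, hm, hG j hj j' hj' hg⟩
  have hfT : ∀ ω ∈ Ω, f ω ∈ T := by
    rintro ⟨v, y, x'', y'⟩ hω
    rw [hΩ, mem_filter, mem_product, mem_product, mem_product] at hω
    simp only at hω
    obtain ⟨⟨hv, hy, hx'', hy'⟩, g1, g2, g3, g4⟩ := hω
    obtain ⟨r1, r2, r3, r4⟩ := hrep v hv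
    set x := (rep v).1 with hx
    set x' := (rep v).2 with hx'
    have hxR := mem_range.1 (hΘ (hX' r1))
    have hx'R := mem_range.1 (hΘ (hX' r2))
    have hyR := mem_range.1 (hΘ hy)
    have hx''R := mem_range.1 (hΘ hx'')
    have hy'R := mem_range.1 (hΘ hy')
    rw [hT, mem_sigma, mem_product, mem_product, mem_product, mem_product, mem_product]
    simp only [hf]
    have r3' : x' + R - x = l := r3
    refine ⟨⟨?_, ?_, ?_⟩, ?_, ?_, ?_, ?_⟩
    · rw [mem_range]; unfold lv; simp only; omega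
    · rw [mem_range]; unfold lv; simp only; omega
    · rw [mem_range]; unfold lv; simp only; omega
    · exact hPopmem _ (hX' r1) _ hy g1 _ rfl
    · exact hPopmem _ hx'' _ hy g2 _ rfl
    · exact hPopmem _ hx'' _ hy' g3 _ rfl
    · apply hPopmem _ (hX' r2) _ hy' g4
      unfold lv
      simp only
      omega
  have hfib : ∀ τ ∈ Ω.image f, (Ω.filter (fun ω => f ω = τ)).card ≤ 15 := by
    intro τ hτ
    obtain ⟨ω0, hω0, hτ0⟩ := mem_image.1 hτ
    -- facts about the elements of the fibre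
    obtain ⟨v0, y0, x0'', y0'⟩ := ω0
    rw [hΩ, mem_filter, mem_product, mem_product, mem_product] at hω0
    simp only at hω0
    obtain ⟨⟨hv0, hy0, hx0'', hy0'⟩, -, -, -, -⟩ := hω0
    obtain ⟨s1, s2, s3, s4⟩ := hrep v0 hv0
    have hx0R := mem_range.1 (hΘ (hX' s1))
    have hx0'R := mem_range.1 (hΘ (hX' s2))
    have hy0R := mem_range.1 (hΘ hy0)
    have hx0''R := mem_range.1 (hΘ hx0'')
    have hy0'R := mem_range.1 (hΘ hy0')
    set q2 := tt R θ x0'' / tt R θ (rep v0).1 with hq2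
    set q1 := tt R θ (rep v0).2 / tt R θ (rep v0).1 with hq1
    have hkey : ∀ ω ∈ Ω.filter (fun ω => f ω = τ),
        (lv R ((rep ω.1).1, ω.2.1) = lv R ((rep v0).1, y0) ∧
        lv R (ω.2.2.1, ω.2.1) = lv R (x0'', y0) ∧
        lv R (ω.2.2.1, ω.2.2.2) = lv R (x0'', y0')) ∧
        |((ω.1 : ℤ) : ℝ) - (c ((rep v0).1, y0) - q2 * c (x0'', y0) + q2 * c (x0'', y0') -
          q1 * c ((rep v0).2, y0'))| ≤ 7 := by
      rintro ⟨v, y, x'', y'⟩ hω
      rw [mem_filter] at hω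
      obtain ⟨hω, hfω⟩ := hω
      rw [← hτ0] at hfω
      rw [hΩ, mem_filter, mem_product, mem_product, mem_product] at hω
      simp only at hω
      obtain ⟨⟨hv, hy, hx'', hy'⟩, -, -, -, -⟩ := hω
      obtain ⟨r1, r2, r3, r4⟩ := hrep v hv
      have hxR := mem_range.1 (hΘ (hX' r1))
      have hx'R := mem_range.1 (hΘ (hX' r2))
      have hyR := mem_range.1 (hΘ hy)
      have hx''R := mem_range.1 (hΘ hx'')
      have hy'R := mem_range.1 (hΘ hy')
      simp only [hf, Sigma.mk.injEq, Prod.mk.injEq, heq_eq_eq] at hfω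
      obtain ⟨⟨l1, l2, l3⟩, c1, c2, c3, c4⟩ := hfω
      refine ⟨⟨l1, l2, l3⟩, ?_⟩
      simp only
      rw [← c1, ← c2, ← c3, ← c4]
      have hl := r3.trans s3.symm
      unfold lv at l1 l2 l3 hl
      simp only at l1 l2 l3 hl
      have hq2' : q2 = tt R θ x'' / tt R θ (rep v).1 := by
        rw [hq2]
        apply tt_ratio
        omega
      have hq1' : q1 = tt R θ (rep v).2 / tt R θ (rep v).1 := by
        rw [hq1]
        apply tt_ratio
        omega
      rw [hq2', hq1']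
      have h := chain_cell (Y := Y) hR hθ hθ1 hκ0 (x := (rep v).1) (x' := (rep v).2)
        (x'' := x'') (y := y) (y' := y') hx'R hx''R
      rw [← hc] at h
      have hv4 : c ((rep v).1, (rep v).2) = v := r4
      rw [hv4] at h
      exact h
    have hinj : Set.InjOn (fun ω : ℤ × ℕ × ℕ × ℕ => ω.1)
        (Ω.filter (fun ω => f ω = τ) : Set (ℤ × ℕ × ℕ × ℕ)) := by
      intro ω hω ω' hω' h
      have hk := (hkey ω (mem_coe.1 hω)).1
      have hk' := (hkey ω' (mem_coe.1 hω')).1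
      rw [mem_coe, mem_filter, hΩ, mem_filter, mem_product, mem_product, mem_product] at hω hω'
      obtain ⟨⟨⟨hv, hy, hx'', hy'⟩, -⟩, -⟩ := hω
      obtain ⟨⟨⟨hv2, hy2, hx2'', hy2'⟩, -⟩, -⟩ := hω'
      obtain ⟨v, y, x'', y'⟩ := ω
      obtain ⟨v2, y2, x2'', y2'⟩ := ω'
      simp only at h hk hk' hv hy hx'' hy' hv2 hy2 hx2'' hy2'
      subst h
      have hxR := mem_range.1 (hΘ (hX' (hrep v hv).1))
      have hyR := mem_range.1 (hΘ hy)
      have hx''R := mem_range.1 (hΘ hx'')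
      have hy'R := mem_range.1 (hΘ hy')
      have hy2R := mem_range.1 (hΘ hy2)
      have hx2''R := mem_range.1 (hΘ hx2'')
      have hy2'R := mem_range.1 (hΘ hy2')
      unfold lv at hk hk'
      simp only at hk hk'
      obtain ⟨e1, e2, e3⟩ := hk
      obtain ⟨f1, f2, f3⟩ := hk'
      have g1 : y = y2 := by omega
      have g2 : x'' = x2'' := by omega
      have g3 : y' = y2' := by omega
      rw [g1, g2, g3]
    rw [← card_image_of_injOn hinj]
    have h15 := card_le_of_abs_int (S := (Ω.filter (fun ω => f ω = τ)).image (fun ω => ω.1))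
      (c := c ((rep v0).1, y0) - q2 * c (x0'', y0) + q2 * c (x0'', y0') -
          q1 * c ((rep v0).2, y0')) (ρ := 7) (by norm_num) (by
        intro a ha
        obtain ⟨ω, hω, rfl⟩ := mem_image.1 ha
        exact (hkey ω hω).2)
    have h16 : (2 : ℝ) * 7 + 1 = (15 : ℕ) := by norm_num
    rw [h16] at h15
    exact_mod_cast h15
  have hTcard : (T.card : ℝ) ≤ (2 * R) ^ 3 * (6 * K) ^ 4 := by
    rw [hT, card_sigma]
    push_cast
    calc ∑ L ∈ range (2 * R) ×ˢ range (2 * R) ×ˢ range (2 * R),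
          (((Pop R Θ c K L.1 ×ˢ Pop R Θ c K L.2.1 ×ˢ Pop R Θ c K L.2.2 ×ˢ
        Pop R Θ c K (L.2.2 + L.1 + R - L.2.1 - l)).card : ℕ) : ℝ)
        ≤ ∑ L ∈ range (2 * R) ×ˢ range (2 * R) ×ˢ range (2 * R), ((6 * K) ^ 4 : ℝ) := by
          refine sum_le_sum fun L _ => ?_
          rw [card_product, card_product, card_product]
          push_cast
          have h1 := Pop_card hR hΘ c hK L.1
          have h2 := Pop_card hR hΘ c hK L.2.1
          have h3 := Pop_card hR hΘ c hK L.2.2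
          have h4 := Pop_card hR hΘ c hK (L.2.2 + L.1 + R - L.2.1 - l)
          have h0 : (0 : ℝ) ≤ 6 * K := by linarith
          calc _ ≤ (6 * K) * ((6 * K) * ((6 * K) * (6 * K))) := by
                apply mul_le_mul h1 _ (by positivity) h0
                apply mul_le_mul h2 _ (by positivity) h0
                exact mul_le_mul h3 h4 (by positivity) h0
            _ = (6 * K) ^ 4 := by ring
      _ = (2 * R) ^ 3 * (6 * K) ^ 4 := by
          rw [sum_const, nsmul_eq_mul, card_product, card_product, card_range]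
          push_cast
          ring
  have h1 : Ω.card ≤ 15 * (Ω.image f).card := card_le_mul_card_image Ω 15 hfib
  have h2 : (Ω.image f).card ≤ T.card := by
    apply card_le_card
    intro τ hτ
    obtain ⟨ω, hω, rfl⟩ := mem_image.1 hτ
    exact hfT ω hω
  have h3 : (Ω.card : ℝ) ≤ 15 * (T.card : ℝ) := by exact_mod_cast h1.trans (by omega)
  calc (V.card : ℝ) * P0 ≤ (Ω.card : ℝ) := hΩcard
    _ ≤ 15 * (T.card : ℝ) := h3
    _ ≤ 15 * ((2 * R) ^ 3 * (6 * K) ^ 4) := by linarith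

/-- equality of right cells gives closeness of left cells -/
lemma left_close (hR : 1 ≤ R) (hθ1 : θ ≤ 1) {κ0 : ℝ} (hκ0 : 0 < κ0)
    {a b a' b' : ℕ} (hb : b < R) (hl : b + a' = b' + a)
    (h : rcell (tt R θ) Y κ0 (a, a') = rcell (tt R θ) Y κ0 (b, b')) :
    |lcell (tt R θ) Y κ0 (a, b) - lcell (tt R θ) Y κ0 (a', b')| ≤ 3 := by
  have h1 := Int.abs_sub_lt_one_of_floor_eq_floor h
  simp only at h1
  have hta := tt_pos (R := R) (θ := θ) a
  have htb := tt_pos (R := R) (θ := θ) b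
  have h3 := tt_le_three (R := R) hR hθ1 hb
  unfold lcell
  simp only
  have hq := tt_ratio (R := R) (θ := θ) hl
  rw [← hq]
  have h2 : |(Y b - tt R θ b / tt R θ a * Y a) / κ0 - (Y b' - tt R θ b / tt R θ a * Y a') / κ0| ≤
      ((3 : ℕ) : ℝ) := by
    have h4 : (Y b - tt R θ b / tt R θ a * Y a) / κ0 - (Y b' - tt R θ b / tt R θ a * Y a') / κ0 =
        tt R θ b * ((Y a' - Y a) / tt R θ a / κ0 - (Y b' - Y b) / tt R θ b / κ0) := by
      field_simp
      ring
    rw [h4, abs_mul, abs_of_pos htb]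
    calc tt R θ b * |(Y a' - Y a) / tt R θ a / κ0 - (Y b' - Y b) / tt R θ b / κ0| ≤ 3 * 1 :=
          mul_le_mul h3 h1.le (abs_nonneg _) (by norm_num)
      _ = ((3 : ℕ) : ℝ) := by norm_num
  exact_mod_cast floor_near h2

/-- ratio far from one -/
lemma ratio_far (hR : 1 ≤ R) (hθ : 0 ≤ θ) (hθ1 : θ ≤ 1) {η : ℝ} {x y : ℕ} (hx : x < R)
    (h : η * R < |(y : ℝ) - x|) : η / 3 ≤ |tt R θ y / tt R θ x - 1| := by
  have hRpos : (0 : ℝ) < R := by exact_mod_cast (by omega : 0 < R)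
  have htx := tt_pos (R := R) (θ := θ) x
  have hx3 := tt_le_three (R := R) hR hθ1 hx
  have h1 : |(y : ℝ) - x| / R ≤ |tt R θ y - tt R θ x| := by
    rcases le_total x y with hxy | hxy
    · have h2 := tt_sep (R := R) (θ := θ) hR hθ hxy
      have h3 : (x : ℝ) ≤ y := by exact_mod_cast hxy
      rw [abs_of_nonneg (by linarith)]
      exact h2.trans (le_abs_self _)
    · have h2 := tt_sep (R := R) (θ := θ) hR hθ hxy
      have h3 : (y : ℝ) ≤ x := by exact_mod_cast hxy
      rw [abs_sub_comm, abs_of_nonneg (by linarith), abs_sub_comm]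
      exact h2.trans (le_abs_self _)
  have h2 : η < |(y : ℝ) - x| / R := by rwa [lt_div_iff₀ hRpos]
  have h3 : tt R θ y / tt R θ x - 1 = (tt R θ y - tt R θ x) / tt R θ x := by
    field_simp
  rw [h3, abs_div, abs_of_pos htx, div_le_div_iff₀ (by norm_num) htx]
  have h4 : η ≤ |tt R θ y - tt R θ x| := by linarith
  rcases le_total η 0 with h0 | h0
  · have : 0 ≤ |tt R θ y - tt R θ x| := abs_nonneg _
    nlinarith
  · nlinarith

/-- number of pairs with small difference -/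
lemma card_small_diff {X : Finset ℕ} {D : ℝ} (hD : 0 ≤ D) :
    (((X ×ˢ X).filter (fun p => |(p.2 : ℝ) - p.1| ≤ D)).card : ℝ) ≤ X.card * (2 * D + 1) := by
  rw [card_filter, sum_product]
  push_cast
  calc ∑ x ∈ X, ∑ y ∈ X, (if |(y : ℝ) - x| ≤ D then (1 : ℝ) else 0)
      ≤ ∑ x ∈ X, (2 * D + 1) := by
        refine sum_le_sum fun x _ => ?_
        have h := card_le_of_abs (S := X.filter (fun y : ℕ => |(y : ℝ) - x| ≤ D)) (c := x) hD
          (fun a ha => (mem_filter.1 ha).2)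
        rw [card_filter] at h
        push_cast at h
        exact h
    _ = X.card * (2 * D + 1) := by rw [sum_const, nsmul_eq_mul]

/-- the constant of step two -/
noncomputable def K2 (K : ℝ) : ℝ := 122880 * (6 * K) ^ 9

/-- **Step 2.** -/
theorem step_two (hR : 1 ≤ R) (hθ : 0 ≤ θ) (hθ1 : θ ≤ 1) {Θ : Finset ℕ} (hΘ : Θ ⊆ range R)
    {K κ0 : ℝ} (hK : 1 ≤ K) (hκ0 : 0 < κ0) (hbig : 41472 * K ^ 2 * K2 K ≤ R)
    (hE : (R : ℝ) ^ 3 / K ≤ EE (tt R θ) Y Θ κ0) :
    ∃ L ⊆ Θ, (R : ℝ) / (20736 * K ^ 2 * K2 K ^ 2) ≤ (L.card : ℝ) ∧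
      ∃ c b : ℝ, ∀ x ∈ L, |Y x - c * tt R θ x - b| ≤ 746496 * K ^ 2 * K2 K * κ0 := by
  classical
  have hRpos : (0 : ℝ) < R := by exact_mod_cast (by omega : 0 < R)
  have hKpos : 0 < K := by linarith
  have hK2pos : 0 < K2 K := by unfold K2; positivity
  set rc := rcell (tt R θ) Y κ0 with hrc
  set lc := lcell (tt R θ) Y κ0 with hlc
  -- popular pairs and the graph lemma
  have hE' := hE.trans (EE_le_energy (Y := Y) hR hθ hΘ hκ0)
  have hpop := popular_card hR hΘ rc hK hE'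
  set G : ℕ → ℕ → Prop := fun j j' => (R : ℝ) / (6 * K) ≤ nn R (Θ ×ˢ Θ) rc (j, j') with hG
  obtain ⟨X', hX'Θ, hX'card, hpath⟩ := graph_lemma Θ G R (1 / (6 * K)) hRpos (by positivity)
    (card_le_R hΘ) (by
      have h1 : 1 / (6 * K) * (R : ℝ) ^ 2 = (R : ℝ) ^ 2 / (6 * K) := by ring
      rw [h1]
      exact hpop)
  have hX'R : X' ⊆ range R := hX'Θ.trans hΘ
  set N : ℝ := (X'.card : ℝ) with hN
  have hNlow : (R : ℝ) / (24 * K) ≤ N := by
    refine le_trans (le_of_eq ?_) hX'card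
    field_simp
    ring
  have hNpos : 0 < N := lt_of_lt_of_le (by positivity) hNlow
  have hNR : N ≤ R := card_le_R hX'R
  -- few right cells
  have hV : ∀ l, ((Vl R X' rc l).card : ℝ) ≤ K2 K := by
    intro l
    have h1 := Vl_card (Y := Y) hR hθ hθ1 hΘ hX'Θ hκ0 hK G (fun j _ j' _ h => h) hpath l
    have h2 : 15 * ((2 * (R : ℝ)) ^ 3 * (6 * K) ^ 4) =
        K2 K * ((1 / (6 * K)) ^ 5 * (R : ℝ) ^ 3 / 1024) := by
      unfold K2
      field_simp
      ring
    rw [h2] at h1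
    exact le_of_mul_le_mul_right h1 (by positivity)
  -- right energy
  have hER : N ^ 4 / (2 * R * K2 K) ≤ energy (X' ×ˢ X') (lv R) rc (fun _ => 1) := by
    have h1 := cs_key (X' ×ˢ X') (fun p => (lv R p, rc p))
      ((range (2 * R)).sigma (fun l => Vl R X' rc l) |>.image (fun τ => (τ.1, τ.2))) (by
        intro p hp
        have hp' := mem_product.1 hp
        have h2 := mem_range.1 (hX'R hp'.1)
        have h3 := mem_range.1 (hX'R hp'.2)
        refine mem_image.2 ⟨⟨lv R p, rc p⟩, ?_, rfl⟩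
        rw [mem_sigma]
        constructor
        · rw [mem_range]
          unfold lv
          simp only
          omega
        · unfold Vl
          exact mem_image_of_mem _ (mem_filter.2 ⟨hp, rfl⟩)) (fun _ => (1 : ℝ))
    have h2 : (((range (2 * R)).sigma (fun l => Vl R X' rc l) |>.image
        (fun τ => (τ.1, τ.2))).card : ℝ) ≤ 2 * R * K2 K := by
      have h3 : (((range (2 * R)).sigma (fun l => Vl R X' rc l) |>.image
        (fun τ => (τ.1, τ.2))).card : ℝ) ≤ (((range (2 * R)).sigma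
          (fun l => Vl R X' rc l)).card : ℝ) := by exact_mod_cast card_image_le
      refine h3.trans ?_
      rw [card_sigma]
      push_cast
      calc ∑ l ∈ range (2 * R), ((Vl R X' rc l).card : ℝ) ≤ ∑ l ∈ range (2 * R), K2 K :=
            sum_le_sum fun l _ => hV l
        _ = 2 * R * K2 K := by
            rw [sum_const, nsmul_eq_mul, card_range]
            push_cast
            ring
    have h3 : ∑ p ∈ X' ×ˢ X', (1 : ℝ) = N ^ 2 := by
      rw [sum_const, nsmul_eq_mul, card_product]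
      push_cast
      rw [hN]
      ring
    rw [h3] at h1
    have h4 : ∑ x ∈ X' ×ˢ X', ∑ y ∈ X' ×ˢ X',
        (if (lv R x, rc x) = (lv R y, rc y) then (1 : ℝ) * 1 else 0) =
        energy (X' ×ˢ X') (lv R) rc (fun _ => 1) := by
      unfold energy
      simp only [Prod.mk.injEq]
    rw [h4] at h1
    have h5 := energy_nonneg (X' ×ˢ X') (lv R) rc (fun _ => 1) (fun _ _ => zero_le_one)
    rw [div_le_iff₀ (by positivity)]
    calc N ^ 4 = (N ^ 2) ^ 2 := by ring
      _ ≤ _ := h1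
      _ ≤ (2 * R * K2 K) * energy (X' ×ˢ X') (lv R) rc (fun _ => 1) :=
          mul_le_mul_of_nonneg_right h2 h5
      _ = _ := by ring
  -- left energy
  have hEL : energy (X' ×ˢ X') (lv R) rc (fun _ => 1) ≤
      7 * energy (X' ×ˢ X') (lv R) lc (fun _ => 1) := by
    have h1 := near_energy (X' ×ˢ X') (lv R) lc 3
    have h2 : ((2 : ℝ) * (3 : ℕ) + 1) = 7 := by norm_num
    rw [h2] at h1
    refine le_trans ?_ h1
    unfold energy
    simp only [sum_product]
    -- (a, a'), (b, b') ↦ (a, b), (a', b')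
    calc ∑ a ∈ X', ∑ a' ∈ X', ∑ b ∈ X', ∑ b' ∈ X',
          (if lv R (a, a') = lv R (b, b') ∧ rc (a, a') = rc (b, b') then (1 : ℝ) * 1 else 0)
        = ∑ a ∈ X', ∑ b ∈ X', ∑ a' ∈ X', ∑ b' ∈ X',
          (if lv R (a, a') = lv R (b, b') ∧ rc (a, a') = rc (b, b') then (1 : ℝ) * 1 else 0) :=
          sum_congr rfl fun a _ => sum_comm
      _ ≤ _ := by
          refine sum_le_sum fun a ha => sum_le_sum fun b hb => sum_le_sum fun a' ha' =>
            sum_le_sum fun b' hb' => ?_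
          have haR := mem_range.1 (hX'R ha)
          have hbR := mem_range.1 (hX'R hb)
          have ha'R := mem_range.1 (hX'R ha')
          have hb'R := mem_range.1 (hX'R hb')
          by_cases h : lv R (a, a') = lv R (b, b') ∧ rc (a, a') = rc (b, b')
          · rw [if_pos h, if_pos, mul_one]
            have h3 := h.1
            unfold lv at h3
            simp only at h3
            refine ⟨?_, ?_⟩
            · unfold lv
              simp only
              omega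
            · exact left_close hR hθ1 hκ0 hbR (by omega) h.2
          · rw [if_neg h]
            split_ifs <;> norm_num
  have hEL2 : N ^ 4 / (14 * R * K2 K) ≤ energy (X' ×ˢ X') (lv R) lc (fun _ => 1) := by
    have h1 : N ^ 4 / (14 * R * K2 K) = (N ^ 4 / (2 * R * K2 K)) / 7 := by
      field_simp
      ring
    rw [h1, div_le_iff₀ (by norm_num)]
    linarith
  -- remove pairs with small difference
  set η : ℝ := 1 / (82944 * K ^ 2 * K2 K) with hη
  have hηpos : 0 < η := by positivity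
  set S1 := (X' ×ˢ X').filter (fun p => |(p.2 : ℝ) - p.1| ≤ η * R) with hS1
  set S2 := (X' ×ˢ X').filter (fun p => ¬ |(p.2 : ℝ) - p.1| ≤ η * R) with hS2
  have hsplit : energy (X' ×ˢ X') (lv R) lc (fun _ => 1) =
      ∑ p ∈ S1, (nn R (X' ×ˢ X') lc p : ℝ) + ∑ p ∈ S2, (nn R (X' ×ˢ X') lc p : ℝ) := by
    rw [energy_eq_nn, hS1, hS2, sum_filter_add_sum_filter_not]
  have hS1sum : ∑ p ∈ S1, (nn R (X' ×ˢ X') lc p : ℝ) ≤ N ^ 4 / (36 * R * K2 K) := by
    have h1 : ∑ p ∈ S1, (nn R (X' ×ˢ X') lc p : ℝ) ≤ (S1.card : ℝ) * N := by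
      calc ∑ p ∈ S1, (nn R (X' ×ˢ X') lc p : ℝ) ≤ ∑ p ∈ S1, N := by
            refine sum_le_sum fun p _ => ?_
            rw [hN]
            exact_mod_cast nn_le hX'R lc p
        _ = (S1.card : ℝ) * N := by rw [sum_const, nsmul_eq_mul]
    have h2 : (S1.card : ℝ) ≤ N * (2 * (η * R) + 1) := card_small_diff (by positivity)
    have h3 : 2 * (η * R) + 1 ≤ N ^ 2 / (36 * R * K2 K) := by
      have h4 : (R : ℝ) ^ 2 / (576 * K ^ 2) ≤ N ^ 2 := by
        have h5 := pow_le_pow_left₀ (by positivity) hNlow 2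
        refine le_trans (le_of_eq ?_) h5
        field_simp
        ring
      have h6 : (R : ℝ) / (20736 * K ^ 2 * K2 K) ≤ N ^ 2 / (36 * R * K2 K) := by
        rw [div_le_div_iff₀ (by positivity) (by positivity)]
        rw [div_le_iff₀ (by positivity)] at h4
        calc (R : ℝ) * (36 * R * K2 K) = 36 * K2 K * R ^ 2 := by ring
          _ ≤ 36 * K2 K * (N ^ 2 * (576 * K ^ 2)) := by
              apply mul_le_mul_of_nonneg_left h4 (by positivity)
          _ = N ^ 2 * (20736 * K ^ 2 * K2 K) := by ring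
      refine le_trans ?_ h6
      have h7 : 2 * (η * R) = (R : ℝ) / (41472 * K ^ 2 * K2 K) := by
        rw [hη]
        field_simp
        ring
      have h8 : 1 ≤ (R : ℝ) / (41472 * K ^ 2 * K2 K) := by
        rw [one_le_div (by positivity)]
        exact hbig
      have h9 : (R : ℝ) / (20736 * K ^ 2 * K2 K) = (R : ℝ) / (41472 * K ^ 2 * K2 K) +
          (R : ℝ) / (41472 * K ^ 2 * K2 K) := by
        field_simp
        ring
      rw [h7, h9]
      linarith
    calc ∑ p ∈ S1, (nn R (X' ×ˢ X') lc p : ℝ) ≤ (S1.card : ℝ) * N := h1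
      _ ≤ (N * (N ^ 2 / (36 * R * K2 K))) * N := by
          apply mul_le_mul_of_nonneg_right _ hNpos.le
          exact h2.trans (mul_le_mul_of_nonneg_left h3 hNpos.le)
      _ = N ^ 4 / (36 * R * K2 K) := by ring
  -- a rich left key
  have hS2sum : N ^ 2 * (N ^ 2 / (36 * R * K2 K)) ≤ ∑ p ∈ S2, (nn R (X' ×ˢ X') lc p : ℝ) := by
    have h1 : N ^ 2 * (N ^ 2 / (36 * R * K2 K)) = N ^ 4 / (36 * R * K2 K) := by ring
    have h2 : 2 * (N ^ 4 / (36 * R * K2 K)) ≤ N ^ 4 / (14 * R * K2 K) := by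
      rw [← mul_div_assoc, div_le_div_iff₀ (by positivity) (by positivity)]
      have : 0 < N ^ 4 * (R * K2 K) := by positivity
      nlinarith
    rw [h1]
    linarith
  obtain ⟨p0, hp0, hp0n⟩ : ∃ p ∈ S2, N ^ 2 / (36 * R * K2 K) ≤ (nn R (X' ×ˢ X') lc p : ℝ) := by
    by_contra hcon
    push Not at hcon
    have hne : S2.Nonempty := by
      rw [nonempty_iff_ne_empty]
      intro h0
      rw [h0, sum_empty] at hS2sum
      have : 0 < N ^ 2 * (N ^ 2 / (36 * R * K2 K)) := by positivity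
      linarith
    have h1 : ∑ p ∈ S2, (nn R (X' ×ˢ X') lc p : ℝ) < ∑ p ∈ S2, N ^ 2 / (36 * R * K2 K) :=
      sum_lt_sum_of_nonempty hne hcon
    rw [sum_const, nsmul_eq_mul] at h1
    have h2 : (S2.card : ℝ) ≤ N ^ 2 := by
      calc (S2.card : ℝ) ≤ ((X' ×ˢ X').card : ℝ) := by exact_mod_cast card_filter_le _ _
        _ = N ^ 2 := by rw [card_product]; push_cast; rw [hN]; ring
    have h3 : (S2.card : ℝ) * (N ^ 2 / (36 * R * K2 K)) ≤ N ^ 2 * (N ^ 2 / (36 * R * K2 K)) :=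
      mul_le_mul_of_nonneg_right h2 (by positivity)
    linarith
  have hM0 : (R : ℝ) / (20736 * K ^ 2 * K2 K) ≤ (nn R (X' ×ˢ X') lc p0 : ℝ) := by
    refine le_trans ?_ hp0n
    have h4 : (R : ℝ) ^ 2 / (576 * K ^ 2) ≤ N ^ 2 := by
      have h5 := pow_le_pow_left₀ (by positivity) hNlow 2
      refine le_trans (le_of_eq ?_) h5
      field_simp
      ring
    rw [div_le_div_iff₀ (by positivity) (by positivity)]
    rw [div_le_iff₀ (by positivity)] at h4
    calc (R : ℝ) * (36 * R * K2 K) = 36 * K2 K * R ^ 2 := by ring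
      _ ≤ 36 * K2 K * (N ^ 2 * (576 * K ^ 2)) := by
          apply mul_le_mul_of_nonneg_left h4 (by positivity)
      _ = N ^ 2 * (20736 * K ^ 2 * K2 K) := by ring
  -- pigeonhole on the right cell
  set Q0 := (X' ×ˢ X').filter (fun q => lv R q = lv R p0 ∧ lc q = lc p0) with hQ0
  have hQ0card : (nn R (X' ×ˢ X') lc p0 : ℝ) = (Q0.card : ℝ) := rfl
  rw [hQ0card] at hM0
  have hQ0V : ∀ q ∈ Q0, rc q ∈ Vl R X' rc (lv R p0) := by
    intro q hq
    rw [hQ0, mem_filter] at hq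
    unfold Vl
    exact mem_image_of_mem _ (mem_filter.2 ⟨hq.1, hq.2.1⟩)
  obtain ⟨v, hv, hvcard⟩ : ∃ v ∈ Vl R X' rc (lv R p0),
      (R : ℝ) / (20736 * K ^ 2 * K2 K ^ 2) ≤ ((Q0.filter (fun q => rc q = v)).card : ℝ) := by
    by_contra hcon
    push Not at hcon
    have hne : (Vl R X' rc (lv R p0)).Nonempty := by
      rw [nonempty_iff_ne_empty]
      intro h0
      have h1 : Q0 = ∅ := by
        rw [eq_empty_iff_forall_notMem]
        intro q hq
        have := hQ0V q hq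
        rw [h0] at this
        exact notMem_empty _ this
      rw [h1, card_empty] at hM0
      have : 0 < (R : ℝ) / (20736 * K ^ 2 * K2 K) := by positivity
      push_cast at hM0
      linarith
    have h1 : ((Q0.card : ℕ) : ℝ) =
        ∑ v ∈ Vl R X' rc (lv R p0), ((Q0.filter (fun q => rc q = v)).card : ℝ) := by
      have := card_eq_sum_card_fiberwise (s := Q0) (t := Vl R X' rc (lv R p0)) (f := rc) hQ0V
      exact_mod_cast this
    have h2 : ∑ v ∈ Vl R X' rc (lv R p0), ((Q0.filter (fun q => rc q = v)).card : ℝ) <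
        ∑ v ∈ Vl R X' rc (lv R p0), (R : ℝ) / (20736 * K ^ 2 * K2 K ^ 2) :=
      sum_lt_sum_of_nonempty hne hcon
    rw [sum_const, nsmul_eq_mul] at h2
    have h3 : ((Vl R X' rc (lv R p0)).card : ℝ) * ((R : ℝ) / (20736 * K ^ 2 * K2 K ^ 2)) ≤
        K2 K * ((R : ℝ) / (20736 * K ^ 2 * K2 K ^ 2)) :=
      mul_le_mul_of_nonneg_right (hV _) (by positivity)
    have h4 : K2 K * ((R : ℝ) / (20736 * K ^ 2 * K2 K ^ 2)) =
        (R : ℝ) / (20736 * K ^ 2 * K2 K) := by
      field_simp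
    linarith
  set Q1 := Q0.filter (fun q => rc q = v) with hQ1
  have hQ1mem : ∀ q ∈ Q1, q.1 ∈ X' ∧ q.2 ∈ X' ∧ lv R q = lv R p0 ∧ lc q = lc p0 ∧ rc q = v := by
    intro q hq
    rw [hQ1, mem_filter, hQ0, mem_filter, mem_product] at hq
    exact ⟨hq.1.1.1, hq.1.1.2, hq.1.2.1, hq.1.2.2, hq.2⟩
  have hp0mem : p0.1 ∈ X' ∧ p0.2 ∈ X' ∧ η * R < |(p0.2 : ℝ) - p0.1| := by
    rw [hS2, mem_filter, mem_product] at hp0
    exact ⟨hp0.1.1, hp0.1.2, not_le.1 hp0.2⟩
  refine ⟨Q1.image (fun q => q.1), ?_, ?_, ?_⟩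
  · intro x hx
    obtain ⟨q, hq, rfl⟩ := mem_image.1 hx
    exact hX'Θ (hQ1mem q hq).1
  · rw [card_image_of_injOn]
    · exact hvcard
    · intro q hq q' hq' h
      have h1 := hQ1mem q (mem_coe.1 hq)
      have h2 := hQ1mem q' (mem_coe.1 hq')
      have h3 := h1.2.2.1.trans h2.2.2.1.symm
      have g1 := mem_range.1 (hX'R h1.1)
      have g2 := mem_range.1 (hX'R h2.1)
      unfold lv at h3
      simp only at h
      ext
      · exact h
      · omega
  · -- affine
    set q0 := tt R θ p0.2 / tt R θ p0.1 with hq0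
    have hq0far : η / 3 ≤ |q0 - 1| :=
      ratio_far hR hθ hθ1 (mem_range.1 (hX'R hp0mem.1)) hp0mem.2.2
    have hq0ne : q0 - 1 ≠ 0 := by
      intro h
      rw [h, abs_zero] at hq0far
      linarith
    have hq0abs : 0 < |q0 - 1| := abs_pos.2 hq0ne
    refine ⟨κ0 * v / (q0 - 1), -(κ0 * lc p0 / (q0 - 1)), ?_⟩
    intro x hx
    obtain ⟨⟨x1, y⟩, hq, hxq⟩ := mem_image.1 hx
    simp only at hxq
    subst hxq
    obtain ⟨m1, m2, m3, m4, m5⟩ := hQ1mem _ hq
    simp only at m1 m2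
    have hxR := mem_range.1 (hX'R m1)
    have hyR := mem_range.1 (hX'R m2)
    have hp1R := mem_range.1 (hX'R hp0mem.1)
    have hp2R := mem_range.1 (hX'R hp0mem.2.1)
    have htx := tt_pos (R := R) (θ := θ) x1
    have htx3 := tt_le_three (R := R) hR hθ1 hxR
    have hratio : tt R θ y / tt R θ x1 = q0 := by
      rw [hq0]
      apply tt_ratio
      unfold lv at m3
      simp only at m3
      omega
    -- the two cells
    have m4' : ⌊(Y y - q0 * Y x1) / κ0⌋ = lc p0 := by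
      rw [← m4, hlc]
      unfold lcell
      simp only
      rw [hratio]
    have m5' : ⌊(Y y - Y x1) / tt R θ x1 / κ0⌋ = v := m5
    set A := (Y y - q0 * Y x1) / κ0 with hA
    set B := (Y y - Y x1) / tt R θ x1 / κ0 with hB
    have a1 : (lc p0 : ℝ) ≤ A := by rw [← m4']; exact Int.floor_le A
    have a2 : A ≤ lc p0 + 1 := by rw [← m4']; exact (Int.lt_floor_add_one A).le
    have b1 : (v : ℝ) ≤ B := by rw [← m5']; exact Int.floor_le B
    have b2 : B ≤ v + 1 := by rw [← m5']; exact (Int.lt_floor_add_one B).le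
    have e1 : Y x1 = κ0 * (tt R θ x1 * B - A) / (q0 - 1) := by
      rw [hA, hB]
      field_simp
      ring
    have e2 : Y x1 - κ0 * v / (q0 - 1) * tt R θ x1 - -(κ0 * lc p0 / (q0 - 1)) =
        κ0 * (tt R θ x1 * (B - v) - (A - lc p0)) / (q0 - 1) := by
      rw [e1]
      field_simp
      ring
    rw [e2, abs_div, abs_mul, abs_of_pos hκ0]
    have e3 : |tt R θ x1 * (B - v) - (A - lc p0)| ≤ 3 := by
      have f1 : 0 ≤ tt R θ x1 * (B - v) := mul_nonneg htx.le (by linarith)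
      have f2 : tt R θ x1 * (B - v) ≤ 3 := by nlinarith
      rw [abs_le]
      constructor <;> linarith
    rw [div_le_iff₀ hq0abs]
    calc κ0 * |tt R θ x1 * (B - v) - (A - lc p0)| ≤ κ0 * 3 :=
          mul_le_mul_of_nonneg_left e3 hκ0.le
      _ = 746496 * K ^ 2 * K2 K * κ0 * (η / 3) := by
          rw [hη]
          field_simp
          norm_num
      _ ≤ 746496 * K ^ 2 * K2 K * κ0 * |q0 - 1| := by
          apply mul_le_mul_of_nonneg_left hq0far (by positivity)

end Pool.Agent.Lib.MP_e5d0a4_an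
end

section

/-!
# The square function for shifts that are affine in the dilation factor
-/

namespace Pool.Agent.Lib.MP_e5d0a4_an

open Finset

variable {R : ℕ} {θ : ℝ} {w Y : ℕ → ℝ} {C0 s : ℝ}

/-- inner sum, crude bound -/
lemma inner_crude (hw : Frost R C0 s w) (hC0 : 0 ≤ C0) (hs0 : 0 ≤ s) (hR : 1 ≤ R)
    (hθ : 0 ≤ θ) {L : Finset ℕ} (hL : L ⊆ range R) {κ1 X c : ℝ} (hκ1 : 1 ≤ κ1) :
    ∑ j' ∈ L, ∑ i' ∈ range R,
      (if |tt R θ j' * ((i' : ℝ) - c) - X| ≤ 3 * κ1 then w i' else 0) ≤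
      R * (C0 * ((7 * κ1) / R) ^ s) := by
  have hRpos : (0 : ℝ) < R := by exact_mod_cast (by omega : 0 < R)
  have h1 : ∀ j' ∈ L, ∑ i' ∈ range R,
      (if |tt R θ j' * ((i' : ℝ) - c) - X| ≤ 3 * κ1 then w i' else 0) ≤
      C0 * ((7 * κ1) / R) ^ s := by
    intro j' _
    rw [← sum_filter]
    have ht := tt_ge_one (R := R) hR hθ j'
    have htp := tt_pos (R := R) (θ := θ) j'
    have h2 := hw.interval hC0 hs0 (ρ := 3 * κ1) (c := c + X / tt R θ j') (by positivity)
      (S := (range R).filter (fun i' : ℕ => |tt R θ j' * ((i' : ℝ) - c) - X| ≤ 3 * κ1)) (by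
        intro i hi
        have h3 := (mem_filter.1 hi).2
        have h4 : tt R θ j' * ((i : ℝ) - c) - X = tt R θ j' * (i - (c + X / tt R θ j')) := by
          field_simp
          ring
        rw [h4, abs_mul, abs_of_pos htp] at h3
        calc |(i : ℝ) - (c + X / tt R θ j')| ≤ tt R θ j' * |(i : ℝ) - (c + X / tt R θ j')| :=
              le_mul_of_one_le_left (abs_nonneg _) ht
          _ ≤ 3 * κ1 := h3)
    refine h2.trans ?_
    apply mul_le_mul_of_nonneg_left _ hC0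
    apply Real.rpow_le_rpow (by positivity) _ hs0
    apply div_le_div_of_nonneg_right _ hRpos.le
    linarith
  calc _ ≤ ∑ j' ∈ L, C0 * ((7 * κ1) / R) ^ s := sum_le_sum h1
    _ = (L.card : ℝ) * (C0 * ((7 * κ1) / R) ^ s) := by rw [sum_const, nsmul_eq_mul]
    _ ≤ R * (C0 * ((7 * κ1) / R) ^ s) := by
        apply mul_le_mul_of_nonneg_right (card_le_R hL)
        positivity

/-- inner sum, far bound -/
lemma inner_far (hw : Frost R C0 s w) (hC0 : 1 ≤ C0) (hs0 : 0 ≤ s) (hs1 : s ≤ 1) (hR : 1 ≤ R)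
    (hθ : 0 ≤ θ) (hθ1 : θ ≤ 1) {L : Finset ℕ} (hL : L ⊆ range R) {κ1 X c ρ : ℝ}
    (hκ1 : 1 ≤ κ1) (hρ : 6 * κ1 ≤ ρ) (hρR : ρ ≤ R) (hX : ρ ≤ |X|) :
    ∑ j' ∈ L, ∑ i' ∈ range R,
      (if |tt R θ j' * ((i' : ℝ) - c) - X| ≤ 3 * κ1 then w i' else 0) ≤
      222 * κ1 * C0 * ((R : ℝ) / ρ) ^ (1 - s) := by
  have hRpos : (0 : ℝ) < R := by exact_mod_cast (by omega : 0 < R)
  have hXpos : 0 < |X| := by linarith
  rw [sum_comm]
  calc ∑ i' ∈ range R, ∑ j' ∈ L,
      (if |tt R θ j' * ((i' : ℝ) - c) - X| ≤ 3 * κ1 then w i' else 0)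
      = ∑ i' ∈ range R,
        ((L.filter (fun j' => |tt R θ j' * ((i' : ℝ) - c) - X| ≤ 3 * κ1)).card : ℝ) * w i' := by
        refine sum_congr rfl fun i' _ => ?_
        rw [← sum_filter, sum_const, nsmul_eq_mul]
    _ ≤ ∑ i' ∈ (range R).filter (fun i' : ℕ => |(i' : ℝ) - c| ≤ 2 * |X|),
        (36 * κ1 * R / |X| + 1) * w i' := by
        rw [sum_filter]
        refine sum_le_sum fun i' _ => ?_
        split_ifs with h
        · apply mul_le_mul_of_nonneg_right _ (hw.nonneg i')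
          have h1 := card_near (θ := θ) hR hθ hθ1 hL (u := (i' : ℝ) - c) (X := X)
            (ρ := 3 * κ1) (by positivity) (by linarith) hXpos
          refine h1.trans (le_of_eq ?_)
          ring
        · have h2 : (L.filter (fun j' => |tt R θ j' * ((i' : ℝ) - c) - X| ≤ 3 * κ1)) = ∅ := by
            rw [filter_eq_empty_iff]
            intro j' _ h3
            apply h
            have ht := tt_ge_one (R := R) hR hθ j'
            have htp := tt_pos (R := R) (θ := θ) j'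
            have h4 : |tt R θ j' * ((i' : ℝ) - c)| ≤ 3 * κ1 + |X| := by
              have h5 : tt R θ j' * ((i' : ℝ) - c) =
                (tt R θ j' * ((i' : ℝ) - c) - X) + X := by ring
              rw [h5]
              exact (abs_add_le _ _).trans (by linarith)
            rw [abs_mul, abs_of_pos htp] at h4
            have h6 : |(i' : ℝ) - c| ≤ tt R θ j' * |(i' : ℝ) - c| :=
              le_mul_of_one_le_left (abs_nonneg _) ht
            linarith
          rw [h2]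
          simp
    _ = (36 * κ1 * R / |X| + 1) *
        ∑ i' ∈ (range R).filter (fun i' : ℕ => |(i' : ℝ) - c| ≤ 2 * |X|), w i' := by
        rw [mul_sum]
    _ ≤ (36 * κ1 + 1) * (3 * 2) * C0 * ((R : ℝ) / ρ) ^ (1 - s) := by
        apply mass_bound hw hC0 hs0 hs1 hR (by positivity) (by linarith) hX hρR (by norm_num)
          (filter_subset _ _) (c := c)
        intro i hi
        exact (mem_filter.1 hi).2
    _ ≤ 222 * κ1 * C0 * ((R : ℝ) / ρ) ^ (1 - s) := by
        have h1 : 0 ≤ C0 * ((R : ℝ) / ρ) ^ (1 - s) := by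
          have : 0 < ρ := by linarith
          positivity
        nlinarith

/-- **Step 4.** -/
theorem step_four (hw : Frost R C0 s w) (hC0 : 1 ≤ C0) (hs0 : 0 ≤ s) (hs1 : s ≤ 1)
    (hR : 1 ≤ R) (hθ : 0 ≤ θ) (hθ1 : θ ≤ 1) {L : Finset ℕ} (hL : L ⊆ range R) {κ1 c b : ℝ}
    (hκ1 : 1 ≤ κ1) (hY : ∀ x ∈ L, |Y x - c * tt R θ x - b| ≤ κ1) :
    QQ R w (tt R θ) Y L ≤ 243 * C0 ^ 2 * κ1 * (R : ℝ) ^ (2 - s - s * (1 - s) / 2) := by
  have hR1 : (1 : ℝ) ≤ R := by exact_mod_cast hR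
  have hRpos : (0 : ℝ) < R := by linarith
  set ρ : ℝ := (R : ℝ) ^ ((1 + s) / 2) with hρdef
  have hρ1 : 1 ≤ ρ := Real.one_le_rpow hR1 (by linarith)
  have hρpos : 0 < ρ := by linarith
  have hρR : ρ ≤ R := by
    calc ρ ≤ (R : ℝ) ^ (1 : ℝ) := Real.rpow_le_rpow_of_exponent_le hR1 (by linarith)
      _ = R := Real.rpow_one _
  have hexp : 0 < (R : ℝ) ^ (2 - s - s * (1 - s) / 2) := by positivity
  rcases le_or_gt (6 * κ1) ρ with hρκ | hρκ
  · rw [QQ_eq L hL]
    -- pointwise comparison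
    have hpt : ∀ j ∈ L, ∀ i j' i' : ℕ, j' ∈ L → hh (tt R θ) Y j' i' = hh (tt R θ) Y j i →
        |tt R θ j' * ((i' : ℝ) - c) - tt R θ j * ((i : ℝ) - c)| ≤ 3 * κ1 := by
      intro j hj i j' i' hj' h
      have h1 := (hh_close h).le
      have h2 := hY j hj
      have h3 := hY j' hj'
      have h4 : tt R θ j' * ((i' : ℝ) - c) - tt R θ j * ((i : ℝ) - c) =
          (Y j' - c * tt R θ j' - b) + (-(Y j - c * tt R θ j - b)) +
          (-((Y j' - tt R θ j' * i') - (Y j - tt R θ j * i))) := by ring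
      rw [h4]
      calc _ ≤ |(Y j' - c * tt R θ j' - b) + (-(Y j - c * tt R θ j - b))| +
            |(-((Y j' - tt R θ j' * i') - (Y j - tt R θ j * i)))| := abs_add_le _ _
        _ ≤ (|(Y j' - c * tt R θ j' - b)| + |(-(Y j - c * tt R θ j - b))|) +
            |(-((Y j' - tt R θ j' * i') - (Y j - tt R θ j * i)))| := by
            gcongr
            exact abs_add_le _ _
        _ ≤ (κ1 + κ1) + 1 := by
            rw [abs_neg, abs_neg]
            gcongr
        _ ≤ 3 * κ1 := by linarith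
    set Inn : ℝ → ℝ := fun X => ∑ j' ∈ L, ∑ i' ∈ range R,
      (if |tt R θ j' * ((i' : ℝ) - c) - X| ≤ 3 * κ1 then w i' else 0) with hInn
    have hInn0 : ∀ X, 0 ≤ Inn X := by
      intro X
      refine sum_nonneg fun j' _ => sum_nonneg fun i' _ => ?_
      split_ifs
      · exact hw.nonneg i'
      · exact le_rfl
    have h1 : ∑ j ∈ L, ∑ i ∈ range R, ∑ j' ∈ L, ∑ i' ∈ range R,
        (if hh (tt R θ) Y j' i' = hh (tt R θ) Y j i then w i * w i' else 0) ≤
        ∑ j ∈ L, ∑ i ∈ range R, w i * Inn (tt R θ j * ((i : ℝ) - c)) := by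
      refine sum_le_sum fun j hj => sum_le_sum fun i _ => ?_
      rw [hInn]
      simp only
      rw [mul_sum]
      refine sum_le_sum fun j' hj' => ?_
      rw [mul_sum]
      refine sum_le_sum fun i' _ => ?_
      by_cases h : hh (tt R θ) Y j' i' = hh (tt R θ) Y j i
      · rw [if_pos h, if_pos (hpt j hj i j' i' hj' h)]
      · rw [if_neg h]
        apply mul_nonneg (hw.nonneg i)
        split_ifs
        · exact hw.nonneg i'
        · exact le_rfl
    refine h1.trans ?_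
    set A : ℝ := R * (C0 * ((7 * κ1) / R) ^ s) with hA
    set B : ℝ := 222 * κ1 * C0 * ((R : ℝ) / ρ) ^ (1 - s) with hB
    have hA0 : 0 ≤ A := by positivity
    have hB0 : 0 ≤ B := by positivity
    have h2 : ∀ j ∈ L, ∑ i ∈ range R, w i * Inn (tt R θ j * ((i : ℝ) - c)) ≤
        C0 * ((3 * ρ) / R) ^ s * A + B := by
      intro j hj
      have htp := tt_pos (R := R) (θ := θ) j
      have ht := tt_ge_one (R := R) hR hθ j
      calc ∑ i ∈ range R, w i * Inn (tt R θ j * ((i : ℝ) - c))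
          ≤ ∑ i ∈ range R, ((if |(i : ℝ) - c| ≤ ρ then w i else 0) * A + w i * B) := by
            refine sum_le_sum fun i _ => ?_
            by_cases h : |(i : ℝ) - c| ≤ ρ
            · rw [if_pos h]
              have h3 : Inn (tt R θ j * ((i : ℝ) - c)) ≤ A :=
                inner_crude hw (by linarith) hs0 hR hθ hL hκ1
              have h4 := mul_le_mul_of_nonneg_left h3 (hw.nonneg i)
              have h5 := mul_nonneg (hw.nonneg i) hB0
              linarith
            · rw [if_neg h, zero_mul, zero_add]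
              apply mul_le_mul_of_nonneg_left _ (hw.nonneg i)
              apply inner_far hw hC0 hs0 hs1 hR hθ hθ1 hL hκ1 hρκ hρR
              rw [abs_mul, abs_of_pos htp]
              rw [not_le] at h
              calc ρ ≤ |(i : ℝ) - c| := h.le
                _ ≤ tt R θ j * |(i : ℝ) - c| := le_mul_of_one_le_left (abs_nonneg _) ht
        _ = (∑ i ∈ (range R).filter (fun i : ℕ => |(i : ℝ) - c| ≤ ρ), w i) * A +
            (∑ i ∈ range R, w i) * B := by
            rw [sum_add_distrib, ← sum_mul, ← sum_mul, sum_filter]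
        _ ≤ (C0 * ((3 * ρ) / R) ^ s) * A + 1 * B := by
            apply add_le_add
            · apply mul_le_mul_of_nonneg_right _ hA0
              have h3 := hw.interval (by linarith) hs0 (ρ := ρ) (c := c) hρpos.le
                (S := (range R).filter (fun i : ℕ => |(i : ℝ) - c| ≤ ρ))
                (fun i hi => (mem_filter.1 hi).2)
              refine h3.trans ?_
              apply mul_le_mul_of_nonneg_left _ (by linarith)
              apply Real.rpow_le_rpow (by positivity) _ hs0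
              apply div_le_div_of_nonneg_right _ hRpos.le
              linarith
            · exact mul_le_mul_of_nonneg_right hw.sum_le hB0
        _ = _ := by ring
    calc ∑ j ∈ L, ∑ i ∈ range R, w i * Inn (tt R θ j * ((i : ℝ) - c))
        ≤ ∑ j ∈ L, (C0 * ((3 * ρ) / R) ^ s * A + B) := sum_le_sum h2
      _ = (L.card : ℝ) * (C0 * ((3 * ρ) / R) ^ s * A + B) := by rw [sum_const, nsmul_eq_mul]
      _ ≤ R * (C0 * ((3 * ρ) / R) ^ s * A + B) := by
          apply mul_le_mul_of_nonneg_right (card_le_R hL)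
          positivity
      _ = C0 ^ 2 * (R ^ 2 * (((3 * ρ) / R) ^ s * ((7 * κ1) / R) ^ s)) +
          222 * κ1 * C0 * (R * ((R : ℝ) / ρ) ^ (1 - s)) := by
          rw [hA, hB]
          ring
      _ ≤ C0 ^ 2 * (21 * κ1 * (R : ℝ) ^ (2 - s - s * (1 - s) / 2)) +
          222 * κ1 * C0 * (R : ℝ) ^ (2 - s - s * (1 - s) / 2) := by
          apply add_le_add
          · apply mul_le_mul_of_nonneg_left _ (by positivity)
            have h3 : ((3 * ρ) / R) ^ s * ((7 * κ1) / R) ^ s = (21 * κ1) ^ s * (ρ / R ^ 2) ^ s := by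
              rw [← Real.mul_rpow (by positivity) (by positivity),
                ← Real.mul_rpow (by positivity) (by positivity)]
              congr 1
              field_simp
              ring
            have h4 : (21 * κ1) ^ s ≤ 21 * κ1 := by
              calc (21 * κ1) ^ s ≤ (21 * κ1) ^ (1 : ℝ) :=
                    Real.rpow_le_rpow_of_exponent_le (by linarith) hs1
                _ = 21 * κ1 := Real.rpow_one _
            have h5 : (R : ℝ) ^ 2 * (ρ / R ^ 2) ^ s = (R : ℝ) ^ (2 - s - s * (1 - s) / 2) := by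
              have e1 : (R : ℝ) ^ 2 = (R : ℝ) ^ (2 : ℝ) := by
                rw [← Real.rpow_natCast]
                norm_num
              have e2 : (ρ / R ^ 2) ^ s = (R : ℝ) ^ (((1 + s) / 2 - 2) * s) := by
                rw [hρdef, e1, ← Real.rpow_sub hRpos, ← Real.rpow_mul hRpos.le]
              rw [e2, e1, ← Real.rpow_add hRpos]
              congr 1
              ring
            rw [h3]
            calc (R : ℝ) ^ 2 * ((21 * κ1) ^ s * (ρ / R ^ 2) ^ s) =
                  (21 * κ1) ^ s * ((R : ℝ) ^ 2 * (ρ / R ^ 2) ^ s) := by ring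
              _ ≤ 21 * κ1 * ((R : ℝ) ^ 2 * (ρ / R ^ 2) ^ s) :=
                  mul_le_mul_of_nonneg_right h4 (by positivity)
              _ = _ := by rw [h5]
          · apply mul_le_mul_of_nonneg_left _ (by positivity)
            have e1 : (R : ℝ) * ((R : ℝ) / ρ) ^ (1 - s) =
                (R : ℝ) ^ (1 + (1 - (1 + s) / 2) * (1 - s)) := by
              rw [hρdef, Real.rpow_add hRpos, Real.rpow_one]
              congr 1
              have e2 : (R : ℝ) / (R : ℝ) ^ ((1 + s) / 2) = (R : ℝ) ^ (1 - (1 + s) / 2) := by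
                rw [Real.rpow_sub hRpos, Real.rpow_one]
              rw [e2, ← Real.rpow_mul hRpos.le]
            rw [e1]
            apply Real.rpow_le_rpow_of_exponent_le hR1
            nlinarith
      _ ≤ _ := by
          have h3 : C0 ≤ C0 ^ 2 := by nlinarith
          have h4 : 0 ≤ κ1 * (R : ℝ) ^ (2 - s - s * (1 - s) / 2) := by positivity
          nlinarith [mul_le_mul_of_nonneg_right h3 h4]
  · have h1 := QQ_le_trivial (Y := Y) (t := tt R θ) hw hL (fun j _ => tt_ge_one hR hθ j)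
    refine h1.trans ?_
    have e1 : (R : ℝ) ^ 2 * (C0 * (1 / (R : ℝ)) ^ s) = C0 * (R : ℝ) ^ (2 - s) := by
      have e2 : (R : ℝ) ^ 2 = (R : ℝ) ^ (2 : ℝ) := by
        rw [← Real.rpow_natCast]
        norm_num
      rw [Real.rpow_sub hRpos, one_div, Real.inv_rpow hRpos.le, e2]
      ring
    rw [e1]
    have e3 : (R : ℝ) ^ (2 - s) ≤ ρ * (R : ℝ) ^ (2 - s - s * (1 - s) / 2) := by
      rw [hρdef, ← Real.rpow_add hRpos]
      apply Real.rpow_le_rpow_of_exponent_le hR1
      nlinarith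
    have e4 : ρ * (R : ℝ) ^ (2 - s - s * (1 - s) / 2) ≤
        6 * κ1 * (R : ℝ) ^ (2 - s - s * (1 - s) / 2) :=
      mul_le_mul_of_nonneg_right hρκ.le hexp.le
    calc C0 * (R : ℝ) ^ (2 - s) ≤ C0 * (6 * κ1 * (R : ℝ) ^ (2 - s - s * (1 - s) / 2)) :=
          mul_le_mul_of_nonneg_left (e3.trans e4) (by linarith)
      _ ≤ _ := by
          have h3 : C0 ≤ C0 ^ 2 := by nlinarith
          have h4 : 0 ≤ κ1 * (R : ℝ) ^ (2 - s - s * (1 - s) / 2) := by positivity
          nlinarith [mul_le_mul_of_nonneg_right h3 h4, mul_nonneg (by linarith : 0 ≤ C0) h4]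

end Pool.Agent.Lib.MP_e5d0a4_an
end
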